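import Pool.Agent.Helper28.SP.St
import Pool.Agent.Helper56.SW.Final

/-! # MP_e188f1_nt, spectral range: module MP -/

set_option autoImplicit false

namespace Pool.Agent.Helper28.SP.MP

open Finset Matrix
open Pool.Agent.Helper28.SP
open Pool.Agent.Helper56.SW (τ Γ J I bx E Rel N N0 Nq fn_fin fn_div stSqrt)

theorem terms (A B e c K : ℝ) (k : ℕ) (hA : 1 ≤ A) (hAB : A ≤ B) (he : 1 ≤ e) (hec : e ≤ c)
    (hK : 1 ≤ K) (hBK : B ≤ K * c) (hk : 3 ≤ k) :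
    e ^ 2 / ((min (2 * A) e) ^ k * min (2 * B) e) +
      e ^ 2 / (min (2 * A) e * (min (2 * B) e) ^ 3) + e / (min (2 * B) e) ^ 2 ≤
    3 * (1 / e + K ^ (k + 3) * (c ^ 2 / (A ^ k * B) + c / B ^ 2 + c ^ 2 / (A * B ^ 3))) := by
  have hB : 1 ≤ B := hA.trans hAB
  have hc : 1 ≤ c := he.trans hec
  have hKk : 1 ≤ K ^ (k + 3) := one_le_pow₀ hK
  have hT1 : 0 ≤ c ^ 2 / (A ^ k * B) := by positivity
  have hT2 : 0 ≤ c / B ^ 2 := by positivity
  have hT3 : 0 ≤ c ^ 2 / (A * B ^ 3) := by positivity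
  have hT : ∀ x : ℝ, 0 ≤ x → x ≤ K ^ (k + 3) * x := fun x hx => le_mul_of_one_le_left hx hKk
  have h1 := hT _ hT1
  have h2 := hT _ hT2
  have h3 := hT _ hT3
  have he0 : 0 < 1 / e := by positivity
  rw [mul_add (K ^ (k + 3)), mul_add (K ^ (k + 3))]
  rcases le_or_gt e (2 * A) with h | h
  · rw [min_eq_right h, min_eq_right (h.trans (by linarith))]
    have t1 : e ^ 2 / (e ^ k * e) ≤ 1 / e := by
      rw [div_le_div_iff₀ (by positivity) (by positivity)]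
      have : e ^ 2 ≤ e ^ k := pow_le_pow_right₀ he (by omega)
      nlinarith
    have t2 : e ^ 2 / (e * e ^ 3) ≤ 1 / e := by
      rw [div_le_div_iff₀ (by positivity) (by positivity)]
      have : e ^ 3 ≤ e ^ 4 := pow_le_pow_right₀ he (by omega)
      nlinarith
    have t3 : e / e ^ 2 = 1 / e := by field_simp
    linarith
  · rw [min_eq_left h.le]
    have t1A : A ^ k ≤ (2 * A) ^ k := by gcongr; linarith
    rcases le_or_gt e (2 * B) with h' | h'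
    · rw [min_eq_right h']
      have t1 : e ^ 2 / ((2 * A) ^ k * e) ≤ K ^ (k + 3) * (c ^ 2 / (A ^ k * B)) := by
        calc e ^ 2 / ((2 * A) ^ k * e) = e / (2 * A) ^ k := by field_simp
          _ ≤ c / A ^ k := by gcongr
          _ ≤ K ^ (k + 3) * (c ^ 2 / (A ^ k * B)) := by
            rw [← mul_div_assoc, div_le_div_iff₀ (by positivity) (by positivity)]
            have h5 : K ≤ K ^ (k + 3) := le_self_pow₀ hK (by omega)
            calc c * (A ^ k * B) = A ^ k * c * B := by ring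
              _ ≤ A ^ k * c * (K * c) := by gcongr
              _ ≤ A ^ k * c * (K ^ (k + 3) * c) := by gcongr
              _ = K ^ (k + 3) * c ^ 2 * A ^ k := by ring
      have t2 : e ^ 2 / (2 * A * e ^ 3) ≤ 1 / e := by
        rw [div_le_div_iff₀ (by positivity) (by positivity)]
        have h6 : (1 : ℝ) ≤ 2 * A := by linarith
        calc e ^ 2 * e = 1 * e ^ 3 := by ring
          _ ≤ (2 * A) * e ^ 3 := by gcongr
          _ = 1 * (2 * A * e ^ 3) := by ring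
      have t3 : e / e ^ 2 = 1 / e := by field_simp
      linarith
    · rw [min_eq_left h'.le]
      have t1 : e ^ 2 / ((2 * A) ^ k * (2 * B)) ≤ c ^ 2 / (A ^ k * B) := by
        have : A ^ k * B ≤ (2 * A) ^ k * (2 * B) := by gcongr; linarith
        gcongr
      have t2 : e ^ 2 / (2 * A * (2 * B) ^ 3) ≤ c ^ 2 / (A * B ^ 3) := by
        have : A * B ^ 3 ≤ 2 * A * (2 * B) ^ 3 := by
          gcongr
          · linarith
          · linarith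
        gcongr
      have t3 : e / (2 * B) ^ 2 ≤ c / B ^ 2 := by
        gcongr
        linarith
      linarith

theorem lev (h4 : StWPN) (h5 : StFOLD) (k : ℕ) (C0 ε' : ℝ) (hk : 3 ≤ k) (hC0 : 0 < C0)
    (hε : 0 < ε')
    (hfin : ∀ (c : ℕ) (a b : ℤ) (A B : ℕ), 1 ≤ c → IsCoprime a c → IsCoprime b c → 1 ≤ A →
      A ≤ B → (B : ℝ) ≤ 1 * c →
      (N c a b k A B : ℝ) ≤ C0 * (c : ℝ) ^ ε' *
        ((B : ℝ) ^ (k - 1) + (A : ℝ) ^ (k - 1) * (B : ℝ) ^ (k - 3) +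
          (A : ℝ) ^ k * (B : ℝ) ^ (k - 2) / c)) (K : ℝ) (hK : 1 ≤ K) (c e : ℕ) (a b : ℤ)
    (A B : ℕ) (hc : 1 ≤ c) (ha : IsCoprime a c) (hb : IsCoprime b c) (hA : 1 ≤ A) (hAB : A ≤ B)
    (hBK : (B : ℝ) ≤ K * c) (hec : e ∣ c) :
    (W (sP A B) (wP a b) e k 1 : ℝ) * (e : ℝ) ^ 2 ≤
      (3 * 9 ^ k * C0 * (c : ℝ) ^ ε') * (((2 * (A : ℝ) + 1) * (2 * B + 1)) ^ 2) ^ k *
        (1 / e + K ^ (k + 3) * ((c : ℝ) ^ 2 / ((A : ℝ) ^ k * B) + c / (B : ℝ) ^ 2 +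
          (c : ℝ) ^ 2 / ((A : ℝ) * (B : ℝ) ^ 3))) := by
  have he : 1 ≤ e := Nat.pos_of_dvd_of_pos hec hc
  have hle : e ≤ c := Nat.le_of_dvd hc hec
  have hdz : (e : ℤ) ∣ (c : ℤ) := by exact_mod_cast hec
  have ha' : IsCoprime a (e : ℤ) := ha.of_isCoprime_of_dvd_right hdz
  have hb' : IsCoprime b (e : ℤ) := hb.of_isCoprime_of_dvd_right hdz
  have hw := h4 e a b k A B he (by omega)
  have hf := h5 e a b k (2 * A) (2 * B) he (by omega) (by omega)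
  have hn := hfin e a b (min (2 * A) e) (min (2 * B) e) he ha' hb' (by omega) (by omega)
    (by rw [one_mul]; exact_mod_cast min_le_right _ _)
  have ht := terms (A : ℝ) B e c K k (by exact_mod_cast hA) (by exact_mod_cast hAB)
    (by exact_mod_cast he) (by exact_mod_cast hle) hK hBK hk
  push_cast at hf hn
  set x : ℝ := min (2 * (A : ℝ)) e with hx
  set y : ℝ := min (2 * (B : ℝ)) e with hy
  set N1 : ℝ := (N e a b k (2 * A) (2 * B) : ℝ) with hN1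
  set N2 : ℝ := (N e a b k (min (2 * A) e) (min (2 * B) e) : ℝ) with hN2
  set W1 : ℝ := (W (sP A B) (wP a b) e k 1 : ℝ) with hW1
  set T : ℝ := 1 / (e : ℝ) + K ^ (k + 3) * ((c : ℝ) ^ 2 / ((A : ℝ) ^ k * B) + c / (B : ℝ) ^ 2 +
          (c : ℝ) ^ 2 / ((A : ℝ) * (B : ℝ) ^ 3)) with hT
  have hA0 : (1 : ℝ) ≤ A := by exact_mod_cast hA
  have hB0 : (1 : ℝ) ≤ B := hA0.trans (by exact_mod_cast hAB)
  have he0 : (1 : ℝ) ≤ e := by exact_mod_cast he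
  have hx0 : 0 < x := by rw [hx]; exact lt_min (by linarith) (by linarith)
  have hy0 : 0 < y := by rw [hy]; exact lt_min (by linarith) (by linarith)
  have hT0 : 0 ≤ T := by rw [hT]; positivity
  set P : ℝ := (2 * (A : ℝ) + 1) * (2 * B + 1) with hP
  have hP0 : 0 < P := by rw [hP]; positivity
  clear_value x y N1 N2 W1 T P
  set S : ℝ := 1 / (x ^ k * y) + 1 / (x * y ^ 3) + 1 / (e * y ^ 2) with hS
  have hS0 : 0 ≤ S := by rw [hS]; positivity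
  have hSe : S * (e : ℝ) ^ 2 ≤ 3 * T := by
    refine le_trans (le_of_eq ?_) ht
    rw [hS]
    field_simp
  have hn' : N2 ≤ C0 * (e : ℝ) ^ ε' * (x ^ k * y ^ k * S) := by
    refine hn.trans (le_of_eq ?_)
    congr 1
    rw [hS]
    obtain ⟨m, rfl⟩ : ∃ m, k = m + 3 := ⟨k - 3, by omega⟩
    rw [show m + 3 - 1 = m + 2 by omega, show m + 3 - 3 = m by omega,
      show m + 3 - 2 = m + 1 by omega]
    field_simp
    ring
  have hce : (e : ℝ) ^ ε' ≤ (c : ℝ) ^ ε' := by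
    apply Real.rpow_le_rpow (by positivity) (by exact_mod_cast hle) hε.le
  have h36 : 36 * ((A : ℝ) * B) ≤ 9 * P := by
    rw [hP]
    nlinarith
  calc W1 * (e : ℝ) ^ 2 ≤ (P ^ k * N1) * (e : ℝ) ^ 2 := by gcongr
    _ ≤ (P ^ k * ((3 * (2 * (A : ℝ)) / x) ^ k * (3 * (2 * (B : ℝ)) / y) ^ k * N2)) *
          (e : ℝ) ^ 2 := by gcongr
    _ ≤ (P ^ k * ((3 * (2 * (A : ℝ)) / x) ^ k * (3 * (2 * (B : ℝ)) / y) ^ k *
          (C0 * (e : ℝ) ^ ε' * (x ^ k * y ^ k * S)))) * (e : ℝ) ^ 2 := by gcongr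
    _ = P ^ k * (36 * ((A : ℝ) * B)) ^ k * C0 * (e : ℝ) ^ ε' * (S * (e : ℝ) ^ 2) := by
      rw [div_pow, div_pow, show (36 * ((A : ℝ) * B)) = (3 * (2 * (A : ℝ))) * (3 * (2 * B)) by ring,
        mul_pow (3 * (2 * (A : ℝ))) (3 * (2 * B))]
      have e1 : x ^ k ≠ 0 := by positivity
      have e2 : y ^ k ≠ 0 := by positivity
      field_simp
    _ ≤ P ^ k * (9 * P) ^ k * C0 * (c : ℝ) ^ ε' * (3 * T) := by gcongr
    _ = (3 * 9 ^ k * C0 * (c : ℝ) ^ ε') * (P ^ 2) ^ k * T := by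
      rw [mul_pow, ← pow_mul]
      ring

theorem scal (h6 : StSURJ) (c : ℕ) (hc : 1 ≤ c) : ∃ sc : ℕ → SZ,
    ∀ x ∈ Γ c, ((red c (sc x) : SG c) : Matrix (Fin 2) (Fin 2) (ZMod c)) =
      ((x : ℕ) : ZMod c) • 1 := by
  have h : ∀ x : ℕ, ∃ g : SZ, x ∈ Γ c →
      ((red c g : SG c) : Matrix (Fin 2) (Fin 2) (ZMod c)) = ((x : ℕ) : ZMod c) • 1 := by
    intro x
    by_cases hx : x ∈ Γ c
    · have h1 : ((x : ℕ) : ZMod c) ^ 2 = 1 := by
        have h2 : (c : ℤ) ∣ (x : ℤ) ^ 2 - 1 := (mem_filter.1 hx).2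
        have h3 : (((x : ℤ) ^ 2 - 1 : ℤ) : ZMod c) = 0 := (ZMod.intCast_zmod_eq_zero_iff_dvd _ _).2 h2
        push_cast at h3
        exact sub_eq_zero.1 h3
      have hd : (((x : ℕ) : ZMod c) • (1 : Matrix (Fin 2) (Fin 2) (ZMod c))).det = 1 := by
        rw [Matrix.det_smul, Matrix.det_one, mul_one, Fintype.card_fin, h1]
      obtain ⟨g, hg⟩ := h6 c hc ⟨_, hd⟩
      exact ⟨g, fun _ => by rw [hg]⟩
    · exact ⟨1, fun h => absurd h hx⟩
  choose sc hsc using h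
  exact ⟨sc, hsc⟩

theorem thm (h1 : StLEVEL) (h2 : StSYM) (h3 : StNPW) (h4 : StWPN) (h5 : StFOLD) (h6 : StSURJ) :
    StMP := by
  intro k j K ε hk hkj hK hε
  have hk0 : (0 : ℝ) < k := by exact_mod_cast (by omega : 0 < k)
  have hj0 : (0 : ℝ) < j := by exact_mod_cast (by omega : 0 < j)
  obtain ⟨C0, hC0, hfin⟩ := fn_fin k 1 (ε * k / (2 * j)) hk le_rfl (by positivity)
  obtain ⟨D, hD, hdiv⟩ := fn_div (ε / (2 * (2 * j + 3))) (by positivity)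
  have hD0 : 0 < D := by linarith
  refine ⟨36 ^ j * (2 * 4 ^ (j + 1) * D ^ (2 * j + 3)) * (3 * 9 ^ k * C0) ^ ((j : ℝ) / k) *
    (K ^ (k + 3)) ^ ((j : ℝ) / k), by positivity, ?_⟩
  intro c a b A B hc ha hb hA hAB hBK
  have hA0 : (1 : ℝ) ≤ A := by exact_mod_cast hA
  have hB0 : (1 : ℝ) ≤ B := hA0.trans (by exact_mod_cast hAB)
  have hc0 : (1 : ℝ) ≤ c := by exact_mod_cast hc
  obtain ⟨sc, hsc⟩ := scal h6 c hc
  obtain ⟨-, hsym, hpos⟩ := h2 a b A B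
  set T : ℝ := (c : ℝ) ^ 2 / ((A : ℝ) ^ k * B) + c / (B : ℝ) ^ 2 +
          (c : ℝ) ^ 2 / ((A : ℝ) * (B : ℝ) ^ 3) with hT
  have hT0 : 0 ≤ T := by rw [hT]; positivity
  set P : ℝ := (2 * (A : ℝ) + 1) * (2 * B + 1) with hP
  have hP0 : 0 < P := by rw [hP]; positivity
  have hlev := h1 k j _ (sP A B) (wP a b) hsym (by omega) hkj (Or.inr hpos) c (P ^ 2)
    (3 * 9 ^ k * C0 * (c : ℝ) ^ (ε * k / (2 * j))) (K ^ (k + 3) * T) hc (by positivity)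
    (by positivity) (by positivity) (by
      intro e he
      exact lev h4 h5 k C0 _ hk hC0 (by positivity) hfin K hK c e a b A B hc ha hb hA hAB hBK
        (Nat.dvd_of_mem_divisors he))
  have hnp := h3 c a b j A B sc hc (by omega) hsc
  have htau : τ c ≤ D * (c : ℝ) ^ (ε / (2 * (2 * (j : ℝ) + 3))) := hdiv c hc
  have htau0 : 0 ≤ τ c := by unfold τ; positivity
  have hG : ((Γ c).card : ℝ) ≤ 2 * τ c := stSqrt c hc
  set X : ℝ := (4 * τ c ^ 2) ^ (j + 1) *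
    (3 * 9 ^ k * C0 * (c : ℝ) ^ (ε * k / (2 * j))) ^ ((j : ℝ) / k) * (P ^ 2) ^ j / (c : ℝ) ^ 3 *
        (1 + c * (K ^ (k + 3) * T) ^ ((j : ℝ) / k)) with hX
  have hX0 : 0 ≤ X := by rw [hX]; positivity
  have hsum : ∑ x ∈ Γ c, (W (sP A B) (wP a b) c j (sc x) : ℝ) ≤ 2 * τ c * X := by
    calc ∑ x ∈ Γ c, (W (sP A B) (wP a b) c j (sc x) : ℝ) ≤ ∑ x ∈ Γ c, X :=
          sum_le_sum fun x _ => hlev (sc x)
      _ = (Γ c).card * X := by rw [sum_const, nsmul_eq_mul]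
      _ ≤ 2 * τ c * X := by gcongr
  have hNN := hnp.trans hsum
  set N1 : ℝ := (N c a b j A B : ℝ) with hN1
  set Q : ℝ := ((A : ℝ) + 1) * ((B : ℝ) + 1) with hQ
  have hQ0 : 0 < Q := by rw [hQ]; positivity
  have hPQ : P ^ 2 ≤ 36 * ((A : ℝ) * B) * Q := by
    have e1 : (2 * (A : ℝ) + 1) ^ 2 ≤ 6 * A * (A + 1) := by nlinarith
    have e2 : (2 * (B : ℝ) + 1) ^ 2 ≤ 6 * B * (B + 1) := by nlinarith
    calc P ^ 2 = (2 * (A : ℝ) + 1) ^ 2 * (2 * (B : ℝ) + 1) ^ 2 := by rw [hP]; ring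
      _ ≤ (6 * (A : ℝ) * (A + 1)) * (6 * (B : ℝ) * (B + 1)) := by gcongr
      _ = 36 * ((A : ℝ) * B) * Q := by rw [hQ]; ring
  have hcp : ((c : ℝ) ^ (ε * k / (2 * j))) ^ ((j : ℝ) / k) = (c : ℝ) ^ (ε / 2) := by
    rw [← Real.rpow_mul (by positivity)]
    congr 1
    field_simp
  have hcp2 : ((c : ℝ) ^ (ε / (2 * (2 * (j : ℝ) + 3)))) ^ (2 * j + 3) = (c : ℝ) ^ (ε / 2) := by
    rw [← Real.rpow_natCast, ← Real.rpow_mul (by positivity)]
    congr 1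
    push_cast
    field_simp
  have hcp3 : (c : ℝ) ^ (ε / 2) * (c : ℝ) ^ (ε / 2) = (c : ℝ) ^ ε := by
    rw [← Real.rpow_add (by positivity)]
    congr 1
    ring
  have hK3 : 1 ≤ (K ^ (k + 3)) ^ ((j : ℝ) / k) :=
    Real.one_le_rpow (one_le_pow₀ hK) (by positivity)
  have hlast : 1 + c * (K ^ (k + 3) * T) ^ ((j : ℝ) / k) ≤
      (K ^ (k + 3)) ^ ((j : ℝ) / k) * (1 + c * T ^ ((j : ℝ) / k)) := by
    rw [Real.mul_rpow (by positivity) hT0]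
    nlinarith
  have key : 2 * τ c * X ≤ (36 ^ j * (2 * 4 ^ (j + 1) * D ^ (2 * j + 3)) *
      (3 * 9 ^ k * C0) ^ ((j : ℝ) / k) * (K ^ (k + 3)) ^ ((j : ℝ) / k)) * (c : ℝ) ^ ε *
        (((A : ℝ) * B) ^ j / (c : ℝ) ^ 3 * (1 + c * T ^ ((j : ℝ) / k))) * Q ^ j := by
    calc 2 * τ c * X = 2 * 4 ^ (j + 1) * τ c ^ (2 * j + 3) *
          ((3 * 9 ^ k * C0) ^ ((j : ℝ) / k) * (c : ℝ) ^ (ε / 2)) * (P ^ 2) ^ j / (c : ℝ) ^ 3 *
        (1 + c * (K ^ (k + 3) * T) ^ ((j : ℝ) / k)) := by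
          rw [hX, Real.mul_rpow (x := 3 * 9 ^ k * C0) (by positivity) (by positivity), hcp, mul_pow 4]
          ring
      _ ≤ 2 * 4 ^ (j + 1) * (D * (c : ℝ) ^ (ε / (2 * (2 * (j : ℝ) + 3)))) ^ (2 * j + 3) *
          ((3 * 9 ^ k * C0) ^ ((j : ℝ) / k) * (c : ℝ) ^ (ε / 2)) *
          (36 * ((A : ℝ) * B) * Q) ^ j / (c : ℝ) ^ 3 *
        ((K ^ (k + 3)) ^ ((j : ℝ) / k) * (1 + c * T ^ ((j : ℝ) / k))) := by gcongr
      _ = _ := by
          rw [mul_pow D, hcp2, mul_pow _ Q, mul_pow (36 : ℝ), ← hcp3]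
          ring
  have hfinal := hNN.trans key
  exact le_of_mul_le_mul_right hfinal (by positivity)

end Pool.Agent.Helper28.SP.MP
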