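import Pool.Agent.Helper28.SP.St

/-! Project SR, module CHAR: a vector with a unit character. -/

set_option autoImplicit false

namespace Pool.Agent.Helper28.SP.CHAR

open Pool.Agent.Helper28.SP
open Finset Matrix

private theorem red_apply (c : ℕ) (X : SZ) (i j : Fin 2) :
    (red c X : SG c) i j = ((X i j : ℤ) : ZMod c) := by
  unfold red
  simp

private theorem red_eq (c : ℕ) (X Y : SZ) (h : ∀ i j, (c : ℤ) ∣ X i j - Y i j) :
    red c X = red c Y := by
  ext i j
  rw [red_apply, red_apply]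
  have := (ZMod.intCast_zmod_eq_zero_iff_dvd (X i j - Y i j) c).2 (h i j)
  rw [Int.cast_sub, sub_eq_zero] at this
  exact this

private theorem red_one (d : ℕ) (X : SZ) (h : red d X = 1) (i j : Fin 2) :
    (d : ℤ) ∣ X i j - (1 : SZ) i j := by
  have h1 : (red d X : SG d) i j = (red d 1 : SG d) i j := by rw [h, map_one]
  rw [red_apply, red_apply] at h1
  rw [← ZMod.intCast_zmod_eq_zero_iff_dvd, Int.cast_sub, h1, sub_self]

private theorem sl_ext (A B : SZ) (h00 : A 0 0 = B 0 0)
    (h01 : A 0 1 = B 0 1) (h10 : A 1 0 = B 1 0) (h11 : A 1 1 = B 1 1) : A = B := by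
  ext i j
  fin_cases i <;> fin_cases j <;> assumption

private theorem mul_00 (A B : SZ) : (A * B) 0 0 = A 0 0 * B 0 0 + A 0 1 * B 1 0 := by
  simp [Matrix.SpecialLinearGroup.coe_mul, Matrix.mul_apply, Fin.sum_univ_two]

private theorem mul_01 (A B : SZ) : (A * B) 0 1 = A 0 0 * B 0 1 + A 0 1 * B 1 1 := by
  simp [Matrix.SpecialLinearGroup.coe_mul, Matrix.mul_apply, Fin.sum_univ_two]

private theorem mul_10 (A B : SZ) : (A * B) 1 0 = A 1 0 * B 0 0 + A 1 1 * B 1 0 := by
  simp [Matrix.SpecialLinearGroup.coe_mul, Matrix.mul_apply, Fin.sum_univ_two]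

private theorem mul_11 (A B : SZ) : (A * B) 1 1 = A 1 0 * B 0 1 + A 1 1 * B 1 1 := by
  simp [Matrix.SpecialLinearGroup.coe_mul, Matrix.mul_apply, Fin.sum_univ_two]

private theorem Ll00 (x : ℤ) : (Ll x) 0 0 = 1 := rfl
private theorem Ll01 (x : ℤ) : (Ll x) 0 1 = 0 := rfl
private theorem Ll10 (x : ℤ) : (Ll x) 1 0 = x := rfl
private theorem Ll11 (x : ℤ) : (Ll x) 1 1 = 1 := rfl

private theorem Ll_add (a b : ℤ) : (Ll (a + b) : SZ) = Ll a * Ll b := by
  apply sl_ext
  · rw [mul_00, Ll00, Ll00, Ll00, Ll01, Ll10]; ring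
  · rw [mul_01, Ll01, Ll00, Ll01, Ll01, Ll11]; ring
  · rw [mul_10, Ll10, Ll10, Ll00, Ll11, Ll10]; ring
  · rw [mul_11, Ll11, Ll10, Ll01, Ll11, Ll11]; ring

private theorem Ll_zero : (Ll 0 : SZ) = 1 := by
  apply sl_ext
  · rw [Ll00]; rfl
  · rw [Ll01]; rfl
  · rw [Ll10]; rfl
  · rw [Ll11]; rfl

private theorem Ll_pow (y : ℤ) (t : ℕ) : (Ll y : SZ) ^ t = Ll (t * y) := by
  induction t with
  | zero => simp [Ll_zero]
  | succ n ih =>
    rw [pow_succ, ih, ← Ll_add]
    congr 1
    push_cast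
    ring

private theorem Ll_zpow (y : ℤ) (t : ℤ) : (Ll y : SZ) ^ t = Ll (t * y) := by
  obtain ⟨n, rfl | rfl⟩ := Int.eq_nat_or_neg t
  · rw [zpow_natCast, Ll_pow]
  · rw [_root_.zpow_neg, zpow_natCast, Ll_pow]
    rw [inv_eq_iff_mul_eq_one, ← Ll_add]
    rw [show (n : ℤ) * y + -(n : ℤ) * y = 0 by ring, Ll_zero]

/-- the base element -/
private noncomputable def Bb (c : ℕ) : SG c := red c (Ll 1)

private theorem Bb_pow (c t : ℕ) : (Bb c) ^ t = red c (Ll (t : ℤ)) := by
  unfold Bb
  rw [← map_pow, Ll_pow, mul_one]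

private theorem Bb_c (c : ℕ) : (Bb c) ^ c = 1 := by
  rw [Bb_pow, ← map_one (red c)]
  apply red_eq
  intro i j
  fin_cases i <;> fin_cases j
  · exact ⟨0, by rw [mul_zero]; exact sub_self _⟩
  · exact ⟨0, by rw [mul_zero]; exact sub_self _⟩
  · exact ⟨1, by rw [mul_one]; exact sub_zero _⟩
  · exact ⟨0, by rw [mul_zero]; exact sub_self _⟩

/-- commutation of the local groups with the unipotents of the other primes -/
private theorem comm (c p q : ℕ) (hp : p ∈ c.primeFactors) (hq : q ∈ c.primeFactors)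
    (hpq : p ≠ q) (g : SG c) (hg : g ∈ KK c (c / q ^ (c.factorization q))) :
    red c (Ll ((c / p : ℕ) : ℤ)) * g = g * red c (Ll ((c / p : ℕ) : ℤ)) := by
  obtain ⟨G, hG, rfl⟩ := hg
  have hG' : red (c / q ^ (c.factorization q)) G = 1 := hG
  have hqn : q ^ (c.factorization q) ∣ c := Nat.ordProj_dvd c q
  have hqp : q ^ (c.factorization q) ∣ c / p := by
    have hpd : p ∣ c := Nat.dvd_of_mem_primeFactors hp
    have hcop : Nat.Coprime (q ^ (c.factorization q)) p :=
      Nat.Coprime.pow_left _ ((Nat.coprime_primes (Nat.prime_of_mem_primeFactors hq)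
        (Nat.prime_of_mem_primeFactors hp)).2 hpq.symm)
    have h1 : q ^ (c.factorization q) ∣ p * (c / p) := by
      rw [Nat.mul_div_cancel' hpd]; exact hqn
    exact hcop.dvd_of_dvd_mul_left h1
  obtain ⟨y, hy⟩ := hqp
  have hcc : (c : ℤ) = (q ^ (c.factorization q) : ℕ) * ((c / q ^ (c.factorization q) : ℕ) : ℤ) := by
    rw [← Nat.cast_mul, Nat.mul_div_cancel' hqn]
  have h00 := red_one _ G hG' 0 0
  have h01 := red_one _ G hG' 0 1
  have h11 := red_one _ G hG' 1 1
  obtain ⟨u, hu⟩ := h00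
  obtain ⟨v, hv⟩ := h01
  obtain ⟨z, hz⟩ := h11
  have e00 : G 0 0 = 1 + ((c / q ^ (c.factorization q) : ℕ) : ℤ) * u := by
    rw [← hu, show (1 : SZ) 0 0 = 1 from rfl]; ring
  have e01 : G 0 1 = ((c / q ^ (c.factorization q) : ℕ) : ℤ) * v := by
    rw [← hv, show (1 : SZ) 0 1 = 0 from rfl]; ring
  have e11 : G 1 1 = 1 + ((c / q ^ (c.factorization q) : ℕ) : ℤ) * z := by
    rw [← hz, show (1 : SZ) 1 1 = 1 from rfl]; ring
  rw [← map_mul, ← map_mul]
  have hyc : ((c / p : ℕ) : ℤ) = (q ^ (c.factorization q) : ℕ) * (y : ℤ) := by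
    rw [hy]; push_cast; ring
  rw [hyc]
  have k00 : (c : ℤ) ∣ (Ll (((q ^ (c.factorization q) : ℕ) : ℤ) * (y : ℤ)) * G) 0 0 -
      (G * Ll (((q ^ (c.factorization q) : ℕ) : ℤ) * (y : ℤ))) 0 0 := by
    refine ⟨-(y * v), ?_⟩
    rw [mul_00, mul_00, Ll00, Ll01, Ll10, e01, hcc]; ring
  have k01 : (c : ℤ) ∣ (Ll (((q ^ (c.factorization q) : ℕ) : ℤ) * (y : ℤ)) * G) 0 1 -
      (G * Ll (((q ^ (c.factorization q) : ℕ) : ℤ) * (y : ℤ))) 0 1 := by
    refine ⟨0, ?_⟩
    rw [mul_01, mul_01, Ll00, Ll01, Ll11]; ring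
  have k10 : (c : ℤ) ∣ (Ll (((q ^ (c.factorization q) : ℕ) : ℤ) * (y : ℤ)) * G) 1 0 -
      (G * Ll (((q ^ (c.factorization q) : ℕ) : ℤ) * (y : ℤ))) 1 0 := by
    refine ⟨y * u - y * z, ?_⟩
    rw [mul_10, mul_10, Ll00, Ll11, Ll10, e00, e11, hcc]; ring
  have k11 : (c : ℤ) ∣ (Ll (((q ^ (c.factorization q) : ℕ) : ℤ) * (y : ℤ)) * G) 1 1 -
      (G * Ll (((q ^ (c.factorization q) : ℕ) : ℤ) * (y : ℤ))) 1 1 := by
    refine ⟨y * v, ?_⟩
    rw [mul_11, mul_11, Ll01, Ll11, Ll10, e01, hcc]; ring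
  apply red_eq
  intro i j
  fin_cases i <;> fin_cases j
  · exact k00
  · exact k01
  · exact k10
  · exact k11

private theorem sum_range_mul' (F : ℕ → ℂ) (q m : ℕ) :
    ∑ t ∈ range (q * m), F t = ∑ s ∈ range q, ∑ r ∈ range m, F (s * m + r) := by
  induction q with
  | zero => simp
  | succ n ih => rw [Nat.succ_mul, Finset.sum_range_add, ih, Finset.sum_range_succ]

/-- sums over a full period are invariant -/
private theorem period {G : Type} [Group G] (φ : G → ℂ) (A : G) (q : ℕ) (hA : A ^ q = 1) (x : G)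
    (s : ℕ) : ∑ t ∈ range q, φ (x * A ^ s * A ^ t) = ∑ t ∈ range q, φ (x * A ^ t) := by
  induction s with
  | zero => simp
  | succ n ih =>
    rw [← ih]
    have h1 := Finset.sum_range_succ (fun t => φ (x * A ^ n * A ^ t)) q
    have h2 := Finset.sum_range_succ' (fun t => φ (x * A ^ n * A ^ t)) q
    rw [h1] at h2
    rw [hA, pow_zero] at h2
    have h3 := add_right_cancel h2
    rw [h3]
    apply Finset.sum_congr rfl
    intro t _
    rw [pow_succ, pow_succ']
    simp only [mul_assoc]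

private theorem step1 (h1 : StGEN) (h2 : StKER) (c : ℕ) [NeZero c]
    (V : Submodule ℂ (SG c → ℂ))
    (hV : ∀ (h : SG c) (f : SG c → ℂ), f ∈ V → (fun x => f (x * h)) ∈ V)
    (f : SG c → ℂ) (hf : f ∈ V) (hf0 : f ≠ 0) (hfN : New c f) (S : Finset ℕ)
    (hS : S ⊆ c.primeFactors) :
    ∃ w ∈ V, w ≠ 0 ∧ New c w ∧ ∀ p ∈ S, ∀ x, ∑ t ∈ range p, w (x * ((Bb c) ^ (c / p)) ^ t) = 0 := by
  classical
  have hc : 1 ≤ c := Nat.one_le_iff_ne_zero.2 (NeZero.ne c)
  induction S using Finset.induction_on with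
  | empty => exact ⟨f, hf, hf0, hfN, by simp⟩
  | insert q S hq ih =>
    obtain ⟨w, hw, hw0, hwN, hwS⟩ := ih (fun p hp => hS (mem_insert_of_mem hp))
    have hqc : q ∈ c.primeFactors := hS (mem_insert_self _ _)
    have hqp : q.Prime := Nat.prime_of_mem_primeFactors hqc
    have hqd : q ∣ c := Nat.dvd_of_mem_primeFactors hqc
    set A : SG c := (Bb c) ^ (c / q) with hAdef
    have hAq : A ^ q = 1 := by
      rw [hAdef, ← pow_mul, Nat.div_mul_cancel hqd, Bb_c]
    have hAred : A = red c (Ll ((c / q : ℕ) : ℤ)) := by rw [hAdef, Bb_pow]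
    have hq0 : (q : ℂ) ≠ 0 := by exact_mod_cast hqp.ne_zero
    -- candidates
    let w' : SG c → SG c → ℂ := fun g x =>
      w (x * g) - (q : ℂ)⁻¹ * ∑ t ∈ range q, w (x * A ^ t * g)
    have hw'V : ∀ g, w' g ∈ V := by
      intro g
      have e : w' g = (fun x => w (x * g)) - (q : ℂ)⁻¹ • ∑ t ∈ range q, (fun x => w (x * (A ^ t * g))) := by
        funext x
        simp [w', mul_assoc, Finset.sum_apply]
      rw [e]
      exact V.sub_mem (hV g w hw) (V.smul_mem _ (V.sum_mem fun t _ => hV _ w hw))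
    have hw'N : ∀ g, New c (w' g) := by
      intro g p hp x
      simp only [w']
      rw [Finset.sum_sub_distrib, ← Finset.mul_sum, Finset.sum_comm]
      have e1 : ∑ k ∈ Kf (KK c (c / p)), w (k * x * g) = 0 := by
        have := hwN p hp (x * g)
        simpa [mul_assoc] using this
      have e2 : ∀ t ∈ range q, ∑ k ∈ Kf (KK c (c / p)), w (k * x * A ^ t * g) = 0 := by
        intro t _
        have := hwN p hp (x * A ^ t * g)
        simpa [mul_assoc] using this
      rw [e1, Finset.sum_eq_zero e2]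
      simp
    have hw'q : ∀ g x, ∑ s ∈ range q, w' g (x * A ^ s) = 0 := by
      intro g x
      simp only [w']
      rw [Finset.sum_sub_distrib, ← Finset.mul_sum]
      have e : ∀ s ∈ range q, ∑ t ∈ range q, w (x * A ^ s * A ^ t * g) =
          ∑ t ∈ range q, w (x * A ^ t * g) := fun s _ =>
        period (fun y => w (y * g)) A q hAq x s
      rw [Finset.sum_congr rfl e]
      rw [Finset.sum_const, card_range, nsmul_eq_mul]
      field_simp
      ring
    by_cases hall : ∃ g ∈ KK c (c / q ^ (c.factorization q)), w' g ≠ 0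
    · obtain ⟨g, hg, hg0⟩ := hall
      refine ⟨w' g, hw'V g, hg0, hw'N g, ?_⟩
      intro p hp x
      rcases mem_insert.1 hp with rfl | hpS
      · exact hw'q g x
      · have hpc : p ∈ c.primeFactors := hS (mem_insert_of_mem hpS)
        have hpq : p ≠ q := fun h => hq (h ▸ hpS)
        set P : SG c := (Bb c) ^ (c / p) with hPdef
        have hPg : Commute P g := by
          have := comm c p q hpc hqc hpq g hg
          rw [← Bb_pow] at this
          exact this
        have hPA : Commute P A := (Commute.refl (Bb c)).pow_pow _ _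
        simp only [w']
        rw [Finset.sum_sub_distrib, ← Finset.mul_sum, Finset.sum_comm]
        have e1 : ∑ s ∈ range p, w (x * P ^ s * g) = 0 := by
          have := hwS p hpS (x * g)
          rw [← this]
          apply Finset.sum_congr rfl
          intro s _
          rw [mul_assoc, mul_assoc, (hPg.pow_left s).eq]
        have e2 : ∀ t ∈ range q, ∑ s ∈ range p, w (x * P ^ s * A ^ t * g) = 0 := by
          intro t _
          have := hwS p hpS (x * A ^ t * g)
          rw [← this]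
          apply Finset.sum_congr rfl
          intro s _
          congr 1
          have h4 : Commute (P ^ s) (A ^ t * g) :=
            (hPA.pow_pow s t).mul_right (hPg.pow_left s)
          have h5 := h4.eq
          calc x * P ^ s * A ^ t * g = x * (P ^ s * (A ^ t * g)) := by simp only [mul_assoc]
            _ = x * ((A ^ t * g) * P ^ s) := by rw [h5]
            _ = x * A ^ t * g * P ^ s := by simp only [mul_assoc]
        rw [e1, Finset.sum_eq_zero e2]
        simp
    · exfalso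
      push Not at hall
      apply hw0
      -- the stabilizer
      let H : Subgroup (SG c) :=
        { carrier := {h | ∀ x, w (x * h) = w x}
          mul_mem' := by
            intro a b ha hb x
            rw [← mul_assoc, hb, ha]
          one_mem' := by intro x; rw [mul_one]
          inv_mem' := by
            intro a ha x
            have := ha (x * a⁻¹)
            rw [← this]; simp }
      have hH1 : ∀ g ∈ KK c (c / q ^ (c.factorization q)), g⁻¹ * A * g ∈ H := by
        intro g hg x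
        have h0 : ∀ y, w (y * g) = (q : ℂ)⁻¹ * ∑ t ∈ range q, w (y * A ^ t * g) := by
          intro y
          have := congrFun (hall g hg) y
          simp only [w', Pi.zero_apply] at this
          exact sub_eq_zero.1 this
        have h4 : w (x * g⁻¹ * A * g) = w (x * g⁻¹ * g) := by
          rw [h0 (x * g⁻¹ * A), h0 (x * g⁻¹)]
          have := period (fun y => w (y * g)) A q hAq (x * g⁻¹) 1
          rw [pow_one] at this
          rw [this]
        have h5 : x * (g⁻¹ * A * g) = x * g⁻¹ * A * g := by simp only [mul_assoc]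
        rw [h5, h4, inv_mul_cancel_right]
      have hH2 : KK c (c / q) ≤ H := by
        refine le_trans (h1 c q hc hqc) ?_
        rw [Subgroup.closure_le]
        rintro y ⟨g, hg, t, rfl⟩
        have h4 : red c (Ll (t * ((c / q : ℕ) : ℤ))) = A ^ t := by
          rw [hAred, ← map_zpow, Ll_zpow]
        have h5 : g⁻¹ * red c (Ll (t * ((c / q : ℕ) : ℤ))) * g = (g⁻¹ * A * g) ^ t := by
          rw [h4]
          have := conj_zpow (i := t) (a := g⁻¹) (b := A)
          simp only [inv_inv] at this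
          exact this.symm
        rw [h5]
        exact H.zpow_mem (hH1 g hg) t
      obtain ⟨hnorm, -, -, -⟩ := h2 c (c / q) hc (Nat.div_dvd_of_dvd hqd)
      funext x
      have h6 := hwN q hqc x
      have h7 : ∀ k ∈ Kf (KK c (c / q)), w (k * x) = w x := by
        intro k hk
        have hk' := (mem_Kf _ _).1 hk
        have h8 : x⁻¹ * k * x ∈ KK c (c / q) := by
          have := hnorm.conj_mem k hk' x⁻¹
          simpa using this
        have h9 := hH2 h8 x
        rw [← h9]
        congr 1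
        simp only [mul_assoc, mul_inv_cancel_left]
      rw [Finset.sum_congr rfl h7, Finset.sum_const, nsmul_eq_mul] at h6
      have h10 : ((Kf (KK c (c / q))).card : ℂ) ≠ 0 := by
        have : 0 < (Kf (KK c (c / q))).card :=
          Finset.card_pos.2 ⟨1, (mem_Kf _ _).2 (Subgroup.one_mem _)⟩
        exact_mod_cast this.ne'
      exact (mul_eq_zero.1 h6).resolve_left h10

theorem thm (h1 : StGEN) (h2 : StKER) (_h3 : StSURJ) : StCHAR := by
  intro c _ V hV ⟨f, hf, hf0, hfN⟩
  classical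
  have hc0 : c ≠ 0 := NeZero.ne c
  have hcC : (c : ℂ) ≠ 0 := by exact_mod_cast hc0
  obtain ⟨w, hw, hw0, -, hwp⟩ := step1 h1 h2 c V hV f hf hf0 hfN c.primeFactors (Subset.refl _)
  set ζ : ℂ := Complex.exp (2 * Real.pi * Complex.I / c) with hζ
  have hζp : IsPrimitiveRoot ζ c := Complex.isPrimitiveRoot_exp c hc0
  have hζ0 : ζ ≠ 0 := Complex.exp_ne_zero _
  have hζc : ζ⁻¹ ^ c = 1 := by rw [inv_pow, hζp.pow_eq_one, inv_one]
  set B : SG c := Bb c with hB
  have hBc : B ^ c = 1 := Bb_c c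
  let wk : ℕ → SG c → ℂ := fun κ x => (c : ℂ)⁻¹ * ∑ t ∈ range c, ζ⁻¹ ^ (κ * t) * w (x * B ^ t)
  have hwkV : ∀ κ, wk κ ∈ V := by
    intro κ
    have e : wk κ = (c : ℂ)⁻¹ • ∑ t ∈ range c, (ζ⁻¹ ^ (κ * t)) • (fun x => w (x * B ^ t)) := by
      funext x
      simp [wk, Finset.sum_apply]
    rw [e]
    exact V.smul_mem _ (V.sum_mem fun t _ => V.smul_mem _ (hV _ w hw))
  have hwkB : ∀ κ x, wk κ (x * B) = ζ ^ κ * wk κ x := by
    intro κ x
    simp only [wk]
    rw [mul_left_comm]
    congr 1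
    have e1 : ∀ t, ζ⁻¹ ^ (κ * t) * w (x * B * B ^ t) =
        (fun t => ζ ^ κ * (ζ⁻¹ ^ (κ * t) * w (x * B ^ t))) (t + 1) := by
      intro t
      simp only
      rw [mul_assoc x B, ← pow_succ' B t, ← mul_assoc]
      congr 1
      rw [mul_add, mul_one, pow_add, mul_comm (ζ ^ κ), mul_assoc, ← mul_pow, inv_mul_cancel₀ hζ0,
        one_pow, mul_one]
    rw [Finset.sum_congr rfl fun t _ => e1 t, Finset.mul_sum (range c) _ (ζ ^ κ)]
    have h4 := Finset.sum_range_succ (fun t => ζ ^ κ * (ζ⁻¹ ^ (κ * t) * w (x * B ^ t))) c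
    have h5 := Finset.sum_range_succ' (fun t => ζ ^ κ * (ζ⁻¹ ^ (κ * t) * w (x * B ^ t))) c
    rw [h4] at h5
    have h6 : ζ ^ κ * (ζ⁻¹ ^ (κ * c) * w (x * B ^ c)) = ζ ^ κ * (ζ⁻¹ ^ (κ * 0) * w (x * B ^ 0)) := by
      rw [hBc, mul_comm κ c, pow_mul, hζc, one_pow, mul_zero, pow_zero, pow_zero]
    rw [h6] at h5
    exact (add_right_cancel h5).symm
  have hwk0 : ∀ κ, ¬ Nat.Coprime κ c → wk κ = 0 := by
    intro κ hκ
    obtain ⟨q, hqp, hqκ, hqc⟩ := Nat.Prime.not_coprime_iff_dvd.1 hκ
    have hqf : q ∈ c.primeFactors := Nat.mem_primeFactors.2 ⟨hqp, hqc, hc0⟩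
    obtain ⟨l, rfl⟩ := hqκ
    obtain ⟨m, hm⟩ := hqc
    have hcq : c / q = m := by rw [hm]; exact Nat.mul_div_cancel_left _ hqp.pos
    funext x
    simp only [wk, Pi.zero_apply]
    have hsum : ∑ t ∈ range c, ζ⁻¹ ^ (q * l * t) * w (x * B ^ t) = 0 := by
      have hc' : c = m * q := by rw [hm, mul_comm]
      have h4 : ∑ t ∈ range c, ζ⁻¹ ^ (q * l * t) * w (x * B ^ t) =
          ∑ r ∈ range m, ∑ s ∈ range q, ζ⁻¹ ^ (q * l * (s * m + r)) * w (x * B ^ (s * m + r)) := by
        rw [Finset.sum_comm]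
        have : range c = range (q * m) := by rw [hc', mul_comm]
        rw [this]
        exact sum_range_mul' _ q m
      rw [h4]
      apply Finset.sum_eq_zero
      intro r _
      have h5 := hwp q hqf (x * B ^ r)
      rw [hcq] at h5
      have h6 : ∀ s ∈ range q, ζ⁻¹ ^ (q * l * (s * m + r)) * w (x * B ^ (s * m + r)) =
          ζ⁻¹ ^ (q * l * r) * w (x * B ^ r * (B ^ m) ^ s) := by
        intro s _
        have e1 : ζ⁻¹ ^ (q * l * (s * m + r)) = ζ⁻¹ ^ (q * l * r) := by
          rw [show q * l * (s * m + r) = c * (l * s) + q * l * r by rw [hc']; ring, pow_add,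
            pow_mul, hζc, one_pow, one_mul]
        rw [e1, mul_assoc x, ← pow_mul, ← pow_add]
        congr 3
        congr 1
        ring
      rw [Finset.sum_congr rfl h6, ← Finset.mul_sum]
      rw [h5, mul_zero]
    rw [hsum, mul_zero]
  -- some component does not vanish
  by_contra hcon
  push Not at hcon
  have hall : ∀ κ, wk κ = 0 := by
    intro κ
    by_cases hκ : Nat.Coprime κ c
    · by_contra h0
      obtain ⟨x, hx⟩ := hcon (wk κ) (hwkV κ) h0 κ hκ
      apply hx
      have := hwkB κ x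
      rw [hB] at this
      unfold Bb at this
      rw [this]
      congr 1
      rw [hζ, ← Complex.exp_nat_mul]
      congr 1
      ring
    · exact hwk0 κ hκ
  apply hw0
  funext x
  have h7 : ∑ κ ∈ range c, wk κ x = w x := by
    simp only [wk]
    rw [← Finset.mul_sum, Finset.sum_comm]
    have h8 : ∀ t ∈ range c, ∑ κ ∈ range c, ζ⁻¹ ^ (κ * t) * w (x * B ^ t) =
        if t = 0 then (c : ℂ) * w x else 0 := by
      intro t ht
      rw [← Finset.sum_mul]
      split_ifs with h0
      · subst h0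
        simp
      · have h9 : (ζ⁻¹ ^ t) ≠ 1 := by
          intro h
          rw [inv_pow, inv_eq_one] at h
          have := (hζp.pow_eq_one_iff_dvd t).1 h
          exact h0 (Nat.eq_zero_of_dvd_of_lt this (mem_range.1 ht))
        have h10 : ∑ κ ∈ range c, ζ⁻¹ ^ (κ * t) = ∑ κ ∈ range c, (ζ⁻¹ ^ t) ^ κ := by
          apply Finset.sum_congr rfl
          intro κ _
          rw [← pow_mul, mul_comm]
        rw [h10]
        have h11 := geom_sum_mul (ζ⁻¹ ^ t) c
        have h12 : (ζ⁻¹ ^ t) ^ c = 1 := by rw [← pow_mul, mul_comm, pow_mul, hζc, one_pow]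
        rw [h12, sub_self] at h11
        rw [(mul_eq_zero.1 h11).resolve_right (sub_ne_zero.2 h9), zero_mul]
    rw [Finset.sum_congr rfl h8, Finset.sum_ite_eq' (range c) 0 (fun _ => (c : ℂ) * w x),
      if_pos (mem_range.2 (Nat.pos_of_ne_zero hc0)), ← mul_assoc, inv_mul_cancel₀ hcC, one_mul]
  rw [← h7]
  simp [hall]

end Pool.Agent.Helper28.SP.CHAR
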