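import Pool.Agent.Helper28.SP.St
import Pool.Agent.Helper56.SW.M_Sqrt

set_option autoImplicit false

namespace Pool.Agent.Helper28.SP.DIM
open Pool.Agent.Helper28.SP
open Matrix
open Pool.Agent.Helper56.SW (τ Γ)

theorem fib (c : ℕ) [NeZero c] (s : ZMod c) :
    ((Finset.univ : Finset (ZMod c)ˣ).filter fun t : (ZMod c)ˣ => (t : ZMod c) ^ 2 = s).card ≤
      (Γ c).card := by
  classical
  rcases ((Finset.univ : Finset (ZMod c)ˣ).filter
    fun t : (ZMod c)ˣ => (t : ZMod c) ^ 2 = s).eq_empty_or_nonempty with h | ⟨t0, ht0⟩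
  · rw [h]; simp
  · have h0 : (t0 : ZMod c) ^ 2 = s := (Finset.mem_filter.1 ht0).2
    apply Finset.card_le_card_of_injOn (fun t : (ZMod c)ˣ => (((t * t0⁻¹ : (ZMod c)ˣ) : ZMod c)).val)
    · intro t ht
      have h1 : (t : ZMod c) ^ 2 = s := (Finset.mem_filter.1 (Finset.mem_coe.1 ht)).2
      have hsq : (((t * t0⁻¹ : (ZMod c)ˣ) : ZMod c)) ^ 2 = 1 := by
        have : ((t * t0⁻¹) ^ 2 : (ZMod c)ˣ) = 1 := by
          have h2 : t ^ 2 = t0 ^ 2 := by
            ext
            push_cast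
            rw [h1, h0]
          rw [mul_pow, h2, inv_pow, mul_inv_cancel]
        have h3 := congrArg (Units.val) this
        simpa using h3
      apply Finset.mem_coe.2
      unfold Pool.Agent.Helper56.SW.Γ
      rw [Finset.mem_filter, Finset.mem_range]
      refine ⟨ZMod.val_lt _, ?_⟩
      rw [← ZMod.intCast_zmod_eq_zero_iff_dvd]
      push_cast
      rw [ZMod.natCast_val, ZMod.cast_id', id_eq]
      rw [show ((t : ZMod c) * ((t0⁻¹ : (ZMod c)ˣ) : ZMod c)) =
        (((t * t0⁻¹ : (ZMod c)ˣ) : ZMod c)) by push_cast; rfl, hsq, sub_self]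
    · intro t ht t' ht' h
      have h1 := ZMod.val_injective c h
      have h2 := Units.ext h1
      exact mul_right_cancel h2

theorem Ll_mul {R : Type} [CommRing R] (a b : R) : Ll a * Ll b = Ll (a + b) := by
  apply Matrix.SpecialLinearGroup.ext
  intro i j
  fin_cases i <;> fin_cases j <;>
    simp [Ll, Matrix.mul_apply, Fin.sum_univ_two]

theorem Ll_zero {R : Type} [CommRing R] : Ll (0 : R) = 1 := by
  apply Matrix.SpecialLinearGroup.ext
  intro i j
  fin_cases i <;> fin_cases j <;> simp [Ll]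

theorem Ll_pow {R : Type} [CommRing R] (n : ℕ) : (Ll (1 : R)) ^ n = Ll (n : R) := by
  induction n with
  | zero => rw [pow_zero, Nat.cast_zero, Ll_zero]
  | succ n ih => rw [pow_succ, ih, Ll_mul, Nat.cast_succ]

theorem red_Ll (c : ℕ) : red c (Ll 1) = Ll (1 : ZMod c) := by
  apply Matrix.SpecialLinearGroup.ext
  intro i j
  fin_cases i <;> fin_cases j
  · show ((1 : ℤ) : ZMod c) = 1
    simp
  · show ((0 : ℤ) : ZMod c) = 0
    simp
  · show ((1 : ℤ) : ZMod c) = 1
    simp
  · show ((1 : ℤ) : ZMod c) = 1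
    simp

/-- `diag(t, t⁻¹)` -/
def Dt {c : ℕ} (t : (ZMod c)ˣ) : SG c :=
  ⟨!![(t : ZMod c), 0; 0, ((t⁻¹ : (ZMod c)ˣ) : ZMod c)], by
    rw [Matrix.det_fin_two_of]; simp⟩

theorem Dt_comm {c : ℕ} (t : (ZMod c)ˣ) :
    Ll (1 : ZMod c) * Dt t = Dt t * Ll ((t : ZMod c) ^ 2) := by
  apply Matrix.SpecialLinearGroup.ext
  intro i j
  fin_cases i <;> fin_cases j <;>
    simp [Ll, Dt, Matrix.mul_apply, Fin.sum_univ_two, pow_two]

theorem thm (h : StCHAR) : StDIM := by
  classical
  intro c hcz V hV hf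
  obtain ⟨w, hwV, hw0, κ, hκ, hw⟩ := h c V hV hf
  have hc0 : c ≠ 0 := NeZero.ne c
  set ω : ℂ := Complex.exp (2 * Real.pi * Complex.I * κ / c) with hω
  have hprim : IsPrimitiveRoot ω c := by
    have h1 := Complex.isPrimitiveRoot_exp_of_coprime κ c hc0 hκ
    rw [← mul_div_assoc] at h1
    exact h1
  rw [red_Ll] at hw
  have hwn : ∀ (n : ℕ) (x : SG c), w (x * Ll (n : ZMod c)) = ω ^ n * w x := by
    intro n
    induction n with
    | zero => intro x; rw [Nat.cast_zero, Ll_zero, mul_one, pow_zero, one_mul]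
    | succ n ih =>
      intro x
      rw [Nat.cast_succ, ← Ll_mul, ← mul_assoc, hw, ih, pow_succ]
      ring
  have hws : ∀ (s : ZMod c) (x : SG c), w (x * Ll s) = ω ^ s.val * w x := by
    intro s x
    have h1 := hwn s.val x
    rwa [ZMod.natCast_val, ZMod.cast_id', id_eq] at h1
  set S : Finset (ZMod c) := (Finset.univ : Finset (ZMod c)ˣ).image
    (fun t : (ZMod c)ˣ => (t : ZMod c) ^ 2) with hS
  have hch : ∀ i : Fin S.card, ∃ t : (ZMod c)ˣ, (t : ZMod c) ^ 2 = (S.equivFin.symm i : ZMod c) := by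
    intro i
    obtain ⟨t, _, ht⟩ := Finset.mem_image.1 (S.equivFin.symm i).2
    exact ⟨t, ht⟩
  choose t ht using hch
  let f : Module.End ℂ (SG c → ℂ) := LinearMap.funLeft ℂ ℂ (fun x : SG c => x * Ll (1 : ZMod c))
  refine ⟨S.card, fun i x => w (x * Dt (t i)), ?_, ?_, ?_⟩
  · apply Module.End.eigenvectors_linearIndependent' f
      (fun i => ω ^ (S.equivFin.symm i : ZMod c).val)
    · intro i j hij
      have h1 := hprim.pow_inj (ZMod.val_lt _) (ZMod.val_lt _) hij
      have h2 := ZMod.val_injective c h1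
      exact S.equivFin.symm.injective (Subtype.ext h2)
    · intro i
      refine ⟨?_, ?_⟩
      · rw [Module.End.mem_eigenspace_iff]
        funext x
        show w (x * Ll (1 : ZMod c) * Dt (t i)) = ω ^ (S.equivFin.symm i : ZMod c).val *
          w (x * Dt (t i))
        rw [mul_assoc, Dt_comm, ← mul_assoc, hws, ht]
      · intro h0
        apply hw0
        funext x
        have h1 := congrFun h0 (x * (Dt (t i))⁻¹)
        simp only [inv_mul_cancel_right, Pi.zero_apply] at h1
        exact h1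
  · intro i
    exact hV _ _ hwV
  · have h1 : (Finset.univ : Finset (ZMod c)ˣ).card ≤ (Γ c).card * S.card := by
      rw [hS]
      apply Finset.card_le_mul_card_image
      intro b _
      exact fib c b
    rw [Finset.card_univ, ZMod.card_units_eq_totient] at h1
    have hc1 : 1 ≤ c := Nat.one_le_iff_ne_zero.2 hc0
    have h2 : ((Γ c).card : ℝ) ≤ 2 * τ c := Pool.Agent.Helper56.SW.stSqrt c hc1
    have h3 : (1 : ℝ) ≤ τ c := Pool.Agent.Helper56.SW.one_le_τ hc1
    have h4 : (Nat.totient c : ℝ) ≤ (Γ c).card * S.card := by exact_mod_cast h1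
    rw [div_le_iff₀ (by positivity)]
    calc (Nat.totient c : ℝ) ≤ (Γ c).card * S.card := h4
      _ ≤ (2 * τ c) * S.card := by
        exact mul_le_mul_of_nonneg_right h2 (Nat.cast_nonneg _)
      _ = S.card * (2 * τ c) := by ring

end Pool.Agent.Helper28.SP.DIM
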