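import Pool.Agent.Helper28.SP.St

/-! # MP_e188f1_nt, spectral range: module EIG (multiplicity of an eigenvalue and trace) -/

set_option autoImplicit false

namespace Pool.Agent.Helper28.SP.EIG

open Finset Matrix Pool.Agent.Helper28.SP
open scoped ComplexOrder

private theorem spec {n : Type} [Fintype n] [DecidableEq n] {X : Matrix n n ℂ}
    (hX : X.IsHermitian) :
    ∃ (U : Matrix n n ℂ) (e : n → ℝ), Uᴴ * U = 1 ∧ U * Uᴴ = 1 ∧
      X = U * diagonal (fun i => (e i : ℂ)) * Uᴴ ∧ (X.PosSemidef → ∀ i, 0 ≤ e i) := by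
  refine ⟨(hX.eigenvectorUnitary : Matrix n n ℂ), hX.eigenvalues, ?_, ?_, ?_, ?_⟩
  · exact Unitary.coe_star_mul_self hX.eigenvectorUnitary
  · exact Unitary.coe_mul_star_self hX.eigenvectorUnitary
  · exact hX.spectral_theorem
  · intro h i
    exact h.eigenvalues_nonneg i

theorem thm : StEIG := by
  intro n _ _ X k m l v hX hk hpar hli hv
  obtain ⟨U, e, hU1, hU2, hspec, hpos⟩ := spec hX
  have hpow : ∀ j : ℕ, X ^ j = U * diagonal (fun i => (e i : ℂ) ^ j) * Uᴴ := by
    intro j
    induction j with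
    | zero => simp [hU2]
    | succ j ih =>
      rw [pow_succ, ih]
      nth_rewrite 1 [hspec]
      rw [show U * diagonal (fun i => (e i : ℂ) ^ j) * Uᴴ * (U * diagonal (fun i => (e i : ℂ)) * Uᴴ)
        = U * diagonal (fun i => (e i : ℂ) ^ j) * (Uᴴ * U) * diagonal (fun i => (e i : ℂ)) * Uᴴ by
          simp only [Matrix.mul_assoc]]
      rw [hU1, Matrix.mul_one, Matrix.mul_assoc U, diagonal_mul_diagonal]
      simp only [pow_succ]
  have htr : ((X ^ k).trace).re = ∑ i, e i ^ k := by
    rw [hpow k, Matrix.trace_mul_comm, ← Matrix.mul_assoc, hU1, Matrix.one_mul, trace_diagonal,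
      Complex.re_sum]
    refine Finset.sum_congr rfl fun i _ => ?_
    rw [← Complex.ofReal_pow, Complex.ofReal_re]
  have hnn : ∀ i, 0 ≤ e i ^ k := by
    intro i
    rcases hpar with h | h
    · exact h.pow_nonneg _
    · exact pow_nonneg (hpos h i) _
  -- coordinates in the eigenbasis
  have hco : ∀ w : n → ℂ, X *ᵥ w = (l : ℂ) • w → ∀ i, e i ≠ l → (Uᴴ *ᵥ w) i = 0 := by
    intro w hw i hi
    have h1 : diagonal (fun i => (e i : ℂ)) *ᵥ (Uᴴ *ᵥ w) = (l : ℂ) • (Uᴴ *ᵥ w) := by
      rw [← Matrix.mulVec_smul, ← hw]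
      nth_rewrite 1 [hspec]
      rw [Matrix.mulVec_mulVec, Matrix.mulVec_mulVec]
      congr 1
      rw [show Uᴴ * (U * diagonal (fun i => (e i : ℂ)) * Uᴴ) =
        (Uᴴ * U) * diagonal (fun i => (e i : ℂ)) * Uᴴ by simp only [Matrix.mul_assoc], hU1,
        Matrix.one_mul]
    have h2 := congrFun h1 i
    rw [mulVec_diagonal, Pi.smul_apply, smul_eq_mul] at h2
    have h3 : ((e i : ℂ) - l) * (Uᴴ *ᵥ w) i = 0 := by rw [sub_mul, h2, sub_self]
    rcases mul_eq_zero.1 h3 with h | h
    · exfalso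
      apply hi
      have h4 : (e i : ℂ) = (l : ℂ) := sub_eq_zero.1 h
      exact_mod_cast h4
    · exact h
  -- at least `m` eigenvalues equal to `l`
  have hcard : m ≤ Fintype.card {i : n // e i = l} := by
    have hli2 : LinearIndependent ℂ
        (fun (j : Fin m) (i : {i : n // e i = l}) => (Uᴴ *ᵥ v j) i.1) := by
      rw [Fintype.linearIndependent_iff]
      intro g hg j
      rw [Fintype.linearIndependent_iff] at hli
      apply hli g
      set w : n → ℂ := ∑ j, g j • v j with hw
      have hwe : X *ᵥ w = (l : ℂ) • w := by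
        rw [hw, Matrix.mulVec_sum, Finset.smul_sum]
        refine Finset.sum_congr rfl fun j _ => ?_
        rw [Matrix.mulVec_smul, hv j, smul_comm]
      have hz : Uᴴ *ᵥ w = 0 := by
        funext i
        by_cases hi : e i = l
        · have h5 := congrFun hg ⟨i, hi⟩
          rw [hw, Matrix.mulVec_sum, Finset.sum_apply]
          rw [Finset.sum_apply] at h5
          simp only [Matrix.mulVec_smul, Pi.smul_apply] at h5 ⊢
          exact h5
        · rw [hco w hwe i hi]; rfl
      have h6 : w = (U * Uᴴ) *ᵥ w := by rw [hU2, Matrix.one_mulVec]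
      rw [h6, ← Matrix.mulVec_mulVec, hz, Matrix.mulVec_zero]
    have h7 := hli2.fintype_card_le_finrank
    rw [Fintype.card_fin, Module.finrank_fintype_fun_eq_card] at h7
    exact h7
  rw [htr]
  have h8 : ∑ i ∈ univ.filter (fun i => e i = l), e i ^ k ≤ ∑ i, e i ^ k :=
    Finset.sum_le_sum_of_subset_of_nonneg (Finset.filter_subset _ _) fun i _ _ => hnn i
  have h9 : ∑ i ∈ univ.filter (fun i => e i = l), e i ^ k =
      (Fintype.card {i : n // e i = l} : ℝ) * l ^ k := by
    rw [Finset.sum_congr rfl (g := fun _ => l ^ k)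
      (fun i hi => by rw [(Finset.mem_filter.1 hi).2]), Finset.sum_const, nsmul_eq_mul,
      Fintype.card_subtype]
  rcases Nat.eq_zero_or_pos m with h0 | h0
  · rw [h0]
    simp only [Nat.cast_zero, zero_mul]
    exact Finset.sum_nonneg fun i _ => hnn i
  · have h10 : 0 < Fintype.card {i : n // e i = l} := lt_of_lt_of_le h0 hcard
    obtain ⟨⟨i, hi⟩⟩ := Fintype.card_pos_iff.1 h10
    have h11 : l ^ k = |l| ^ k := by
      rcases hpar with h | h
      · exact (h.pow_abs l).symm
      · rw [abs_of_nonneg]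
        rw [← hi]
        exact hpos h i
    calc (m : ℝ) * |l| ^ k ≤ (Fintype.card {i : n // e i = l} : ℝ) * |l| ^ k :=
          mul_le_mul_of_nonneg_right (by exact_mod_cast hcard) (pow_nonneg (abs_nonneg _) _)
      _ = ∑ i ∈ univ.filter (fun i => e i = l), e i ^ k := by rw [h9, h11]
      _ ≤ ∑ i, e i ^ k := h8

end Pool.Agent.Helper28.SP.EIG
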