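import Pool.Agent.Helper28.SP.St
import Pool.Agent.Helper56.SW.Basic
import Pool.Agent.Helper56.SW.M_AP

/-!
# Module FOLD (MP_e188f1_nt): folding the letters modulo `e`
-/

set_option autoImplicit false

namespace Pool.Agent.Helper28.SP.FOLD

open Pool.Agent.Helper28.SP
open Finset Matrix
open Pool.Agent.Helper56.SW hiding Rel

/-- the folding map -/
def fo (e A : ℕ) (h : ℤ) : ℤ := if A ≤ e then h else h % e

theorem fo_cast (e A : ℕ) (h : ℤ) : ((fo e A h : ℤ) : ZMod e) = (h : ZMod e) := by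
  unfold fo
  split_ifs
  · rfl
  · simp

theorem fo_mem {e A : ℕ} {h : ℤ} (he : 1 ≤ e) (hh : h ∈ I A) : fo e A h ∈ I (min A e) := by
  unfold fo
  split_ifs with hA
  · rwa [min_eq_left hA]
  · rw [min_eq_right (by omega), mem_I, abs_le]
    have h1 : (0 : ℤ) < e := by omega
    have h2 := Int.emod_nonneg h h1.ne'
    have h3 := Int.emod_lt_of_pos h h1
    constructor <;> omega

/-- bound for the fibres -/
noncomputable def nb (e A : ℕ) : ℕ := ⌊3 * (A : ℝ) / min (A : ℝ) e⌋₊

theorem nb_le (e A : ℕ) (he : 1 ≤ e) (hA : 1 ≤ A) : (nb e A : ℝ) ≤ 3 * (A : ℝ) / min (A : ℝ) e := by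
  unfold nb
  apply Nat.floor_le
  positivity

theorem fo_fib (e A : ℕ) (he : 1 ≤ e) (hA : 1 ≤ A) (r : ℤ) :
    ((I A).filter fun h => fo e A h = r).card ≤ nb e A := by
  have he' : (1 : ℝ) ≤ e := by exact_mod_cast he
  have hA' : (1 : ℝ) ≤ A := by exact_mod_cast hA
  unfold nb
  apply Nat.le_floor
  by_cases hAe : A ≤ e
  · have h1 : ((I A).filter fun h => fo e A h = r).card ≤ 1 := by
      rw [card_le_one]
      intro x hx y hy
      have hx := (mem_filter.1 hx).2
      have hy := (mem_filter.1 hy).2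
      simp only [fo, if_pos hAe] at hx hy
      rw [hx, hy]
    have h2 : min (A : ℝ) e = A := min_eq_left (by exact_mod_cast hAe)
    rw [h2, mul_div_assoc, div_self (by positivity)]
    have h3 : (((I A).filter fun h => fo e A h = r).card : ℝ) ≤ 1 := by exact_mod_cast h1
    linarith
  · have h1 := stAP A e ((I A).filter fun h => fo e A h = r) he (filter_subset _ _) (by
      intro x hx y hy
      have hx := (mem_filter.1 hx).2
      have hy := (mem_filter.1 hy).2
      have h5 : x % (e : ℤ) = y % e := by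
        simp only [fo, if_neg hAe] at hx hy
        rw [hx, hy]
      exact Int.ModEq.dvd (show y ≡ x [ZMOD e] from h5.symm))
    have h2 : min (A : ℝ) e = e := min_eq_right (by exact_mod_cast (by omega : e ≤ A))
    rw [h2]
    have h3 : (1 : ℝ) ≤ A / e := by
      rw [le_div_iff₀ (by positivity), one_mul]
      exact_mod_cast (by omega : e ≤ A)
    have h4 : 3 * (A : ℝ) / e = 2 * A / e + A / e := by ring
    rw [h4]
    linarith

/-- folding of lists -/
def fl (e A B : ℕ) (l : List (ℤ × ℤ)) : List (ℤ × ℤ) := l.map fun p => (fo e A p.1, fo e B p.2)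

theorem E_fl (e A B : ℕ) (a b : ℤ) (l : List (ℤ × ℤ)) :
    ((E a b (fl e A B l) 0 0 : ℤ) : ZMod e) = (E a b l 0 0 : ℤ) ∧
    ((E a b (fl e A B l) 0 1 : ℤ) : ZMod e) = (E a b l 0 1 : ℤ) ∧
    ((E a b (fl e A B l) 1 0 : ℤ) : ZMod e) = (E a b l 1 0 : ℤ) ∧
    ((E a b (fl e A B l) 1 1 : ℤ) : ZMod e) = (E a b l 1 1 : ℤ) := by
  induction l with
  | nil => simp [fl]
  | cons p t ih =>
    obtain ⟨h1, h2, h3, h4⟩ := ih
    have hf : fl e A B (p :: t) = (fo e A p.1, fo e B p.2) :: fl e A B t := rfl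
    rw [hf, show p = (p.1, p.2) from rfl]
    rw [E_cons_00, E_cons_01, E_cons_10, E_cons_11, E_cons_00, E_cons_01, E_cons_10, E_cons_11]
    simp only [Int.cast_add, Int.cast_mul, Int.cast_one, fo_cast, h1, h2, h3, h4, and_self]

theorem dvd_iff' {e : ℕ} {x y z : ℤ} (h : ((x : ℤ) : ZMod e) = (y : ℤ)) :
    (e : ℤ) ∣ x - z ↔ (e : ℤ) ∣ y - z := by
  rw [← ZMod.intCast_zmod_eq_zero_iff_dvd, ← ZMod.intCast_zmod_eq_zero_iff_dvd]
  rw [Int.cast_sub, Int.cast_sub, h]

theorem dvd_iff0 {e : ℕ} {x y : ℤ} (h : ((x : ℤ) : ZMod e) = (y : ℤ)) :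
    (e : ℤ) ∣ x ↔ (e : ℤ) ∣ y := by
  rw [← ZMod.intCast_zmod_eq_zero_iff_dvd, ← ZMod.intCast_zmod_eq_zero_iff_dvd, h]

theorem rel_fl (e A B : ℕ) (a b γ : ℤ) (l : List (ℤ × ℤ)) :
    Pool.Agent.Helper56.SW.Rel e a b γ (fl e A B l) ↔ Pool.Agent.Helper56.SW.Rel e a b γ l := by
  obtain ⟨h1, h2, h3, h4⟩ := E_fl e A B a b l
  unfold Pool.Agent.Helper56.SW.Rel
  rw [dvd_iff' h1, dvd_iff0 h2, dvd_iff0 h3, dvd_iff' h4]

theorem fl_mem {e A B k : ℕ} (he : 1 ≤ e) {l : List (ℤ × ℤ)} (hl : l ∈ bx (I A) (I B) k) :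
    fl e A B l ∈ bx (I (min A e)) (I (min B e)) k := by
  rw [mem_bx] at hl ⊢
  refine ⟨by simp [fl, hl.1], ?_⟩
  intro p hp
  unfold fl at hp
  obtain ⟨q, hq, rfl⟩ := List.mem_map.1 hp
  exact ⟨fo_mem he (hl.2 q hq).1, fo_mem he (hl.2 q hq).2⟩

theorem fl_fib (e A B : ℕ) (he : 1 ≤ e) (hA : 1 ≤ A) (hB : 1 ≤ B) (k : ℕ) :
    ∀ l' : List (ℤ × ℤ), ((bx (I A) (I B) k).filter fun l => fl e A B l = l').card ≤
      (nb e A * nb e B) ^ k := by
  induction k with
  | zero =>
    intro l'
    rw [pow_zero]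
    refine (card_le_card (filter_subset _ _)).trans ?_
    simp [bx]
  | succ k ih =>
    intro l'
    cases l' with
    | nil =>
      have h0 : ((bx (I A) (I B) (k + 1)).filter fun l => fl e A B l = []) = ∅ := by
        rw [filter_eq_empty_iff]
        intro l hl h
        have h1 := (mem_bx.1 hl).1
        have h2 : (fl e A B l).length = k + 1 := by simp [fl, h1]
        rw [h] at h2
        simp at h2
      rw [h0]
      simp
    | cons q t' =>
      have h1 : ((bx (I A) (I B) (k + 1)).filter fun l => fl e A B l = q :: t') ⊆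
          ((((I A).filter fun h => fo e A h = q.1) ×ˢ ((I B).filter fun h => fo e B h = q.2)) ×ˢ
            ((bx (I A) (I B) k).filter fun l => fl e A B l = t')).image fun p => p.1 :: p.2 := by
        intro l hl
        obtain ⟨hl, hlq⟩ := mem_filter.1 hl
        rw [mem_bx] at hl
        cases l with
        | nil => simp at hl
        | cons p t =>
          have hf : fl e A B (p :: t) = (fo e A p.1, fo e B p.2) :: fl e A B t := rfl
          rw [hf, List.cons.injEq] at hlq
          refine mem_image.2 ⟨(p, t), ?_, rfl⟩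
          rw [mem_product, mem_product, mem_filter, mem_filter, mem_filter, mem_bx]
          refine ⟨⟨⟨(hl.2 p List.mem_cons_self).1, ?_⟩, (hl.2 p List.mem_cons_self).2, ?_⟩,
            ⟨by simpa using hl.1, fun r hr => hl.2 r (List.mem_cons_of_mem _ hr)⟩, hlq.2⟩
          · exact congrArg Prod.fst hlq.1
          · exact congrArg Prod.snd hlq.1
      refine (card_le_card h1).trans (card_image_le.trans ?_)
      rw [card_product, card_product, pow_succ, mul_comm]
      exact Nat.mul_le_mul (ih t') (Nat.mul_le_mul (fo_fib e A he hA _) (fo_fib e B he hB _))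

theorem thm : StFOLD := by
  classical
  intro e a b k A B he hA hB
  have h1 : N e a b k A B ≤ (nb e A * nb e B) ^ k * N e a b k (min A e) (min B e) := by
    unfold N
    refine card_le_mul_card_image_of_maps_to (f := fl e A B) ?_ _ ?_
    · intro l hl
      obtain ⟨hl, γ, hγ, hr⟩ := mem_filter.1 hl
      exact mem_filter.2 ⟨fl_mem he hl, γ, hγ, (rel_fl e A B a b γ l).2 hr⟩
    · intro l' _
      refine le_trans (card_le_card ?_) (fl_fib e A B he hA hB k l')
      intro l hl
      obtain ⟨hl, hl'⟩ := mem_filter.1 hl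
      exact mem_filter.2 ⟨(mem_filter.1 hl).1, hl'⟩
  have h2 : (N e a b k A B : ℝ) ≤
      ((nb e A : ℝ) * nb e B) ^ k * (N e a b k (min A e) (min B e) : ℝ) := by
    exact_mod_cast h1
  refine h2.trans ?_
  rw [← mul_pow]
  apply mul_le_mul_of_nonneg_right _ (Nat.cast_nonneg _)
  apply pow_le_pow_left₀ (by positivity)
  apply mul_le_mul (nb_le e A he hA) (nb_le e B he hB) (by positivity) (by positivity)

end Pool.Agent.Helper28.SP.FOLD
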