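import Pool.Agent.Helper28.SP.St

set_option autoImplicit false

namespace Pool.Agent.Helper28.SP.GEN
open Pool.Agent.Helper28.SP
open Matrix

section ring
variable {R : Type} [CommRing R]

theorem sl_ext (A B : Matrix.SpecialLinearGroup (Fin 2) R) (h00 : A 0 0 = B 0 0)
    (h01 : A 0 1 = B 0 1) (h10 : A 1 0 = B 1 0) (h11 : A 1 1 = B 1 1) : A = B := by
  ext i j
  fin_cases i <;> fin_cases j <;> assumption

theorem mul_00 (A B : Matrix.SpecialLinearGroup (Fin 2) R) :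
    (A * B) 0 0 = A 0 0 * B 0 0 + A 0 1 * B 1 0 := by
  simp [Matrix.SpecialLinearGroup.coe_mul, Matrix.mul_apply, Fin.sum_univ_two]

theorem mul_01 (A B : Matrix.SpecialLinearGroup (Fin 2) R) :
    (A * B) 0 1 = A 0 0 * B 0 1 + A 0 1 * B 1 1 := by
  simp [Matrix.SpecialLinearGroup.coe_mul, Matrix.mul_apply, Fin.sum_univ_two]

theorem mul_10 (A B : Matrix.SpecialLinearGroup (Fin 2) R) :
    (A * B) 1 0 = A 1 0 * B 0 0 + A 1 1 * B 1 0 := by
  simp [Matrix.SpecialLinearGroup.coe_mul, Matrix.mul_apply, Fin.sum_univ_two]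

theorem mul_11 (A B : Matrix.SpecialLinearGroup (Fin 2) R) :
    (A * B) 1 1 = A 1 0 * B 0 1 + A 1 1 * B 1 1 := by
  simp [Matrix.SpecialLinearGroup.coe_mul, Matrix.mul_apply, Fin.sum_univ_two]

theorem Uu00 (x : R) : (Uu x) 0 0 = 1 := rfl
theorem Uu01 (x : R) : (Uu x) 0 1 = x := rfl
theorem Uu10 (x : R) : (Uu x) 1 0 = 0 := rfl
theorem Uu11 (x : R) : (Uu x) 1 1 = 1 := rfl
theorem Ll00 (x : R) : (Ll x) 0 0 = 1 := rfl
theorem Ll01 (x : R) : (Ll x) 0 1 = 0 := rfl
theorem Ll10 (x : R) : (Ll x) 1 0 = x := rfl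
theorem Ll11 (x : R) : (Ll x) 1 1 = 1 := rfl

/-- the inverse of `S_e` -/
def Sv (E : R) (hE : E * E = E) : Matrix.SpecialLinearGroup (Fin 2) R :=
  ⟨!![1 - E, E; -E, 1 - E], by
    rw [Matrix.det_fin_two_of]; linear_combination 2 * hE⟩

theorem Sv00 (E : R) (hE : E * E = E) : (Sv E hE) 0 0 = 1 - E := rfl
theorem Sv01 (E : R) (hE : E * E = E) : (Sv E hE) 0 1 = E := rfl
theorem Sv10 (E : R) (hE : E * E = E) : (Sv E hE) 1 0 = -E := rfl
theorem Sv11 (E : R) (hE : E * E = E) : (Sv E hE) 1 1 = 1 - E := rfl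

/-- `[[1+y, -y], [y, 1-y]]` -/
def Zz (y : R) : Matrix.SpecialLinearGroup (Fin 2) R :=
  ⟨!![1 + y, -y; y, 1 - y], by rw [Matrix.det_fin_two_of]; ring⟩

theorem Zz00 (y : R) : (Zz y) 0 0 = 1 + y := rfl
theorem Zz01 (y : R) : (Zz y) 0 1 = -y := rfl
theorem Zz10 (y : R) : (Zz y) 1 0 = y := rfl
theorem Zz11 (y : R) : (Zz y) 1 1 = 1 - y := rfl

theorem conjS (E y : R) (hE : E * E = E) (hy : E * y = y) :
    (Sv E hE)⁻¹ * Ll y * Sv E hE = Uu (-y) := by
  have h : Ll y * Sv E hE = Sv E hE * Uu (-y) := by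
    apply sl_ext
    · rw [mul_00, mul_00, Ll00, Ll01, Sv00, Sv10, Sv01, Uu00, Uu10]; ring
    · rw [mul_01, mul_01, Ll00, Ll01, Sv00, Sv01, Sv11, Uu01, Uu11]
      linear_combination (-1 : R) * hy
    · rw [mul_10, mul_10, Ll10, Ll11, Sv00, Sv10, Sv11, Uu00, Uu10]
      linear_combination (-1 : R) * hy
    · rw [mul_11, mul_11, Ll10, Ll11, Sv01, Sv11, Sv10, Uu01, Uu11]
      ring
  rw [mul_assoc, h, inv_mul_cancel_left]

theorem conjU (E y : R) (hy : E * y = y) :
    (Uu (-E))⁻¹ * Ll y * Uu (-E) = Zz y := by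
  have h : Ll y * Uu (-E) = Uu (-E) * Zz y := by
    apply sl_ext
    · rw [mul_00, mul_00, Ll00, Ll01, Uu00, Uu10, Uu01, Zz00, Zz10]
      linear_combination hy
    · rw [mul_01, mul_01, Ll00, Ll01, Uu00, Uu01, Uu11, Zz01, Zz11]
      linear_combination (-1 : R) * hy
    · rw [mul_10, mul_10, Ll10, Ll11, Uu00, Uu10, Uu11, Zz00, Zz10]
      ring
    · rw [mul_11, mul_11, Ll10, Ll11, Uu01, Uu10, Uu11, Zz01, Zz11]
      linear_combination (-1 : R) * hy
  rw [mul_assoc, h, inv_mul_cancel_left]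

theorem det_eq (x : Matrix.SpecialLinearGroup (Fin 2) R) :
    x 0 0 * x 1 1 - x 0 1 * x 1 0 = 1 := by
  have := x.det_coe
  rw [Matrix.det_fin_two] at this
  exact this

/-- case `n ≥ 2` -/
theorem absA (Y : R) (hY : Y * Y = 0) (P : Subgroup (Matrix.SpecialLinearGroup (Fin 2) R))
    (hL : ∀ r, Ll (Y * r) ∈ P) (hU : ∀ r, Uu (Y * r) ∈ P) (hZ : ∀ r, Zz (Y * r) ∈ P)
    (x : Matrix.SpecialLinearGroup (Fin 2) R) (α β γ δ : R)
    (h00 : x 0 0 = 1 + Y * α) (h01 : x 0 1 = Y * β) (h10 : x 1 0 = Y * γ)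
    (h11 : x 1 1 = 1 + Y * δ) : x ∈ P := by
  have hd := det_eq x
  rw [h00, h01, h10, h11] at hd
  have h11' : x 1 1 = 1 - Y * α := by
    rw [h11]
    linear_combination hd - (α * δ - β * γ) * hY
  have hx : x = Ll (Y * (γ - α)) * Zz (Y * α) * Uu (Y * (β + α)) := by
    apply sl_ext
    · rw [mul_00, mul_00, mul_01, Ll00, Ll01, Zz00, Zz10, Zz01, Zz11, Uu00, Uu10, h00]
      ring
    · rw [mul_01, mul_00, mul_01, Ll00, Ll01, Zz00, Zz10, Zz01, Zz11, Uu01, Uu11, h01]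
      linear_combination (-(α * (β + α))) * hY
    · rw [mul_10, mul_10, mul_11, Ll10, Ll11, Zz00, Zz10, Zz01, Zz11, Uu00, Uu10, h10]
      linear_combination (-((γ - α) * α)) * hY
    · rw [mul_11, mul_10, mul_11, Ll10, Ll11, Zz00, Zz10, Zz01, Zz11, Uu01, Uu11, h11']
      linear_combination (-(γ - α) * (1 + Y * α) * (β + α) - α * (β + α) + (γ - α) * α) * hY
  rw [hx]
  exact P.mul_mem (P.mul_mem (hL _) (hZ _)) (hU _)

/-- case `n = 1`, first half -/
theorem absB1 (Y E : R) (hEY : E * Y = Y)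
    (P : Subgroup (Matrix.SpecialLinearGroup (Fin 2) R))
    (hL : ∀ r, Ll (Y * r) ∈ P) (hU : ∀ r, Uu (Y * r) ∈ P)
    (x : Matrix.SpecialLinearGroup (Fin 2) R) (α β γ δ s : R)
    (h00 : x 0 0 = 1 + Y * α) (h01 : x 0 1 = Y * β) (h10 : x 1 0 = Y * γ)
    (h11 : x 1 1 = 1 + Y * δ) (hs : Y * γ * s = E) : x ∈ P := by
  have hd := det_eq x
  rw [h00, h01, h10, h11] at hd
  have hx : x = Uu (Y * (α * (E * s))) * Ll (Y * γ) * Uu (Y * (δ * (E * s))) := by
    apply sl_ext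
    · rw [mul_00, mul_00, mul_01, Uu00, Uu01, Ll00, Ll10, Ll01, Ll11, Uu00, Uu10, h00]
      linear_combination (-(Y * α * E)) * hs + (-α * E - α) * hEY
    · rw [mul_01, mul_00, mul_01, Uu00, Uu01, Ll00, Ll10, Ll01, Ll11, Uu01, Uu11, h01]
      linear_combination (-(Y * α * (Y * δ) * E ^ 2 * s + Y * β * E)) * hs - E * s * hd
        - (β + β * E + α * (Y * δ) * E * s + α * (Y * δ) * E ^ 2 * s) * hEY
    · rw [mul_10, mul_10, mul_11, Uu10, Uu11, Ll00, Ll10, Ll01, Ll11, Uu00, Uu10, h10]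
      ring
    · rw [mul_11, mul_10, mul_11, Uu10, Uu11, Ll00, Ll10, Ll01, Ll11, Uu01, Uu11, h11]
      linear_combination (-(Y * δ * E)) * hs + (-δ * E - δ) * hEY
  rw [hx]
  exact P.mul_mem (P.mul_mem (hU _) (hL _)) (hU _)

/-- case `n = 1` -/
theorem absB (Y E k : R) (hEY : E * Y = Y) (hk : E = Y * k) (hE0 : E ≠ 0)
    (hfield : ∀ r : R, Y * r = 0 ∨ ∃ s, Y * r * s = E)
    (P : Subgroup (Matrix.SpecialLinearGroup (Fin 2) R))
    (hL : ∀ r, Ll (Y * r) ∈ P) (hU : ∀ r, Uu (Y * r) ∈ P)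
    (x : Matrix.SpecialLinearGroup (Fin 2) R) (α β γ δ : R)
    (h00 : x 0 0 = 1 + Y * α) (h01 : x 0 1 = Y * β) (h10 : x 1 0 = Y * γ)
    (h11 : x 1 1 = 1 + Y * δ) : x ∈ P := by
  rcases hfield γ with h | ⟨s, hs⟩
  · have hd := det_eq x
    rw [h00, h01, h10, h11, h] at hd
    have hx2 : x * Ll E ∈ P := by
      have h2 : Y * (k + δ) ≠ 0 := by
        intro h0
        apply hE0
        have h3 : E * (1 + Y * δ) = 0 := by
          have : E * (1 + Y * δ) = Y * (k + δ) := by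
            linear_combination δ * hEY + hk
          rw [this, h0]
        linear_combination (-E) * hd + (1 + Y * α) * h3
      rcases hfield (k + δ) with h4 | ⟨s, hs⟩
      · exact absurd h4 h2
      · refine absB1 Y E hEY P hL hU (x * Ll E) (α + β) β (k + δ) δ s ?_ ?_ ?_ ?_ hs
        · rw [mul_00, Ll00, Ll10, h00, h01]
          linear_combination β * hEY
        · rw [mul_01, Ll01, Ll11, h01]; ring
        · rw [mul_10, Ll00, Ll10, h10, h11, h]
          linear_combination δ * hEY + hk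
        · rw [mul_11, Ll01, Ll11, h11]; ring
    have hx3 : Ll E ∈ P := by rw [hk]; exact hL k
    have : x = (x * Ll E) * (Ll E)⁻¹ := by rw [mul_inv_cancel_right]
    rw [this]
    exact P.mul_mem hx2 (P.inv_mem hx3)
  · exact absB1 Y E hEY P hL hU x α β γ δ s h00 h01 h10 h11 hs

end ring

/-- entries of elements of `KK c d` -/
theorem mem_KK (h1 : StKER) (h2 : StSURJ) (c d : ℕ) (hc : 1 ≤ c) (hd : d ∣ c) (x : SG c) :
    x ∈ KK c d ↔ ∀ i j, ZMod.castHom hd (ZMod d) (x i j) = (1 : Matrix (Fin 2) (Fin 2) (ZMod d)) i j := by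
  obtain ⟨g, rfl⟩ := h2 c hc x
  rw [(h1 c d hc hd).2.1 g]
  have e1 : ∀ i j, ZMod.castHom hd (ZMod d) ((red c g) i j) = (red d g) i j := by
    intro i j
    have a1 : (red c g) i j = ((g i j : ℤ) : ZMod c) := rfl
    have a2 : (red d g) i j = ((g i j : ℤ) : ZMod d) := rfl
    rw [a1, a2, map_intCast]
  simp only [e1]
  constructor
  · intro h i j
    rw [h]; rfl
  · intro h
    apply Matrix.SpecialLinearGroup.ext
    intro i j
    rw [h i j]; rfl

theorem ker_cast (c d : ℕ) (hd : d ∣ c) (y : ZMod c) (h : ZMod.castHom hd (ZMod d) y = 0) :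
    ∃ r : ZMod c, y = (d : ZMod c) * r := by
  obtain ⟨z, rfl⟩ := ZMod.intCast_surjective y
  rw [map_intCast, ZMod.intCast_zmod_eq_zero_iff_dvd] at h
  obtain ⟨k, hk⟩ := h
  refine ⟨(k : ZMod c), ?_⟩
  rw [hk]; push_cast; ring

theorem thm (h1 : StKER) (h2 : StSURJ) : StGEN := by
  intro c q hc hq x hx
  have hqp : q.Prime := Nat.prime_of_mem_primeFactors hq
  have hqc : q ∣ c := Nat.dvd_of_mem_primeFactors hq
  have hc0 : c ≠ 0 := by omega
  set n := c.factorization q with hn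
  have hn1 : 1 ≤ n := by
    rw [hn]
    exact (hqp.dvd_iff_one_le_factorization hc0).1 hqc
  set c' := c / q ^ n with hc'
  have hcc : q ^ n * c' = c := Nat.mul_div_cancel' (Nat.ordProj_dvd c q)
  have hcop : Nat.Coprime q c' := Nat.coprime_ordCompl hqp hc0
  have hcq : c / q = q ^ (n - 1) * c' := by
    apply Nat.div_eq_of_eq_mul_left hqp.pos
    calc c = q ^ n * c' := hcc.symm
      _ = q ^ (n - 1 + 1) * c' := by rw [Nat.sub_add_cancel hn1]
      _ = q ^ (n - 1) * c' * q := by rw [pow_succ]; ring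
  have hcop2 : IsCoprime ((q : ℤ) ^ n) (c' : ℤ) := by
    apply IsCoprime.pow_left
    exact Nat.isCoprime_iff_coprime.2 hcop
  obtain ⟨u, v, huv⟩ := hcop2
  -- `u * q^n + v * c' = 1`
  set R := ZMod c with hR
  set E : ZMod c := ((v * c' : ℤ) : ZMod c) with hEdef
  set Y : ZMod c := ((c / q : ℕ) : ZMod c) with hYdef
  have hz : ∀ w : ℤ, (c : ℤ) ∣ w → ((w : ℤ) : ZMod c) = 0 := by
    intro w hw
    exact (ZMod.intCast_zmod_eq_zero_iff_dvd w c).2 hw
  have hcz : (c : ℤ) = (q : ℤ) ^ n * c' := by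
    exact_mod_cast hcc.symm
  have hYz : Y = (((q : ℤ) ^ (n - 1) * c' : ℤ) : ZMod c) := by
    rw [hYdef, hcq]; push_cast; ring
  have hE : E * E = E := by
    have : ((v * c' * (v * c') - v * c' : ℤ) : ZMod c) = 0 := by
      apply hz
      rw [hcz]
      exact ⟨-(v * u), by linear_combination (v * c') * huv⟩
    have h3 : E * E - E = 0 := by rw [hEdef]; push_cast at this ⊢; exact this
    exact sub_eq_zero.1 h3
  have hq1 : (q : ℤ) ^ n = q ^ (n - 1) * q := by
    rw [← pow_succ, Nat.sub_add_cancel hn1]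
  have hEY : E * Y = Y := by
    have : ((v * c' * (q ^ (n - 1) * c') - q ^ (n - 1) * c' : ℤ) : ZMod c) = 0 := by
      apply hz
      rw [hcz]
      exact ⟨-(u * q ^ (n - 1)), by linear_combination (q ^ (n - 1) * c' : ℤ) * huv⟩
    have h3 : E * Y - Y = 0 := by rw [hYz, hEdef]; push_cast at this ⊢; exact this
    exact sub_eq_zero.1 h3
  set P := Subgroup.closure {x : SG c | ∃ g ∈ KK c c', ∃ t : ℤ,
      x = g⁻¹ * red c (Ll (t * ((c / q : ℕ) : ℤ))) * g} with hP
  have hc'c : c' ∣ c := ⟨q ^ n, by rw [mul_comm]; exact hcc.symm⟩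
  have hredL : ∀ w : ℤ, red c (Ll w) = Ll ((w : ℤ) : ZMod c) := by
    intro w
    apply sl_ext
    · show ((1 : ℤ) : ZMod c) = 1
      simp
    · show ((0 : ℤ) : ZMod c) = 0
      simp
    · rfl
    · show ((1 : ℤ) : ZMod c) = 1
      simp
  have hconj : ∀ g ∈ KK c c', ∀ r : ZMod c, g⁻¹ * Ll (Y * r) * g ∈ P := by
    intro g hg r
    obtain ⟨t, rfl⟩ := ZMod.intCast_surjective r
    apply Subgroup.subset_closure
    refine ⟨g, hg, t, ?_⟩
    rw [hredL]
    congr 3
    rw [hYdef, Int.cast_mul, Int.cast_natCast, mul_comm]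
  have hL : ∀ r : ZMod c, Ll (Y * r) ∈ P := by
    intro r
    have := hconj 1 (Subgroup.one_mem _) r
    simpa using this
  have hEc : ZMod.castHom hc'c (ZMod c') E = 0 := by
    rw [hEdef, map_intCast, ZMod.intCast_zmod_eq_zero_iff_dvd]
    exact Dvd.intro_left v rfl
  have hS : Sv E hE ∈ KK c c' := by
    rw [mem_KK h1 h2 c c' hc hc'c]
    intro i j
    fin_cases i <;> fin_cases j
    · show ZMod.castHom hc'c (ZMod c') (1 - E) = 1
      rw [map_sub, hEc, map_one, sub_zero]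
    · show ZMod.castHom hc'c (ZMod c') E = 0
      exact hEc
    · show ZMod.castHom hc'c (ZMod c') (-E) = 0
      rw [map_neg, hEc, neg_zero]
    · show ZMod.castHom hc'c (ZMod c') (1 - E) = 1
      rw [map_sub, hEc, map_one, sub_zero]
  have hUE : Uu (-E) ∈ KK c c' := by
    rw [mem_KK h1 h2 c c' hc hc'c]
    intro i j
    fin_cases i <;> fin_cases j
    · show ZMod.castHom hc'c (ZMod c') 1 = 1
      rw [map_one]
    · show ZMod.castHom hc'c (ZMod c') (-E) = 0
      rw [map_neg, hEc, neg_zero]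
    · show ZMod.castHom hc'c (ZMod c') 0 = 0
      rw [map_zero]
    · show ZMod.castHom hc'c (ZMod c') 1 = 1
      rw [map_one]
  have hEYr : ∀ r : ZMod c, E * (Y * r) = Y * r := by
    intro r; rw [← mul_assoc, hEY]
  have hU : ∀ r : ZMod c, Uu (Y * r) ∈ P := by
    intro r
    have := hconj _ hS (-r)
    rw [conjS E (Y * -r) hE (hEYr _)] at this
    have e : -(Y * -r) = Y * r := by ring
    rwa [e] at this
  have hdx : c / q ∣ c := Nat.div_dvd_of_dvd hqc
  rw [mem_KK h1 h2 c (c / q) hc hdx] at hx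
  have ex : ∀ i j, ∃ r : ZMod c, x i j = (1 : Matrix (Fin 2) (Fin 2) (ZMod c)) i j + Y * r := by
    intro i j
    have h3 : ZMod.castHom hdx (ZMod (c / q))
        (x i j - (1 : Matrix (Fin 2) (Fin 2) (ZMod c)) i j) = 0 := by
      rw [map_sub, hx i j]
      simp only [Matrix.one_apply]
      split_ifs <;> simp only [map_one, map_zero, sub_self]
    obtain ⟨r, hr⟩ := ker_cast c (c / q) hdx _ h3
    exact ⟨r, by rw [← hr]; ring⟩
  obtain ⟨α, h00⟩ := ex 0 0
  obtain ⟨β, h01⟩ := ex 0 1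
  obtain ⟨γ, h10⟩ := ex 1 0
  obtain ⟨δ, h11⟩ := ex 1 1
  rw [Matrix.one_apply_eq] at h00 h11
  rw [Matrix.one_apply_ne (by decide), zero_add] at h01 h10
  by_cases hn2 : 2 ≤ n
  · have hYY : Y * Y = 0 := by
      have : (((q : ℤ) ^ (n - 1) * c' * (q ^ (n - 1) * c') : ℤ) : ZMod c) = 0 := by
        apply hz
        rw [hcz]
        refine ⟨q ^ (n - 2) * c', ?_⟩
        have e : (q : ℤ) ^ (n - 1) * q ^ (n - 1) = q ^ n * q ^ (n - 2) := by
          rw [← pow_add, ← pow_add]; congr 1; omega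
        linear_combination (c' * c' : ℤ) * e
      rw [hYz]; push_cast at this ⊢; exact this
    have hZ : ∀ r : ZMod c, Zz (Y * r) ∈ P := by
      intro r
      have := hconj _ hUE r
      rwa [conjU E (Y * r) (hEYr _)] at this
    exact absA Y hYY P hL hU hZ x α β γ δ h00 h01 h10 h11
  · have hn' : n = 1 := by omega
    have hYz1 : Y = ((c' : ℤ) : ZMod c) := by
      rw [hYz, hn']; simp
    have hcz1 : (c : ℤ) = q * c' := by rw [hcz, hn', pow_one]
    rw [hn', pow_one] at huv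
    have hk : E = Y * ((v : ℤ) : ZMod c) := by
      rw [hYz1, hEdef]; push_cast; ring
    have hE0 : E ≠ 0 := by
      intro h0
      rw [hEdef, ZMod.intCast_zmod_eq_zero_iff_dvd, hcz1] at h0
      obtain ⟨w, hw⟩ := h0
      have hq2 : (q : ℤ) ∣ 1 := ⟨u + w * c', by linear_combination (-1 : ℤ) * huv + hw⟩
      have := Int.natCast_dvd_natCast.1 (by simpa using hq2 : (q : ℤ) ∣ ((1 : ℕ) : ℤ))
      exact hqp.one_lt.ne' (Nat.dvd_one.1 this)
    have hfield : ∀ r : ZMod c, Y * r = 0 ∨ ∃ s, Y * r * s = E := by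
      intro r
      obtain ⟨z, rfl⟩ := ZMod.intCast_surjective r
      by_cases hqz : (q : ℤ) ∣ z
      · left
        obtain ⟨w, rfl⟩ := hqz
        have : ((c' * (q * w) : ℤ) : ZMod c) = 0 := by
          apply hz
          rw [hcz1]
          exact ⟨w, by ring⟩
        rw [hYz1]; push_cast at this ⊢; exact this
      · right
        have hcz' : IsCoprime (q : ℤ) z := by
          rw [Int.isCoprime_iff_gcd_eq_one]
          have hpr : Prime (q : ℤ) := Nat.prime_iff_prime_int.1 hqp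
          exact Int.isCoprime_iff_gcd_eq_one.1 ((Prime.coprime_iff_not_dvd hpr).2 hqz)
        obtain ⟨a, b, hab⟩ := hcz'
        refine ⟨((b * v : ℤ) : ZMod c), ?_⟩
        have : ((c' * z * (b * v) - v * c' : ℤ) : ZMod c) = 0 := by
          apply hz
          rw [hcz1]
          exact ⟨-(a * v), by linear_combination (c' * v : ℤ) * hab⟩
        have h3 : Y * (z : ZMod c) * ((b * v : ℤ) : ZMod c) - E = 0 := by
          rw [hYz1, hEdef]; push_cast at this ⊢; exact this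
        exact sub_eq_zero.1 h3
    exact absB Y E _ hEY hk hE0 hfield P hL hU x α β γ δ h00 h01 h10 h11

end Pool.Agent.Helper28.SP.GEN
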