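import Pool.Agent.Helper28.SP.St

/-! Project SR, module KER: kernels of reduction. -/

set_option autoImplicit false

namespace Pool.Agent.Helper28.SP.KER

open Pool.Agent.Helper28.SP

/-- reduction `SL_2(ℤ/c) → SL_2(ℤ/d)` -/
private def pr (c d : ℕ) (h : d ∣ c) : SG c →* SG d :=
  Matrix.SpecialLinearGroup.map (ZMod.castHom h (ZMod d))

private theorem pr_red (c d : ℕ) (h : d ∣ c) (g : SZ) : pr c d h (red c g) = red d g := by
  unfold pr red
  have : (ZMod.castHom h (ZMod d)).comp (Int.castRingHom (ZMod c)) = Int.castRingHom (ZMod d) :=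
    RingHom.ext_int _ _
  apply Subtype.ext
  ext i j
  simp [Matrix.SpecialLinearGroup.map_apply_coe]

private theorem mem_KK (c d : ℕ) (h : d ∣ c) (g : SZ) : red c g ∈ KK c d ↔ red d g = 1 := by
  constructor
  · rintro ⟨k, hk, hk2⟩
    have hk' : red d k = 1 := hk
    rw [← pr_red c d h g, ← hk2, pr_red, hk']
  · intro hg
    exact ⟨g, hg, rfl⟩

theorem thm (hS : StSURJ) : StKER := by
  intro c d hc hdc
  have hd : 1 ≤ d := Nat.pos_of_dvd_of_pos hdc hc
  have hsc := hS c hc
  have hsd := hS d hd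
  have hker : (pr c d hdc).ker = KK c d := by
    ext x
    obtain ⟨g, rfl⟩ := hsc x
    rw [MonoidHom.mem_ker, pr_red, mem_KK c d hdc]
  refine ⟨?_, mem_KK c d hdc, ?_, ?_⟩
  · rw [← hker]
    infer_instance
  · have hsurj : Function.Surjective (pr c d hdc) := by
      intro y
      obtain ⟨g, rfl⟩ := hsd y
      exact ⟨red c g, pr_red c d hdc g⟩
    have h1 := Subgroup.card_mul_index (pr c d hdc).ker
    rw [Subgroup.index_ker, MonoidHom.range_eq_top.2 hsurj, Subgroup.card_top, hker] at h1
    exact h1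
  · intro e hed x hx
    obtain ⟨g, rfl⟩ := hsc x
    rw [mem_KK c d hdc] at hx
    rw [mem_KK c e (hed.trans hdc), ← pr_red d e hed, hx, map_one]

end Pool.Agent.Helper28.SP.KER
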