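import Pool.Agent.Helper28.SP.St

set_option autoImplicit false

namespace Pool.Agent.Helper28.SP.LA

open Finset Matrix
open scoped ComplexOrder
open Pool.Agent.Helper28.SP

variable {n : Type} [Fintype n] [DecidableEq n]

theorem trConj (V M : Matrix n n ℂ) (h : V * star V = 1) :
    (star V * M * V).trace = M.trace := by
  rw [Matrix.trace_mul_comm, ← mul_assoc, h, one_mul]

theorem exDiag (Y : Matrix n n ℂ) (hY : Y.IsHermitian) :
    ∃ (V : Matrix n n ℂ) (l : n → ℝ), star V * V = 1 ∧ V * star V = 1 ∧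
      V ∈ Matrix.unitaryGroup n ℂ ∧ Y * V = V * diagonal (fun i => (l i : ℂ)) := by
  refine ⟨(hY.eigenvectorUnitary : Matrix n n ℂ), hY.eigenvalues, ?_, ?_, ?_, ?_⟩
  · exact Unitary.coe_star_mul_self _
  · exact Unitary.coe_mul_star_self _
  · exact hY.eigenvectorUnitary.2
  · have h := hY.conjStarAlgAut_star_eigenvectorUnitary
    rw [Unitary.conjStarAlgAut_star_apply] at h
    have h2 : (hY.eigenvectorUnitary : Matrix n n ℂ) * star (hY.eigenvectorUnitary : Matrix n n ℂ)
        = 1 := Unitary.coe_mul_star_self _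
    have h3 : (diagonal (fun i => ((hY.eigenvalues i : ℝ) : ℂ)) : Matrix n n ℂ) =
        star (hY.eigenvectorUnitary : Matrix n n ℂ) * Y * (hY.eigenvectorUnitary : Matrix n n ℂ) := by
      rw [h]; rfl
    rw [h3, ← mul_assoc, ← mul_assoc, h2, one_mul]

theorem powComm (Y V : Matrix n n ℂ) (l : n → ℝ) (h : Y * V = V * diagonal (fun i => (l i : ℂ)))
    (j : ℕ) : Y ^ j * V = V * diagonal (fun i => ((l i : ℂ)) ^ j) := by
  induction j with
  | zero => simp
  | succ j ih =>
    rw [pow_succ, mul_assoc, h, ← mul_assoc, ih, mul_assoc, Matrix.diagonal_mul_diagonal]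
    congr 1

theorem posPow (X : Matrix n n ℂ) (k : ℕ) (hX : X.IsHermitian) (h : Even k ∨ X.PosSemidef) :
    (X ^ k).PosSemidef := by
  rcases h with h | h
  · obtain ⟨r, rfl⟩ := h
    have : X ^ (r + r) = (X ^ r)ᴴ * X ^ r := by
      rw [Matrix.conjTranspose_pow, hX.eq, pow_add]
    rw [this]
    exact Matrix.posSemidef_conjTranspose_mul_self _
  · exact h.pow k

theorem mulDiag (M : Matrix n n ℂ) (d : n → ℂ) (a i : n) :
    (M * diagonal d) a i = M a i * d i := by
  rw [Matrix.mul_diagonal]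

theorem main (X Q U : Matrix n n ℂ) (k j : ℕ) (m : ℝ)
    (hX : X.IsHermitian) (hQ : Q.IsHermitian) (hQQ : Q * Q = Q) (hXQ : X * Q = Q * X)
    (hU : U ∈ Matrix.unitaryGroup n ℂ) (hk : 1 ≤ k) (hkj : k ≤ j)
    (hpos : Even k ∨ X.PosSemidef) (hm : 0 < m)
    (hyp : ∀ (l : ℝ) (v : n → ℂ), l ≠ 0 → v ≠ 0 → X *ᵥ v = (l : ℂ) • v → Q *ᵥ v = v →
      m * |l| ^ k ≤ ((X ^ k).trace).re) :
    ‖(U * X ^ j * Q).trace‖ ≤
      (((X ^ k).trace).re / m) ^ (((j : ℝ) - k) / k) * ((X ^ k).trace).re := by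
  set S : ℝ := ((X ^ k).trace).re with hS
  set Y : Matrix n n ℂ := X * Q with hYdef
  have hY : Y.IsHermitian := by
    unfold Matrix.IsHermitian
    rw [hYdef, Matrix.conjTranspose_mul, hQ.eq, hX.eq, ← hXQ, hYdef]
  have hQY : Q * Y = Y := by
    rw [hXQ, ← mul_assoc, hQQ]
  obtain ⟨V, l, hV1, hV2, hV, hYV⟩ := exDiag Y hY
  -- powers
  have hQpow : ∀ i : ℕ, 1 ≤ i → Q ^ i = Q := by
    intro i hi
    induction i, hi using Nat.le_induction with
    | base => simp
    | succ i hi ih => rw [pow_succ, ih, hQQ]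
  have hj1 : 1 ≤ j := le_trans hk hkj
  have hXj : X ^ j * Q = Y ^ j := by
    have hc : Commute X Q := (hYdef.symm.trans hXQ)
    rw [hYdef, hc.mul_pow, hQpow j hj1]
  -- columns
  have hXV : ∀ i, l i ≠ 0 → ∀ a, (X * V) a i = (l i : ℂ) * V a i := by
    intro i hi a
    have h1 : (Q * V) * diagonal (fun i => (l i : ℂ)) = V * diagonal (fun i => (l i : ℂ)) := by
      rw [mul_assoc, ← hYV, ← mul_assoc, hQY]
    have h2 : ∀ b, (Q * V) b i = V b i := by
      intro b
      have := congrFun (congrFun h1 b) i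
      rw [mulDiag, mulDiag] at this
      exact mul_right_cancel₀ (Complex.ofReal_ne_zero.2 hi) this
    have h3 : (X * V) a i = (X * (Q * V)) a i := by
      rw [Matrix.mul_apply, Matrix.mul_apply]
      exact Finset.sum_congr rfl fun b _ => by rw [h2 b]
    rw [h3, ← mul_assoc, ← hYdef, hYV, mulDiag, mul_comm]
  have hQV : ∀ i, l i ≠ 0 → ∀ b, (Q * V) b i = V b i := by
    intro i hi b
    have h1 : (Q * V) * diagonal (fun i => (l i : ℂ)) = V * diagonal (fun i => (l i : ℂ)) := by
      rw [mul_assoc, ← hYV, ← mul_assoc, hQY]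
    have := congrFun (congrFun h1 b) i
    rw [mulDiag, mulDiag] at this
    exact mul_right_cancel₀ (Complex.ofReal_ne_zero.2 hi) this
  have hXkV : ∀ i, l i ≠ 0 → ∀ (q : ℕ) (a : n), (X ^ q * V) a i = (l i : ℂ) ^ q * V a i := by
    intro i hi q
    induction q with
    | zero => intro a; simp
    | succ q ih =>
      intro a
      rw [pow_succ', mul_assoc, Matrix.mul_apply]
      have : ∀ b, X a b * (X ^ q * V) b i = (l i : ℂ) ^ q * (X a b * V b i) := by
        intro b; rw [ih b]; ring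
      rw [Finset.sum_congr rfl fun b _ => this b, ← Finset.mul_sum, ← Matrix.mul_apply, hXV i hi]
      ring
  -- diagonal entries of `V* X^k V`
  set T : Matrix n n ℂ := star V * X ^ k * V with hT
  have hTpos : T.PosSemidef := by
    have := (posPow X k hX hpos).conjTranspose_mul_mul_same V
    rw [hT, Matrix.star_eq_conjTranspose]
    exact this
  have hTtr : T.trace = (X ^ k).trace := trConj V _ hV2
  have hTii : ∀ i, l i ≠ 0 → T i i = (l i : ℂ) ^ k := by
    intro i hi
    rw [hT, mul_assoc, Matrix.mul_apply]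
    have h1 : ∀ b, (star V) i b * (X ^ k * V) b i = (l i : ℂ) ^ k * ((star V) i b * V b i) := by
      intro b; rw [hXkV i hi]; ring
    rw [Finset.sum_congr rfl fun b _ => h1 b, ← Finset.mul_sum, ← Matrix.mul_apply, hV1,
      Matrix.one_apply_eq, mul_one]
  have hTre : ∀ i, 0 ≤ (T i i).re := by
    intro i
    have := hTpos.diag_nonneg (i := i)
    exact (Complex.le_def.1 this).1
  have hlk : ∀ i, l i ≠ 0 → |l i| ^ k = (T i i).re := by
    intro i hi
    have h1 : (T i i).re = (l i) ^ k := by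
      rw [hTii i hi, ← Complex.ofReal_pow, Complex.ofReal_re]
    rw [h1, ← abs_pow, abs_of_nonneg]
    rw [← h1]; exact hTre i
  have hSsum : S = ∑ i, (T i i).re := by
    rw [hS, ← hTtr, Matrix.trace, Complex.re_sum]; rfl
  have hS0 : 0 ≤ S := by
    rw [hSsum]; exact Finset.sum_nonneg fun i _ => hTre i
  have hsum : ∑ i, (if l i = 0 then 0 else |l i| ^ k) ≤ S := by
    rw [hSsum]
    refine Finset.sum_le_sum fun i _ => ?_
    split_ifs with h
    · exact hTre i
    · exact (hlk i h).le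
  have hbound : ∀ i, l i ≠ 0 → |l i| ^ k ≤ S / m := by
    intro i hi
    rw [le_div_iff₀ hm, mul_comm]
    refine hyp (l i) (fun a => V a i) hi ?_ ?_ ?_
    · intro h0
      have h1 : (star V * V) i i = 0 := by
        rw [Matrix.mul_apply]
        refine Finset.sum_eq_zero fun b _ => ?_
        have : V b i = 0 := congrFun h0 b
        rw [this, mul_zero]
      rw [hV1, Matrix.one_apply_eq] at h1
      exact one_ne_zero h1
    · funext a
      have := hXV i hi a
      rw [Matrix.mul_apply] at this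
      simpa [Matrix.mulVec, dotProduct] using this
    · funext a
      have := hQV i hi a
      rw [Matrix.mul_apply] at this
      simpa [Matrix.mulVec, dotProduct] using this
  -- the trace
  have htr : (U * X ^ j * Q).trace = ∑ i, (star V * U * V) i i * (l i : ℂ) ^ j := by
    rw [mul_assoc, hXj, ← trConj V _ hV2]
    have : star V * (U * Y ^ j) * V = (star V * U * V) * diagonal (fun i => (l i : ℂ) ^ j) := by
      have h := powComm Y V l hYV j
      calc star V * (U * Y ^ j) * V = star V * U * (Y ^ j * V) := by simp only [mul_assoc]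
        _ = _ := by rw [h]; simp only [mul_assoc]
    rw [this, Matrix.trace]
    exact Finset.sum_congr rfl fun i _ => by rw [Matrix.diag_apply, mulDiag]
  have hunit : ∀ i, ‖(star V * U * V) i i‖ ≤ 1 := by
    intro i
    have hmem : star V * U * V ∈ Matrix.unitaryGroup n ℂ :=
      Submonoid.mul_mem _ (Submonoid.mul_mem _ (Unitary.star_mem hV) hU) hV
    exact entry_norm_bound_of_unitary hmem i i
  have hkpos : (0 : ℝ) < k := by exact_mod_cast hk
  have hjk : (0 : ℝ) ≤ (j : ℝ) - k := by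
    have : (k : ℝ) ≤ j := by exact_mod_cast hkj
    linarith
  have hterm : ∀ i, ‖(star V * U * V) i i * (l i : ℂ) ^ j‖ ≤
      (S / m) ^ (((j : ℝ) - k) / k) * (if l i = 0 then 0 else |l i| ^ k) := by
    intro i
    rw [norm_mul, norm_pow, Complex.norm_real, Real.norm_eq_abs]
    split_ifs with h
    · rw [h, abs_zero, zero_pow (by omega)]; simp
    · have ha : 0 ≤ |l i| := abs_nonneg _
      have h1 : |l i| ^ j = (|l i| ^ k) ^ (((j : ℝ) - k) / k) * |l i| ^ k := by
        rw [← Real.rpow_natCast (|l i|) k, ← Real.rpow_mul ha,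
          ← Real.rpow_natCast (|l i|) j, ← Real.rpow_add (abs_pos.2 h)]
        congr 1
        field_simp
        ring
      rw [h1]
      have h2 : (|l i| ^ k) ^ (((j : ℝ) - k) / k) ≤ (S / m) ^ (((j : ℝ) - k) / k) :=
        Real.rpow_le_rpow (pow_nonneg ha k) (hbound i h) (div_nonneg hjk hkpos.le)
      have h3 : 0 ≤ (|l i| ^ k) ^ (((j : ℝ) - k) / k) * |l i| ^ k :=
        mul_nonneg (Real.rpow_nonneg (pow_nonneg ha k) _) (pow_nonneg ha k)
      calc ‖(star V * U * V) i i‖ * ((|l i| ^ k) ^ (((j : ℝ) - k) / k) * |l i| ^ k)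
          ≤ 1 * ((|l i| ^ k) ^ (((j : ℝ) - k) / k) * |l i| ^ k) :=
            mul_le_mul_of_nonneg_right (hunit i) h3
        _ ≤ _ := by
          rw [one_mul]
          exact mul_le_mul_of_nonneg_right h2 (pow_nonneg ha k)
  calc ‖(U * X ^ j * Q).trace‖ = ‖∑ i, (star V * U * V) i i * (l i : ℂ) ^ j‖ := by rw [htr]
    _ ≤ ∑ i, ‖(star V * U * V) i i * (l i : ℂ) ^ j‖ := norm_sum_le _ _
    _ ≤ ∑ i, (S / m) ^ (((j : ℝ) - k) / k) * (if l i = 0 then 0 else |l i| ^ k) :=
        Finset.sum_le_sum fun i _ => hterm i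
    _ = (S / m) ^ (((j : ℝ) - k) / k) * ∑ i, (if l i = 0 then 0 else |l i| ^ k) := by
        rw [Finset.mul_sum]
    _ ≤ (S / m) ^ (((j : ℝ) - k) / k) * S :=
        mul_le_mul_of_nonneg_left hsum (Real.rpow_nonneg (div_nonneg hS0 hm.le) _)

theorem thm : StLA := by
  intro n _ _ X Q U k j m hX hQ hQQ hXQ hU hk hkj hpos hm hyp
  exact main X Q U k j m hX hQ hQQ hXQ hU hk hkj hpos hm hyp

end Pool.Agent.Helper28.SP.LA
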