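import Pool.Agent.Helper28.SP.St

/-!
# MP_e188f1_nt, spectral range, module LAM
-/

set_option autoImplicit false

namespace Pool.Agent.Helper28.SP.LAM

open Finset Matrix Pool.Agent.Helper28.SP
open scoped ComplexOrder

theorem lam_pos {G : Type} [Group G] {g x y : G} (h : x = g * y) :
    (lam g : Matrix G G ℂ) x y = 1 := by
  unfold lam
  simp [h]

theorem lam_neg {G : Type} [Group G] {g x y : G} (h : x ≠ g * y) :
    (lam g : Matrix G G ℂ) x y = 0 := by
  unfold lam
  simp [h]

theorem lam_mul {G : Type} [Group G] [Fintype G] (g h : G) :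
    (lam (g * h) : Matrix G G ℂ) = lam g * lam h := by
  ext x y
  rw [Matrix.mul_apply, Finset.sum_eq_single (h * y)]
  · rw [lam_pos (g := h) rfl, mul_one]
    by_cases hx : x = g * h * y
    · rw [lam_pos hx, lam_pos (by rw [hx, mul_assoc])]
    · rw [lam_neg hx, lam_neg (by rw [← mul_assoc]; exact hx)]
  · intro z _ hz
    rw [lam_neg hz, mul_zero]
  · intro h'; exact absurd (Finset.mem_univ _) h'

theorem lam_one {G : Type} [Group G] [DecidableEq G] : (lam (1 : G) : Matrix G G ℂ) = 1 := by
  ext x y
  by_cases h : x = y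
  · rw [lam_pos (by rw [one_mul]; exact h), h, Matrix.one_apply_eq]
  · rw [lam_neg (by rw [one_mul]; exact h), Matrix.one_apply_ne h]

theorem lam_star {G : Type} [Group G] (g : G) : (lam g : Matrix G G ℂ)ᴴ = lam g⁻¹ := by
  ext x y
  rw [Matrix.conjTranspose_apply]
  by_cases h : y = g * x
  · rw [lam_pos h, lam_pos (by rw [h, inv_mul_cancel_left]), star_one]
  · rw [lam_neg h, lam_neg (by rintro rfl; exact h (by rw [mul_inv_cancel_left])), star_zero]

theorem opX_pow {G : Type} [Group G] [Fintype G] [DecidableEq G] (ι : Type) (s : Finset ι)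
    (u : ι → G) (j : ℕ) : (opX s u) ^ j = ∑ g : G, (cnt s u j g : ℂ) • lam g := by
  induction j with
  | zero =>
    rw [pow_zero, Finset.sum_eq_single (1 : G)]
    · rw [lam_one]
      simp [cnt]
    · intro g _ hg
      simp [cnt, hg]
    · intro h; exact absurd (Finset.mem_univ _) h
  | succ j ih =>
    rw [pow_succ', ih]
    unfold opX
    rw [Finset.sum_mul]
    have h1 : ∀ i ∈ s, (lam (u i) : Matrix G G ℂ) * ∑ g : G, (cnt s u j g : ℂ) • lam g =
        ∑ g : G, (cnt s u j ((u i)⁻¹ * g) : ℂ) • lam g := by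
      intro i _
      rw [Finset.mul_sum]
      rw [← Equiv.sum_comp (Equiv.mulLeft (u i))
        (fun g : G => (cnt s u j ((u i)⁻¹ * g) : ℂ) • (lam g : Matrix G G ℂ))]
      apply Finset.sum_congr rfl
      intro g _
      rw [Matrix.mul_smul, ← lam_mul]
      simp only [Equiv.coe_mulLeft, inv_mul_cancel_left]
    rw [Finset.sum_congr rfl h1, Finset.sum_comm]
    apply Finset.sum_congr rfl
    intro g _
    rw [← Finset.sum_smul]
    congr 1
    simp only [cnt, Nat.cast_sum]

theorem thm : StLAM := by
  intro G _ _ _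
  refine ⟨lam_mul, lam_one, lam_star, ?_, ?_, ?_, opX_pow, ?_, ?_⟩
  · intro g
    rw [Matrix.mem_unitaryGroup_iff, Matrix.star_eq_conjTranspose, lam_star, ← lam_mul,
      mul_inv_cancel, lam_one]
  · intro g
    unfold Matrix.trace
    by_cases h : g = 1
    · rw [if_pos h]
      have h1 : ∀ x : G, (lam g : Matrix G G ℂ).diag x = 1 := by
        intro x
        rw [Matrix.diag_apply, lam_pos (by rw [h, one_mul])]
      rw [Finset.sum_congr rfl fun x _ => h1 x]
      simp
    · rw [if_neg h]
      apply Finset.sum_eq_zero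
      intro x _
      rw [Matrix.diag_apply, lam_neg]
      intro hx
      apply h
      exact (mul_eq_right.1 hx.symm)
  · intro g f x
    rw [Matrix.mulVec, dotProduct, Finset.sum_eq_single (g⁻¹ * x)]
    · rw [lam_pos (by rw [mul_inv_cancel_left]), one_mul]
    · intro y _ hy
      rw [lam_neg, zero_mul]
      intro h
      apply hy
      rw [h, inv_mul_cancel_left]
    · intro h; exact absurd (Finset.mem_univ _) h
  · intro ι s u hs
    obtain ⟨σ, hσ⟩ := hs
    unfold Matrix.IsHermitian opX
    rw [Matrix.conjTranspose_sum]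
    apply Finset.sum_bij' (fun i _ => σ i) (fun i _ => σ i)
    · intro i hi; exact (hσ i hi).1
    · intro i hi; exact (hσ i hi).1
    · intro i hi; exact (hσ i hi).2.1
    · intro i hi; exact (hσ i hi).2.1
    · intro i hi
      rw [lam_star, (hσ i hi).2.2]
  · intro ι s u hp
    obtain ⟨κ, t, z, hz⟩ := hp
    have h1 : (opX s u : Matrix G G ℂ) = (∑ a ∈ t, lam (z a))ᴴ * ∑ b ∈ t, lam (z b) := by
      ext x y
      have h2 := hz (fun g => (lam g : Matrix G G ℂ) x y)
      unfold opX
      rw [Matrix.sum_apply, h2, Matrix.conjTranspose_sum, Finset.sum_mul, Matrix.sum_apply]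
      apply Finset.sum_congr rfl
      intro a _
      rw [Finset.mul_sum, Matrix.sum_apply]
      apply Finset.sum_congr rfl
      intro b _
      rw [lam_star, lam_mul]
    rw [h1]
    exact Matrix.posSemidef_conjTranspose_mul_self _

end Pool.Agent.Helper28.SP.LAM
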