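import Pool.Agent.Helper28.SP.St

set_option autoImplicit false

namespace Pool.Agent.Helper28.SP.LEVEL

open Pool.Agent.Helper28.SP
open Finset Matrix
open Pool.Agent.Helper56.SW (τ)

/-- `e ≤ φ(e) τ(e)` -/
theorem le_totient_mul (e : ℕ) (he : 1 ≤ e) : (e : ℝ) ≤ (Nat.totient e : ℝ) * τ e := by
  have h1 : ∑ d ∈ e.divisors, Nat.totient d = e := Nat.sum_totient e
  have h2 : ∑ d ∈ e.divisors, Nat.totient d ≤ ∑ d ∈ e.divisors, Nat.totient e := by
    refine Finset.sum_le_sum (fun d hd => ?_)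
    exact Nat.le_of_dvd (Nat.totient_pos.2 he) (Nat.totient_dvd_of_dvd (Nat.dvd_of_mem_divisors hd))
  rw [h1, Finset.sum_const, smul_eq_mul] at h2
  unfold τ
  rw [mul_comm]
  exact_mod_cast h2

theorem tau_mono (e c : ℕ) (hc : 1 ≤ c) (h : e ∣ c) : τ e ≤ τ c := by
  unfold τ
  exact_mod_cast Finset.card_le_card (Nat.divisors_subset_of_dvd (by omega) h)

theorem one_le_tau (e : ℕ) (he : 1 ≤ e) : 1 ≤ τ e := by
  unfold τ
  have : 0 < e.divisors.card := Finset.card_pos.2 ⟨1, Nat.mem_divisors.2 ⟨one_dvd _, by omega⟩⟩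
  exact_mod_cast this

theorem add_rpow_le (x y p : ℝ) (hx : 0 ≤ x) (hy : 0 ≤ y) (hp : 0 ≤ p) :
    (x + y) ^ p ≤ 2 ^ p * (x ^ p + y ^ p) := by
  have hxp : 0 ≤ x ^ p := Real.rpow_nonneg hx p
  have hyp : 0 ≤ y ^ p := Real.rpow_nonneg hy p
  have h2p : (0 : ℝ) ≤ 2 ^ p := Real.rpow_nonneg (by norm_num) p
  rcases le_total x y with h | h
  · calc (x + y) ^ p ≤ (2 * y) ^ p := Real.rpow_le_rpow (by positivity) (by linarith) hp
      _ = 2 ^ p * y ^ p := Real.mul_rpow (by norm_num) hy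
      _ ≤ 2 ^ p * (x ^ p + y ^ p) := mul_le_mul_of_nonneg_left (by linarith) h2p
  · calc (x + y) ^ p ≤ (2 * x) ^ p := Real.rpow_le_rpow (by positivity) (by linarith) hp
      _ = 2 ^ p * x ^ p := Real.mul_rpow (by norm_num) hx
      _ ≤ 2 ^ p * (x ^ p + y ^ p) := mul_le_mul_of_nonneg_left (by linarith) h2p

/-- the bound for one level -/
theorem one_level (h1 : StTJ) (h2 : StCARD) (k j : ℕ) (ι : Type) (s : Finset ι) (w : ι → SZ)
    (hs : Sym s w) (hk : 1 ≤ k) (hkj : k ≤ j) (hpos : Even k ∨ Pos s w) (c : ℕ) (mu C1 t : ℝ)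
    (hc : 1 ≤ c) (hmu : 0 ≤ mu) (hC1 : 0 ≤ C1) (ht : 0 ≤ t) (e : ℕ) (he : e ∈ c.divisors)
    (hW : (W s w e k 1 : ℝ) * (e : ℝ) ^ 2 ≤ C1 * mu ^ k * (1 / e + t)) (g0 : SZ) :
    |∑ d ∈ e.divisors, (ArithmeticFunction.moebius (e / d) : ℝ) *
        ((Nat.card (SG d) : ℝ) * (W s w d j g0 : ℝ))| ≤
      (2 * τ c ^ 2) ^ j * 2 ^ j * (C1 ^ ((j : ℝ) / k) * mu ^ j * (1 + c * t ^ ((j : ℝ) / k))) := by
  have hec : e ∣ c := Nat.dvd_of_mem_divisors he
  have he1 : 1 ≤ e := Nat.pos_of_dvd_of_pos hec hc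
  have : NeZero e := ⟨by omega⟩
  have hle : (e : ℝ) ≤ c := by exact_mod_cast Nat.le_of_dvd hc hec
  have heR : (1 : ℝ) ≤ e := by exact_mod_cast he1
  have he0 : (0 : ℝ) < e := by linarith
  have hkR : (1 : ℝ) ≤ k := by exact_mod_cast hk
  have hk0 : (0 : ℝ) < k := by linarith
  have hkjR : (k : ℝ) ≤ j := by exact_mod_cast hkj
  have h3 := h1 e ι s w k j g0 hs hk hkj hpos
  refine h3.trans ?_
  have hφ : 0 < (Nat.totient e : ℝ) := by exact_mod_cast Nat.totient_pos.2 he1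
  have hφe := le_totient_mul e he1
  have hτ1 := one_le_tau e he1
  have hτc := one_le_tau c hc
  have hτec := tau_mono e c hc hec
  have hcard := (h2 e he1).2
  have hcardR : (Nat.card (SG e) : ℝ) ≤ (e : ℝ) ^ 3 := by exact_mod_cast hcard
  set A : ℝ := (Nat.card (SG e) : ℝ) * (W s w e k 1 : ℝ) with hA
  set Y : ℝ := C1 * mu ^ k * (1 / e + t) with hY
  have hY0 : 0 ≤ Y := by rw [hY]; positivity
  have hA0 : 0 ≤ A := by rw [hA]; positivity
  have hAY : A ≤ e * Y := by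
    calc A ≤ (e : ℝ) ^ 3 * (W s w e k 1 : ℝ) := mul_le_mul_of_nonneg_right hcardR (by positivity)
      _ = e * ((W s w e k 1 : ℝ) * (e : ℝ) ^ 2) := by ring
      _ ≤ e * Y := mul_le_mul_of_nonneg_left hW he0.le
  have hdiv : A / ((Nat.totient e : ℝ) / (2 * τ e)) ≤ 2 * τ c ^ 2 * Y := by
    rw [div_div_eq_mul_div, div_le_iff₀ hφ]
    calc A * (2 * τ e) ≤ (e * Y) * (2 * τ e) := mul_le_mul_of_nonneg_right hAY (by positivity)
      _ ≤ (((Nat.totient e : ℝ) * τ e) * Y) * (2 * τ e) := by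
          apply mul_le_mul_of_nonneg_right _ (by positivity)
          exact mul_le_mul_of_nonneg_right hφe hY0
      _ = (2 * (τ e ^ 2) * Y) * (Nat.totient e : ℝ) := by ring
      _ ≤ (2 * (τ c ^ 2) * Y) * (Nat.totient e : ℝ) := by
          apply mul_le_mul_of_nonneg_right _ hφ.le
          apply mul_le_mul_of_nonneg_right _ hY0
          apply mul_le_mul_of_nonneg_left _ (by norm_num)
          exact pow_le_pow_left₀ (by linarith) hτec 2
  have hexp0 : 0 ≤ ((j : ℝ) - k) / k := div_nonneg (by linarith) hk0.le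
  have hjk0 : 0 ≤ (j : ℝ) / k := by positivity
  have hjk1 : 1 ≤ (j : ℝ) / k := by rw [le_div_iff₀ hk0]; linarith
  have hexpj : ((j : ℝ) - k) / k ≤ j := by
    rw [div_le_iff₀ hk0]
    nlinarith
  have hjkj : (j : ℝ) / k ≤ j := by
    rw [div_le_iff₀ hk0]
    nlinarith
  have h2τ : 1 ≤ 2 * τ c ^ 2 := by nlinarith
  have hbase0 : 0 ≤ A / ((Nat.totient e : ℝ) / (2 * τ e)) := by positivity
  have s1 : (A / ((Nat.totient e : ℝ) / (2 * τ e))) ^ (((j : ℝ) - k) / k) ≤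
      (2 * τ c ^ 2 * Y) ^ (((j : ℝ) - k) / k) := Real.rpow_le_rpow hbase0 hdiv hexp0
  have s2 : (2 * τ c ^ 2 * Y) ^ (((j : ℝ) - k) / k) =
      (2 * τ c ^ 2) ^ (((j : ℝ) - k) / k) * Y ^ (((j : ℝ) - k) / k) :=
    Real.mul_rpow (by positivity) hY0
  have s3 : (2 * τ c ^ 2) ^ (((j : ℝ) - k) / k) ≤ (2 * τ c ^ 2) ^ j := by
    rw [← Real.rpow_natCast (2 * τ c ^ 2) j]
    exact Real.rpow_le_rpow_of_exponent_le h2τ hexpj
  have s4 : Y ^ (((j : ℝ) - k) / k) * Y = Y ^ ((j : ℝ) / k) := by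
    have h5 : (j : ℝ) / k = ((j : ℝ) - k) / k + 1 := by field_simp; ring
    rw [h5, Real.rpow_add_of_nonneg hY0 hexp0 (by norm_num), Real.rpow_one]
  have s5 : Y ^ ((j : ℝ) / k) = C1 ^ ((j : ℝ) / k) * mu ^ j * (1 / e + t) ^ ((j : ℝ) / k) := by
    rw [hY, Real.mul_rpow (by positivity) (by positivity), Real.mul_rpow hC1 (by positivity)]
    congr 2
    rw [← Real.rpow_natCast mu k, ← Real.rpow_mul hmu, mul_div_cancel₀ _ hk0.ne',
      Real.rpow_natCast]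
  have s6 : (e : ℝ) * (1 / e + t) ^ ((j : ℝ) / k) ≤
      2 ^ j * (1 + c * t ^ ((j : ℝ) / k)) := by
    have h6 := add_rpow_le (1 / e) t ((j : ℝ) / k) (by positivity) ht hjk0
    have h7 : (1 / (e : ℝ)) ^ ((j : ℝ) / k) ≤ 1 / e := by
      have h8 := Real.rpow_le_rpow_of_exponent_ge (x := 1 / (e : ℝ)) (by positivity)
        (by rw [div_le_one he0]; exact heR) hjk1
      rwa [Real.rpow_one] at h8
    have h9 : (2 : ℝ) ^ ((j : ℝ) / k) ≤ 2 ^ j := by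
      rw [← Real.rpow_natCast 2 j]
      exact Real.rpow_le_rpow_of_exponent_le (by norm_num) hjkj
    have htp : 0 ≤ t ^ ((j : ℝ) / k) := Real.rpow_nonneg ht _
    have hep : 0 ≤ (1 / (e : ℝ)) ^ ((j : ℝ) / k) := Real.rpow_nonneg (by positivity) _
    calc (e : ℝ) * (1 / e + t) ^ ((j : ℝ) / k)
        ≤ e * (2 ^ ((j : ℝ) / k) * ((1 / (e : ℝ)) ^ ((j : ℝ) / k) + t ^ ((j : ℝ) / k))) :=
          mul_le_mul_of_nonneg_left h6 he0.le
      _ = 2 ^ ((j : ℝ) / k) * (e * (1 / (e : ℝ)) ^ ((j : ℝ) / k) + e * t ^ ((j : ℝ) / k)) := by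
          ring
      _ ≤ 2 ^ ((j : ℝ) / k) * (1 + c * t ^ ((j : ℝ) / k)) := by
          apply mul_le_mul_of_nonneg_left _ (Real.rpow_nonneg (by norm_num) _)
          have h10 : (e : ℝ) * (1 / (e : ℝ)) ^ ((j : ℝ) / k) ≤ 1 := by
            calc (e : ℝ) * (1 / (e : ℝ)) ^ ((j : ℝ) / k) ≤ e * (1 / e) :=
                  mul_le_mul_of_nonneg_left h7 he0.le
              _ = 1 := by field_simp
          have h11 : (e : ℝ) * t ^ ((j : ℝ) / k) ≤ c * t ^ ((j : ℝ) / k) :=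
            mul_le_mul_of_nonneg_right hle htp
          linarith
      _ ≤ 2 ^ j * (1 + c * t ^ ((j : ℝ) / k)) :=
          mul_le_mul_of_nonneg_right h9 (by positivity)
  have hCm : 0 ≤ C1 ^ ((j : ℝ) / k) * mu ^ j := by
    have := Real.rpow_nonneg hC1 ((j : ℝ) / k)
    positivity
  calc (A / ((Nat.totient e : ℝ) / (2 * τ e))) ^ (((j : ℝ) - k) / k) * A
      ≤ ((2 * τ c ^ 2) ^ j * Y ^ (((j : ℝ) - k) / k)) * (e * Y) := by
        have hYp : 0 ≤ Y ^ (((j : ℝ) - k) / k) := Real.rpow_nonneg hY0 _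
        refine mul_le_mul ?_ hAY hA0 (by positivity)
        refine s1.trans ?_
        rw [s2]
        exact mul_le_mul_of_nonneg_right s3 hYp
    _ = (2 * τ c ^ 2) ^ j * (e * (Y ^ (((j : ℝ) - k) / k) * Y)) := by ring
    _ = (2 * τ c ^ 2) ^ j * ((C1 ^ ((j : ℝ) / k) * mu ^ j) *
          (e * (1 / e + t) ^ ((j : ℝ) / k))) := by rw [s4, s5]; ring
    _ ≤ (2 * τ c ^ 2) ^ j * ((C1 ^ ((j : ℝ) / k) * mu ^ j) *
          (2 ^ j * (1 + c * t ^ ((j : ℝ) / k)))) := by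
        apply mul_le_mul_of_nonneg_left _ (by positivity)
        exact mul_le_mul_of_nonneg_left s6 hCm
    _ = (2 * τ c ^ 2) ^ j * 2 ^ j *
          (C1 ^ ((j : ℝ) / k) * mu ^ j * (1 + c * t ^ ((j : ℝ) / k))) := by ring

theorem thm (h1 : StTJ) (h2 : StCARD) : StLEVEL := by
  intro k j ι s w hs hk hkj hpos c mu C1 t hc hmu hC1 ht hW g0
  have hτc := one_le_tau c hc
  set B : ℝ := (2 * τ c ^ 2) ^ j * 2 ^ j *
    (C1 ^ ((j : ℝ) / k) * mu ^ j * (1 + c * t ^ ((j : ℝ) / k))) with hB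
  have hB0 : 0 ≤ B := by
    have h3 := Real.rpow_nonneg hC1 ((j : ℝ) / k)
    have h4 := Real.rpow_nonneg ht ((j : ℝ) / k)
    rw [hB]
    positivity
  have hinv : ∑ e ∈ c.divisors, (∑ d ∈ e.divisors, (ArithmeticFunction.moebius (e / d) : ℝ) *
      ((Nat.card (SG d) : ℝ) * (W s w d j g0 : ℝ))) =
      (Nat.card (SG c) : ℝ) * (W s w c j g0 : ℝ) := by
    have h3 := (ArithmeticFunction.sum_eq_iff_sum_mul_moebius_eq
      (f := fun e : ℕ => ∑ d ∈ e.divisors, (ArithmeticFunction.moebius (e / d) : ℝ) *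
        ((Nat.card (SG d) : ℝ) * (W s w d j g0 : ℝ)))
      (g := fun d : ℕ => (Nat.card (SG d) : ℝ) * (W s w d j g0 : ℝ))).2 (by
        intro n hn
        exact Nat.sum_divisorsAntidiagonal' (fun x y => (ArithmeticFunction.moebius x : ℝ) *
          ((Nat.card (SG y) : ℝ) * (W s w y j g0 : ℝ))))
    exact h3 c hc
  have hF : (Nat.card (SG c) : ℝ) * (W s w c j g0 : ℝ) ≤ τ c * B := by
    rw [← hinv]
    calc ∑ e ∈ c.divisors, (∑ d ∈ e.divisors, (ArithmeticFunction.moebius (e / d) : ℝ) *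
          ((Nat.card (SG d) : ℝ) * (W s w d j g0 : ℝ))) ≤ ∑ e ∈ c.divisors, B := by
          refine Finset.sum_le_sum (fun e he => ?_)
          exact (le_abs_self _).trans (one_level h1 h2 k j ι s w hs hk hkj hpos c mu C1 t hc hmu
            hC1 ht e he (hW e he) g0)
      _ = τ c * B := by
          rw [Finset.sum_const, nsmul_eq_mul]
          rfl
  have hcR : (1 : ℝ) ≤ c := by exact_mod_cast hc
  have hc3 : (0 : ℝ) < (c : ℝ) ^ 3 := by positivity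
  have hlow : (c : ℝ) ^ 3 ≤ τ c * (Nat.card (SG c) : ℝ) := by
    have h3 := (h2 c hc).1
    have h4 : (Nat.totient c : ℝ) * (c : ℝ) ^ 2 ≤ (Nat.card (SG c) : ℝ) := by exact_mod_cast h3
    calc (c : ℝ) ^ 3 = c * (c : ℝ) ^ 2 := by ring
      _ ≤ ((Nat.totient c : ℝ) * τ c) * (c : ℝ) ^ 2 :=
          mul_le_mul_of_nonneg_right (le_totient_mul c hc) (by positivity)
      _ = τ c * ((Nat.totient c : ℝ) * (c : ℝ) ^ 2) := by ring
      _ ≤ τ c * (Nat.card (SG c) : ℝ) := mul_le_mul_of_nonneg_left h4 (by linarith)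
  have hfin : (W s w c j g0 : ℝ) * (c : ℝ) ^ 3 ≤ τ c ^ 2 * B := by
    calc (W s w c j g0 : ℝ) * (c : ℝ) ^ 3
        ≤ (W s w c j g0 : ℝ) * (τ c * (Nat.card (SG c) : ℝ)) :=
          mul_le_mul_of_nonneg_left hlow (by positivity)
      _ = τ c * ((Nat.card (SG c) : ℝ) * (W s w c j g0 : ℝ)) := by ring
      _ ≤ τ c * (τ c * B) := mul_le_mul_of_nonneg_left hF (by linarith)
      _ = τ c ^ 2 * B := by ring
  have h3 := Real.rpow_nonneg hC1 ((j : ℝ) / k)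
  have h4 := Real.rpow_nonneg ht ((j : ℝ) / k)
  have hE0 : 0 ≤ C1 ^ ((j : ℝ) / k) * mu ^ j * (1 + c * t ^ ((j : ℝ) / k)) := by positivity
  have hconst : τ c ^ 2 * B ≤ (4 * τ c ^ 2) ^ (j + 1) *
      (C1 ^ ((j : ℝ) / k) * mu ^ j * (1 + c * t ^ ((j : ℝ) / k))) := by
    have h5 : τ c ^ 2 * B = (τ c ^ 2 * (4 * τ c ^ 2) ^ j) *
        (C1 ^ ((j : ℝ) / k) * mu ^ j * (1 + c * t ^ ((j : ℝ) / k))) := by
      rw [hB]
      have h6 : (4 * τ c ^ 2) ^ j = (2 * τ c ^ 2) ^ j * 2 ^ j := by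
        rw [← mul_pow]; ring
      rw [h6]; ring
    rw [h5]
    apply mul_le_mul_of_nonneg_right _ hE0
    rw [pow_succ (4 * τ c ^ 2) j]
    have h7 : 0 ≤ (4 * τ c ^ 2) ^ j := by positivity
    nlinarith [sq_nonneg (τ c)]
  have h8 : (4 * τ c ^ 2) ^ (j + 1) * C1 ^ ((j : ℝ) / k) * mu ^ j / (c : ℝ) ^ 3 *
      (1 + c * t ^ ((j : ℝ) / k)) = ((4 * τ c ^ 2) ^ (j + 1) *
      (C1 ^ ((j : ℝ) / k) * mu ^ j * (1 + c * t ^ ((j : ℝ) / k)))) / (c : ℝ) ^ 3 := by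
    ring
  rw [h8, le_div_iff₀ hc3]
  exact hfin.trans hconst

end Pool.Agent.Helper28.SP.LEVEL
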