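import Pool.Agent.Helper28.SP.St

/-! Module PROD of the project SR (helper90): `KK_gcd = KK_d KK_d'`. -/

set_option autoImplicit false

namespace Pool.Agent.Helper28.SP.PROD

open Pool.Agent.Helper28.SP Matrix

/-- splitting of `c` with respect to `v` -/
theorem split (v : ℕ) : ∀ c : ℕ, 1 ≤ c → ∃ c1 c2 N : ℕ, c = c1 * c2 ∧ c1 ∣ v ^ N ∧
    Nat.Coprime c2 v := by
  intro c
  induction c using Nat.strong_induction_on with
  | _ c ih =>
    intro hc
    by_cases hg : Nat.gcd c v = 1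
    · exact ⟨1, c, 0, by simp, by simp, hg⟩
    · have hgc : Nat.gcd c v ∣ c := Nat.gcd_dvd_left c v
      obtain ⟨m, hm⟩ := hgc
      have hg0 : 0 < Nat.gcd c v := Nat.gcd_pos_of_pos_left v hc
      have hm1 : 1 ≤ m := by
        rcases Nat.eq_zero_or_pos m with h | h
        · rw [h] at hm; omega
        · exact h
      have hlt : m < c := by
        have h2 : 2 ≤ Nat.gcd c v := by omega
        calc m < 2 * m := by omega
          _ ≤ Nat.gcd c v * m := Nat.mul_le_mul_right m h2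
          _ = c := hm.symm
      obtain ⟨m1, m2, N, h1, h2, h3⟩ := ih m hlt hm1
      refine ⟨Nat.gcd c v * m1, m2, N + 1, ?_, ?_, h3⟩
      · rw [mul_assoc, ← h1]; exact hm
      · rw [pow_succ, mul_comm]
        exact Nat.mul_dvd_mul h2 (Nat.gcd_dvd_right c v)

/-- the idempotent integer -/
theorem idem (c d d' : ℕ) (hc : 1 ≤ c) (hd : d ∣ c) (hd' : d' ∣ c) :
    ∃ e : ℤ, (c : ℤ) ∣ e * e - e ∧ (d : ℤ) ∣ e * (Nat.gcd d d' : ℕ) ∧
      (d' : ℤ) ∣ (1 - e) * (Nat.gcd d d' : ℕ) := by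
  have hdpos : 0 < d := Nat.pos_of_dvd_of_pos hd hc
  have hgpos : 0 < Nat.gcd d d' := Nat.gcd_pos_of_pos_left d' hdpos
  obtain ⟨u, hu⟩ := Nat.gcd_dvd_left d d'
  obtain ⟨v, hv⟩ := Nat.gcd_dvd_right d d'
  have huv : Nat.Coprime u v := by
    have h1 : u = d / Nat.gcd d d' := (Nat.div_eq_of_eq_mul_right hgpos hu).symm
    have h2 : v = d' / Nat.gcd d d' := (Nat.div_eq_of_eq_mul_right hgpos hv).symm
    rw [h1, h2]
    exact Nat.coprime_div_gcd_div_gcd hgpos
  obtain ⟨c1, c2, N, h1, h2, h3⟩ := split v c hc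
  have huc : u ∣ c := (Dvd.intro_left _ hu.symm).trans hd
  have hvc : v ∣ c := (Dvd.intro_left _ hv.symm).trans hd'
  have hc12 : Nat.Coprime c1 c2 := by
    have : Nat.Coprime (v ^ N) c2 := Nat.Coprime.pow_left N h3.symm
    exact Nat.Coprime.coprime_dvd_left h2 this
  have huc1 : Nat.Coprime u c1 := by
    have : Nat.Coprime u (v ^ N) := Nat.Coprime.pow_right N huv
    exact Nat.Coprime.coprime_dvd_right h2 this
  have hu2 : u ∣ c2 := by
    rw [h1] at huc
    exact huc1.dvd_of_dvd_mul_left huc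
  have hv1 : v ∣ c1 := by
    rw [h1] at hvc
    exact h3.symm.dvd_of_dvd_mul_right hvc
  have hcop : IsCoprime (c1 : ℤ) (c2 : ℤ) := Nat.isCoprime_iff_coprime.mpr hc12
  obtain ⟨s, t, hst⟩ := hcop
  refine ⟨t * c2, ?_, ?_, ?_⟩
  · refine ⟨-(s * t), ?_⟩
    rw [h1]; push_cast
    have : t * (c2 : ℤ) = 1 - s * c1 := by linarith
    calc t * (c2 : ℤ) * (t * c2) - t * c2 = t * c2 * (t * c2 - 1) := by ring
      _ = t * c2 * (-(s * c1)) := by rw [this]; ring
      _ = c1 * c2 * -(s * t) := by ring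
  · obtain ⟨w, hw⟩ := hu2
    refine ⟨t * w, ?_⟩
    have hu' : (d : ℤ) = (Nat.gcd d d' : ℕ) * u := by exact_mod_cast hu
    have hw' : (c2 : ℤ) = u * w := by exact_mod_cast hw
    rw [hw']
    conv_rhs => rw [hu']
    ring
  · obtain ⟨w, hw⟩ := hv1
    refine ⟨s * w, ?_⟩
    have hv' : (d' : ℤ) = (Nat.gcd d d' : ℕ) * v := by exact_mod_cast hv
    have hw' : (c1 : ℤ) = v * w := by exact_mod_cast hw
    have : 1 - t * (c2 : ℤ) = s * c1 := by linarith
    rw [this, hw']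
    conv_rhs => rw [hv']
    ring

/-- membership from the entries -/
theorem memKK (h1 : StKER) (h2 : StSURJ) (c d : ℕ) (hc : 1 ≤ c) (hd : d ∣ c) (y : SG c)
    (hy : ∀ i j, ∃ t : ZMod c, (y : Matrix (Fin 2) (Fin 2) (ZMod c)) i j =
      (1 : Matrix (Fin 2) (Fin 2) (ZMod c)) i j + (d : ZMod c) * t) : y ∈ KK c d := by
  have : NeZero c := ⟨by omega⟩
  obtain ⟨g, rfl⟩ := h2 c hc y
  rw [(h1 c d hc hd).2.1 g]
  ext i j
  obtain ⟨t, ht⟩ := hy i j
  have hred : ((red c g : SG c) : Matrix (Fin 2) (Fin 2) (ZMod c)) i j =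
      ((g : Matrix (Fin 2) (Fin 2) ℤ) i j : ZMod c) := by
    simp [red, Matrix.SpecialLinearGroup.map_apply_coe]
  have hred' : ((red d g : SG d) : Matrix (Fin 2) (Fin 2) (ZMod d)) i j =
      ((g : Matrix (Fin 2) (Fin 2) ℤ) i j : ZMod d) := by
    simp [red, Matrix.SpecialLinearGroup.map_apply_coe]
  rw [hred']
  rw [hred] at ht
  have ht2 : (((t.val : ℕ) : ℤ) : ZMod c) = t := by
    push_cast
    exact ZMod.natCast_zmod_val t
  have hone : ((1 : Matrix (Fin 2) (Fin 2) ℤ) i j : ZMod c) =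
      (1 : Matrix (Fin 2) (Fin 2) (ZMod c)) i j := by
    by_cases hij : i = j <;> simp [Matrix.one_apply, hij]
  have hone' : ((1 : Matrix (Fin 2) (Fin 2) ℤ) i j : ZMod d) =
      (1 : Matrix (Fin 2) (Fin 2) (ZMod d)) i j := by
    by_cases hij : i = j <;> simp [Matrix.one_apply, hij]
  have hz : (((g : Matrix (Fin 2) (Fin 2) ℤ) i j - (1 : Matrix (Fin 2) (Fin 2) ℤ) i j -
      (d : ℤ) * ((t.val : ℕ) : ℤ) : ℤ) : ZMod c) = 0 := by
    push_cast
    push_cast at ht2
    rw [ht, hone, ht2]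
    ring
  rw [ZMod.intCast_zmod_eq_zero_iff_dvd] at hz
  have hz2 : (d : ℤ) ∣ (g : Matrix (Fin 2) (Fin 2) ℤ) i j - (1 : Matrix (Fin 2) (Fin 2) ℤ) i j := by
    have h3 := (Int.natCast_dvd_natCast.mpr hd).trans hz
    have h4 := dvd_add h3 (Dvd.intro ((t.val : ℕ) : ℤ) rfl : (d : ℤ) ∣ (d : ℤ) * ((t.val : ℕ) : ℤ))
    simpa using h4
  have hz3 : (((g : Matrix (Fin 2) (Fin 2) ℤ) i j - (1 : Matrix (Fin 2) (Fin 2) ℤ) i j : ℤ) :
      ZMod d) = 0 := (ZMod.intCast_zmod_eq_zero_iff_dvd _ _).mpr hz2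
  push_cast at hz3
  rw [hone'] at hz3
  have := sub_eq_zero.mp hz3
  rw [this]
  rfl

/-- entries of an element of `KK c d` -/
theorem entKK (c d : ℕ) (x : SG c) (hx : x ∈ KK c d) (i j : Fin 2) :
    ∃ t : ZMod c, (x : Matrix (Fin 2) (Fin 2) (ZMod c)) i j =
      (1 : Matrix (Fin 2) (Fin 2) (ZMod c)) i j + (d : ZMod c) * t := by
  obtain ⟨g, hg, rfl⟩ := hx
  have hg1 : red d g = 1 := hg
  have hred : ((red c g : SG c) : Matrix (Fin 2) (Fin 2) (ZMod c)) i j =
      ((g : Matrix (Fin 2) (Fin 2) ℤ) i j : ZMod c) := by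
    simp [red, Matrix.SpecialLinearGroup.map_apply_coe]
  have hred' : ((red d g : SG d) : Matrix (Fin 2) (Fin 2) (ZMod d)) i j =
      ((g : Matrix (Fin 2) (Fin 2) ℤ) i j : ZMod d) := by
    simp [red, Matrix.SpecialLinearGroup.map_apply_coe]
  have hone : ((1 : Matrix (Fin 2) (Fin 2) ℤ) i j : ZMod c) =
      (1 : Matrix (Fin 2) (Fin 2) (ZMod c)) i j := by
    by_cases hij : i = j <;> simp [Matrix.one_apply, hij]
  have hone' : ((1 : Matrix (Fin 2) (Fin 2) ℤ) i j : ZMod d) =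
      (1 : Matrix (Fin 2) (Fin 2) (ZMod d)) i j := by
    by_cases hij : i = j <;> simp [Matrix.one_apply, hij]
  have hz : (((g : Matrix (Fin 2) (Fin 2) ℤ) i j - (1 : Matrix (Fin 2) (Fin 2) ℤ) i j : ℤ) :
      ZMod d) = 0 := by
    push_cast
    rw [hone', ← hred', hg1]
    simp
  rw [ZMod.intCast_zmod_eq_zero_iff_dvd] at hz
  obtain ⟨T, hT⟩ := hz
  refine ⟨(T : ZMod c), ?_⟩
  rw [hred, ← hone]
  have : (g : Matrix (Fin 2) (Fin 2) ℤ) i j = (1 : Matrix (Fin 2) (Fin 2) ℤ) i j + d * T := by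
    linarith
  rw [this]
  push_cast
  ring

theorem thm (h1 : StKER) (h2 : StSURJ) : StPROD := by
  intro c d d' hc hd hd' x hx
  obtain ⟨e, he1, he2, he3⟩ := idem c d d' hc hd hd'
  have hE : (e : ZMod c) * e = e := by
    have := (ZMod.intCast_zmod_eq_zero_iff_dvd _ _).mpr he1
    push_cast at this
    exact sub_eq_zero.mp this
  obtain ⟨p, hp⟩ := he2
  obtain ⟨q, hq⟩ := he3
  have hP : (e : ZMod c) * (Nat.gcd d d' : ℕ) = (d : ZMod c) * p := by
    have := congrArg (fun z : ℤ => (z : ZMod c)) hp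
    push_cast at this
    exact this
  have hQ : (1 - (e : ZMod c)) * (Nat.gcd d d' : ℕ) = (d' : ZMod c) * q := by
    have := congrArg (fun z : ℤ => (z : ZMod c)) hq
    push_cast at this
    exact this
  obtain ⟨a, ha⟩ := entKK c _ x hx 0 0
  obtain ⟨b, hb⟩ := entKK c _ x hx 0 1
  obtain ⟨r, hr⟩ := entKK c _ x hx 1 0
  obtain ⟨s, hs⟩ := entKK c _ x hx 1 1
  simp only [Matrix.one_apply_eq, Matrix.one_apply, Fin.isValue] at ha hb hr hs
  simp at ha hb hr hs
  set G : ZMod c := ((Nat.gcd d d' : ℕ) : ZMod c) with hG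
  set E : ZMod c := (e : ZMod c) with hEdef
  have hdet : (1 + G * a) * (1 + G * s) - G * b * (G * r) = 1 := by
    have := x.2
    rw [Matrix.det_fin_two] at this
    rw [ha, hb, hr, hs] at this
    exact this
  have hdetk : (1 + E * (G * a)) * (1 + E * (G * s)) - E * (G * b) * (E * (G * r)) = 1 := by
    have h3 : (1 + E * (G * a)) * (1 + E * (G * s)) - E * (G * b) * (E * (G * r)) =
        1 + E * (G * a + G * s) + (E * E) * (G * a * (G * s) - G * b * (G * r)) := by ring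
    rw [h3, hE]
    have h4 : G * a + G * s + (G * a * (G * s) - G * b * (G * r)) = 0 := by
      linear_combination hdet
    linear_combination E * h4
  let k : SG c := ⟨!![1 + E * (G * a), E * (G * b); E * (G * r), 1 + E * (G * s)], by
    rw [Matrix.det_fin_two_of]; exact hdetk⟩
  refine ⟨k, ?_, k⁻¹ * x, ?_, by group⟩
  · apply memKK h1 h2 c d hc hd
    intro i j
    fin_cases i <;> fin_cases j
    · refine ⟨p * a, ?_⟩
      simp [k]
      linear_combination a * hP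
    · refine ⟨p * b, ?_⟩
      simp [k]
      linear_combination b * hP
    · refine ⟨p * r, ?_⟩
      simp [k]
      linear_combination r * hP
    · refine ⟨p * s, ?_⟩
      simp [k]
      linear_combination s * hP
  · apply memKK h1 h2 c d' hc hd'
    have hinv : ((k⁻¹ : SG c) : Matrix (Fin 2) (Fin 2) (ZMod c)) =
        !![1 + E * (G * s), -(E * (G * b)); -(E * (G * r)), 1 + E * (G * a)] := by
      rw [Matrix.SpecialLinearGroup.coe_inv, Matrix.adjugate_fin_two]
      simp [k]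
    intro i j
    rw [Matrix.SpecialLinearGroup.coe_mul, hinv]
    fin_cases i <;> fin_cases j
    · refine ⟨q * ((1 + E * (G * s)) * a - E * (G * b) * r), ?_⟩
      simp [Matrix.mul_apply, Fin.sum_univ_two, ha, hb, hr, hs]
      linear_combination ((1 + E * (G * s)) * a - E * (G * b) * r) * hQ + hdetk
    · refine ⟨q * ((1 + E * (G * s)) * b - E * (G * b) * s), ?_⟩
      simp [Matrix.mul_apply, Fin.sum_univ_two, ha, hb, hr, hs]
      linear_combination ((1 + E * (G * s)) * b - E * (G * b) * s) * hQ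
    · refine ⟨q * ((1 + E * (G * a)) * r - E * (G * r) * a), ?_⟩
      simp [Matrix.mul_apply, Fin.sum_univ_two, ha, hb, hr, hs]
      linear_combination ((1 + E * (G * a)) * r - E * (G * r) * a) * hQ
    · refine ⟨q * ((1 + E * (G * a)) * s - E * (G * r) * b), ?_⟩
      simp [Matrix.mul_apply, Fin.sum_univ_two, ha, hb, hr, hs]
      linear_combination ((1 + E * (G * a)) * s - E * (G * r) * b) * hQ + hdetk

end Pool.Agent.Helper28.SP.PROD
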