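import Pool.Agent.Helper28.SP.St

set_option autoImplicit false
set_option linter.unusedSectionVars false

namespace Pool.Agent.Helper28.SP.Q

open Pool.Agent.Helper28.SP
open Finset Matrix

section
variable {G : Type} [Group G] [Fintype G] [DecidableEq G]

theorem ek_herm (lh : ∀ g : G, (lam g : Matrix G G ℂ)ᴴ = lam g⁻¹) (K : Subgroup G) :
    (EK K).IsHermitian := by
  unfold Matrix.IsHermitian EK
  rw [Matrix.conjTranspose_smul, Matrix.conjTranspose_sum]
  congr 1
  · simp
  · refine Finset.sum_bij' (fun k _ => k⁻¹) (fun k _ => k⁻¹) ?_ ?_ ?_ ?_ ?_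
    · intro k hk; rw [mem_Kf] at hk ⊢; exact inv_mem hk
    · intro k hk; rw [mem_Kf] at hk ⊢; exact inv_mem hk
    · intro k _; exact inv_inv k
    · intro k _; exact inv_inv k
    · intro k _; exact lh k

theorem ek_comm (lm : ∀ g h : G, (lam (g * h) : Matrix G G ℂ) = lam g * lam h) (K : Subgroup G)
    (hK : K.Normal) (g : G) : lam g * EK K = EK K * lam g := by
  unfold EK
  rw [Matrix.mul_smul, Matrix.smul_mul]
  congr 1
  rw [Matrix.mul_sum, Matrix.sum_mul]
  refine Finset.sum_bij' (fun k _ => g * k * g⁻¹) (fun k _ => g⁻¹ * k * g) ?_ ?_ ?_ ?_ ?_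
  · intro k hk; rw [mem_Kf] at hk ⊢; exact hK.conj_mem k hk g
  · intro k hk
    rw [mem_Kf] at hk ⊢
    have := hK.conj_mem k hk g⁻¹
    rwa [inv_inv] at this
  · intro k _; group
  · intro k _; group
  · intro k _
    rw [← lm, ← lm]; congr 1; group

theorem ek_right (lm : ∀ g h : G, (lam (g * h) : Matrix G G ℂ) = lam g * lam h) (K : Subgroup G)
    (k : G) (hk : k ∈ K) : EK K * lam k = EK K := by
  unfold EK
  rw [Matrix.smul_mul]
  congr 1
  rw [Matrix.sum_mul]
  refine Finset.sum_bij' (fun x _ => x * k) (fun x _ => x * k⁻¹) ?_ ?_ ?_ ?_ ?_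
  · intro x hx; rw [mem_Kf] at hx ⊢; exact mul_mem hx hk
  · intro x hx; rw [mem_Kf] at hx ⊢; exact mul_mem hx (inv_mem hk)
  · intro x _; group
  · intro x _; group
  · intro x _; rw [lm]

theorem ek_left (lm : ∀ g h : G, (lam (g * h) : Matrix G G ℂ) = lam g * lam h) (K : Subgroup G)
    (k : G) (hk : k ∈ K) : lam k * EK K = EK K := by
  unfold EK
  rw [Matrix.mul_smul]
  congr 1
  rw [Matrix.mul_sum]
  refine Finset.sum_bij' (fun x _ => k * x) (fun x _ => k⁻¹ * x) ?_ ?_ ?_ ?_ ?_
  · intro x hx; rw [mem_Kf] at hx ⊢; exact mul_mem hk hx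
  · intro x hx; rw [mem_Kf] at hx ⊢; exact mul_mem (inv_mem hk) hx
  · intro x _; group
  · intro x _; group
  · intro x _; rw [lm]

theorem kf_pos (K : Subgroup G) : ((Kf K).card : ℂ) ≠ 0 := by
  have : 0 < (Kf K).card := Finset.card_pos.2 ⟨1, (mem_Kf K 1).2 (one_mem K)⟩
  exact_mod_cast this.ne'

/-- If `lam x * P = P` for `x ∈ L` then `EK L * P = P`. -/
theorem ek_fix (L : Subgroup G) (P : Matrix G G ℂ) (h : ∀ x ∈ L, lam x * P = P) :
    EK L * P = P := by
  unfold EK
  rw [Matrix.smul_mul, Matrix.sum_mul, Finset.sum_congr rfl (fun x hx => h x ((mem_Kf L x).1 hx)),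
    Finset.sum_const, ← Nat.cast_smul_eq_nsmul ℂ, smul_smul, inv_mul_cancel₀ (kf_pos L), one_smul]

theorem ek_fix' (L : Subgroup G) (P : Matrix G G ℂ) (h : ∀ x ∈ L, P * lam x = P) :
    P * EK L = P := by
  unfold EK
  rw [Matrix.mul_smul, Matrix.mul_sum, Finset.sum_congr rfl (fun x hx => h x ((mem_Kf L x).1 hx)),
    Finset.sum_const, ← Nat.cast_smul_eq_nsmul ℂ, smul_smul, inv_mul_cancel₀ (kf_pos L), one_smul]

theorem ek_mul (lm : ∀ g h : G, (lam (g * h) : Matrix G G ℂ) = lam g * lam h)
    (K K' L : Subgroup G) (hK : K.Normal) (hKL : K ≤ L) (hKL' : K' ≤ L)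
    (hs : ∀ x ∈ L, ∃ k ∈ K, ∃ k' ∈ K', x = k * k') : EK K * EK K' = EK L := by
  have h1 : EK L * (EK K * EK K') = EK K * EK K' := by
    refine ek_fix L _ fun x hx => ?_
    obtain ⟨k, hk, k', hk', rfl⟩ := hs x hx
    rw [lm, Matrix.mul_assoc, ← Matrix.mul_assoc (lam k') (EK K), ek_comm lm K hK k',
      Matrix.mul_assoc (EK K), ek_left lm K' k' hk', ← Matrix.mul_assoc (lam k), ek_left lm K k hk]
  have h2 : EK L * (EK K * EK K') = EK L := by
    rw [← Matrix.mul_assoc, ek_fix' K (EK L) (fun x hx => ek_right lm L x (hKL hx)),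
      ek_fix' K' (EK L) (fun x hx => ek_right lm L x (hKL' hx))]
  exact h1.symm.trans h2

end

/-- The divisor sum that cancels in pairs. -/
theorem mob_cancel {M : Type} [AddCommGroup M] [Module ℂ M] (F : ℕ → M) (c p : ℕ) (hc : c ≠ 0)
    (hp : p.Prime) (hpc : p ∣ c) :
    ∑ d ∈ c.divisors, (ArithmeticFunction.moebius (c / d) : ℂ) • F (Nat.gcd (c / p) d) = 0 := by
  classical
  obtain ⟨c', rfl⟩ := hpc
  have hc' : c' ≠ 0 := by rintro rfl; simp at hc
  have hp0 : 0 < p := hp.pos
  refine Finset.sum_involution (fun d _ => if p ^ 2 ∣ p * c' / d then d else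
    if p ∣ p * c' / d then d * p else d / p) ?_ ?_ ?_ ?_
  · -- cancellation
    intro d hd
    rw [Nat.mem_divisors] at hd
    obtain ⟨f, hf⟩ := hd.1
    have hd0 : 0 < d := Nat.pos_of_ne_zero (by rintro rfl; simp at hf; omega)
    have hf0 : 0 < f := Nat.pos_of_ne_zero (by rintro rfl; simp at hf; omega)
    have hq : p * c' / d = f := by rw [hf]; exact Nat.mul_div_cancel_left f hd0
    by_cases h1 : p ^ 2 ∣ f
    · have h2 : ArithmeticFunction.moebius f = 0 := by
        refine ArithmeticFunction.moebius_eq_zero_of_not_squarefree fun hsq => ?_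
        have := hsq p (by rw [← sq]; exact h1)
        exact hp.one_lt.ne' (Nat.isUnit_iff.1 this)
      simp [hq, h1, h2]
    · by_cases h3 : p ∣ f
      · obtain ⟨g, rfl⟩ := h3
        have hcop : Nat.Coprime p g := by
          rw [hp.coprime_iff_not_dvd]
          rintro ⟨g', rfl⟩
          exact h1 ⟨g', by ring⟩
        have hq2 : p * c' / (d * p) = g := by
          rw [hf, show d * (p * g) = d * p * g by ring]
          exact Nat.mul_div_cancel_left g (Nat.mul_pos hd0 hp0)
        have hcd : c' = d * g := by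
          have : p * c' = p * (d * g) := by rw [hf]; ring
          exact Nat.eq_of_mul_eq_mul_left hp0 this
        have hmu : (ArithmeticFunction.moebius (p * g) : ℂ) =
            -(ArithmeticFunction.moebius g : ℂ) := by
          rw [ArithmeticFunction.isMultiplicative_moebius.map_mul_of_coprime hcop,
            ArithmeticFunction.moebius_apply_prime hp]
          push_cast; ring
        have hg : Nat.gcd (p * c' / p) d = Nat.gcd (p * c' / p) (d * p) := by
          rw [Nat.mul_div_cancel_left c' hp0, hcd]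
          rw [Nat.gcd_mul_left, Nat.gcd_eq_right (Dvd.intro g rfl)]
          rw [show Nat.gcd g p = 1 from hcop.symm, mul_one]
        simp only [hq, h1, if_false, dvd_mul_right, if_true, hq2, hmu, hg]
        rw [neg_smul, neg_add_cancel]
      · -- p does not divide f
        have hpd : p ∣ d := by
          have : p ∣ d * f := by rw [← hf]; exact dvd_mul_right p c'
          exact (hp.dvd_mul.1 this).resolve_right h3
        obtain ⟨e, rfl⟩ := hpd
        have he0 : 0 < e := Nat.pos_of_ne_zero (by rintro rfl; simp at hd0)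
        have hcop : Nat.Coprime p f := (hp.coprime_iff_not_dvd).2 h3
        have hdiv : p * e / p = e := Nat.mul_div_cancel_left e hp0
        have hq2 : p * c' / e = p * f := by
          rw [hf, show p * e * f = e * (p * f) by ring]
          exact Nat.mul_div_cancel_left _ he0
        have hcd : c' = e * f := by
          have : p * c' = p * (e * f) := by rw [hf]; ring
          exact Nat.eq_of_mul_eq_mul_left hp0 this
        have hmu : (ArithmeticFunction.moebius (p * f) : ℂ) =
            -(ArithmeticFunction.moebius f : ℂ) := by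
          rw [ArithmeticFunction.isMultiplicative_moebius.map_mul_of_coprime hcop,
            ArithmeticFunction.moebius_apply_prime hp]
          push_cast; ring
        have hg : Nat.gcd (p * c' / p) (p * e) = Nat.gcd (p * c' / p) e := by
          rw [Nat.mul_div_cancel_left c' hp0, hcd, mul_comm p e]
          rw [Nat.gcd_mul_left, show Nat.gcd f p = 1 from hcop.symm, mul_one,
            Nat.gcd_eq_right (Dvd.intro f rfl)]
        simp only [hq, h1, h3, if_false, hdiv, hq2, hmu, hg]
        rw [neg_smul, add_neg_cancel]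
  · -- no fixed points
    intro d hd hne
    rw [Nat.mem_divisors] at hd
    obtain ⟨f, hf⟩ := hd.1
    have hd0 : 0 < d := Nat.pos_of_ne_zero (by rintro rfl; simp at hf; omega)
    have hq : p * c' / d = f := by rw [hf]; exact Nat.mul_div_cancel_left f hd0
    have h1 : ¬ p ^ 2 ∣ f := by
      intro h1
      apply hne
      have h2 : ArithmeticFunction.moebius f = 0 := by
        refine ArithmeticFunction.moebius_eq_zero_of_not_squarefree fun hsq => ?_
        have := hsq p (by rw [← sq]; exact h1)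
        exact hp.one_lt.ne' (Nat.isUnit_iff.1 this)
      rw [hq, h2]; simp
    by_cases h3 : p ∣ f
    · simp only [hq, h1, if_false, h3, if_true]
      intro h
      have h4 : d * p = d * 1 := by rw [h, mul_one]
      exact hp.one_lt.ne' (Nat.eq_of_mul_eq_mul_left hd0 h4)
    · simp only [hq, h1, if_false, h3]
      intro h
      have := Nat.div_lt_self hd0 hp.one_lt
      omega
  · -- membership
    intro d hd
    rw [Nat.mem_divisors] at hd
    obtain ⟨f, hf⟩ := hd.1
    have hd0 : 0 < d := Nat.pos_of_ne_zero (by rintro rfl; simp at hf; omega)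
    have hq : p * c' / d = f := by rw [hf]; exact Nat.mul_div_cancel_left f hd0
    rw [Nat.mem_divisors]
    refine ⟨?_, hd.2⟩
    by_cases h1 : p ^ 2 ∣ f
    · simp only [hq, h1, if_true]; exact hd.1
    · by_cases h3 : p ∣ f
      · simp only [hq, h1, if_false, h3, if_true]
        obtain ⟨g, rfl⟩ := h3
        exact ⟨g, by rw [hf]; ring⟩
      · simp only [hq, h1, if_false, h3]
        have hpd : p ∣ d := by
          have : p ∣ d * f := by rw [← hf]; exact dvd_mul_right p c'
          exact (hp.dvd_mul.1 this).resolve_right h3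
        exact (Nat.div_dvd_of_dvd hpd).trans hd.1
  · -- involution
    intro d hd
    rw [Nat.mem_divisors] at hd
    obtain ⟨f, hf⟩ := hd.1
    have hd0 : 0 < d := Nat.pos_of_ne_zero (by rintro rfl; simp at hf; omega)
    have hf0 : 0 < f := Nat.pos_of_ne_zero (by rintro rfl; simp at hf; omega)
    have hq : p * c' / d = f := by rw [hf]; exact Nat.mul_div_cancel_left f hd0
    by_cases h1 : p ^ 2 ∣ f
    · simp only [hq, h1, if_true]
    · by_cases h3 : p ∣ f
      · obtain ⟨g, rfl⟩ := h3
        have hq2 : p * c' / (d * p) = g := by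
          rw [hf, show d * (p * g) = d * p * g by ring]
          exact Nat.mul_div_cancel_left g (Nat.mul_pos hd0 hp0)
        have h4 : ¬ p ∣ g := by
          rintro ⟨g', rfl⟩
          exact h1 ⟨g', by ring⟩
        have h5 : ¬ p ^ 2 ∣ g := fun h => h4 ((dvd_pow_self p two_ne_zero).trans h)
        simp only [hq, h1, if_false, dvd_mul_right, if_true, hq2, h5, h4]
        exact Nat.mul_div_cancel d hp0
      · have hpd : p ∣ d := by
          have : p ∣ d * f := by rw [← hf]; exact dvd_mul_right p c'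
          exact (hp.dvd_mul.1 this).resolve_right h3
        obtain ⟨e, rfl⟩ := hpd
        have he0 : 0 < e := Nat.pos_of_ne_zero (by rintro rfl; simp at hd0)
        have hdiv : p * e / p = e := Nat.mul_div_cancel_left e hp0
        have hq2 : p * c' / e = p * f := by
          rw [hf, show p * e * f = e * (p * f) by ring]
          exact Nat.mul_div_cancel_left _ he0
        have h5 : ¬ p ^ 2 ∣ p * f := by
          rintro ⟨g, hg⟩
          apply h3
          refine ⟨g, ?_⟩
          have : p * f = p * (p * g) := by rw [hg]; ring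
          exact Nat.eq_of_mul_eq_mul_left hp0 this
        simp only [hq, h1, h3, if_false, hdiv, hq2, h5, dvd_mul_right, if_true]
        exact mul_comm e p

theorem thm (h1 : StLAM) (h2 : StKER) (h3 : StPROD) (_h4 : StSURJ) : StQ := by
  classical
  intro c _
  obtain ⟨lm, lone, lh, -, -, lv, -, -, -⟩ := h1 (SG c)
  have hc0 : c ≠ 0 := NeZero.ne c
  have hc1 : 1 ≤ c := Nat.one_le_iff_ne_zero.2 hc0
  have hE : ∀ d d', d ∣ c → d' ∣ c → EK (KK c d) * EK (KK c d') = EK (KK c (Nat.gcd d d')) := by
    intro d d' hd hd'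
    refine ek_mul lm _ _ _ (h2 c d hc1 hd).1 ?_ ?_ (h3 c d d' hc1 hd hd')
    · exact (h2 c d hc1 hd).2.2.2 _ (Nat.gcd_dvd_left d d')
    · exact (h2 c d' hc1 hd').2.2.2 _ (Nat.gcd_dvd_right d d')
  have hEc : EK (KK c c) = (1 : Matrix (SG c) (SG c) ℂ) := by
    have hb : Kf (KK c c) = {1} := by
      ext x
      rw [mem_Kf, Finset.mem_singleton]
      constructor
      · rintro ⟨y, hy, rfl⟩
        have : y ∈ (red c).ker := hy
        rwa [MonoidHom.mem_ker] at this
      · rintro rfl; exact one_mem _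
    unfold EK
    rw [hb]; simp [lone]
  have hQdef : opQ c = ∑ d ∈ c.divisors, (ArithmeticFunction.moebius (c / d) : ℂ) • EK (KK c d) :=
    rfl
  have hEp : ∀ p, p.Prime → p ∣ c → EK (KK c (c / p)) * opQ c = 0 := by
    intro p hp hpc
    rw [hQdef, Matrix.mul_sum, ← mob_cancel (fun e => EK (KK c e)) c p hc0 hp hpc]
    refine Finset.sum_congr rfl fun d hd => ?_
    rw [Matrix.mul_smul, hE _ _ (Nat.div_dvd_of_dvd hpc) (Nat.dvd_of_mem_divisors hd)]
  have hEd : ∀ d ∈ c.divisors, d ≠ c → EK (KK c d) * opQ c = 0 := by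
    intro d hd hdc
    have hdd := Nat.dvd_of_mem_divisors hd
    obtain ⟨f, hf⟩ := hdd
    have hf1 : f ≠ 1 := by rintro rfl; exact hdc (by rw [hf, mul_one])
    obtain ⟨p, hp, g, rfl⟩ := Nat.exists_prime_and_dvd hf1
    have hpc : p ∣ c := ⟨d * g, by rw [hf]; ring⟩
    have hcp : c / p = d * g := by
      rw [hf, show d * (p * g) = p * (d * g) by ring]
      exact Nat.mul_div_cancel_left _ hp.pos
    have h5 : EK (KK c d) * EK (KK c (c / p)) = EK (KK c d) := by
      rw [hE _ _ (Nat.dvd_of_mem_divisors hd) (Nat.div_dvd_of_dvd hpc), hcp,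
        Nat.gcd_eq_left (Dvd.intro g rfl)]
    rw [← h5, Matrix.mul_assoc, hEp p hp hpc, Matrix.mul_zero]
  refine ⟨?_, ?_, ?_, ?_⟩
  · rw [hQdef]
    unfold Matrix.IsHermitian
    rw [Matrix.conjTranspose_sum]
    refine Finset.sum_congr rfl fun d _ => ?_
    rw [Matrix.conjTranspose_smul, (ek_herm lh (KK c d)).eq]
    congr 1
    simp
  · conv_lhs => rw [show opQ c * opQ c = (∑ d ∈ c.divisors,
      (ArithmeticFunction.moebius (c / d) : ℂ) • EK (KK c d)) * opQ c from rfl]
    rw [Matrix.sum_mul, Finset.sum_eq_single c]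
    · rw [Nat.div_self (Nat.pos_of_ne_zero hc0), hEc]; simp
    · intro d hd hdc
      rw [Matrix.smul_mul, hEd d hd hdc, smul_zero]
    · intro h; exact absurd (Nat.mem_divisors_self c hc0) h
  · intro g
    rw [hQdef, Matrix.mul_sum, Matrix.sum_mul]
    refine Finset.sum_congr rfl fun d hd => ?_
    rw [Matrix.mul_smul, Matrix.smul_mul,
      ek_comm lm _ (h2 c d hc1 (Nat.dvd_of_mem_divisors hd)).1 g]
  · intro v hv p hp x
    have hpp := Nat.prime_of_mem_primeFactors hp
    have hpc := Nat.dvd_of_mem_primeFactors hp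
    have h5 : EK (KK c (c / p)) *ᵥ v = 0 := by
      rw [← hv, Matrix.mulVec_mulVec, hEp p hpp hpc, Matrix.zero_mulVec]
    have h6 := congrFun h5 x
    unfold EK at h6
    rw [Matrix.smul_mulVec, Matrix.sum_mulVec, Pi.smul_apply, Finset.sum_apply, smul_eq_mul,
      Pi.zero_apply] at h6
    have h7 := (mul_eq_zero.1 h6).resolve_left (inv_ne_zero (kf_pos _))
    simp only [lv] at h7
    rw [← h7]
    refine Finset.sum_bij' (fun k _ => k⁻¹) (fun k _ => k⁻¹) ?_ ?_ ?_ ?_ ?_
    · intro k hk; rw [mem_Kf] at hk ⊢; exact inv_mem hk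
    · intro k hk; rw [mem_Kf] at hk ⊢; exact inv_mem hk
    · intro k _; exact inv_inv k
    · intro k _; exact inv_inv k
    · intro k _; rw [inv_inv]

end Pool.Agent.Helper28.SP.Q
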