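import Pool.Agent.Helper28.SP.St

/-! Project SR, module SURJ: `SL_2(ℤ) → SL_2(ℤ/d)` is surjective. -/

set_option autoImplicit false

namespace Pool.Agent.Helper28.SP.SURJ

open Pool.Agent.Helper28.SP

open Finset Matrix

private theorem red_Uu (d : ℕ) (x : ℤ) : red d (Uu x) = Uu (x : ZMod d) := by
  apply Subtype.ext
  rw [show (red d (Uu x)).1 = (Int.castRingHom (ZMod d)).mapMatrix (Uu x).1 from rfl]
  ext i j
  fin_cases i <;> fin_cases j <;> simp [Uu]

private theorem red_Ll (d : ℕ) (x : ℤ) : red d (Ll x) = Ll (x : ZMod d) := by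
  apply Subtype.ext
  rw [show (red d (Ll x)).1 = (Int.castRingHom (ZMod d)).mapMatrix (Ll x).1 from rfl]
  ext i j
  fin_cases i <;> fin_cases j <;> simp [Ll]

private theorem Uu_mem (d : ℕ) [NeZero d] (x : ZMod d) : Uu x ∈ (red d).range := by
  refine ⟨Uu (x.val : ℤ), ?_⟩
  rw [red_Uu]
  simp

private theorem Ll_mem (d : ℕ) [NeZero d] (x : ZMod d) : Ll x ∈ (red d).range := by
  refine ⟨Ll (x.val : ℤ), ?_⟩
  rw [red_Ll]
  simp

private theorem exists_unit (d : ℕ) [NeZero d] (α β γ δ : ZMod d) (h : α * δ - β * γ = 1) :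
    ∃ x : ZMod d, IsUnit (α + x * β) := by
  classical
  set a := α.val with ha
  set b := β.val with hb
  have haα : ((a : ℕ) : ZMod d) = α := by simp [ha]
  have hbβ : ((b : ℕ) : ZMod d) = β := by simp [hb]
  set X : ℕ := ∏ p ∈ d.primeFactors.filter (fun p => ¬ p ∣ a), p with hX
  refine ⟨(X : ZMod d), ?_⟩
  have e : α + (X : ZMod d) * β = ((a + X * b : ℕ) : ZMod d) := by
    push_cast
    rw [haα, hbβ]
  rw [e, ZMod.isUnit_iff_coprime]
  apply Nat.Coprime.symm
  rw [Nat.coprime_comm]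
  apply Nat.coprime_of_dvd
  intro p hp hp1 hp2
  -- hp1 : p ∣ a + X * b, hp2 : p ∣ d
  by_cases hpa : p ∣ a
  · have h1 : p ∣ X * b := (Nat.dvd_add_right hpa).1 hp1
    rcases hp.dvd_mul.1 h1 with h2 | h2
    · rw [hX, Prime.dvd_finsetProd_iff hp.prime] at h2
      obtain ⟨q, hq, hpq⟩ := h2
      rw [Finset.mem_filter] at hq
      have hqp : q.Prime := Nat.prime_of_mem_primeFactors hq.1
      have : p = q := (Nat.prime_dvd_prime_iff_eq hp hqp).1 hpq
      exact hq.2 (this ▸ hpa)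
    · have hmap : (ZMod.castHom hp2 (ZMod p)) (α * δ - β * γ) = 1 := by rw [h, map_one]
      have hα : (ZMod.castHom hp2 (ZMod p)) α = 0 := by
        rw [← haα, map_natCast]
        exact (ZMod.natCast_eq_zero_iff a p).2 hpa
      have hβ : (ZMod.castHom hp2 (ZMod p)) β = 0 := by
        rw [← hbβ, map_natCast]
        exact (ZMod.natCast_eq_zero_iff b p).2 h2
      rw [map_sub, map_mul, map_mul, hα, hβ] at hmap
      have : Fact p.Prime := ⟨hp⟩
      simp at hmap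
  · have h3 : p ∣ X := by
      rw [hX]
      exact Finset.dvd_prod_of_mem (fun p => p)
        (Finset.mem_filter.2 ⟨Nat.mem_primeFactors.2 ⟨hp, hp2, NeZero.ne d⟩, hpa⟩)
    exact hpa ((Nat.dvd_add_left (Dvd.dvd.mul_right h3 b)).1 hp1)

private theorem diag_eq {R : Type} [CommRing R] (t u : R) (h : t * u = 1) :
    (Uu t * Ll (-u) * Uu t * Uu (-1) * Ll 1 * Uu (-1)).1 = !![t, 0; 0, u] := by
  have e : (Uu t * Ll (-u) * Uu t * Uu (-1) * Ll 1 * Uu (-1)).1 =
      (!![1, t; 0, 1] * !![1, 0; -u, 1] * !![1, t; 0, 1] * !![1, -1; 0, 1] * !![1, 0; 1, 1] *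
        !![1, -1; 0, 1] : Matrix (Fin 2) (Fin 2) R) := rfl
  rw [e]
  simp only [Matrix.mul_fin_two]
  ext i j
  fin_cases i <;> fin_cases j <;> simp
  · linear_combination (-t) * h
  · linear_combination h
  · linear_combination -h
  · ring

private theorem unit_mem (d : ℕ) [NeZero d] (g : SG d) (u : ZMod d) (hu : g.1 0 0 * u = 1) :
    g ∈ (red d).range := by
  have hdet : g.1 0 0 * g.1 1 1 - g.1 0 1 * g.1 1 0 = 1 := by
    have := g.2
    rwa [Matrix.det_fin_two] at this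
  have key : g = Ll (g.1 1 0 * u) *
      (Uu (g.1 0 0) * Ll (-u) * Uu (g.1 0 0) * Uu (-1) * Ll 1 * Uu (-1)) *
        Uu (u * g.1 0 1) := by
    apply Subtype.ext
    have e : (Ll (g.1 1 0 * u) *
      (Uu (g.1 0 0) * Ll (-u) * Uu (g.1 0 0) * Uu (-1) * Ll 1 * Uu (-1)) *
        Uu (u * g.1 0 1)).1 = !![1, 0; g.1 1 0 * u, 1] *
      (Uu (g.1 0 0) * Ll (-u) * Uu (g.1 0 0) * Uu (-1) * Ll 1 * Uu (-1)).1 *
        !![1, u * g.1 0 1; 0, 1] := rfl
    rw [e, diag_eq _ _ hu]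
    simp only [Matrix.mul_fin_two]
    ext i j
    fin_cases i <;> fin_cases j <;> simp
    · linear_combination (- g.1 0 1) * hu
    · linear_combination (- g.1 1 0) * hu
    · linear_combination (- g.1 1 1) * hu + u * hdet - (u * g.1 1 0 * g.1 0 1) * hu
  rw [key]
  refine Subgroup.mul_mem _ (Subgroup.mul_mem _ (Ll_mem d _) ?_) (Uu_mem d _)
  exact Subgroup.mul_mem _ (Subgroup.mul_mem _ (Subgroup.mul_mem _ (Subgroup.mul_mem _
    (Subgroup.mul_mem _ (Uu_mem d _) (Ll_mem d _)) (Uu_mem d _)) (Uu_mem d _)) (Ll_mem d _))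
    (Uu_mem d _)

theorem thm : StSURJ := by
  intro d hd
  have : NeZero d := ⟨by omega⟩
  intro g
  have hdet : g.1 0 0 * g.1 1 1 - g.1 0 1 * g.1 1 0 = 1 := by
    have := g.2
    rwa [Matrix.det_fin_two] at this
  obtain ⟨x, hx⟩ := exists_unit d _ _ _ _ hdet
  obtain ⟨v, hv⟩ := hx
  have h00 : (g * Ll x).1 0 0 = g.1 0 0 + x * g.1 0 1 := by
    have e : (g * Ll x).1 = g.1 * !![1, 0; x, 1] := rfl
    rw [e, Matrix.mul_apply, Fin.sum_univ_two]
    simp
    ring
  have h1 : g * Ll x ∈ (red d).range := by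
    apply unit_mem d _ ((v⁻¹ : (ZMod d)ˣ) : ZMod d)
    rw [h00, ← hv]
    exact Units.mul_inv v
  have h2 : g ∈ (red d).range := by
    have := Subgroup.mul_mem _ h1 (Subgroup.inv_mem _ (Ll_mem d x))
    simpa using this
  exact h2

end Pool.Agent.Helper28.SP.SURJ
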