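import Pool.Agent.Helper28.SP.Defs

/-!
# MP_e188f1_nt, spectral range: statements of the modules, with proofs in the docstrings

A module proves `theorem thm (h1 : StA) ... : StX` (the hypotheses allowed are listed at the end of
each docstring).  Facts proved in `Pool.Agent.Helper56.SW.*` (e.g. `stAP`, `stSqrt`, `fn_div`,
`fn_fin`, `stDeg stAP`, `stTr`, `fn_one`, `M_Tr_rel_iff`, `M_Deg_rel_iff`) may be imported.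
-/

set_option autoImplicit false

namespace Pool.Agent.Helper28.SP

open Finset Matrix
open scoped ComplexOrder
open Pool.Agent.Helper56.SW (τ Γ J I bx E Rel N N0 Nq)

/-! ## A. linear algebra -/

/-- (LA) Put `Y = X Q` (Hermitian, as `X`, `Q` commute), `S = Re Tr X^k`.  Take an orthonormal basis
`v_i` of eigenvectors of `Y` with real eigenvalues `l_i` (`Matrix.IsHermitian.eigenvalues`,
`eigenvectorUnitary`, `spectral_theorem`).  If `l_i ≠ 0` then `Q v_i = l_i⁻¹ Q Y v_i = l_i⁻¹ Y v_i = v_i`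
(`Q Y = Y`) and `X v_i = X Q v_i = Y v_i = l_i v_i`, so the hypothesis gives `m |l_i|^k ≤ S`.
`X^j Q = Y^j` for `j ≥ 1`, so `Tr (U X^j Q) = Tr (U Y^j) = ∑ l_i^j ⟨v_i, U v_i⟩`, of absolute value at
most `∑ |l_i|^j` (`U` unitary, `v_i` unit vectors; `entry_norm_bound_of_unitary`).
`X^k` is positive semidefinite (`k` even: a square of a Hermitian matrix; or a power of a positive
semidefinite matrix), so `S = ∑_i ⟨v_i, X^k v_i⟩ ≥ ∑_{l_i ≠ 0} ⟨v_i, X^k v_i⟩ = ∑_{l_i ≠ 0} l_i^k`, and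
`l_i^k = |l_i|^k` (if `X` is positive semidefinite, `l_i ≥ 0`).  So
`∑ |l_i|^j = ∑_{l_i ≠ 0} |l_i|^(j-k) |l_i|^k ≤ (S/m)^((j-k)/k) ∑_{l_i ≠ 0} |l_i|^k ≤ (S/m)^((j-k)/k) S`.
(Note `|l_i|^(j-k) = (|l_i|^k)^((j-k)/k)`.)  Hypotheses: none. -/
def StLA : Prop :=
  ∀ (n : Type) [Fintype n] [DecidableEq n] (X Q U : Matrix n n ℂ) (k j : ℕ) (m : ℝ),
    X.IsHermitian → Q.IsHermitian → Q * Q = Q → X * Q = Q * X → U ∈ Matrix.unitaryGroup n ℂ →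
    1 ≤ k → k ≤ j → (Even k ∨ X.PosSemidef) → 0 < m →
    (∀ (l : ℝ) (v : n → ℂ), l ≠ 0 → v ≠ 0 → X *ᵥ v = (l : ℂ) • v → Q *ᵥ v = v →
      m * |l| ^ k ≤ ((X ^ k).trace).re) →
    ‖(U * X ^ j * Q).trace‖ ≤
      (((X ^ k).trace).re / m) ^ (((j : ℝ) - k) / k) * ((X ^ k).trace).re

/-- (EIG) The eigenspace of `X` for `l` has dimension at least `m`, so at least `m` of the
eigenvalues of `X` (with multiplicity, `hX.eigenvalues`) are equal to `l`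
(the eigenvectors `v_i` of the orthonormal eigenbasis with `l_i = l` span the eigenspace: write an
eigenvector in the eigenbasis and compare coefficients).  `Re Tr X^k = ∑ l_i^k`, every term is `≥ 0` (`k`
even, or `X` positive semidefinite so that all `l_i ≥ 0`), and the `m` terms with `l_i = l` give
`m l^k = m |l|^k` (if `m = 0` nothing is needed beyond `≥ 0`; if `m ≥ 1` then `l` is an eigenvalue, so
`l ≥ 0` in the positive semidefinite case).  Hypotheses: none. -/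
def StEIG : Prop :=
  ∀ (n : Type) [Fintype n] [DecidableEq n] (X : Matrix n n ℂ) (k m : ℕ) (l : ℝ)
    (v : Fin m → n → ℂ), X.IsHermitian → 1 ≤ k → (Even k ∨ X.PosSemidef) →
    LinearIndependent ℂ v → (∀ i, X *ᵥ v i = (l : ℂ) • v i) →
    (m : ℝ) * |l| ^ k ≤ ((X ^ k).trace).re

/-- (LAM) Basic facts on left translations.  `opX^j = ∑ cnt j g • lam g` by induction on `j`
(`opX * lam h = ∑ lam (u i h)`, reindex `g ↦ (u i)⁻¹ g`).  Symmetric family: `(lam g)ᴴ = lam g⁻¹`, so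
`(opX)ᴴ = ∑ lam (u i)⁻¹ = ∑ lam (u (σ i)) = opX` (`σ` permutes `s`: `Finset.sum_bij'`/`sum_involution`).
Positive family: `opX = ∑_x ∑_y (lam (z x))ᴴ * lam (z y) = Zᴴ * Z` with `Z = ∑ lam (z y)` (apply the
hypothesis entrywise), `Matrix.posSemidef_conjTranspose_mul_self`.  Hypotheses: none. -/
def StLAM : Prop :=
  ∀ (G : Type) [Group G] [Fintype G] [DecidableEq G],
    (∀ g h : G, (lam (g * h) : Matrix G G ℂ) = lam g * lam h) ∧ (lam (1 : G) = 1) ∧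
    (∀ g : G, (lam g)ᴴ = lam g⁻¹) ∧ (∀ g : G, lam g ∈ Matrix.unitaryGroup G ℂ) ∧
    (∀ g : G, (lam g).trace = if g = 1 then (Fintype.card G : ℂ) else 0) ∧
    (∀ (g : G) (f : G → ℂ) (x : G), (lam g *ᵥ f) x = f (g⁻¹ * x)) ∧
    (∀ (ι : Type) (s : Finset ι) (u : ι → G) (j : ℕ),
      (opX s u) ^ j = ∑ g : G, (cnt s u j g : ℂ) • lam g) ∧
    (∀ (ι : Type) (s : Finset ι) (u : ι → G), Sym s u → (opX s u).IsHermitian) ∧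
    (∀ (ι : Type) (s : Finset ι) (u : ι → G), Pos s u → (opX s u).PosSemidef)

/-! ## B. group theory -/

/-- (CARD) Lower bound: `(α, β, γ) ↦ [[α, β], [γ, α⁻¹ (1 + β γ)]]` is injective from
`(ℤ/d)ˣ × (ℤ/d)²`.  Upper bound: for every first row choose (if there is one) a matrix `g₀` with this
first row; two matrices `g, g₀` in `SL_2` with the same first row satisfy `g g₀⁻¹ = Ll t`; so
`g ↦ (first row, t)` is injective into `(ℤ/d)² × ℤ/d`.  Hypotheses: none. -/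
def StCARD : Prop :=
  ∀ d : ℕ, 1 ≤ d → Nat.totient d * d ^ 2 ≤ Nat.card (SG d) ∧ Nat.card (SG d) ≤ d ^ 3

/-- (SURJ) `SL_2(ℤ) → SL_2(ℤ/d)` is surjective.  Let `g = [[α, β], [γ, δ]]` over `ℤ/d`, lift `α, β, γ`,
`δ` to integers.  As `α, β` generate the unit ideal there is an integer `x` with `α + x β` prime to `d`
(let `x` be the product of the primes dividing `d` that do not divide `α`: if `p ∣ d`, `p ∣ α` then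
`p ∤ x`, `p ∤ β`; if `p ∤ α` then `p ∣ x`).  Then `g Ll(x)` has a unit `t` in position `(1,1)`, and a
matrix of `SL_2(ℤ/d)` with unit `t` at `(1,1)` is `Ll(y) diag(t, t⁻¹) Uu(z)`, where
`diag(t, t⁻¹) = Uu(t) Ll(-t⁻¹) Uu(t) Uu(-1) Ll(1) Uu(-1)`.  All the `Uu`, `Ll` lift to `SL_2(ℤ)`
(`red d (Uu x) = Uu x`).  For `d = 1` everything is trivial.  Hypotheses: none. -/
def StSURJ : Prop := ∀ d : ℕ, 1 ≤ d → Function.Surjective (red d)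

/-- (KER) Facts on `KK c d`, `d ∣ c`.  `red d g` depends only on `red c g` as `d ∣ c` (the entries).
Normal: `red c` is surjective.  Cardinality: the map `SG c → SG d`, `red c g ↦ red d g` is a well
defined surjective homomorphism (e.g. `Matrix.SpecialLinearGroup.map (ZMod.castHom h (ZMod d))`) with
kernel `KK c d`.  Hypotheses: StSURJ. -/
def StKER : Prop :=
  ∀ c d : ℕ, 1 ≤ c → d ∣ c →
    (KK c d).Normal ∧ (∀ g : SZ, red c g ∈ KK c d ↔ red d g = 1) ∧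
    Nat.card (KK c d) * Nat.card (SG d) = Nat.card (SG c) ∧
    ∀ e : ℕ, e ∣ d → KK c d ≤ KK c e

/-- (PROD) `KK_gcd = KK_d KK_d'`.  Put `g = gcd(d, d')`, `u = d/g`, `v = d'/g` (coprime).  There is a
factorisation `c = c₁ c₂` with `gcd(c₁, c₂) = 1`, `v ∣ c₁`, `u ∣ c₂` (let `c₁` be the largest divisor of `c`
all of whose prime factors divide `v`, e.g. `gcd(c, v^c)`); so `d ∣ c₂ g`, `d' ∣ c₁ g`.  Choose an
integer `e`, `e ≡ 1 (mod c₁)`, `e ≡ 0 (mod c₂)`, so `e² ≡ e (mod c)`.  Let `x ∈ KK c g`, `k = 1 + e (x - 1)`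
(matrix over `ℤ/c`); `det k = 1 + e tr(x-1) + e² det(x-1) = 1 + e (tr(x-1) + det(x-1)) = 1` as
`1 = det x = 1 + tr(x-1) + det(x-1)`.  The entries of `x - 1` are multiples of `g`, so those of `k - 1` are
multiples of `c₂ g`, hence of `d`: `k ∈ KK c d`.  And `k' = k⁻¹ x` has `k' - 1 = k⁻¹ (1-e)(x-1)`, with
entries multiples of `c₁ g`, hence of `d'`.  Hypotheses: StKER, StSURJ. -/
def StPROD : Prop :=
  ∀ c d d' : ℕ, 1 ≤ c → d ∣ c → d' ∣ c → ∀ x ∈ KK c (Nat.gcd d d'),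
    ∃ k ∈ KK c d, ∃ k' ∈ KK c d', x = k * k'

/-- (GEN) Generation of `KK c (c/q)` by conjugates of `Ll (t c/q)` under `G_q = KK c (c/q^n)`,
`n = v_q(c)`.  Let `y₀ = c/q ∈ ℤ/c` and let `e` be an integer, `e ≡ 1 (mod q^n)`, `e ≡ 0 (mod c/q^n)`; so
`e² = e`, `e y = y` in `ℤ/c` for every multiple `y` of `y₀`; `Uu(e t), Ll(e t) ∈ G_q`.
Let `P` be the closure.  (i) `Ll(y) ∈ P` for all multiples `y` of `y₀`.
(ii) `S_e = [[1-e, -e], [e, 1-e]]` (determinant `(1-e)² + e² = 1`) lies in `G_q` and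
`S_e Ll(y) S_e⁻¹ = Uu(-y)`; so `Uu(y) ∈ P`.
(iii) If `n ≥ 2` then `y₀² = 0` in `ℤ/c`.  `Uu(e) Ll(y) Uu(-e) = [[1+y, -y], [y, 1-y]]` and
`Ll(-y) [[1+y, -y], [y, 1-y]] Uu(y) = diag(1+y, 1-y)` (use `y² = 0`), so `diag(1+y, 1-y) ∈ P`.
An element of `KK c (c/q)` is `[[1+α, β], [γ, 1+δ]]` with `α, β, γ, δ` multiples of `y₀`; products of two
of them vanish, `det = 1` gives `δ = -α`, and it equals `Ll(γ) diag(1+α, 1-α) Uu(β)`.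
(iv) If `n = 1` the multiples of `y₀` are the multiples of `e` and `e ℤ/c` is a field isomorphic to
`𝔽_q` with identity `e`.  Let `k = [[1+α, β], [γ, 1+δ]]`, entries multiples of `e` again.  If `γ ≠ 0` there
is `γ'` (multiple of `e`) with `γ γ' = e`; then `k = Uu(α γ') Ll(γ) Uu(δ γ')`
(check the entries: `α γ' γ = α e = α`, and `(1,2)` follows from the determinant, multiplying by `γ`).
If `γ = 0` then `k Ll(e)` has `(2,1)` entry `e (1 + δ)`, nonzero since `(1+α)(1+δ) = 1` shows that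
`1 + δ` is a unit; apply the first case to `k Ll(e)`.  Hypotheses: StKER, StSURJ. -/
def StGEN : Prop :=
  ∀ c q : ℕ, 1 ≤ c → q ∈ c.primeFactors →
    KK c (c / q) ≤ Subgroup.closure {x | ∃ g ∈ KK c (c / q ^ (c.factorization q)), ∃ t : ℤ,
      x = g⁻¹ * red c (Ll (t * ((c / q : ℕ) : ℤ))) * g}

/-- (CHAR) Let `(R_g f)(x) = f(x g)`; `R_{gh} = R_g R_h`.  For a prime `q ∣ c` let
`F_q = (1/q) ∑_{t < q} R_{Ll(t c/q)}`, a projection onto the functions fixed by `R_{Ll(c/q)}`; the `F_q`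
commute with each other and with `R_{Ll(·)}`.
Step 1.  There is `w ≠ 0` in `V`, New, with `F_q w = 0` for all primes `q ∣ c`: induct over the set `S` of
primes treated (start with `S = ∅`, `w = f`).  Let `q ∉ S`.  For `g ∈ G_q = KK c (c/q^n)` consider
`w' = (1 - F_q) R_g w ∈ V`; it is New (averages over normal subgroups from the left commute with right
translations) and `F_q w' = 0`; `g` commutes with `Ll(t c/p)` for `p ≠ q` (`g ≡ 1` mod `c/q^n` and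
`Ll(t c/p) ≡ 1` mod `q^n`: `(g-1)` has entries multiples of `c/q^n`, and `c/p` is a multiple of `q^n`), so
`F_p w' = (1 - F_q) R_g F_p w = 0` for `p ∈ S`.  If `w' = 0` for all `g ∈ G_q` then
`R_{Ll(t c/q)} R_g w = R_g w`, i.e. `R_{g⁻¹ Ll(t c/q) g} w = w` (replace `g` by its inverse if needed), so `w`
is invariant under `R_k` for all `k` in the closure of StGEN, in particular for `k ∈ K = KK c (c/q)`; but
then `∑_{k ∈ K} w(k x) = ∑_{k ∈ K} w(x (x⁻¹ k x)) = |K| w(x)`, which is `0` as `w` is New: `w = 0`,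
contradiction.
Step 2.  For `κ < c` put `w_κ(x) = (1/c) ∑_{t < c} e(-κ t/c) w(x Ll(t))`; `w = ∑_κ w_κ`,
`w_κ(x Ll(1)) = e(κ/c) w_κ(x)`, `w_κ ∈ V`.  If `q ∣ κ`, `q ∣ c` then `w_κ` is the same average of `F_q w`
(as `e(κ/q) = 1`: group `t` modulo `c/q`), so `w_κ = 0`.  So some `w_κ ≠ 0` with `κ` prime to `c`.
(For `c = 1`: `κ = 0`.)  Hypotheses: StGEN, StKER, StSURJ. -/
def StCHAR : Prop :=
  ∀ (c : ℕ) [NeZero c] (V : Submodule ℂ (SG c → ℂ)),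
    (∀ (h : SG c) (f : SG c → ℂ), f ∈ V → (fun x => f (x * h)) ∈ V) →
    (∃ f ∈ V, f ≠ 0 ∧ New c f) →
    ∃ w ∈ V, w ≠ 0 ∧ ∃ κ : ℕ, Nat.Coprime κ c ∧
      ∀ x, w (x * red c (Ll 1)) = Complex.exp (2 * Real.pi * Complex.I * κ / c) * w x

/-- (DIM) Take `w, κ` from StCHAR.  For a unit `t` of `ℤ/c` let `D_t = diag(t, t⁻¹) ∈ SG c`.  Then
`D_t⁻¹ Ll(1) D_t = Ll(t²)` (entries in `ℤ/c`), so `w_t(x) = w(x D_t)` satisfies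
`w_t(x Ll(1)) = w(x D_t Ll(t²)) = e(κ t²/c) w_t(x)`.  If `t²` takes `m` different values then the `m`
functions `w_t` (one for each value) are eigenvectors of the linear map `R_{Ll(1)}` with different
eigenvalues (`κ` is prime to `c`), hence linearly independent
(`Module.End.eigenvectors_linearIndependent'`).  The number of units `t` with `t²` a given value is at most
`#{t : t² = 1} = (Γ c).card ≤ 2 τ c` (`Pool.Agent.Helper56.SW.stSqrt`), so `m ≥ φ(c)/(2 τ c)`.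
Hypotheses: StCHAR. -/
def StDIM : Prop :=
  ∀ (c : ℕ) [NeZero c] (V : Submodule ℂ (SG c → ℂ)),
    (∀ (h : SG c) (f : SG c → ℂ), f ∈ V → (fun x => f (x * h)) ∈ V) →
    (∃ f ∈ V, f ≠ 0 ∧ New c f) →
    ∃ (m : ℕ) (v : Fin m → SG c → ℂ), LinearIndependent ℂ v ∧ (∀ i, v i ∈ V) ∧
      (Nat.totient c : ℝ) / (2 * τ c) ≤ m

/-! ## C. traces and Möbius inversion -/

/-- (TR) First: for `d ∣ c`, `K = KK c d`: `W s w d j g₀ = ∑_{k ∈ K} cnt_c j (red c g₀ * k)`, by induction on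
`j` (`j = 0`: `red d g₀ = 1` iff `red c g₀ ∈ K` iff exactly one `k ∈ K` has `red c g₀ k = 1`; `j + 1`:
`(red c w_i)⁻¹ (red c g₀ k) = red c (w_i⁻¹ g₀) k`).  Then by StLAM
`Tr (lam (g₀⁻¹) X^j E_K) = |K|⁻¹ ∑_g ∑_{k ∈ K} cnt_c j g Tr lam (g₀⁻¹ g k)
= |K|⁻¹ |SG c| ∑_{k ∈ K} cnt_c j (g₀ k⁻¹) = |SG d| W s w d j g₀` (`|SG c| = |K| |SG d|`).
The second claim is the same computation without `K`.  Hypotheses: StLAM, StKER, StSURJ. -/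
def StTR : Prop :=
  ∀ (c : ℕ) [NeZero c] (ι : Type) (s : Finset ι) (w : ι → SZ),
    (∀ (d j : ℕ) (g0 : SZ), d ∣ c →
      (lam (red c g0)⁻¹ * (opX s fun i => red c (w i)) ^ j * EK (KK c d)).trace =
        (Nat.card (SG d) : ℂ) * (W s w d j g0 : ℂ)) ∧
    ∀ k : ℕ, ((opX s fun i => red c (w i)) ^ k).trace = (Nat.card (SG c) : ℂ) * (W s w c k 1 : ℂ)

/-- (Q) Facts on `opQ c = ∑_{d ∣ c} μ(c/d) E_d`, `E_d = EK (KK c d)`.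
`E_d` is Hermitian and commutes with all `lam g` (`KK c d` is normal).
`E_d E_d' = E_gcd(d,d')`: the product map `KK_d × KK_d' → KK_gcd` is surjective (StPROD; its image lies in
`KK_gcd` by StKER) and all its fibres have `|KK_d ∩ KK_d'|` elements (`k k' = k₀ k₀'` iff
`k = k₀ m`, `k' = m⁻¹ k₀'`).  `E_c = 1`.
For a prime `p ∣ c`: `E_{c/p} Q = ∑_{f ∣ c} μ(f) E_{gcd(c/p, c/f)}`, and the terms cancel in pairs
`f ↔ p f` (`f` squarefree, `p ∤ f`; `gcd(c/p, c/f) = c/(pf) = gcd(c/p, c/(pf))`), so `E_{c/p} Q = 0`.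
Hence `E_d Q = E_d E_{c/p} Q = 0` for `d ∣ c`, `d ≠ c` (choose `p ∣ c/d`) and `Q Q = μ(1) E_c Q = Q`.
If `Q v = v` then `E_{c/p} v = 0`, i.e. `∑_{k ∈ KK} v(k⁻¹ x) = 0`, so `New c v`.
Hypotheses: StLAM, StKER, StPROD, StSURJ. -/
def StQ : Prop :=
  ∀ (c : ℕ) [NeZero c], (opQ c).IsHermitian ∧ opQ c * opQ c = opQ c ∧
    (∀ g : SG c, lam g * opQ c = opQ c * lam g) ∧
    ∀ v : SG c → ℂ, opQ c *ᵥ v = v → New c v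

/-- (TJ) Apply StLA with `X = opX s (red c ∘ w)`, `Q = opQ c`, `U = lam (red c g₀)⁻¹`,
`m = φ(c)/(2 τ c)`.  By StTR, `Tr (U X^j Q) = ∑_{d ∣ c} μ(c/d) |SG d| W s w d j g₀` and
`Tr X^k = |SG c| W s w c k 1`.  The hypothesis of StLA: if `l ≠ 0`, `v ≠ 0`, `X v = l v`, `Q v = v`, then
`v` is New (StQ); let `V` be the eigenspace of `X` for `l`: it is invariant under right translations
(`X` acts by left translations), so StDIM gives at least `m` linearly independent eigenvectors and StEIG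
applies.  `Sym`/`Pos` for `w` give the same for `red c ∘ w`.
Hypotheses: StLA, StEIG, StLAM, StDIM, StTR, StQ. -/
def StTJ : Prop :=
  ∀ (c : ℕ) [NeZero c] (ι : Type) (s : Finset ι) (w : ι → SZ) (k j : ℕ) (g0 : SZ),
    Sym s w → 1 ≤ k → k ≤ j → (Even k ∨ Pos s w) →
    |∑ d ∈ c.divisors, (ArithmeticFunction.moebius (c / d) : ℝ) *
        ((Nat.card (SG d) : ℝ) * (W s w d j g0 : ℝ))| ≤
      ((Nat.card (SG c) : ℝ) * (W s w c k 1 : ℝ) / ((Nat.totient c : ℝ) / (2 * τ c))) ^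
        (((j : ℝ) - k) / k) * ((Nat.card (SG c) : ℝ) * (W s w c k 1 : ℝ))

/-- (LEVEL) With `F(d) = |SG d| W s w d j g₀`, `T(e) = ∑_{d ∣ e} μ(e/d) F(d)`, Möbius inversion gives
`F(c) = ∑_{e ∣ c} T(e)`.  By StTJ (at level `e`) and `|SG e| ≤ e³`, `e ≤ φ(e) τ(e)` (both sides are
multiplicative and `(1 - 1/p)(v + 1) ≥ 1`), with `Y = C₁ μ^k (1/e + t)` (`μ` = `mu`):
`|SG e| W_e(k,1) ≤ e Y`, `|SG e| W_e(k,1) / (φ(e)/(2τ(e))) ≤ 2 τ(e)² Y`, so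
`|T(e)| ≤ (2 τ(e)²)^((j-k)/k) e Y^(j/k)`, `Y^(j/k) = C₁^(j/k) μ^j (1/e + t)^(j/k)`, and
`e (1/e + t)^(j/k) ≤ 2^(j/k) (e^(1 - j/k) + e t^(j/k)) ≤ 2^(j/k) (1 + c t^(j/k))`.
Sum over `e ∣ c` and divide by `|SG c| ≥ φ(c) c² ≥ c³/τ(c)`; the constant is
`τ² (2τ²)^((j-k)/k) 2^(j/k) ≤ (4 τ²)^(j+1)`, `τ = τ c`.  Hypotheses: StTJ, StCARD. -/
def StLEVEL : Prop :=
  ∀ (k j : ℕ) (ι : Type) (s : Finset ι) (w : ι → SZ), Sym s w → 1 ≤ k → k ≤ j →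
    (Even k ∨ Pos s w) → ∀ (c : ℕ) (mu C1 t : ℝ), 1 ≤ c → 0 ≤ mu → 0 ≤ C1 → 0 ≤ t →
    (∀ e ∈ c.divisors, (W s w e k 1 : ℝ) * (e : ℝ) ^ 2 ≤ C1 * mu ^ k * (1 / e + t)) →
    ∀ g0 : SZ, (W s w c j g0 : ℝ) ≤
      (4 * τ c ^ 2) ^ (j + 1) * C1 ^ ((j : ℝ) / k) * mu ^ j / (c : ℝ) ^ 3 *
        (1 + c * t ^ ((j : ℝ) / k))

/-! ## D. counting: from the integer model to words in the letters -/

/-- (N0W) Let `B₁ = 2B + 1`, `γ ∈ Γ c`, `g₀ = sc γ` (so `red c g₀` is the scalar `γ`).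
`W (sM A B) (wM a b) c j g₀` counts the `(h_i, k_i, k'_i)_{i ≤ j}`, `0 < |h_i| ≤ A`, `0 ≤ k_i, k'_i < B₁`,
with `∏ L(-b k_i) U(a h_i) L(b k'_i) = γ` modulo `c`, i.e. (conjugate by `L(b k_1)`, `γ` is central)
`U(ah_1) L(bκ_1) U(ah_2) L(bκ_2) ⋯ U(ah_j) L(bκ_j) = γ`, `κ_i = k'_i - k_{i+1}`, `κ_j = k'_j - k_1`.
Every `κ` with `|κ| ≤ B` is `k' - k` for at least `B + 1` pairs in `[0, B₁)²`, and
`(k, k') ↦ (κ)` splits into `j` independent pairs `(k'_i, k_{i+1})`.  So each list counted in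
`N0 c a b j A B` for `γ` (all `h_i` are nonzero as `c ∤ h_i`) gives at least `(B+1)^j` of them (lists in `bx`
have the head as the LAST factor: use the reversed order; see `Pool.Agent.Helper56.SW.M_Tr_rel_iff` or
`M_Deg_rel_iff` for the translation of `Rel`).  Suggestion: induct on `j` with an open-ended version: for
`R j k k' g = #{…}` the words starting with `L(-bk)` and ending with `L(bk')` prescribed.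
Hypotheses: none. -/
def StN0W : Prop :=
  ∀ (c : ℕ) (a b : ℤ) (j A B : ℕ) (sc : ℕ → SZ), 1 ≤ c → 1 ≤ j →
    (∀ x ∈ Γ c, ((red c (sc x) : SG c) : Matrix (Fin 2) (Fin 2) (ZMod c)) =
      ((x : ℕ) : ZMod c) • 1) →
    (N0 c a b j A B : ℝ) * ((B : ℝ) + 1) ^ j ≤
      ∑ x ∈ Γ c, (W (sM A B) (wM a b) c j (sc x) : ℝ)

/-- (NPW) The same for the positive family: `wP` of `((h,k),(h',k'))` is
`L(-bk) U(a(h'-h)) L(bk')`; every `|η| ≤ A` is `h' - h` for at least `A + 1` pairs in `[0, 2A]²`.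
Now `h`, `k` may be zero.  Hypotheses: none (share the proof with StN0W if you can: a common
lemma with weights for the `h`-part). -/
def StNPW : Prop :=
  ∀ (c : ℕ) (a b : ℤ) (j A B : ℕ) (sc : ℕ → SZ), 1 ≤ c → 1 ≤ j →
    (∀ x ∈ Γ c, ((red c (sc x) : SG c) : Matrix (Fin 2) (Fin 2) (ZMod c)) =
      ((x : ℕ) : ZMod c) • 1) →
    (N c a b j A B : ℝ) * (((A : ℝ) + 1) * ((B : ℝ) + 1)) ^ j ≤
      ∑ x ∈ Γ c, (W (sP A B) (wP a b) c j (sc x) : ℝ)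

/-- (WPN) Conversely every `η` is `h' - h` for at most `2A + 1` pairs in `[0, 2A]²` and then
`|η| ≤ 2A`; same for `κ`.  As in StNPW (cyclic rotation, product `1`), `W_P(e; k, 1)` is at most
`((2A+1)(2B+1))^k` times the number of lists in `bx (I (2A)) (I (2B)) k` whose word is `1` modulo `e`, and
these are counted in `N e a b k (2A) (2B)` (`γ = 1` if `e ≥ 2`, `γ = 0` if `e = 1`).
Hypotheses: none. -/
def StWPN : Prop :=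
  ∀ (e : ℕ) (a b : ℤ) (k A B : ℕ), 1 ≤ e → 1 ≤ k →
    (W (sP A B) (wP a b) e k 1 : ℝ) ≤
      ((2 * (A : ℝ) + 1) * (2 * B + 1)) ^ k * (N e a b k (2 * A) (2 * B) : ℝ)

/-- (FOLD) Map every `h ∈ [-A, A]` to itself if `A ≤ e`, and to its residue modulo `e` in `[0, e)`
otherwise, so that the image lies in `[-min(A,e), min(A,e)]` and the word modulo `e` does not change; the
fibres have at most `2A/e + 1 ≤ 3A/e` elements if `A > e` (1 element if `A ≤ e`); same for `k`.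
Hypotheses: none. -/
def StFOLD : Prop :=
  ∀ (e : ℕ) (a b : ℤ) (k A B : ℕ), 1 ≤ e → 1 ≤ A → 1 ≤ B →
    (N e a b k A B : ℝ) ≤ (3 * (A : ℝ) / min (A : ℝ) e) ^ k * (3 * (B : ℝ) / min (B : ℝ) e) ^ k *
      (N e a b k (min A e) (min B e) : ℝ)

/-- (SYM) `sM`: `σ (h, k, k') = (-h, k', k)`; `sP`: `σ (x, y) = (y, x)`; positivity of `sP` is by
definition (`Finset.sum_product`).  Hypotheses: none. -/
def StSYM : Prop :=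
  ∀ (a b : ℤ) (A B : ℕ), Sym (sM A B) (wM a b) ∧ Sym (sP A B) (wP a b) ∧ Pos (sP A B) (wP a b)

/-- (CONV) `cnt (i + j) g = ∑_h cnt i h * cnt j (h⁻¹ g)` (induction on `i`) and
`cnt j g⁻¹ = cnt j g` for a symmetric family (e.g. from `(opX^j)ᴴ = opX^j`, or: the number of words is
unchanged under reversing the word and applying `σ`; by induction with
`cnt (j+1) g = ∑_i cnt j (g (u i)⁻¹)`, which follows from the first formula).  Hypotheses: none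
(StLAM may be assumed). -/
def StCONV : Prop :=
  ∀ (G ι : Type) [Group G] [Fintype G] (s : Finset ι) (u : ι → G) (l : ℕ), Sym s u →
    cnt s u (2 * l) 1 = ∑ g : G, cnt s u l g ^ 2

/-- (MINK) Minkowski: expand the square, Cauchy-Schwarz for each pair `(i, i')`.
Hypotheses: none. -/
def StMINK : Prop :=
  ∀ (G ι : Type) [Fintype G] (s : Finset ι) (f : ι → G → ℝ), (∀ i g, 0 ≤ f i g) →
    ∑ g : G, (∑ i ∈ s, f i g) ^ 2 ≤ (∑ i ∈ s, Real.sqrt (∑ g : G, f i g ^ 2)) ^ 2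

/-- (SUM) `∑_{0 < |h| ≤ A} gcd(h, c) ≤ ∑_{δ ∣ c} δ #{0 < |h| ≤ A : δ ∣ h} ≤ ∑_{δ ∣ c} δ (2A/δ)`.
Hypotheses: none. -/
def StSUM : Prop :=
  ∀ (c A : ℕ), 1 ≤ c → ∑ h ∈ Hs A, (Int.gcd h c : ℝ) ≤ 2 * A * τ c

/-! ## E. two letters -/

/-- (W2) `cnt 2 1 = ∑_{i, i'} [red (w_i w_{i'}) = 1]`.  `L(-bk₁) U(ah₁) L(bk₁') L(-bk₂) U(ah₂) L(bk₂') = 1`
modulo `c` means `U(ah₁) L(bκ) U(ah₂) = L(bκ')`, `κ = k₁' - k₂`, `κ' = k₁ - k₂'`; the entries give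
`h₁ κ ≡ 0`, `h₁ + h₂ ≡ 0`, `κ ≡ κ'` modulo `c` (`a, b` are prime to `c`).  With `B₁ = 2B+1`,
`n = min(B₁, c)`: given `h₁` at most `2A/c + 1 ≤ 3A/min(A,c)` values `h₂`; `k₁'` free (`B₁`), `k₂ ≡ k₁'` modulo
`c/gcd(h₁,c)`: at most `B₁ gcd(h₁,c)/c + 1` values; `k₁` free, `k₂'` determined modulo `c`: at most
`B₁/c + 1 ≤ 2B₁/n` values.  `∑_{h₁} (B₁ gcd(h₁,c)/c + 1) ≤ 2Aτ B₁/c + 2A ≤ 4Aτ B₁/n` (StSUM).  Total
`24 A² τ B₁⁴/(min(A,c) n²) = 6 τ (2A B₁²)²/(min(A,c) n²)`.  Hypotheses: StSUM. -/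
def StW2 : Prop :=
  ∀ (c : ℕ) (a b : ℤ) (A B : ℕ), 1 ≤ c → IsCoprime a c → IsCoprime b c → 1 ≤ A →
    (W (sM A B) (wM a b) c 2 1 : ℝ) ≤
      6 * τ c * (2 * A * (2 * (B : ℝ) + 1) ^ 2) ^ 2 /
        (min (A : ℝ) c * min (2 * (B : ℝ) + 1) c ^ 2)

/-- (V2) `n ≤ c`.  Count pairs `(x,k,y), (x',k',y')` with equal words `L(bx) M L(by)`,
`M = U(x₁) L(bk) U(x₂)`, `x_i = a h_i`, `M₁₂ = X(k) = x₁ + x₂ + x₁x₂bk`.  Left multiplication by `L` does not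
change the first row, right multiplication by `L` does not change the second column; so
`X(k) ≡ X(k') (mod c)`, and comparing the entries `(2,2)`: `M₂₂ + bx X(k) ≡ M₂₂' + bx' X(k')`, so `x - x'` is
determined modulo `c/g`, `g = gcd(X(k), c)`: given `k, k', x` at most `n g/c + 1` values `x'`.  Given also
`x, x'`, the word equality determines `y' - y` modulo `c`: given `y` at most one `y'` (`n ≤ c`).  So
`V2 ≤ n² ∑_{g ∣ c} (n g/c + 1) Z_g`, `Z_g = #{(k,k') : X(k) ≡ X(k') (mod c), gcd(X(k), c) = g}`.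
`X(k) ≡ X(k')` means `k ≡ k'` modulo `c/G`, `G = gcd(h₁h₂, c) ≤ Γ = gcd(h₁,c) gcd(h₂,c)`.
`g ≤ c/n`: `n g/c + 1 ≤ 2` and `∑ Z_g ≤ n (n G/c + 1) ≤ 2 n Γ`.
`g > c/n`: `n g/c + 1 ≤ 2 n g/c` and `Z_g ≤ (n gcd(h₁h₂, g)/g + 1)(n G/c + 1) ≤ 4 Γ² c/g` (`n ≤ c`, `g ≤ c`).
Total `n² (4 n Γ + τ 8 n Γ²) ≤ 12 τ n³ Γ²`.  Hypotheses: none (`stAP` of Helper56 for residue classes in
intervals). -/
def StV2 : Prop :=
  ∀ (c : ℕ) (a b h1 h2 : ℤ) (n : ℕ) (i0 i1 i2 : ℤ), 1 ≤ c → IsCoprime a c → IsCoprime b c →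
    1 ≤ n → n ≤ c →
    (V2 c a b h1 h2 n i0 i1 i2 : ℝ) ≤
      12 * τ c * (n : ℝ) ^ 3 * ((Int.gcd h1 c : ℝ) * Int.gcd h2 c) ^ 2

/-- (R2) `W c 4 1 = ∑_g (cnt 2 g)²` (StCONV, StSYM).  `B₁ = 2B+1`, `n = min(B₁, c)`,
`P = ⌈B₁/n⌉ ≤ 2B₁/n`.  `cnt 2 g` is the number of `(h₁,h₂,k₁',k₁,k₂,k₂')` with
`L(-bk₁) U(ah₁) L(b(k₁'-k₂)) U(ah₂) L(bk₂') = g`.  For fixed `k₁'` the numbers `x = -k₁`, `k = k₁' - k₂`,
`y = k₂'` run through intervals of length `B₁`, each covered by `P` intervals of length `n`; so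
`cnt 2 g ≤ ∑_{h₁,h₂ ∈ Hs A} ∑_{k₁' < B₁} ∑_{P³ pieces} f(g)`, `f(g) = #{(x,k,y) in the piece : F2 = g}`, and
`∑_g f(g)² = V2 ≤ v h₁ h₂`.  StMINK gives
`W c 4 1 ≤ (∑_{h₁,h₂} B₁ P³ √(v h₁ h₂))²`.  Hypotheses: StCONV, StMINK, StSYM. -/
def StR2 : Prop :=
  ∀ (c : ℕ) (a b : ℤ) (A B n : ℕ) (v : ℤ → ℤ → ℝ), 1 ≤ c → n = min (2 * B + 1) c →
    (∀ h1 ∈ Hs A, ∀ h2 ∈ Hs A, ∀ i0 i1 i2 : ℤ, (V2 c a b h1 h2 n i0 i1 i2 : ℝ) ≤ v h1 h2) →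
    (W (sM A B) (wM a b) c 4 1 : ℝ) ≤
      ((2 * (B : ℝ) + 1) * (2 * (2 * (B : ℝ) + 1) / n) ^ 3 *
        ∑ h1 ∈ Hs A, ∑ h2 ∈ Hs A, Real.sqrt (v h1 h2)) ^ 2

/-- (W4) StR2 with `v = 12 τ n³ (gcd(h₁,c) gcd(h₂,c))²` (StV2), `√v = √(12 τ n³) gcd gcd`, and StSUM:
`W ≤ B₁² (2B₁/n)⁶ 12 τ n³ (2Aτ)⁴ = 768 τ⁵ (2A B₁²)⁴ / n³`.  Hypotheses: StR2, StV2, StSUM. -/
def StW4 : Prop :=
  ∀ (c : ℕ) (a b : ℤ) (A B : ℕ), 1 ≤ c → IsCoprime a c → IsCoprime b c → 1 ≤ A →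
    (W (sM A B) (wM a b) c 4 1 : ℝ) ≤
      768 * τ c ^ 5 * (2 * A * (2 * (B : ℝ) + 1) ^ 2) ^ 4 / min (2 * (B : ℝ) + 1) c ^ 3

/-! ## F. three letters -/

/-- (R3) As StR2 with three letters: `W c 6 1 = ∑_g (cnt 3 g)²`; for fixed `k₁', k₂'` the numbers
`x = -k₁`, `k = k₁' - k₂`, `l = k₂' - k₃`, `y = k₃'` run through intervals of length `B₁`, each covered by
`P ≤ 2B₁/n` intervals of length `n`; `∑_g f(g)² = V3`.  Hypotheses: StCONV, StMINK, StSYM. -/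
def StR3 : Prop :=
  ∀ (c : ℕ) (a b : ℤ) (A B n : ℕ) (v : ℤ → ℤ → ℤ → ℝ), 1 ≤ c → n = min (2 * B + 1) c →
    (∀ h1 ∈ Hs A, ∀ h2 ∈ Hs A, ∀ h3 ∈ Hs A, ∀ i0 i1 i2 i3 : ℤ,
      (V3 c a b h1 h2 h3 n i0 i1 i2 i3 : ℝ) ≤ v h1 h2 h3) →
    (W (sM A B) (wM a b) c 6 1 : ℝ) ≤
      ((2 * (B : ℝ) + 1) ^ 2 * (2 * (2 * (B : ℝ) + 1) / n) ^ 4 *
        ∑ h1 ∈ Hs A, ∑ h2 ∈ Hs A, ∑ h3 ∈ Hs A, Real.sqrt (v h1 h2 h3)) ^ 2

/-- (VZ) `n ≤ c`.  `F3 = L(bx) M L(by)`, `M = U(x₁) L(bk) U(x₂) L(bl) U(x₃)` with entries `M₁₁ = W11`,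
`M₁₂ = m3`, `M₂₂ = W22` (check by `ring`).  First row of `F3`: `(M₁₁ + by m, m)`; `(2,2)` entry
`M₂₂ + bx m`.  Equality modulo `c` gives `m ≡ m' (mod c)`; with `g = gcd(m, c)` it gives
`M₁₁ ≡ M₁₁'`, `M₂₂ ≡ M₂₂' (mod g)`, and `b m (x - x') ≡ M₂₂' - M₂₂ (mod c)` determines `x - x'` modulo
`c/g`: given `x` at most `n g/c + 1` values `x'`; given all but `y, y'` the equality determines `y' - y` modulo
`c` (`red c (L(b(y'-y)))` is determined and `b` is prime to `c`), so given `y` at most one `y'`.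
Hypotheses: none. -/
def StVZ : Prop :=
  ∀ (c : ℕ) (a b h1 h2 h3 : ℤ) (n : ℕ) (i0 i1 i2 i3 : ℤ), 1 ≤ c → IsCoprime a c →
    IsCoprime b c → 1 ≤ n → n ≤ c →
    (V3 c a b h1 h2 h3 n i0 i1 i2 i3 : ℝ) ≤
      (n : ℝ) ^ 2 * ∑ g ∈ c.divisors, ((n : ℝ) * g / c + 1) * (Z3 c a b h1 h2 h3 n i1 i2 g : ℝ)

/-- (EN) `m3 = δ + β k + γ l + α k l` with `α = a³b² h₁h₂h₃` (as polynomial in `k, l`), i.e.
`m3(k,l) = (α k + γ) l + (β k + δ)`.  Fix `(k, k')`: the solutions `(l, l')` of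
`(αk+γ) l - (αk'+γ) l' ≡ β(k'-k)`; subtracting one solution maps them injectively to the `(s, t)`,
`|s|, |t| < n`, with `(αk+γ) s ≡ (αk'+γ) t`.  So `En ≤ #{(k,k',s,t) : α s k - α t k' ≡ γ (t - s)}`; for fixed
`(s, t)` subtract a solution again: `En ≤ #{(s,t,u,v) : |·| < n, α (s u - t v) ≡ 0 (mod c)}`
`= #{s u ≡ t v (mod c₁)}`, `c₁ = c/G₃`, `G₃ = gcd(h₁h₂h₃, c)` (`a, b` prime to `c`).
For each `(t, v)` (at most `4n²`) the number `w = s u`, `|w| < n²`, lies in a residue class modulo `c₁`: at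
most `2n²/c₁ + 1` values; `w ≠ 0` comes from at most `2D` pairs `(s,u)`; `w = 0` from at most `4n` pairs and
then `t v ≡ 0 (mod c₁)`: at most `4n + (2n²/c₁) 2D` pairs `(t,v)`.
Total `4n² (2n²/c₁ + 1) 2D + 4n (4n + 4n² D/c₁) ≤ 32 D (n⁴/c₁ + n²)`.  (`D ≥ 1` follows from the case
`j = 1` of the hypothesis.)  Hypotheses: none. -/
def StEN : Prop :=
  ∀ (c : ℕ) (a b h1 h2 h3 : ℤ) (n : ℕ) (i1 i2 : ℤ) (D : ℝ), 1 ≤ c → IsCoprime a c →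
    IsCoprime b c → 1 ≤ n → (∀ j : ℕ, 1 ≤ j → j ≤ n ^ 2 → τ j ≤ D) →
    (En c a b h1 h2 h3 n i1 i2 : ℝ) ≤
      32 * D * ((n : ℝ) ^ 4 * (Int.gcd (h1 * h2 * h3) c : ℝ) / c + (n : ℝ) ^ 2)

/-- (Z0) The pairs `(k', l')` with `g ∣ m3(k', l')`, by `δ = gcd(X(k'), g)`, where `X = Xe a b h1 h2`.
`m3 = X + x₃ (1 + x₁bk' + X b l')`.  `δ` divides `m3` and `X`, so `δ ∣ x₃ (1 + x₁ b k')`; but
`(1 + x₁bk')(1 + x₂bk') - X bk' = 1`, so `1 + x₁bk'` is a unit modulo `δ`: `δ ∣ x₃ = a h₃`, so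
`δ ∣ e₃ = gcd(h₃, g)`.  The `k'` with `δ ∣ X(k') = x₁ + x₂ + x₁x₂bk'` lie in one class modulo
`δ/gcd(h₁h₂, δ)`: at most `n gcd(h₁h₂,δ)/δ + 1 ≤ n G/δ + 1`, `G = gcd(h₁h₂, c)`.  Given `k'`, the `l'` with
`g ∣ m3` lie in one class modulo `g/gcd(x₃ X b, g)`, and `gcd(x₃ X b, g) ≤ e₃ δ`: at most
`n e₃ δ/g + 1`.  Hypotheses: none. -/
def StZ0 : Prop :=
  ∀ (c : ℕ) (a b h1 h2 h3 : ℤ) (n : ℕ) (i1 i2 : ℤ) (g δ : ℕ), 1 ≤ c → IsCoprime a c →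
    IsCoprime b c → g ∣ c →
    (((Iv i1 n ×ˢ Iv i2 n).filter fun p => (g : ℤ) ∣ m3 a b h1 h2 h3 p.1 p.2 ∧
      Int.gcd (Xe a b h1 h2 p.1) g = δ).Nonempty → δ ∣ Int.gcd h3 g) ∧
    ((((Iv i1 n ×ˢ Iv i2 n).filter fun p => (g : ℤ) ∣ m3 a b h1 h2 h3 p.1 p.2 ∧
      Int.gcd (Xe a b h1 h2 p.1) g = δ).card : ℝ)) ≤
      ((n : ℝ) * Int.gcd (h1 * h2) c / δ + 1) * ((n : ℝ) * Int.gcd h3 g * δ / g + 1)

/-- (Z1) `g ≤ n ≤ c`.  Write `G = gcd(h₁h₂,c)`, `e₃ = gcd(h₃,g)`, `g₃ = gcd(h₃,c)`,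
`τ = τ c`; `G ≤ gcd(h₁,c) gcd(h₂,c)`, `e₃ ≤ g₃`, `e₃ ≤ g`, `e₃ ≤ g₃ ≤ n`.
The number of `(k',l')` with `g ∣ m3(k',l')` is, by StZ0 summed over `δ ∣ e₃`, at most
`∑ (nG/δ + 1)(n e₃ δ/g + 1) ≤ 4 τ n² G e₃/g` (each of the four terms is at most `n² G e₃/g`, as
`g ≤ n`, `e₃ ≤ n`, `δ ≤ e₃`).
Fix such `(k',l')`.  For `(k,l)` as in `Z3` (note `g ∣ m3(k,l)` and `g ∣ m3(k',l')`):
`0 ≡ m3(k,l) = X(k) + x₃ W11(k,l) ≡ X(k) + x₃ W11(k',l') (mod g)` (*), and `l` satisfies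
`x₃ X(k) b l ≡ const (mod c)`: at most `n gcd(x₃X(k), c)/c + 1 ≤ n g₃ gcd(X(k), c)/c + 1` values.  So the
number of `(k,l)` is at most `(n g₃/c) ∑_{k as in (*)} gcd(X(k), c) + #{k as in (*)}`.
`#{k as in (*)} ≤ n G/g + 1 ≤ 2 n G`.  If `δ = gcd(X(k), c)` then `d = gcd(δ, g)` divides
`x₃ W11(k',l')` by (*), and `gcd(W11(k',l'), g) = 1` (`g ∣ m3(k',l')` and
`W11 W22 - m3 W21 = 1`, i.e. `(W11, m3)` is the first row of a matrix of determinant `1`), so `d ∣ e₃`.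
The `k` with (*) and `δ ∣ X(k)`: two of them satisfy `h₁h₂ (k - k₀) ≡ 0` modulo
`M = lcm(g, δ) ≥ g δ/e₃`, so their number is at most `n G/M + 1 ≤ n e₃ G/(g δ) + 1`.  Hence
`∑ gcd(X(k), c) ≤ ∑_{δ ∣ c} δ (n e₃ G/(gδ) + 1) ≤ τ (n e₃ G/g + c)` and the number of `(k,l)` is at most
`τ n g₃ (n e₃ G/(c g) + 1) + 2 n G ≤ 4 τ n G g₃` (`n ≤ c`, `e₃ ≤ g`).
Total `16 τ² n³ G² e₃ g₃/g ≤ 16 τ² n³ Γ²/g`, `Γ = gcd(h₁,c) gcd(h₂,c) gcd(h₃,c)`.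
Hypotheses: StZ0. -/
def StZ1 : Prop :=
  ∀ (c : ℕ) (a b h1 h2 h3 : ℤ) (n : ℕ) (i1 i2 : ℤ) (g : ℕ), 1 ≤ c → IsCoprime a c →
    IsCoprime b c → 1 ≤ n → n ≤ c → g ∣ c → g ≤ n → Int.gcd h3 c ≤ n →
    (Z3 c a b h1 h2 h3 n i1 i2 g : ℝ) ≤
      16 * τ c ^ 2 * (n : ℝ) ^ 3 *
        ((Int.gcd h1 c : ℝ) * Int.gcd h2 c * Int.gcd h3 c) ^ 2 / g

/-- (Z2) `n < g`.  Notation as in StZ1.  Fix `(k',l')` with `g ∣ m3(k',l')`, `δ = gcd(X(k'), g)`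
(`δ ∣ e₃`).  For `(k,l)` as in `Z3` put `u = k - k'`, `v = l - l'`, `|u|, |v| < n`.  Modulo `g`:
`X(k) ≡ -x₃ W11(k,l) ≡ -x₃ W11(k',l') ≡ X(k')`, i.e. `x₁x₂b u ≡ 0`: at most
`2 n gcd(h₁h₂,g)/g + 1 ≤ 3 G` values `u` (`n < g`).  `W11(k,l) - W11(k',l') = x₁ b u + X(k) b l - X(k') b l' ≡`
`x₁ b u + X(k') b v ≡ 0`: given `u`, `v` lies in one class modulo `g/δ`: at most `2 n δ/g + 1 ≤ 3 δ` values.
So at most `9 G δ` pairs `(k,l)`, and by StZ0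
`Z3 ≤ ∑_{δ ∣ e₃} 9 G δ (nG/δ + 1)(n e₃ δ/g + 1) ≤ 9 G ∑_{δ ∣ e₃} (n G + δ)(e₃ δ + 1) ≤ 36 τ n G² e₃²`
(`n ≤ g`; `δ ≤ e₃ ≤ n`; each of the four terms `nG e₃ δ, nG, e₃ δ², δ` is at most `n G e₃²`).
Hypotheses: StZ0. -/
def StZ2 : Prop :=
  ∀ (c : ℕ) (a b h1 h2 h3 : ℤ) (n : ℕ) (i1 i2 : ℤ) (g : ℕ), 1 ≤ c → IsCoprime a c →
    IsCoprime b c → 1 ≤ n → n ≤ c → g ∣ c → n < g → Int.gcd h3 c ≤ n →
    (Z3 c a b h1 h2 h3 n i1 i2 g : ℝ) ≤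
      36 * τ c * (n : ℝ) * ((Int.gcd h1 c : ℝ) * Int.gcd h2 c * Int.gcd h3 c) ^ 2

/-- (V3) `n ≤ c ≤ n²`.  In StVZ split at `g ≤ c/n`: there `n g/c + 1 ≤ 2` and `∑_g Z3 ≤ En`
(the `Z3` for different `g` count disjoint subsets), and StEN with `n² ≤ n⁴/c`,
`gcd(h₁h₂h₃,c) ≤ Γ` gives `2 En ≤ 128 D n⁴ Γ/c`.  For `g > c/n`: `n g/c + 1 ≤ 2 n g/c`, and
`(2 n g/c) Z3 ≤ 72 τ² n⁴ Γ²/c`: for `g ≤ n` by StZ1 (`32 τ² n⁴ Γ²/c`), for `g > n` by StZ2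
(`72 τ n² g Γ²/c` and `g ≤ c ≤ n²`); at most `τ` values of `g`.  Total
`n² (128 D + 72 τ³) n⁴ Γ²/c`.  Hypotheses: StVZ, StEN, StZ1, StZ2. -/
def StV3 : Prop :=
  ∀ (c : ℕ) (a b h1 h2 h3 : ℤ) (n : ℕ) (i0 i1 i2 i3 : ℤ) (D : ℝ), 1 ≤ c → IsCoprime a c →
    IsCoprime b c → 1 ≤ n → n ≤ c → c ≤ n ^ 2 → Int.gcd h3 c ≤ n →
    (∀ j : ℕ, 1 ≤ j → j ≤ n ^ 2 → τ j ≤ D) →
    (V3 c a b h1 h2 h3 n i0 i1 i2 i3 : ℝ) ≤
      128 * (D + τ c ^ 3) * (n : ℝ) ^ 6 *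
        ((Int.gcd h1 c : ℝ) * Int.gcd h2 c * Int.gcd h3 c) ^ 2 / c

/-- (W6) StR3 with `v` from StV3; `n = min(B₁, c)`, `B₁ = 2B+1`; `gcd(h₃,c) ≤ min(|h₃|, c) ≤ n` as
`0 < |h₃| ≤ A ≤ B`; `c ≤ n²` as `c ≤ B₁²`.  `√v = √(128 (D+τ³) n⁶/c) · gcd gcd gcd`, StSUM:
`W ≤ B₁⁴ (2B₁/n)⁸ 128 (D+τ³)(n⁶/c)(2Aτ)⁶ = 32768 τ⁶ (D+τ³) (2A B₁²)⁶/(n² c)`.
Hypotheses: StR3, StV3, StSUM. -/
def StW6 : Prop :=
  ∀ (c : ℕ) (a b : ℤ) (A B : ℕ) (D : ℝ), 1 ≤ c → IsCoprime a c → IsCoprime b c → 1 ≤ A →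
    A ≤ B → c ≤ (2 * B + 1) ^ 2 → (∀ j : ℕ, 1 ≤ j → j ≤ c ^ 2 → τ j ≤ D) →
    (W (sM A B) (wM a b) c 6 1 : ℝ) ≤
      32768 * τ c ^ 6 * (D + τ c ^ 3) * (2 * A * (2 * (B : ℝ) + 1) ^ 2) ^ 6 /
        (min (2 * (B : ℝ) + 1) c ^ 2 * c)

/-! ## G. bounds for `N0` and `N` -/

/-- (M2) `StLEVEL` with `k = 2`, the family `sM`, `mu = 2A(2B+1)²`,
`t = c²/(min(A,c) min(B₁,c)²)`, `B₁ = 2B+1`, `C₁ = 6 C' c^ε'` (a bound for the `6 τ(e)`, `e ∣ c`).  For `e ∣ c`: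
`e²/(min(A,e) min(B₁,e)²) ≤ 1/e + t`: if `e ≤ A` (`< B₁`) it is `1/e`; if `A < e ≤ B₁` it is `1/A ≤ t`
(`min(A,c) = A`, `min(B₁,c) ≤ c`); if `e > B₁` it is `e²/(A B₁²) ≤ t`.  As `A ≤ B ≤ Kc`,
`min(A,c) ≥ A/K`, `min(B₁,c) ≥ B/K`, so `t ≤ K³ c²/(AB²)`.  Then StN0W (with `sc` from StSURJ),
`(Γ c).card ≤ 2τ`, `mu/(B+1) ≤ 18 A B`, and `fn_div` for `τ`.
Hypotheses: StLEVEL, StSYM, StN0W, StSURJ, StW2. -/
def StM2 : Prop :=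
  ∀ (j : ℕ) (K ε : ℝ), 2 ≤ j → 1 ≤ K → 0 < ε → ∃ C : ℝ, 0 < C ∧
    ∀ (c : ℕ) (a b : ℤ) (A B : ℕ), 1 ≤ c → IsCoprime a c → IsCoprime b c → 1 ≤ A → A ≤ B →
      (B : ℝ) ≤ K * c →
      (N0 c a b j A B : ℝ) ≤ C * (c : ℝ) ^ ε * (((A : ℝ) * B) ^ j / (c : ℝ) ^ 3 *
        (1 + c * ((c : ℝ) ^ 2 / ((A : ℝ) * (B : ℝ) ^ 2)) ^ ((j : ℝ) / 2)))

/-- (M4) The same with `k = 4`: `t = c²/min(B₁,c)³ ≤ K³ c²/B³`; `e²/min(B₁,e)³ ≤ 1/e + t` (`e ≤ B₁`: it is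
`1/e`; `e > B₁`: `e²/B₁³ ≤ t`).  Hypotheses: StLEVEL, StSYM, StN0W, StSURJ, StW4. -/
def StM4 : Prop :=
  ∀ (j : ℕ) (K ε : ℝ), 4 ≤ j → 1 ≤ K → 0 < ε → ∃ C : ℝ, 0 < C ∧
    ∀ (c : ℕ) (a b : ℤ) (A B : ℕ), 1 ≤ c → IsCoprime a c → IsCoprime b c → 1 ≤ A → A ≤ B →
      (B : ℝ) ≤ K * c →
      (N0 c a b j A B : ℝ) ≤ C * (c : ℝ) ^ ε * (((A : ℝ) * B) ^ j / (c : ℝ) ^ 3 *
        (1 + c * ((c : ℝ) ^ 2 / (B : ℝ) ^ 3) ^ ((j : ℝ) / 4)))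

/-- (M6) The same with `k = 6`: `t = c/min(B₁,c)² ≤ K² c/B²`; for `e ∣ c`, `e ≤ c ≤ 4B² ≤ B₁²` so StW6
applies at level `e`, and `e²/(min(B₁,e)² e) ≤ 1/e + t` (`e ≤ B₁`: it is `1/e`; `e > B₁`: `e/B₁² ≤ t`).
`D` is a bound for the `τ j`, `j ≤ c²` (`fn_div`).  Hypotheses: StLEVEL, StSYM, StN0W, StSURJ, StW6. -/
def StM6 : Prop :=
  ∀ (j : ℕ) (K ε : ℝ), 6 ≤ j → 1 ≤ K → 0 < ε → ∃ C : ℝ, 0 < C ∧
    ∀ (c : ℕ) (a b : ℤ) (A B : ℕ), 1 ≤ c → IsCoprime a c → IsCoprime b c → 1 ≤ A → A ≤ B →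
      (B : ℝ) ≤ K * c → (c : ℝ) ≤ 4 * (B : ℝ) ^ 2 →
      (N0 c a b j A B : ℝ) ≤ C * (c : ℝ) ^ ε * (((A : ℝ) * B) ^ j / (c : ℝ) ^ 3 *
        (1 + c * ((c : ℝ) / (B : ℝ) ^ 2) ^ ((j : ℝ) / 6)))

/-- (MP) Positive family, `3 ≤ k ≤ j`.  By StWPN, StFOLD and `fn_fin` (at level `e`, with
`A' = min(2A, e)`, `B' = min(2B, e)`, `K = 1`):
`W_P(e; k, 1) ≤ ((2A+1)(2B+1))^k (6A/A')^k (6B/B')^k C e^ε' (B'^(k-1) + A'^(k-1) B'^(k-3) + A'^k B'^(k-2)/e)`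
`≤ C' e^ε' mu^k (1/(A'^k B') + 1/(A' B'³) + 1/(e B'²))`, `mu = ((2A+1)(2B+1))²`.  Multiply by `e²`:
`e²/(A'^k B') + e²/(A'B'³) + e/B'² ≤ 3/e + t`, `t` = the same expression for `e = c`: if `e ≤ 2A` the terms are
`e^(1-k), e^(-2), 1/e`; if `2A < e ≤ 2B` they are `e/(2A)^k ≤ t`, `1/(2A e) ≤ 1/e`, `1/e`; if `e > 2B` the
expression increases with `e`.  `t ≤ K^(k+3) (c²/(A^k B) + c²/(AB³) + c/B²)` up to a constant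
(`min(2A,c) ≥ A/K`, `min(2B,c) ≥ B/K`).  Then StLEVEL (family `sP`, Pos), StNPW (with `sc` from StSURJ),
`(Γ c).card ≤ 2τ`, `mu/((A+1)(B+1)) ≤ 36 A B`.
Hypotheses: StLEVEL, StSYM, StNPW, StWPN, StFOLD, StSURJ. -/
def StMP : Prop :=
  ∀ (k j : ℕ) (K ε : ℝ), 3 ≤ k → k ≤ j → 1 ≤ K → 0 < ε → ∃ C : ℝ, 0 < C ∧
    ∀ (c : ℕ) (a b : ℤ) (A B : ℕ), 1 ≤ c → IsCoprime a c → IsCoprime b c → 1 ≤ A → A ≤ B →
      (B : ℝ) ≤ K * c →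
      (N c a b j A B : ℝ) ≤ C * (c : ℝ) ^ ε * (((A : ℝ) * B) ^ j / (c : ℝ) ^ 3 *
        (1 + c * ((c : ℝ) ^ 2 / ((A : ℝ) ^ k * B) + c / (B : ℝ) ^ 2 +
          (c : ℝ) ^ 2 / ((A : ℝ) * (B : ℝ) ^ 3)) ^ ((j : ℝ) / k)))

/-- (REC) From `N0` to `N`.  Let `T = T(c, A, B) ≥ 0` stand for `t^k` (`k = 2, 4, 6`) and suppose
`N0(j; A, B) ≤ C c^ε (AB)^j c⁻³ (1 + c T^(j/k))` for all `j ≥ k`.  Induct on `r ≥ k`, using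
`stDeg`: `N(r+1; A, B) ≤ N0(r+1; A, B) + (r+1)(2A/c+1)(2B+1) N(r; A, 2B)`, where
`2A/c + 1 ≤ 3K`, `2B + 1 ≤ 3B`, and `2B ≤ (2K) c`, `T(2B) ≤ T(B)`.
Claim: `N(r; A, B) ≤ C c^ε (B^(r-1) + (AB)^r c⁻³ (1 + c T^(r/k)))`.
Base `r = k`: `B N(k-1; A, 2B)`: `k = 2`: `N(1) ≤ 36K²` (`fn_one`) and `B ≤ B^(r-1)`;
`k = 4`: `fn_fin` gives `B (B² + A² + A³B/c)`, and `A³B²/c ≤ K A⁴B = K (AB)⁴ c⁻² T`, `T = c²/B³`;
`k = 6`: `B (B⁴ + A⁴B² + A⁵B³/c)`, `T = c/B²`, `(AB)⁶ c⁻² T = A⁶B⁴/c ≥ A⁵B⁴/c`; `A⁴B³ ≤ B⁵` if `A² ≤ B`, and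
if `A² > B` then `A²B > B² ≥ c/4`, `A⁴B³ ≤ 4A⁶B⁴/c`.
Step `r → r+1`: `B · (2B)^(r-1)` is fine; `B (2AB)^r c⁻³ ≤ 2^r (AB)^(r+1) c⁻³`; and for
`B (AB)^r c⁻² T^(r/k)`: put `y = A T^(1/k)`; it is `B^(r+1) y^r c⁻²`, at most `(AB)^(r+1) c⁻² T^((r+1)/k)` if
`y ≥ 1`, and at most `B^(r+1) c⁻² ≤ K B^r` if `y ≤ 1`.
The three conclusions are for `k = 2, 4, 6` (in the last one `c ≤ 4B²`).
Hypotheses: StM2, StM4, StM6. -/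
def StREC : Prop :=
  ∀ (r : ℕ) (K ε : ℝ), 1 ≤ K → 0 < ε → ∃ C : ℝ, 0 < C ∧
    ∀ (c : ℕ) (a b : ℤ) (A B : ℕ), 1 ≤ c → IsCoprime a c → IsCoprime b c → 1 ≤ A → A ≤ B →
      (B : ℝ) ≤ K * c →
      (2 ≤ r → (N c a b r A B : ℝ) ≤ C * (c : ℝ) ^ ε * ((B : ℝ) ^ (r - 1) +
        ((A : ℝ) * B) ^ r / (c : ℝ) ^ 3 *
        (1 + c * ((c : ℝ) ^ 2 / ((A : ℝ) * (B : ℝ) ^ 2)) ^ ((r : ℝ) / 2)))) ∧
      (4 ≤ r → (N c a b r A B : ℝ) ≤ C * (c : ℝ) ^ ε * ((B : ℝ) ^ (r - 1) +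
        ((A : ℝ) * B) ^ r / (c : ℝ) ^ 3 *
        (1 + c * ((c : ℝ) ^ 2 / (B : ℝ) ^ 3) ^ ((r : ℝ) / 4)))) ∧
      (6 ≤ r → (c : ℝ) ≤ 4 * (B : ℝ) ^ 2 → (N c a b r A B : ℝ) ≤
        C * (c : ℝ) ^ ε * ((B : ℝ) ^ (r - 1) + ((A : ℝ) * B) ^ r / (c : ℝ) ^ 3 *
        (1 + c * ((c : ℝ) / (B : ℝ) ^ 2) ^ ((r : ℝ) / 6))))

/-! ## H. the result -/

/-- the parameter `t` is admissible: `t` bounds the normalised spectral radius on the new part -/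
def Adm (r c : ℕ) (H₁ H₂ t : ℝ) : Prop :=
  (2 ≤ r ∧ (c : ℝ) ^ 2 / (H₁ * H₂ ^ 2) ≤ t ^ 2) ∨
  (4 ≤ r ∧ (c : ℝ) ^ 2 / H₂ ^ 3 ≤ t ^ 4) ∨
  (6 ≤ r ∧ (c : ℝ) ≤ H₂ ^ 2 ∧ (c : ℝ) / H₂ ^ 2 ≤ t ^ 6) ∨
  (∃ k : ℕ, 3 ≤ k ∧ k ≤ r ∧
    (c : ℝ) ^ 2 / (H₁ ^ k * H₂) + c / H₂ ^ 2 + (c : ℝ) ^ 2 / (H₁ * H₂ ^ 3) ≤ t ^ k)

/-- (FIN) `stTr` gives `N_{2r} = N c a b r A B`, `A = ⌊H₁⌋`, `B = ⌊H₂⌋`, `H₁/2 ≤ A ≤ H₁`,
`H₂/2 ≤ B ≤ H₂ ≤ Kc`.  In each case of `Adm` the corresponding `T(c,A,B)` (StREC, StMP) is at most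
`2^(k+3) t^k` (`k = 2, 4, 6` or the `k` of the fourth case; take the maximum of the constants over
`k ≤ r`), so `T^(r/k) ≤ 2^((k+3) r/k) t^r`.  In the third case `c ≤ H₂² ≤ 4B²`.
Hypotheses: StREC, StMP. -/
def StFIN : Prop :=
  ∀ (r : ℕ) (K ε : ℝ), 1 ≤ r → 1 ≤ K → 0 < ε → ∃ C : ℝ, 0 < C ∧
    ∀ (c : ℕ) (a₁ a₂ : (ZMod c)ˣ) (H₁ H₂ : ℝ), 1 ≤ c → 1 ≤ H₁ → H₁ ≤ H₂ → H₂ ≤ K * c →
      ∀ t : ℝ, 0 ≤ t → Adm r c H₁ H₂ t →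
      (Nq (2 * r) c a₁ a₂ H₁ H₂ : ℝ) ≤ C * (c : ℝ) ^ ε * (H₂ ^ (r - 1) +
        (H₁ * H₂) ^ r / (c : ℝ) ^ 3 * (1 + c * t ^ r))

/-- the range in which Q1 is proved -/
def Range (r c : ℕ) (H₁ H₂ : ℝ) : Prop :=
  (2 ≤ r ∧ (c : ℝ) ^ (2 * r + 2) ≤ (H₁ * H₂ ^ 2) ^ r) ∨
  (4 ≤ r ∧ (c : ℝ) ^ (2 * r + 4) ≤ H₂ ^ (3 * r)) ∨
  (6 ≤ r ∧ (c : ℝ) ^ (r + 6) ≤ H₂ ^ (2 * r)) ∨
  (∃ k : ℕ, 3 ≤ k ∧ k ≤ r ∧ (c : ℝ) ^ (r + k) ≤ H₂ ^ (2 * r) ∧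
    (c : ℝ) ^ (2 * r + k) ≤ (H₁ ^ k * H₂) ^ r ∧ (c : ℝ) ^ (2 * r + k) ≤ (H₁ * H₂ ^ 3) ^ r)

/-- (Q1) In each case of `Range` take `t = (T)^(1/k)` with `T` the left-hand side in `Adm`; then
`c t^r = c T^(r/k) ≤ 3^r` (`c^k T^r ≤ 1` for a single term; in the fourth case `T` is a sum of three terms
each with `c^k T_i^r ≤ 1`).  Hypotheses: StFIN. -/
def StQ1 : Prop :=
  ∀ (r : ℕ) (K ε : ℝ), 1 ≤ r → 1 ≤ K → 0 < ε → ∃ C : ℝ, 0 < C ∧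
    ∀ (c : ℕ) (a₁ a₂ : (ZMod c)ˣ) (H₁ H₂ : ℝ), 1 ≤ c → 1 ≤ H₁ → H₁ ≤ H₂ → H₂ ≤ K * c →
      Range r c H₁ H₂ →
      (Nq (2 * r) c a₁ a₂ H₁ H₂ : ℝ) ≤ C * (c : ℝ) ^ ε * (H₂ ^ (r - 1) +
        (H₁ * H₂) ^ r / (c : ℝ) ^ 3)

end Pool.Agent.Helper28.SP
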