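import Mathlib
import Pool.Agent.Helper28.SP.St

set_option autoImplicit false

namespace Pool.Agent.Helper28.SP.SYM

open Pool.Agent.Helper28.SP
open Finset Matrix

theorem Ll_inv (y : ℤ) : (Ll y : SZ)⁻¹ = Ll (-y) := by
  rw [inv_eq_iff_mul_eq_one]
  apply Subtype.ext
  rw [Matrix.SpecialLinearGroup.coe_mul]
  ext i j
  fin_cases i <;> fin_cases j <;> simp [Ll]

theorem Uu_inv (x : ℤ) : (Uu x : SZ)⁻¹ = Uu (-x) := by
  rw [inv_eq_iff_mul_eq_one]
  apply Subtype.ext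
  rw [Matrix.SpecialLinearGroup.coe_mul]
  ext i j
  fin_cases i <;> fin_cases j <;> simp [Uu]

theorem thm : StSYM := by
  intro a b A B
  refine ⟨⟨fun i => (-i.1, i.2.2, i.2.1), ?_⟩, ⟨fun i => (i.2, i.1), ?_⟩, ?_⟩
  · rintro ⟨h, k, k'⟩ hi
    simp only [sM, Hs, Finset.mem_product, Finset.mem_erase, Finset.mem_Icc, Finset.mem_range] at hi ⊢
    refine ⟨⟨⟨by omega, by omega, by omega⟩, by omega, by omega⟩, by simp, ?_⟩
    simp only [wM]
    rw [_root_.mul_inv_rev, _root_.mul_inv_rev, Ll_inv, Ll_inv, Uu_inv, mul_assoc]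
    congr 2
    · congr 1
      ring
    · congr 1
      ring
  · rintro ⟨x, y⟩ hi
    simp only [sP, Finset.mem_product] at hi ⊢
    refine ⟨⟨hi.2, hi.1⟩, trivial, ?_⟩
    simp only [wP]
    rw [_root_.mul_inv_rev, inv_inv]
  · refine ⟨ℕ × ℕ, range (2 * A + 1) ×ˢ range (2 * B + 1), zP a b, ?_⟩
    intro f
    rw [sP, Finset.sum_product]
    rfl

end Pool.Agent.Helper28.SP.SYM
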