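import Pool.Agent.Helper28.SP.St

/-!
# MP_e188f1_nt, spectral range, module TJ: spectral bound at level `c`
-/

set_option autoImplicit false

namespace Pool.Agent.Helper28.SP.TJ

open Pool.Agent.Helper28.SP
open Finset Matrix
open scoped ComplexOrder
open Pool.Agent.Helper56.SW (τ Γ J I bx E Rel N N0 Nq)

theorem sym_red (c : ℕ) {ι : Type} (s : Finset ι) (w : ι → SZ) (h : Sym s w) :
    Sym s (fun i => red c (w i)) := by
  obtain ⟨σ, hσ⟩ := h
  refine ⟨σ, fun i hi => ?_⟩
  obtain ⟨h1, h2, h3⟩ := hσ i hi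
  refine ⟨h1, h2, ?_⟩
  simp only [h3, map_inv]

theorem pos_red (c : ℕ) {ι : Type} (s : Finset ι) (w : ι → SZ) (h : Pos s w) :
    Pos s (fun i => red c (w i)) := by
  obtain ⟨κ, t, z, hz⟩ := h
  refine ⟨κ, t, fun x => red c (z x), fun f => ?_⟩
  have := hz (fun g => f (red c g))
  simpa only [map_mul, map_inv] using this

theorem tau_pos {c : ℕ} (hc : c ≠ 0) : 0 < τ c := by
  unfold τ
  exact_mod_cast Finset.card_pos.mpr ⟨1, Nat.one_mem_divisors.mpr hc⟩

theorem thm (h1 : StLA) (h2 : StEIG) (h3 : StLAM) (h4 : StDIM) (h5 : StTR) (h6 : StQ) : StTJ := by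
  intro c _ ι s w k j g0 hs hk hkj hpos
  have hc : c ≠ 0 := NeZero.ne c
  obtain ⟨hlm, hl1, hlH, hlU, hlT, hlv, hop, hoH, hoP⟩ := h3 (SG c)
  obtain ⟨hQH, hQQ, hQc, hQN⟩ := h6 c
  obtain ⟨hT1, hT2⟩ := h5 c ι s w
  set u : ι → SG c := fun i => red c (w i) with hu
  set X : Matrix (SG c) (SG c) ℂ := opX s u with hX
  have hXH : X.IsHermitian := hoH ι s u (sym_red c s w hs)
  have hXP : Even k ∨ X.PosSemidef := by
    rcases hpos with h | h
    · exact Or.inl h
    · exact Or.inr (hoP ι s u (pos_red c s w h))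
  have hXQ : X * opQ c = opQ c * X := by
    rw [hX, opX, Finset.sum_mul, Finset.mul_sum]
    exact Finset.sum_congr rfl fun i _ => hQc (u i)
  have hXv : ∀ (f : SG c → ℂ) (x : SG c), (X *ᵥ f) x = ∑ i ∈ s, f ((u i)⁻¹ * x) := by
    intro f x
    rw [hX, opX, Matrix.sum_mulVec, Finset.sum_apply]
    exact Finset.sum_congr rfl fun i _ => hlv (u i) f x
  have hm : 0 < (Nat.totient c : ℝ) / (2 * τ c) := by
    have h1 : 0 < (Nat.totient c : ℝ) := by
      exact_mod_cast Nat.totient_pos.mpr (Nat.pos_of_ne_zero hc)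
    have h2 := tau_pos hc
    positivity
  have key : ∀ (l : ℝ) (v : SG c → ℂ), l ≠ 0 → v ≠ 0 → X *ᵥ v = (l : ℂ) • v → opQ c *ᵥ v = v →
      (Nat.totient c : ℝ) / (2 * τ c) * |l| ^ k ≤ ((X ^ k).trace).re := by
    intro l v _ hv hXl hQv
    let V : Submodule ℂ (SG c → ℂ) :=
      { carrier := {f | X *ᵥ f = (l : ℂ) • f}
        add_mem' := by
          intro f g hf hg
          simp only [Set.mem_ofPred_eq] at hf hg ⊢
          rw [Matrix.mulVec_add, hf, hg, smul_add]
        zero_mem' := by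
          simp only [Set.mem_ofPred_eq]
          rw [Matrix.mulVec_zero, smul_zero]
        smul_mem' := by
          intro a f hf
          simp only [Set.mem_ofPred_eq] at hf ⊢
          rw [Matrix.mulVec_smul, hf, smul_comm] }
    have hV : ∀ f : SG c → ℂ, f ∈ V ↔ X *ᵥ f = (l : ℂ) • f := fun f => Iff.rfl
    obtain ⟨m', v', hli, hmem, hle⟩ := h4 c V (by
      intro h f hf
      rw [hV] at hf ⊢
      funext x
      have e1 := congrFun hf (x * h)
      rw [hXv] at e1 ⊢
      simp only [Pi.smul_apply, smul_eq_mul] at e1 ⊢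
      rw [← e1]
      exact Finset.sum_congr rfl fun i _ => by rw [mul_assoc]) ⟨v, hXl, hv, hQN v hQv⟩
    have h7 := h2 (SG c) X k m' l v' hXH hk hXP hli (fun i => (hV _).mp (hmem i))
    refine le_trans ?_ h7
    gcongr
  have hmain := h1 (SG c) X (opQ c) (lam (red c g0)⁻¹) k j ((Nat.totient c : ℝ) / (2 * τ c))
    hXH hQH hQQ hXQ (hlU _) hk hkj hXP hm key
  have htr : ((X ^ k).trace).re = (Nat.card (SG c) : ℝ) * (W s w c k 1 : ℝ) := by
    rw [hX, hu, hT2 k]
    rw [← Complex.ofReal_natCast, ← Complex.ofReal_natCast, ← Complex.ofReal_mul,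
      Complex.ofReal_re]
  have htr2 : (lam (red c g0)⁻¹ * X ^ j * opQ c).trace =
      ((∑ d ∈ c.divisors, (ArithmeticFunction.moebius (c / d) : ℝ) *
        ((Nat.card (SG d) : ℝ) * (W s w d j g0 : ℝ)) : ℝ) : ℂ) := by
    rw [opQ, Finset.mul_sum, Matrix.trace_sum, Complex.ofReal_sum]
    refine Finset.sum_congr rfl fun d hd => ?_
    rw [Matrix.mul_smul, Matrix.trace_smul, hX, hu, hT1 d j g0 (Nat.dvd_of_mem_divisors hd)]
    push_cast
    rw [smul_eq_mul]
  rw [htr2, Complex.norm_real, Real.norm_eq_abs, htr] at hmain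
  exact hmain

end Pool.Agent.Helper28.SP.TJ
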