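import Pool.Agent.Helper28.SP.St

set_option autoImplicit false

namespace Pool.Agent.Helper28.SP.TR

open Pool.Agent.Helper28.SP
open Finset Matrix

theorem W_eq (h2 : StKER) (c : ℕ) [NeZero c] {ι : Type} (s : Finset ι) (w : ι → SZ) (d : ℕ)
    (hd : d ∣ c) (j : ℕ) : ∀ g0 : SZ, W s w d j g0 =
      ∑ k ∈ Kf (KK c d), cnt s (fun i => red c (w i)) j (red c g0 * k) := by
  classical
  obtain ⟨-, hmem, -, -⟩ := h2 c d (Nat.one_le_iff_ne_zero.2 (NeZero.ne c)) hd
  induction j with
  | zero =>
    intro g0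
    unfold W
    simp only [cnt]
    have h1 : ∀ k : SG c, (red c g0 * k = 1) ↔ k = (red c g0)⁻¹ := fun k =>
      ⟨fun h => (inv_eq_of_mul_eq_one_right h).symm, fun h => by rw [h, mul_inv_cancel]⟩
    simp only [h1]
    rw [Finset.sum_ite_eq']
    have h3 : ((red c g0)⁻¹ ∈ Kf (KK c d)) ↔ red d g0 = 1 := by
      rw [mem_Kf, inv_mem_iff, hmem]
    by_cases h : red d g0 = 1
    · rw [if_pos h, if_pos (h3.2 h)]
    · rw [if_neg h, if_neg fun h' => h (h3.1 h')]
  | succ j ih =>
    intro g0
    have h1 : W s w d (j + 1) g0 = ∑ i ∈ s, W s w d j ((w i)⁻¹ * g0) := by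
      unfold W
      simp only [cnt]
      refine Finset.sum_congr rfl fun i _ => ?_
      rw [map_mul, map_inv]
    rw [h1]
    simp only [ih]
    rw [Finset.sum_comm]
    refine Finset.sum_congr rfl fun k _ => ?_
    simp only [cnt]
    refine Finset.sum_congr rfl fun i _ => ?_
    rw [map_mul, map_inv, mul_assoc]

theorem thm (h1 : StLAM) (h2 : StKER) (_h3 : StSURJ) : StTR := by
  classical
  intro c _ ι s w
  obtain ⟨lmul, lone, -, -, ltr, -, lpow, -, -⟩ := h1 (SG c)
  constructor
  · intro d j g0 hd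
    have hc1 : 1 ≤ c := Nat.one_le_iff_ne_zero.2 (NeZero.ne c)
    obtain ⟨-, -, hcard, -⟩ := h2 c d hc1 hd
    rw [lpow, EK, W_eq h2 c s w d hd j g0]
    set a : SG c := (red c g0)⁻¹ with ha
    set cn : SG c → ℕ := cnt s (fun i => red c (w i)) j with hcn
    have e1 : (lam a * (∑ g : SG c, (cn g : ℂ) • lam g) *
        (((Kf (KK c d)).card : ℂ)⁻¹ • ∑ k ∈ Kf (KK c d), lam k)).trace =
        ((Kf (KK c d)).card : ℂ)⁻¹ * ∑ g : SG c, ∑ k ∈ Kf (KK c d),
          (cn g : ℂ) * (if a * g * k = 1 then (Fintype.card (SG c) : ℂ) else 0) := by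
      rw [Matrix.mul_smul, Matrix.trace_smul, smul_eq_mul]
      congr 1
      have hx : lam a * (∑ g : SG c, (cn g : ℂ) • lam g) =
          ∑ g : SG c, (cn g : ℂ) • lam (a * g) := by
        rw [Matrix.mul_sum]
        refine Finset.sum_congr rfl fun g _ => ?_
        rw [Matrix.mul_smul, ← lmul]
      rw [hx, Matrix.sum_mul, Matrix.trace_sum]
      refine Finset.sum_congr rfl fun g _ => ?_
      rw [Matrix.mul_sum, Matrix.trace_sum]
      refine Finset.sum_congr rfl fun k _ => ?_
      rw [Matrix.smul_mul, Matrix.trace_smul, smul_eq_mul, ← lmul, ltr]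
    rw [e1, Finset.sum_comm]
    have e2 : ∀ k ∈ Kf (KK c d), ∑ g : SG c,
        (cn g : ℂ) * (if a * g * k = 1 then (Fintype.card (SG c) : ℂ) else 0) =
        (cn (red c g0 * k⁻¹) : ℂ) * (Fintype.card (SG c) : ℂ) := by
      intro k _
      rw [Finset.sum_eq_single (red c g0 * k⁻¹)]
      · rw [if_pos]
        rw [ha]; group
      · intro g _ hg
        rw [if_neg, mul_zero]
        intro h
        apply hg
        rw [ha, mul_assoc] at h
        have h5 : g * k = red c g0 := by
          have := inv_eq_of_mul_eq_one_right h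
          rw [inv_inv] at this
          exact this.symm
        rw [← h5]; group
      · intro h; exact absurd (Finset.mem_univ _) h
    rw [Finset.sum_congr rfl e2, ← Finset.sum_mul]
    have e3 : ∑ k ∈ Kf (KK c d), (cn (red c g0 * k⁻¹) : ℂ) =
        ∑ k ∈ Kf (KK c d), (cn (red c g0 * k) : ℂ) := by
      refine Finset.sum_bij' (fun k _ => k⁻¹) (fun k _ => k⁻¹) ?_ ?_ ?_ ?_ ?_
      · intro k hk; rw [mem_Kf] at hk ⊢; exact inv_mem hk
      · intro k hk; rw [mem_Kf] at hk ⊢; exact inv_mem hk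
      · intro k _; exact inv_inv k
      · intro k _; exact inv_inv k
      · intro k _; rfl
    have e4 : (Kf (KK c d)).card = Nat.card (KK c d) := by
      unfold Kf
      rw [← Set.ncard_eq_toFinset_card, Set.ncard_def]
      rfl
    have e5 : (Fintype.card (SG c) : ℂ) = (Nat.card (KK c d) : ℂ) * (Nat.card (SG d) : ℂ) := by
      rw [← Nat.card_eq_fintype_card, ← hcard]; push_cast; ring
    have e6 : (Nat.card (KK c d) : ℂ) ≠ 0 := by
      have : 0 < Nat.card (KK c d) := Nat.card_pos
      exact_mod_cast this.ne'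
    rw [e3, e4, e5, Nat.cast_sum]
    field_simp
  · intro k
    rw [lpow, Matrix.trace_sum]
    rw [Finset.sum_eq_single (1 : SG c)]
    · rw [Matrix.trace_smul, ltr, if_pos rfl, smul_eq_mul, mul_comm, Nat.card_eq_fintype_card]
      congr 2
      unfold W
      rw [map_one]
    · intro g _ hg
      rw [Matrix.trace_smul, ltr, if_neg hg, smul_zero]
    · intro h; exact absurd (Finset.mem_univ _) h

end Pool.Agent.Helper28.SP.TR
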