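import Pool.Agent.Helper28.SP.St

set_option autoImplicit false

namespace Pool.Agent.Helper28.SP.CARD

open Pool.Agent.Helper28.SP

/-- a chosen matrix with given first row -/
noncomputable def g0 (d : ℕ) (a b : ZMod d) : SG d := by
  classical
  exact if h : ∃ g : SG d, g 0 0 = a ∧ g 0 1 = b then h.choose else 1

theorem g0_spec (d : ℕ) (g : SG d) :
    g0 d (g 0 0) (g 0 1) 0 0 = g 0 0 ∧ g0 d (g 0 0) (g 0 1) 0 1 = g 0 1 := by
  classical
  have h : ∃ g' : SG d, g' 0 0 = g 0 0 ∧ g' 0 1 = g 0 1 := ⟨g, rfl, rfl⟩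
  unfold g0
  rw [dif_pos h]
  exact h.choose_spec

theorem detE {d : ℕ} (g : SG d) : g 0 0 * g 1 1 - g 0 1 * g 1 0 = 1 := by
  have h := g.det_coe
  rw [Matrix.det_fin_two] at h
  exact h

theorem low (d : ℕ) [NeZero d] : Nat.totient d * d ^ 2 ≤ Nat.card (SG d) := by
  classical
  let f : (ZMod d)ˣ × (ZMod d × ZMod d) → SG d := fun p =>
    ⟨!![(p.1 : ZMod d), p.2.1; p.2.2, ((p.1⁻¹ : (ZMod d)ˣ) : ZMod d) * (1 + p.2.1 * p.2.2)], by
      rw [Matrix.det_fin_two_of, ← mul_assoc, Units.mul_inv]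
      ring⟩
  have hf : Function.Injective f := by
    intro p q h
    have h0 : ((f p : SG d) : Matrix (Fin 2) (Fin 2) (ZMod d)) = (f q : SG d) := by rw [h]
    have h00 := congrFun (congrFun h0 0) 0
    have h01 := congrFun (congrFun h0 0) 1
    have h10 := congrFun (congrFun h0 1) 0
    simp only [f, Matrix.of_apply, Matrix.cons_val_zero, Matrix.cons_val_one,
      Matrix.cons_val', Matrix.cons_val_fin_one] at h00 h01 h10
    refine Prod.ext (Units.ext h00) (Prod.ext h01 h10)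
  have h := Nat.card_le_card_of_injective f hf
  rw [Nat.card_prod, Nat.card_prod, Nat.card_zmod, Nat.card_eq_fintype_card,
    ZMod.card_units_eq_totient] at h
  rw [pow_two]
  exact h

theorem high (d : ℕ) [NeZero d] : Nat.card (SG d) ≤ d ^ 3 := by
  classical
  let f : SG d → ZMod d × (ZMod d × ZMod d) := fun g =>
    (g 0 0, (g 0 1, g 1 0 * (g0 d (g 0 0) (g 0 1)) 1 1 - g 1 1 * (g0 d (g 0 0) (g 0 1)) 1 0))
  have hf : Function.Injective f := by
    intro p q h
    have h00 : p 0 0 = q 0 0 := congrArg (fun x => x.1) h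
    have h01 : p 0 1 = q 0 1 := congrArg (fun x => x.2.1) h
    have h2 : p 1 0 * (g0 d (p 0 0) (p 0 1)) 1 1 - p 1 1 * (g0 d (p 0 0) (p 0 1)) 1 0 =
        q 1 0 * (g0 d (q 0 0) (q 0 1)) 1 1 - q 1 1 * (g0 d (q 0 0) (q 0 1)) 1 0 :=
      congrArg (fun x => x.2.2) h
    obtain ⟨a0, b0⟩ := g0_spec d p
    rw [← h00, ← h01] at h2
    set r := g0 d (p 0 0) (p 0 1) with hr
    have dp := detE p
    have dq := detE q
    have dr := detE r
    rw [a0, b0] at dr
    rw [← h00, ← h01] at dq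
    have e10 : p 1 0 = q 1 0 := by
      linear_combination (p 0 0) * h2 - p 1 0 * dr + r 1 0 * dp + q 1 0 * dr - r 1 0 * dq
    have e11 : p 1 1 = q 1 1 := by
      linear_combination (p 0 1) * h2 - p 1 1 * dr + r 1 1 * dp + q 1 1 * dr - r 1 1 * dq
    ext i j
    fin_cases i <;> fin_cases j
    · exact h00
    · exact h01
    · exact e10
    · exact e11
  have h := Nat.card_le_card_of_injective f hf
  rw [Nat.card_prod, Nat.card_prod, Nat.card_zmod] at h
  calc Nat.card (SG d) ≤ d * (d * d) := h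
    _ = d ^ 3 := by ring

theorem thm : StCARD := by
  intro d hd
  haveI : NeZero d := ⟨by omega⟩
  exact ⟨low d, high d⟩

end Pool.Agent.Helper28.SP.CARD
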