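import Mathlib
import Pool.Agent.Helper28.SP.St

/-!
# MP_e188f1_nt: module CONV (convolution identity)
-/

set_option autoImplicit false

namespace Pool.Agent.Helper28.SP.CONV

open Pool.Agent.Helper28.SP Finset

variable {G ι : Type} [Group G]

theorem cnt_succ (s : Finset ι) (u : ι → G) (j : ℕ) (g : G) :
    cnt s u (j + 1) g = ∑ i ∈ s, cnt s u j ((u i)⁻¹ * g) := rfl

theorem cnt_zero (s : Finset ι) (u : ι → G) (g h : G) (e : g = 1 ↔ h = 1) :
    cnt s u 0 g = cnt s u 0 h := by
  unfold cnt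
  by_cases h1 : h = 1
  · have g1 : g = 1 := e.mpr h1
    simp [g1, h1]
  · have g1 : ¬ g = 1 := fun hg => h1 (e.mp hg)
    simp [g1, h1]

theorem cnt_zero_one (s : Finset ι) (u : ι → G) : cnt s u 0 (1 : G) = 1 := by
  unfold cnt; simp

theorem cnt_zero_ne (s : Finset ι) (u : ι → G) (g : G) (h : g ≠ 1) : cnt s u 0 g = 0 := by
  unfold cnt; simp [h]

theorem conv [Fintype G] (s : Finset ι) (u : ι → G) (i j : ℕ) :
    ∀ g : G, cnt s u (i + j) g = ∑ h : G, cnt s u i h * cnt s u j (h⁻¹ * g) := by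
  induction i with
  | zero =>
    intro g
    rw [Finset.sum_eq_single (1 : G)]
    · rw [cnt_zero_one]; simp
    · intro h _ hh
      rw [cnt_zero_ne s u h hh]; simp
    · intro h; exact absurd (Finset.mem_univ _) h
  | succ i ih =>
    intro g
    have e : i + 1 + j = (i + j) + 1 := by ring
    rw [e, cnt_succ]
    have h1 : ∀ x ∈ s, cnt s u (i + j) ((u x)⁻¹ * g) =
        ∑ h : G, cnt s u i ((u x)⁻¹ * h) * cnt s u j (h⁻¹ * g) := by
      intro x _
      rw [ih]
      refine Fintype.sum_equiv (Equiv.mulLeft (u x)) _ _ ?_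
      intro h
      simp only [Equiv.coe_mulLeft, inv_mul_cancel_left, mul_inv_rev, mul_assoc]
    rw [Finset.sum_congr rfl h1, Finset.sum_comm]
    refine Finset.sum_congr rfl ?_
    intro h _
    rw [cnt_succ, Finset.sum_mul]

theorem cnt_right (s : Finset ι) (u : ι → G) (j : ℕ) :
    ∀ g : G, cnt s u (j + 1) g = ∑ i ∈ s, cnt s u j (g * (u i)⁻¹) := by
  induction j with
  | zero =>
    intro g
    rw [cnt_succ]
    refine Finset.sum_congr rfl ?_
    intro i _
    refine cnt_zero s u _ _ ?_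
    rw [inv_mul_eq_one, mul_inv_eq_one]
    exact eq_comm
  | succ j ih =>
    intro g
    rw [cnt_succ]
    have h1 : ∀ x ∈ s, cnt s u (j + 1) ((u x)⁻¹ * g) =
        ∑ y ∈ s, cnt s u j ((u x)⁻¹ * (g * (u y)⁻¹)) := by
      intro x _
      rw [ih]
      refine Finset.sum_congr rfl ?_
      intro y _
      rw [mul_assoc]
    rw [Finset.sum_congr rfl h1, Finset.sum_comm]
    refine Finset.sum_congr rfl ?_
    intro y _
    rw [cnt_succ]

theorem cnt_inv (s : Finset ι) (u : ι → G) (hs : Sym s u) (j : ℕ) :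
    ∀ g : G, cnt s u j g⁻¹ = cnt s u j g := by
  obtain ⟨σ, hσ⟩ := hs
  induction j with
  | zero =>
    intro g
    exact cnt_zero s u _ _ inv_eq_one
  | succ j ih =>
    intro g
    rw [cnt_succ, cnt_right]
    have h1 : ∀ x ∈ s, cnt s u j ((u x)⁻¹ * g⁻¹) = cnt s u j (g * u x) := by
      intro x _
      rw [← mul_inv_rev, ih]
    rw [Finset.sum_congr rfl h1]
    refine Finset.sum_bij' (fun x _ => σ x) (fun x _ => σ x) ?_ ?_ ?_ ?_ ?_
    · intro x hx; exact (hσ x hx).1
    · intro x hx; exact (hσ x hx).1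
    · intro x hx; exact (hσ x hx).2.1
    · intro x hx; exact (hσ x hx).2.1
    · intro x hx
      rw [(hσ x hx).2.2, inv_inv]

theorem thm0 : StCONV := by
  intro G ι _ _ s u l hs
  rw [two_mul, conv]
  refine Finset.sum_congr rfl ?_
  intro h _
  rw [mul_one, cnt_inv s u hs, sq]

theorem thm (_h : StLAM) : StCONV := thm0

end Pool.Agent.Helper28.SP.CONV
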