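import Pool.Agent.Helper28.SP.St
import Pool.Agent.Helper56.SW.M_Deg

/-!
# MP_e188f1_nt, spectral range: module N0W

The same method as in module NPW: the words are counted in the group algebra `ℝ[SL_2(ℤ/c)]`; with
`X = ∑ L(bk)`, `X' = ∑ L(-bk)`, `V = ∑ U(ah)` the number of words of length `j` is a coefficient of
`(X' V X)^j`, which for a central element is the coefficient of `(V X X')^j`, and this is a weighted
sum over the lists in `bx (Hs A) (I (2B)) j`.
-/

set_option autoImplicit false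

namespace Pool.Agent.Helper28.SP.N0W

open Finset Matrix
open Pool.Agent.Helper56.SW (τ Γ J I bx E Rel N N0 Nq)
open Pool.Agent.Helper28.SP

noncomputable section

/-- the group element as an element of the group algebra -/
def o {G : Type} [Group G] (g : G) : MonoidAlgebra ℝ G := MonoidAlgebra.single g 1

theorem o_mul {G : Type} [Group G] (g h : G) : o (g * h) = o g * o h := by
  simp [o]

theorem o_one {G : Type} [Group G] : o (1 : G) = 1 := rfl

theorem coeff_o {G : Type} [Group G] [DecidableEq G] (g h : G) :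
    (o g).coeff h = if g = h then 1 else 0 := by
  simp [o, Finsupp.single_apply]

/-- the number of words is a coefficient of a power in the group algebra -/
theorem cnt_eq {G ι : Type} [Group G] (s : Finset ι) (u : ι → G) (j : ℕ) (g : G) :
    (cnt s u j g : ℝ) = ((∑ i ∈ s, o (u i)) ^ j).coeff g := by
  classical
  induction j generalizing g with
  | zero =>
    rw [pow_zero, ← o_one, coeff_o, cnt]
    by_cases h : g = 1
    · simp [h]
    · simp [h, Ne.symm h]
  | succ j ih =>
    rw [cnt, pow_succ', sum_mul, MonoidAlgebra.coeff_sum, Finsupp.finsetSum_apply]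
    push_cast
    refine sum_congr rfl fun i _ => ?_
    rw [ih, o, MonoidAlgebra.coeff_single_mul_apply, one_mul]

/-- the coefficient of a central element is a trace -/
theorem coeff_comm {G : Type} [Group G] (g : G) (hg : ∀ x : G, g * x = x * g)
    (M P : MonoidAlgebra ℝ G) : (M * P).coeff g = (P * M).coeff g := by
  induction M using MonoidAlgebra.induction_linear with
  | zero => simp
  | add x y hx hy => rw [add_mul, mul_add, MonoidAlgebra.coeff_add, MonoidAlgebra.coeff_add,
      Finsupp.add_apply, Finsupp.add_apply, hx, hy]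
  | single m r =>
    rw [MonoidAlgebra.coeff_single_mul_apply, MonoidAlgebra.coeff_mul_single_apply, hg, mul_comm]

theorem pow_rot {R : Type} [Semiring R] (P Q : R) (j : ℕ) :
    (P * Q) ^ (j + 1) = P * (Q * P) ^ j * Q := by
  induction j with
  | zero => simp
  | succ j ih =>
    rw [pow_succ, ih, pow_succ]
    simp only [mul_assoc]

theorem coeff_rot {G : Type} [Group G] (g : G) (hg : ∀ x : G, g * x = x * g)
    (P Q : MonoidAlgebra ℝ G) (j : ℕ) :
    ((P * Q) ^ (j + 1)).coeff g = ((Q * P) ^ (j + 1)).coeff g := by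
  rw [pow_rot, mul_assoc, coeff_comm g hg, mul_assoc, ← pow_succ]

/-! ### weights -/

/-- number of pairs in `[0, 2A]²` with difference `x` -/
def r (A : ℕ) (x : ℤ) : ℝ :=
  (((range (2 * A + 1) ×ˢ range (2 * A + 1)).filter fun p : ℕ × ℕ => (p.2 : ℤ) - p.1 = x).card : ℝ)

theorem r_nonneg (A : ℕ) (x : ℤ) : 0 ≤ r A x := Nat.cast_nonneg _

theorem r_le (A : ℕ) (x : ℤ) : r A x ≤ 2 * A + 1 := by
  have h : ((range (2 * A + 1) ×ˢ range (2 * A + 1)).filter
      fun p : ℕ × ℕ => (p.2 : ℤ) - p.1 = x).card ≤ (range (2 * A + 1)).card := by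
    refine card_le_card_of_injOn Prod.fst ?_ ?_
    · intro p hp
      simp only [coe_filter, mem_product, Set.mem_ofPred_eq] at hp
      exact hp.1.1
    · intro p hp q hq hpq
      simp only [coe_filter, mem_product, Set.mem_ofPred_eq] at hp hq
      have h1 := hp.2
      have h2 := hq.2
      have h3 : p.1 = q.1 := hpq
      refine Prod.ext h3 ?_
      have : (p.2 : ℤ) = q.2 := by rw [h3] at h1; linarith
      exact_mod_cast this
  rw [card_range] at h
  rw [r]
  exact_mod_cast h

theorem le_r (A : ℕ) (x : ℤ) (hx : x ∈ I A) : (A : ℝ) + 1 ≤ r A x := by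
  rw [Pool.Agent.Helper56.SW.mem_I, abs_le] at hx
  have h : (range (A + 1)).card ≤ ((range (2 * A + 1) ×ˢ range (2 * A + 1)).filter
      fun p : ℕ × ℕ => (p.2 : ℤ) - p.1 = x).card := by
    rcases le_or_gt 0 x with h0 | h0
    · refine card_le_card_of_injOn (fun k => (k, k + x.toNat)) ?_ ?_
      · intro k hk
        simp only [coe_range, Set.mem_Iio] at hk
        simp only [coe_filter, mem_product, Set.mem_ofPred_eq, mem_range]
        refine ⟨⟨by omega, by omega⟩, ?_⟩
        push_cast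
        omega
      · intro k _ k' _ h
        exact (Prod.ext_iff.1 h).1
    · refine card_le_card_of_injOn (fun k => (k + (-x).toNat, k)) ?_ ?_
      · intro k hk
        simp only [coe_range, Set.mem_Iio] at hk
        simp only [coe_filter, mem_product, Set.mem_ofPred_eq, mem_range]
        refine ⟨⟨by omega, by omega⟩, ?_⟩
        push_cast
        omega
      · intro k _ k' _ h
        exact (Prod.ext_iff.1 h).2
  rw [card_range] at h
  rw [r]
  exact_mod_cast h

/-- a sum over pairs, collected by the difference -/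
theorem sum_diff {M : Type} [AddCommMonoid M] [Module ℝ M] (A : ℕ) (f : ℤ → M) :
    ∑ p ∈ range (2 * A + 1) ×ˢ range (2 * A + 1), f ((p.2 : ℤ) - p.1) =
      ∑ x ∈ I (2 * A), r A x • f x := by
  classical
  have hmaps : ∀ p ∈ range (2 * A + 1) ×ˢ range (2 * A + 1),
      (fun p : ℕ × ℕ => (p.2 : ℤ) - p.1) p ∈ I (2 * A) := by
    intro p hp
    rw [mem_product, mem_range, mem_range] at hp
    rw [Pool.Agent.Helper56.SW.mem_I, abs_le]
    push_cast
    constructor <;> omega
  rw [← sum_fiberwise_of_maps_to hmaps]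
  refine sum_congr rfl fun x _ => ?_
  rw [sum_congr rfl (g := fun _ => f x)]
  · rw [sum_const, r, Nat.cast_smul_eq_nsmul]
  · intro p hp
    rw [mem_filter] at hp
    rw [← hp.2]

/-- weight of a list -/
def wt (B : ℕ) (l : List (ℤ × ℤ)) : ℝ := (l.map fun p => r B p.2).prod

theorem wt_cons (B : ℕ) (p : ℤ × ℤ) (l : List (ℤ × ℤ)) :
    wt B (p :: l) = r B p.2 * wt B l := by
  simp [wt]

theorem wt_nonneg (B : ℕ) (l : List (ℤ × ℤ)) : 0 ≤ wt B l := by
  induction l with
  | nil => simp [wt]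
  | cons p l ih => rw [wt_cons]; exact mul_nonneg (r_nonneg _ _) ih

theorem le_wt (B : ℕ) (l : List (ℤ × ℤ)) (hl : ∀ p ∈ l, p.2 ∈ I B) :
    ((B : ℝ) + 1) ^ l.length ≤ wt B l := by
  induction l with
  | nil => simp [wt]
  | cons p l ih =>
    rw [wt_cons, List.length_cons, pow_succ']
    have hp := hl p List.mem_cons_self
    exact mul_le_mul (le_r _ _ hp) (ih fun q hq => hl q (List.mem_cons_of_mem _ hq))
      (by positivity) (r_nonneg _ _)

/-! ### one-parameter subgroups -/

theorem Uu_mul {R : Type} [CommRing R] (x y : R) : Uu x * Uu y = Uu (x + y) := by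
  apply Subtype.ext
  rw [Matrix.SpecialLinearGroup.coe_mul]
  ext i j
  fin_cases i <;> fin_cases j <;> simp [Uu, Matrix.mul_apply, Fin.sum_univ_two, add_comm]

theorem Ll_mul {R : Type} [CommRing R] (x y : R) : Ll x * Ll y = Ll (x + y) := by
  apply Subtype.ext
  rw [Matrix.SpecialLinearGroup.coe_mul]
  ext i j
  fin_cases i <;> fin_cases j <;> simp [Ll, Matrix.mul_apply, Fin.sum_univ_two, add_comm]

theorem Uu_zero {R : Type} [CommRing R] : Uu (0 : R) = 1 := by
  apply Subtype.ext
  ext i j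
  fin_cases i <;> fin_cases j <;> simp [Uu]

theorem Ll_zero {R : Type} [CommRing R] : Ll (0 : R) = 1 := by
  apply Subtype.ext
  ext i j
  fin_cases i <;> fin_cases j <;> simp [Ll]

theorem Uu_inv {R : Type} [CommRing R] (x : R) : (Uu x)⁻¹ = Uu (-x) := by
  rw [inv_eq_iff_mul_eq_one, Uu_mul, add_neg_cancel, Uu_zero]

theorem Ll_inv {R : Type} [CommRing R] (x : R) : (Ll x)⁻¹ = Ll (-x) := by
  rw [inv_eq_iff_mul_eq_one, Ll_mul, add_neg_cancel, Ll_zero]

/-- the word of a list in `SL_2(ℤ)`; the head is the last factor -/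
def EZ (a b : ℤ) : List (ℤ × ℤ) → SZ
  | [] => 1
  | p :: t => EZ a b t * (Uu (a * p.1) * Ll (b * p.2))

theorem EZ_coe (a b : ℤ) (l : List (ℤ × ℤ)) : (EZ a b l : Matrix (Fin 2) (Fin 2) ℤ) = E a b l := by
  induction l with
  | nil => simp [EZ]
  | cons p t ih =>
    rw [EZ, Pool.Agent.Helper56.SW.E_cons, Matrix.SpecialLinearGroup.coe_mul, ih,
      Matrix.SpecialLinearGroup.coe_mul]
    congr 1
    ext i j
    fin_cases i <;> fin_cases j <;>
      simp [Uu, Ll, Pool.Agent.Helper56.SW.ul, Matrix.mul_apply, Fin.sum_univ_two]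

theorem rel_iff (c : ℕ) (a b γ : ℤ) (l : List (ℤ × ℤ)) :
    Rel c a b γ l ↔ ((red c (EZ a b l) : SG c) : Matrix (Fin 2) (Fin 2) (ZMod c)) =
      (γ : ZMod c) • (1 : Matrix (Fin 2) (Fin 2) (ZMod c)) := by
  rw [Pool.Agent.Helper56.SW.M_Deg_rel_iff, Pool.Agent.Helper56.SW.M_Deg_F, ← EZ_coe]
  rfl

/-! ### the identity -/

/-- the sum of the letters -/
theorem sum_letters (a b : ℤ) (c A B : ℕ) :
    (∑ i ∈ sM A B, o (red c (wM a b i))) =
      (∑ k ∈ range (2 * B + 1), o (red c (Ll (-(b * (k : ℤ)))))) *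
        ((∑ h ∈ Hs A, o (red c (Uu (a * h)))) *
          (∑ k ∈ range (2 * B + 1), o (red c (Ll (b * (k : ℤ)))))) := by
  rw [sM, sum_product, sum_mul_sum, sum_mul_sum]
  conv_rhs => rw [sum_comm]
  refine sum_congr rfl fun h _ => ?_
  rw [sum_product]
  refine sum_congr rfl fun k _ => ?_
  rw [mul_sum]
  refine sum_congr rfl fun k' _ => ?_
  rw [← o_mul, ← o_mul, ← map_mul, ← map_mul]
  congr 2
  simp only [wM, mul_assoc]

theorem sum_L (b : ℤ) (c B : ℕ) :
    (∑ k ∈ range (2 * B + 1), o (red c (Ll (b * (k : ℤ))))) *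
      (∑ k ∈ range (2 * B + 1), o (red c (Ll (-(b * (k : ℤ)))))) =
      ∑ x ∈ I (2 * B), r B x • o (red c (Ll (b * x))) := by
  rw [← sum_diff B fun x => o (red c (Ll (b * x))), sum_mul_sum, sum_product, sum_comm]
  refine sum_congr rfl fun k _ => sum_congr rfl fun k' _ => ?_
  rw [← o_mul, ← map_mul, Ll_mul]
  congr 3
  ring

/-- `V X X'` -/
theorem sum_UL (a b : ℤ) (c A B : ℕ) :
    ((∑ h ∈ Hs A, o (red c (Uu (a * h)))) *
          (∑ k ∈ range (2 * B + 1), o (red c (Ll (b * (k : ℤ)))))) *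
      (∑ k ∈ range (2 * B + 1), o (red c (Ll (-(b * (k : ℤ)))))) =
      ∑ x ∈ Hs A, ∑ y ∈ I (2 * B), r B y • o (red c (Uu (a * x) * Ll (b * y))) := by
  rw [mul_assoc, sum_L, sum_mul_sum]
  refine sum_congr rfl fun x _ => sum_congr rfl fun y _ => ?_
  rw [mul_smul_comm, map_mul, o_mul]

/-- the expansion of the powers -/
theorem pow_UL (a b : ℤ) (c A B j : ℕ) :
    (∑ x ∈ Hs A, ∑ y ∈ I (2 * B), r B y • o (red c (Uu (a * x) * Ll (b * y)))) ^ j =
      ∑ l ∈ bx (Hs A) (I (2 * B)) j, wt B l • o (red c (EZ a b l)) := by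
  induction j with
  | zero =>
    rw [pow_zero, bx, sum_singleton, EZ, map_one, o_one]
    simp [wt]
  | succ j ih =>
    rw [pow_succ, ih, Pool.Agent.Helper56.SW.sum_bx_succ, sum_mul]
    refine sum_congr rfl fun l _ => ?_
    rw [mul_sum]
    refine sum_congr rfl fun x _ => ?_
    rw [mul_sum]
    refine sum_congr rfl fun y _ => ?_
    rw [smul_mul_smul_comm, wt_cons, EZ, ← o_mul, ← map_mul, mul_comm (wt B l)]

/-- **the number of words as a weighted number of lists** -/
theorem W_eq (a b : ℤ) (c A B j : ℕ) (hj : 1 ≤ j) (g : SZ)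
    (hg : ∀ x : SG c, red c g * x = x * red c g) :
    ((W (sM A B) (wM a b) c j g : ℕ) : ℝ) =
      ∑ l ∈ bx (Hs A) (I (2 * B)) j with red c (EZ a b l) = red c g, wt B l := by
  obtain ⟨j, rfl⟩ : ∃ i, j = i + 1 := ⟨j - 1, by omega⟩
  rw [W, cnt_eq, sum_letters, coeff_rot _ hg, sum_UL, pow_UL, MonoidAlgebra.coeff_sum,
    Finsupp.finsetSum_apply, sum_filter]
  refine sum_congr rfl fun l _ => ?_
  rw [MonoidAlgebra.coeff_smul_apply, coeff_o]
  by_cases h : red c (EZ a b l) = red c g
  · simp [h]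
  · simp [h]

theorem central (c : ℕ) (g : SG c) (t : ZMod c)
    (h : (g : Matrix (Fin 2) (Fin 2) (ZMod c)) = t • 1) (x : SG c) : g * x = x * g := by
  apply Subtype.ext
  rw [Matrix.SpecialLinearGroup.coe_mul, Matrix.SpecialLinearGroup.coe_mul, h, Matrix.smul_mul,
    Matrix.mul_smul, Matrix.one_mul, Matrix.mul_one]

theorem thm : StN0W := by
  classical
  intro c a b j A B sc hc hj hsc
  -- the lists of `N0`, by scalar
  have h1 : ∀ γ ∈ Γ c, (∑ l ∈ (bx (J c A) (I B) j).filter (fun l => Rel c a b (γ : ℤ) l),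
      ((B : ℝ) + 1) ^ j) ≤ (W (sM A B) (wM a b) c j (sc γ) : ℝ) := by
    intro γ hγ
    have hcen := central c (red c (sc γ)) _ (hsc γ hγ)
    rw [W_eq a b c A B j hj (sc γ) hcen]
    refine le_trans (sum_le_sum (g := fun l => wt B l) ?_) (sum_le_sum_of_subset_of_nonneg ?_ ?_)
    · intro l hl
      rw [mem_filter, Pool.Agent.Helper56.SW.mem_bx] at hl
      have := le_wt B l fun p hp => (hl.1.2 p hp).2
      rwa [hl.1.1] at this
    · intro l hl
      rw [mem_filter, Pool.Agent.Helper56.SW.mem_bx] at hl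
      rw [mem_filter, Pool.Agent.Helper56.SW.mem_bx]
      refine ⟨⟨hl.1.1, fun p hp => ?_⟩, ?_⟩
      · have hp' := hl.1.2 p hp
        refine ⟨?_, ?_⟩
        · have h2 := Pool.Agent.Helper56.SW.ne_zero_of_mem_J hp'.1
          have h3 := (Pool.Agent.Helper56.SW.mem_J.1 hp'.1).1
          rw [Hs, mem_erase]
          exact ⟨h2, h3⟩
        · have h4 := hp'.2
          rw [Pool.Agent.Helper56.SW.mem_I] at h4 ⊢
          push_cast
          linarith [abs_nonneg p.2]
      · apply Subtype.ext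
        rw [(rel_iff c a b γ l).1 hl.2, hsc γ hγ]
        simp
    · intro l _ _
      exact wt_nonneg B l
  calc (N0 c a b j A B : ℝ) * ((B : ℝ) + 1) ^ j
      = ∑ l ∈ (bx (J c A) (I B) j).filter (fun l => ∃ γ ∈ Γ c, Rel c a b γ l),
          ((B : ℝ) + 1) ^ j := by
        rw [sum_const, nsmul_eq_mul, N0]
    _ ≤ ∑ l ∈ (Γ c).biUnion fun γ => (bx (J c A) (I B) j).filter (fun l => Rel c a b (γ : ℤ) l),
          ((B : ℝ) + 1) ^ j := by
        refine sum_le_sum_of_subset_of_nonneg ?_ fun _ _ _ => by positivity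
        intro l hl
        rw [mem_filter] at hl
        obtain ⟨hl, γ, hγ, hr⟩ := hl
        exact mem_biUnion.2 ⟨γ, hγ, mem_filter.2 ⟨hl, hr⟩⟩
    _ ≤ ∑ γ ∈ Γ c, ∑ l ∈ (bx (J c A) (I B) j).filter (fun l => Rel c a b (γ : ℤ) l),
          ((B : ℝ) + 1) ^ j := by
        simp only [sum_const, nsmul_eq_mul]
        rw [← sum_mul]
        refine mul_le_mul_of_nonneg_right ?_ (by positivity)
        exact_mod_cast card_biUnion_le
    _ ≤ _ := sum_le_sum h1

end

end Pool.Agent.Helper28.SP.N0W
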