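import Pool.Agent.Helper28.SP.St
import Pool.Agent.Helper56.SW.Final

/-! # MP_e188f1_nt, spectral range, module REC: from `N0` to `N` -/

set_option autoImplicit false

namespace Pool.Agent.Helper28.SP.REC

open Pool.Agent.Helper28.SP
open Finset Matrix
open Pool.Agent.Helper56.SW (τ Γ N N0)

theorem pow_le_succ_add_one (y : ℝ) (r : ℕ) (hy : 0 ≤ y) : y ^ r ≤ y ^ (r + 1) + 1 := by
  rcases le_or_gt 1 y with h | h
  · have := pow_le_pow_right₀ h (show r ≤ r + 1 by omega)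
    linarith
  · have h1 : y ^ r ≤ 1 := pow_le_one₀ hy h.le
    have h2 : 0 ≤ y ^ (r + 1) := by positivity
    linarith

theorem rpow_frac (T k : ℝ) (r : ℕ) (hT : 0 ≤ T) : T ^ ((r : ℝ) / k) = (T ^ (1 / k)) ^ r := by
  rw [← Real.rpow_natCast (T ^ (1 / k)) r, ← Real.rpow_mul hT]
  congr 1
  ring

theorem step_real (n : ℕ) (A B c K T k : ℝ) (hA : 1 ≤ A) (hB : 1 ≤ B) (hc : 1 ≤ c)
    (hBK : B ≤ K * c) (hT : 0 ≤ T) (hK : 1 ≤ K) :
    B * (B ^ n + (A * B) ^ (n + 1) / c ^ 3 * (1 + c * T ^ (((n + 1 : ℕ) : ℝ) / k))) ≤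
      (1 + K) * (B ^ (n + 1) + (A * B) ^ (n + 2) / c ^ 3 *
        (1 + c * T ^ (((n + 2 : ℕ) : ℝ) / k))) := by
  rw [rpow_frac T k (n + 1) hT, rpow_frac T k (n + 2) hT]
  set u := T ^ (1 / k) with hu
  have hu0 : 0 ≤ u := by positivity
  have hc0 : 0 < c := by linarith
  have h1 : B * ((A * B) ^ (n + 1) / c ^ 3) ≤ (A * B) ^ (n + 2) / c ^ 3 := by
    have e1 : (A * B) ^ (n + 2) / c ^ 3 = A * (B * ((A * B) ^ (n + 1) / c ^ 3)) := by ring
    rw [e1]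
    exact le_mul_of_one_le_left (by positivity) hA
  have h2 := pow_le_succ_add_one (A * u) (n + 1) (by positivity)
  have h3 : B * ((A * B) ^ (n + 1) / c ^ 3 * (c * u ^ (n + 1))) ≤
      (A * B) ^ (n + 2) / c ^ 3 * (c * u ^ (n + 2)) + K * B ^ (n + 1) := by
    have e1 : B * ((A * B) ^ (n + 1) / c ^ 3 * (c * u ^ (n + 1))) =
        B ^ (n + 2) / c ^ 2 * (A * u) ^ (n + 1) := by
      rw [mul_pow, mul_pow]; field_simp; ring
    have e2 : (A * B) ^ (n + 2) / c ^ 3 * (c * u ^ (n + 2)) =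
        B ^ (n + 2) / c ^ 2 * (A * u) ^ (n + 1 + 1) := by
      rw [mul_pow, mul_pow]; field_simp
    have e3 : B ^ (n + 2) / c ^ 2 ≤ K * B ^ (n + 1) := by
      rw [div_le_iff₀ (by positivity)]
      have e4 : B ^ (n + 2) = B ^ (n + 1) * B := by ring
      have e5 : B ≤ K * c ^ 2 := by
        have : c ≤ c ^ 2 := by nlinarith
        nlinarith
      rw [e4]
      have := mul_le_mul_of_nonneg_left e5 (show 0 ≤ B ^ (n + 1) by positivity)
      linarith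
    rw [e1, e2]
    have e6 := mul_le_mul_of_nonneg_left h2 (show 0 ≤ B ^ (n + 2) / c ^ 2 by positivity)
    linarith
  have h4 : 0 ≤ (A * B) ^ (n + 2) / c ^ 3 := by positivity
  have h5 : 0 ≤ (A * B) ^ (n + 2) / c ^ 3 * (c * u ^ (n + 2)) := by positivity
  have h6 : 0 ≤ K * ((A * B) ^ (n + 2) / c ^ 3) := by positivity
  have h7 : 0 ≤ K * ((A * B) ^ (n + 2) / c ^ 3 * (c * u ^ (n + 2))) := by positivity
  calc B * (B ^ n + (A * B) ^ (n + 1) / c ^ 3 * (1 + c * u ^ (n + 1)))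
      = B ^ (n + 1) + B * ((A * B) ^ (n + 1) / c ^ 3) +
        B * ((A * B) ^ (n + 1) / c ^ 3 * (c * u ^ (n + 1))) := by ring
    _ ≤ B ^ (n + 1) + (A * B) ^ (n + 2) / c ^ 3 +
        ((A * B) ^ (n + 2) / c ^ 3 * (c * u ^ (n + 2)) + K * B ^ (n + 1)) := by linarith
    _ ≤ (1 + K) * (B ^ (n + 1) + (A * B) ^ (n + 2) / c ^ 3 * (1 + c * u ^ (n + 2))) := by
        linarith

/-- the recursion in general form -/
theorem core (k : ℕ) (hk : 2 ≤ k) (T : ℕ → ℕ → ℕ → ℝ) (P : ℕ → ℕ → Prop)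
    (hT0 : ∀ c A B, 0 ≤ T c A B)
    (hTm : ∀ c A B, 1 ≤ A → 1 ≤ B → T c A (2 * B) ≤ T c A B)
    (hP : ∀ c B, P c B → P c (2 * B))
    (hN0 : ∀ (j : ℕ) (K ε : ℝ), k ≤ j → 1 ≤ K → 0 < ε → ∃ C : ℝ, 0 < C ∧
      ∀ (c : ℕ) (a b : ℤ) (A B : ℕ), 1 ≤ c → IsCoprime a c → IsCoprime b c → 1 ≤ A → A ≤ B →
        (B : ℝ) ≤ K * c → P c B →
        (N0 c a b j A B : ℝ) ≤ C * (c : ℝ) ^ ε * (((A : ℝ) * B) ^ j / (c : ℝ) ^ 3 *
          (1 + c * T c A B ^ ((j : ℝ) / k))))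
    (hB : ∀ (K ε : ℝ), 1 ≤ K → 0 < ε → ∃ C : ℝ, 0 < C ∧
      ∀ (c : ℕ) (a b : ℤ) (A B : ℕ), 1 ≤ c → IsCoprime a c → IsCoprime b c → 1 ≤ A → A ≤ B →
        (B : ℝ) ≤ K * c → P c B →
        (B : ℝ) * (N c a b (k - 1) A (2 * B) : ℝ) ≤ C * (c : ℝ) ^ ε *
          ((B : ℝ) ^ (k - 1) + ((A : ℝ) * B) ^ k / (c : ℝ) ^ 3 * (1 + c * T c A B))) :
    ∀ r : ℕ, k ≤ r → ∀ (K ε : ℝ), 1 ≤ K → 0 < ε → ∃ C : ℝ, 0 < C ∧
      ∀ (c : ℕ) (a b : ℤ) (A B : ℕ), 1 ≤ c → IsCoprime a c → IsCoprime b c → 1 ≤ A → A ≤ B →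
        (B : ℝ) ≤ K * c → P c B →
        (N c a b r A B : ℝ) ≤ C * (c : ℝ) ^ ε *
          ((B : ℝ) ^ (r - 1) + ((A : ℝ) * B) ^ r / (c : ℝ) ^ 3 *
            (1 + c * T c A B ^ ((r : ℝ) / k))) := by
  have hk0 : (k : ℝ) ≠ 0 := by
    have : 0 < k := by omega
    exact_mod_cast this.ne'
  intro r hr
  induction r, hr using Nat.le_induction with
  | base =>
    intro K ε hK hε
    obtain ⟨C0, hC0, h0⟩ := hN0 k K ε le_rfl hK hε
    obtain ⟨C1, hC1, h1⟩ := hB K ε hK hε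
    refine ⟨C0 + 9 * k * K * C1, by positivity, ?_⟩
    intro c a b A B hc ha hb hA hAB hBK hPc
    have hA' : (1 : ℝ) ≤ A := by exact_mod_cast hA
    have hAB' : (A : ℝ) ≤ B := by exact_mod_cast hAB
    have hB' : (1 : ℝ) ≤ B := hA'.trans hAB'
    have hc' : (1 : ℝ) ≤ c := by exact_mod_cast hc
    have hc0 : (0 : ℝ) < c := by linarith
    have g0 := h0 c a b A B hc ha hb hA hAB hBK hPc
    have g1 := h1 c a b A B hc ha hb hA hAB hBK hPc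
    have g2 := Pool.Agent.Helper56.SW.stDeg Pool.Agent.Helper56.SW.stAP c a b (k - 1) A B hc ha hb
      (by omega)
    have e0 : k - 1 + 1 = k := by omega
    rw [e0] at g2
    have e00 : ((k - 1 : ℕ) : ℝ) + 1 = k := by exact_mod_cast e0
    rw [e00] at g2
    rw [div_self hk0, Real.rpow_one] at g0 ⊢
    have hT := hT0 c A B
    set Nn : ℝ := (N c a b (k - 1) A (2 * B) : ℝ) with hNn
    have hNn0 : 0 ≤ Nn := Nat.cast_nonneg _
    set M : ℝ := ((A : ℝ) * B) ^ k / (c : ℝ) ^ 3 * (1 + c * T c A B) with hM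
    have hM0 : 0 ≤ M := by positivity
    have e1 : 2 * (A : ℝ) / c + 1 ≤ 3 * K := by
      have h5 : (A : ℝ) / c ≤ K := by rw [div_le_iff₀ hc0]; exact hAB'.trans hBK
      have h6 : 2 * (A : ℝ) / c = 2 * (A / c) := by ring
      linarith
    have e2 : 2 * (B : ℝ) + 1 ≤ 3 * B := by linarith
    have e3 : (k : ℝ) * (2 * A / c + 1) * (2 * B + 1) * Nn ≤ k * (3 * K) * (3 * B) * Nn := by
      refine mul_le_mul_of_nonneg_right ?_ hNn0
      refine mul_le_mul ?_ e2 (by positivity) (by positivity)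
      exact mul_le_mul_of_nonneg_left e1 (by positivity)
    have e4 : (k : ℝ) * (3 * K) * (3 * B) * Nn = 9 * k * K * (B * Nn) := by ring
    have e5 : 9 * (k : ℝ) * K * (B * Nn) ≤
        9 * k * K * (C1 * (c : ℝ) ^ ε * ((B : ℝ) ^ (k - 1) + M)) :=
      mul_le_mul_of_nonneg_left g1 (by positivity)
    have e6 : C0 * (c : ℝ) ^ ε * M ≤ C0 * (c : ℝ) ^ ε * ((B : ℝ) ^ (k - 1) + M) := by
      refine mul_le_mul_of_nonneg_left ?_ (by positivity)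
      have : (0 : ℝ) ≤ (B : ℝ) ^ (k - 1) := by positivity
      linarith
    calc (N c a b k A B : ℝ) ≤ C0 * (c : ℝ) ^ ε * ((B : ℝ) ^ (k - 1) + M) +
          9 * k * K * (C1 * (c : ℝ) ^ ε * ((B : ℝ) ^ (k - 1) + M)) := by linarith
      _ = _ := by ring
  | succ r hr ih =>
    intro K ε hK hε
    obtain ⟨C0, hC0, h0⟩ := hN0 (r + 1) K ε (by omega) hK hε
    obtain ⟨C2, hC2, h2⟩ := ih (2 * K) ε (by linarith) hε
    obtain ⟨n, rfl⟩ : ∃ n, r = n + 1 := ⟨r - 1, by omega⟩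
    refine ⟨C0 + 9 * (n + 2) * K * (C2 * 2 ^ (n + 1) * (1 + K)), by positivity, ?_⟩
    intro c a b A B hc ha hb hA hAB hBK hPc
    have hA' : (1 : ℝ) ≤ A := by exact_mod_cast hA
    have hAB' : (A : ℝ) ≤ B := by exact_mod_cast hAB
    have hB' : (1 : ℝ) ≤ B := hA'.trans hAB'
    have hc' : (1 : ℝ) ≤ c := by exact_mod_cast hc
    have hc0 : (0 : ℝ) < c := by linarith
    have g0 := h0 c a b A B hc ha hb hA hAB hBK hPc
    have g1 := h2 c a b A (2 * B) hc ha hb hA (by omega) (by push_cast; linarith) (hP c B hPc)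
    have g2 := Pool.Agent.Helper56.SW.stDeg Pool.Agent.Helper56.SW.stAP c a b (n + 1) A B hc ha hb
      (by omega)
    have hT := hT0 c A B
    have hT2 := hT0 c A (2 * B)
    have hTT := hTm c A B hA (hA.trans hAB)
    have en : n + 1 - 1 = n := by omega
    have en2 : n + 1 + 1 - 1 = n + 1 := by omega
    rw [en] at g1
    rw [en2]
    set Nn : ℝ := (N c a b (n + 1) A (2 * B) : ℝ) with hNn
    have hNn0 : 0 ≤ Nn := Nat.cast_nonneg _
    set U : ℝ := T c A B ^ (((n + 1 : ℕ) : ℝ) / k) with hU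
    have hU0 : 0 ≤ U := by positivity
    have hUU : T c A (2 * B) ^ (((n + 1 : ℕ) : ℝ) / k) ≤ U :=
      Real.rpow_le_rpow hT2 hTT (by positivity)
    have g3 : Nn ≤ C2 * (c : ℝ) ^ ε * (2 ^ (n + 1) * ((B : ℝ) ^ n +
        ((A : ℝ) * B) ^ (n + 1) / (c : ℝ) ^ 3 * (1 + c * U))) := by
      refine g1.trans (mul_le_mul_of_nonneg_left ?_ (by positivity))
      push_cast
      have q1 : (2 * (B : ℝ)) ^ n ≤ 2 ^ (n + 1) * (B : ℝ) ^ n := by
        rw [mul_pow]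
        exact mul_le_mul_of_nonneg_right (pow_le_pow_right₀ (by norm_num) (by omega))
          (by positivity)
      have q2 : ((A : ℝ) * (2 * B)) ^ (n + 1) / (c : ℝ) ^ 3 =
          2 ^ (n + 1) * (((A : ℝ) * B) ^ (n + 1) / (c : ℝ) ^ 3) := by
        rw [show (A : ℝ) * (2 * B) = 2 * (A * B) by ring, mul_pow]; ring
      have q3 : 1 + (c : ℝ) * T c A (2 * B) ^ (((n + 1 : ℕ) : ℝ) / k) ≤ 1 + c * U := by
        have := mul_le_mul_of_nonneg_left hUU hc0.le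
        linarith
      have q4 := mul_le_mul_of_nonneg_left q3
        (show 0 ≤ 2 ^ (n + 1) * (((A : ℝ) * B) ^ (n + 1) / (c : ℝ) ^ 3) by positivity)
      push_cast at q4
      rw [q2]
      linarith
    have g4 := step_real n A B c K (T c A B) k hA' hB' hc' hBK hT hK
    set Q : ℝ := (B : ℝ) ^ (n + 1) + ((A : ℝ) * B) ^ (n + 1 + 1) / (c : ℝ) ^ 3 *
      (1 + c * T c A B ^ (((n + 1 + 1 : ℕ) : ℝ) / k)) with hQ
    have hQ0 : 0 ≤ Q := by positivity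
    have e1 : 2 * (A : ℝ) / c + 1 ≤ 3 * K := by
      have h5 : (A : ℝ) / c ≤ K := by rw [div_le_iff₀ hc0]; exact hAB'.trans hBK
      have h6 : 2 * (A : ℝ) / c = 2 * (A / c) := by ring
      linarith
    have e2 : 2 * (B : ℝ) + 1 ≤ 3 * B := by linarith
    have e3 : ((n : ℝ) + 2) * (2 * A / c + 1) * (2 * B + 1) * Nn ≤
        (n + 2) * (3 * K) * (3 * B) * Nn := by
      refine mul_le_mul_of_nonneg_right ?_ hNn0
      refine mul_le_mul ?_ e2 (by positivity) (by positivity)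
      exact mul_le_mul_of_nonneg_left e1 (by positivity)
    have e4 : ((n : ℝ) + 2) * (3 * K) * (3 * B) * Nn = 9 * (n + 2) * K * (B * Nn) := by ring
    have e5 : B * Nn ≤ C2 * (c : ℝ) ^ ε * 2 ^ (n + 1) * ((1 + K) * Q) := by
      calc (B : ℝ) * Nn ≤ B * (C2 * (c : ℝ) ^ ε * (2 ^ (n + 1) * ((B : ℝ) ^ n +
            ((A : ℝ) * B) ^ (n + 1) / (c : ℝ) ^ 3 * (1 + c * U)))) :=
            mul_le_mul_of_nonneg_left g3 (by positivity)
        _ = C2 * (c : ℝ) ^ ε * 2 ^ (n + 1) * (B * ((B : ℝ) ^ n +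
            ((A : ℝ) * B) ^ (n + 1) / (c : ℝ) ^ 3 * (1 + c * U))) := by ring
        _ ≤ _ := mul_le_mul_of_nonneg_left g4 (by positivity)
    have e6 : 9 * ((n : ℝ) + 2) * K * (B * Nn) ≤
        9 * (n + 2) * K * (C2 * (c : ℝ) ^ ε * 2 ^ (n + 1) * ((1 + K) * Q)) :=
      mul_le_mul_of_nonneg_left e5 (by positivity)
    have e7 : (N0 c a b (n + 1 + 1) A B : ℝ) ≤ C0 * (c : ℝ) ^ ε * Q := by
      refine g0.trans (mul_le_mul_of_nonneg_left ?_ (by positivity))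
      rw [hQ]
      have : (0 : ℝ) ≤ (B : ℝ) ^ (n + 1) := by positivity
      linarith
    have e8 : (((n + 1 : ℕ) : ℝ) + 1) = (n : ℝ) + 2 := by push_cast; ring
    rw [e8] at g2
    calc (N c a b (n + 1 + 1) A B : ℝ) ≤ C0 * (c : ℝ) ^ ε * Q +
          9 * (n + 2) * K * (C2 * (c : ℝ) ^ ε * 2 ^ (n + 1) * ((1 + K) * Q)) := by linarith
      _ = _ := by ring

theorem one_le_ce {c : ℕ} {ε : ℝ} (hc : 1 ≤ c) (hε : 0 < ε) : (1 : ℝ) ≤ (c : ℝ) ^ ε :=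
  Real.one_le_rpow (by exact_mod_cast hc) hε.le

theorem case2 (h1 : StM2) (r : ℕ) (hr : 2 ≤ r) (K ε : ℝ) (hK : 1 ≤ K) (hε : 0 < ε) :
    ∃ C : ℝ, 0 < C ∧
      ∀ (c : ℕ) (a b : ℤ) (A B : ℕ), 1 ≤ c → IsCoprime a c → IsCoprime b c → 1 ≤ A → A ≤ B →
        (B : ℝ) ≤ K * c →
        (N c a b r A B : ℝ) ≤ C * (c : ℝ) ^ ε * ((B : ℝ) ^ (r - 1) +
          ((A : ℝ) * B) ^ r / (c : ℝ) ^ 3 *
          (1 + c * ((c : ℝ) ^ 2 / ((A : ℝ) * (B : ℝ) ^ 2)) ^ ((r : ℝ) / 2))) := by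
  obtain ⟨C, hC, h⟩ := core 2 le_rfl (fun c A B => (c : ℝ) ^ 2 / ((A : ℝ) * (B : ℝ) ^ 2))
    (fun _ _ => True) (fun c A B => by positivity)
    (fun c A B hA hB => by
      have hA' : (1 : ℝ) ≤ A := by exact_mod_cast hA
      have hB' : (1 : ℝ) ≤ B := by exact_mod_cast hB
      refine div_le_div_of_nonneg_left (by positivity) (by positivity) ?_
      refine mul_le_mul_of_nonneg_left ?_ (by positivity)
      refine pow_le_pow_left₀ (by positivity) ?_ 2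
      push_cast
      linarith)
    (fun _ _ _ => trivial)
    (fun j K ε hj hK hε => by
      obtain ⟨C, hC, h⟩ := h1 j K ε hj hK hε
      refine ⟨C, hC, fun c a b A B hc ha hb hA hAB hBK _ => ?_⟩
      simpa using h c a b A B hc ha hb hA hAB hBK)
    (fun K ε hK hε => by
      refine ⟨9 * (2 * K) ^ 2, by positivity, fun c a b A B hc ha hb hA hAB hBK _ => ?_⟩
      have hA' : (1 : ℝ) ≤ A := by exact_mod_cast hA
      have hAB' : (A : ℝ) ≤ B := by exact_mod_cast hAB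
      have hB' : (1 : ℝ) ≤ B := hA'.trans hAB'
      have hc' : (1 : ℝ) ≤ c := by exact_mod_cast hc
      have hc0 : (0 : ℝ) < c := by linarith
      have g := Pool.Agent.Helper56.SW.fn_one c a b A (2 * B) (2 * K) hc ha hb (by omega)
        (by linarith) (by push_cast; linarith)
      have hce := one_le_ce hc hε
      set M : ℝ := ((A : ℝ) * B) ^ 2 / (c : ℝ) ^ 3 *
        (1 + c * ((c : ℝ) ^ 2 / ((A : ℝ) * (B : ℝ) ^ 2))) with hM
      have hM0 : 0 ≤ M := by positivity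
      have e1 : (B : ℝ) * (N c a b (2 - 1) A (2 * B) : ℝ) ≤ B * (9 * (2 * K) ^ 2) :=
        mul_le_mul_of_nonneg_left g (by positivity)
      have e2 : (B : ℝ) ≤ (c : ℝ) ^ ε * ((B : ℝ) ^ (2 - 1) + M) := by
        have e3 : (B : ℝ) ≤ (B : ℝ) ^ (2 - 1) + M := by
          norm_num
          exact hM0
        calc (B : ℝ) ≤ 1 * ((B : ℝ) ^ (2 - 1) + M) := by rw [one_mul]; exact e3
          _ ≤ _ := mul_le_mul_of_nonneg_right hce (by positivity)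
      have e4 := mul_le_mul_of_nonneg_left e2 (show (0 : ℝ) ≤ 9 * (2 * K) ^ 2 by positivity)
      calc (B : ℝ) * (N c a b (2 - 1) A (2 * B) : ℝ) ≤ 9 * (2 * K) ^ 2 * B := by linarith
        _ ≤ 9 * (2 * K) ^ 2 * ((c : ℝ) ^ ε * ((B : ℝ) ^ (2 - 1) + M)) := e4
        _ = _ := by ring)
    r hr K ε hK hε
  refine ⟨C, hC, fun c a b A B hc ha hb hA hAB hBK => ?_⟩
  simpa using h c a b A B hc ha hb hA hAB hBK trivial

theorem case4 (h1 : StM4) (r : ℕ) (hr : 4 ≤ r) (K ε : ℝ) (hK : 1 ≤ K) (hε : 0 < ε) :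
    ∃ C : ℝ, 0 < C ∧
      ∀ (c : ℕ) (a b : ℤ) (A B : ℕ), 1 ≤ c → IsCoprime a c → IsCoprime b c → 1 ≤ A → A ≤ B →
        (B : ℝ) ≤ K * c →
        (N c a b r A B : ℝ) ≤ C * (c : ℝ) ^ ε * ((B : ℝ) ^ (r - 1) +
          ((A : ℝ) * B) ^ r / (c : ℝ) ^ 3 *
          (1 + c * ((c : ℝ) ^ 2 / (B : ℝ) ^ 3) ^ ((r : ℝ) / 4))) := by
  obtain ⟨C, hC, h⟩ := core 4 (by norm_num) (fun c A B => (c : ℝ) ^ 2 / (B : ℝ) ^ 3)
    (fun _ _ => True) (fun c A B => by positivity)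
    (fun c A B hA hB => by
      have hB' : (1 : ℝ) ≤ B := by exact_mod_cast hB
      refine div_le_div_of_nonneg_left (by positivity) (by positivity) ?_
      refine pow_le_pow_left₀ (by positivity) ?_ 3
      push_cast
      linarith)
    (fun _ _ _ => trivial)
    (fun j K ε hj hK hε => by
      obtain ⟨C, hC, h⟩ := h1 j K ε hj hK hε
      refine ⟨C, hC, fun c a b A B hc ha hb hA hAB hBK _ => ?_⟩
      simpa using h c a b A B hc ha hb hA hAB hBK)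
    (fun K ε hK hε => by
      obtain ⟨C, hC, h⟩ := Pool.Agent.Helper56.SW.fn_fin 3 (2 * K) ε le_rfl (by linarith) hε
      refine ⟨C * (8 * K), by positivity, fun c a b A B hc ha hb hA hAB hBK _ => ?_⟩
      have hA' : (1 : ℝ) ≤ A := by exact_mod_cast hA
      have hAB' : (A : ℝ) ≤ B := by exact_mod_cast hAB
      have hB' : (1 : ℝ) ≤ B := hA'.trans hAB'
      have hc' : (1 : ℝ) ≤ c := by exact_mod_cast hc
      have hc0 : (0 : ℝ) < c := by linarith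
      have g := h c a b A (2 * B) hc ha hb hA (by omega) (by push_cast; linarith)
      have e1 : (B : ℝ) * (N c a b (4 - 1) A (2 * B) : ℝ) ≤
          B * (C * (c : ℝ) ^ ε * (((2 * B : ℕ) : ℝ) ^ (3 - 1) +
            (A : ℝ) ^ (3 - 1) * ((2 * B : ℕ) : ℝ) ^ (3 - 3) +
            (A : ℝ) ^ 3 * ((2 * B : ℕ) : ℝ) ^ (3 - 2) / c)) :=
        mul_le_mul_of_nonneg_left g (by positivity)
      refine e1.trans ?_
      have e2 : (B : ℝ) * (((2 * B : ℕ) : ℝ) ^ (3 - 1) +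
            (A : ℝ) ^ (3 - 1) * ((2 * B : ℕ) : ℝ) ^ (3 - 3) +
            (A : ℝ) ^ 3 * ((2 * B : ℕ) : ℝ) ^ (3 - 2) / c) ≤
          8 * K * ((B : ℝ) ^ (4 - 1) + ((A : ℝ) * B) ^ 4 / (c : ℝ) ^ 3 *
            (1 + c * ((c : ℝ) ^ 2 / (B : ℝ) ^ 3))) := by
        push_cast
        norm_num
        have q1 : (B : ℝ) * (A : ℝ) ^ 2 ≤ (B : ℝ) ^ 3 := by
          have : (A : ℝ) ^ 2 ≤ (B : ℝ) ^ 2 := pow_le_pow_left₀ (by linarith) hAB' 2
          nlinarith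
        have q2 : (A : ℝ) ^ 3 * B ^ 2 / c ≤ K * ((A : ℝ) ^ 4 * B) := by
          rw [div_le_iff₀ hc0]
          have p1 : (A : ℝ) ^ 3 * B ^ 2 = ((A : ℝ) ^ 3 * B) * B := by ring
          have p2 : ((A : ℝ) ^ 3 * B) * B ≤ ((A : ℝ) ^ 3 * B) * (K * c) :=
            mul_le_mul_of_nonneg_left hBK (by positivity)
          have p3 : (A : ℝ) ^ 3 * B ≤ (A : ℝ) ^ 4 * B := by
            refine mul_le_mul_of_nonneg_right ?_ (by positivity)
            exact pow_le_pow_right₀ hA' (by norm_num)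
          have p4 : ((A : ℝ) ^ 3 * B) * (K * c) ≤ ((A : ℝ) ^ 4 * B) * (K * c) :=
            mul_le_mul_of_nonneg_right p3 (by positivity)
          linarith
        have q3 : ((A : ℝ) * B) ^ 4 / (c : ℝ) ^ 3 * (1 + c * ((c : ℝ) ^ 2 / (B : ℝ) ^ 3)) =
            ((A : ℝ) * B) ^ 4 / (c : ℝ) ^ 3 + (A : ℝ) ^ 4 * B := by
          field_simp
        rw [q3]
        have q4 : 0 ≤ K * (((A : ℝ) * B) ^ 4 / (c : ℝ) ^ 3) := by positivity
        have q5 : (B : ℝ) ^ 3 ≤ K * (B : ℝ) ^ 3 := le_mul_of_one_le_left (by positivity) hK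
        have q6 : 0 ≤ K * ((A : ℝ) ^ 4 * B) := by positivity
        have q8 : 0 ≤ (B : ℝ) ^ 3 := by positivity
        have q7 : (B : ℝ) * ((2 * B) ^ 2 + (A : ℝ) ^ 2 + (A : ℝ) ^ 3 * (2 * B) / c) =
            4 * (B : ℝ) ^ 3 + B * (A : ℝ) ^ 2 + 2 * ((A : ℝ) ^ 3 * B ^ 2 / c) := by ring
        rw [q7]
        linarith
      have e3 := mul_le_mul_of_nonneg_left e2 (show 0 ≤ C * (c : ℝ) ^ ε by positivity)
      calc _ = C * (c : ℝ) ^ ε * ((B : ℝ) * (((2 * B : ℕ) : ℝ) ^ (3 - 1) +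
            (A : ℝ) ^ (3 - 1) * ((2 * B : ℕ) : ℝ) ^ (3 - 3) +
            (A : ℝ) ^ 3 * ((2 * B : ℕ) : ℝ) ^ (3 - 2) / c)) := by ring
        _ ≤ _ := e3
        _ = _ := by ring)
    r hr K ε hK hε
  refine ⟨C, hC, fun c a b A B hc ha hb hA hAB hBK => ?_⟩
  simpa using h c a b A B hc ha hb hA hAB hBK trivial

theorem case6 (h1 : StM6) (r : ℕ) (hr : 6 ≤ r) (K ε : ℝ) (hK : 1 ≤ K) (hε : 0 < ε) :
    ∃ C : ℝ, 0 < C ∧
      ∀ (c : ℕ) (a b : ℤ) (A B : ℕ), 1 ≤ c → IsCoprime a c → IsCoprime b c → 1 ≤ A → A ≤ B →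
        (B : ℝ) ≤ K * c → (c : ℝ) ≤ 4 * (B : ℝ) ^ 2 →
        (N c a b r A B : ℝ) ≤ C * (c : ℝ) ^ ε * ((B : ℝ) ^ (r - 1) +
          ((A : ℝ) * B) ^ r / (c : ℝ) ^ 3 *
          (1 + c * ((c : ℝ) / (B : ℝ) ^ 2) ^ ((r : ℝ) / 6))) := by
  obtain ⟨C, hC, h⟩ := core 6 (by norm_num) (fun c A B => (c : ℝ) / (B : ℝ) ^ 2)
    (fun c B => (c : ℝ) ≤ 4 * (B : ℝ) ^ 2) (fun c A B => by positivity)
    (fun c A B hA hB => by
      have hB' : (1 : ℝ) ≤ B := by exact_mod_cast hB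
      refine div_le_div_of_nonneg_left (by positivity) (by positivity) ?_
      refine pow_le_pow_left₀ (by positivity) ?_ 2
      push_cast
      linarith)
    (fun c B h => by
      push_cast
      nlinarith [sq_nonneg (B : ℝ)])
    (fun j K ε hj hK hε => by
      obtain ⟨C, hC, h⟩ := h1 j K ε hj hK hε
      refine ⟨C, hC, fun c a b A B hc ha hb hA hAB hBK hcB => ?_⟩
      simpa using h c a b A B hc ha hb hA hAB hBK hcB)
    (fun K ε hK hε => by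
      obtain ⟨C, hC, h⟩ := Pool.Agent.Helper56.SW.fn_fin 5 (2 * K) ε (by norm_num)
        (by linarith) hε
      refine ⟨C * 32, by positivity, fun c a b A B hc ha hb hA hAB hBK hcB => ?_⟩
      have hA' : (1 : ℝ) ≤ A := by exact_mod_cast hA
      have hAB' : (A : ℝ) ≤ B := by exact_mod_cast hAB
      have hB' : (1 : ℝ) ≤ B := hA'.trans hAB'
      have hc' : (1 : ℝ) ≤ c := by exact_mod_cast hc
      have hc0 : (0 : ℝ) < c := by linarith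
      have g := h c a b A (2 * B) hc ha hb hA (by omega) (by push_cast; linarith)
      have e1 : (B : ℝ) * (N c a b (6 - 1) A (2 * B) : ℝ) ≤
          B * (C * (c : ℝ) ^ ε * (((2 * B : ℕ) : ℝ) ^ (5 - 1) +
            (A : ℝ) ^ (5 - 1) * ((2 * B : ℕ) : ℝ) ^ (5 - 3) +
            (A : ℝ) ^ 5 * ((2 * B : ℕ) : ℝ) ^ (5 - 2) / c)) :=
        mul_le_mul_of_nonneg_left g (by positivity)
      refine e1.trans ?_
      have e2 : (B : ℝ) * (((2 * B : ℕ) : ℝ) ^ (5 - 1) +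
            (A : ℝ) ^ (5 - 1) * ((2 * B : ℕ) : ℝ) ^ (5 - 3) +
            (A : ℝ) ^ 5 * ((2 * B : ℕ) : ℝ) ^ (5 - 2) / c) ≤
          32 * ((B : ℝ) ^ (6 - 1) + ((A : ℝ) * B) ^ 6 / (c : ℝ) ^ 3 *
            (1 + c * ((c : ℝ) / (B : ℝ) ^ 2))) := by
        push_cast
        have q3 : ((A : ℝ) * B) ^ 6 / (c : ℝ) ^ 3 * (1 + c * ((c : ℝ) / (B : ℝ) ^ 2)) =
            ((A : ℝ) * B) ^ 6 / (c : ℝ) ^ 3 + (A : ℝ) ^ 6 * B ^ 4 / c := by
          field_simp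
        rw [q3]
        have q1 : (A : ℝ) ^ 5 * B ^ 4 / c ≤ (A : ℝ) ^ 6 * B ^ 4 / c := by
          refine div_le_div_of_nonneg_right ?_ hc0.le
          refine mul_le_mul_of_nonneg_right ?_ (by positivity)
          exact pow_le_pow_right₀ hA' (by norm_num)
        have q2 : (A : ℝ) ^ 4 * B ^ 3 ≤ (B : ℝ) ^ 5 + 4 * ((A : ℝ) ^ 6 * B ^ 4 / c) := by
          have p0 : 0 ≤ (A : ℝ) ^ 6 * B ^ 4 / c := by positivity
          rcases le_or_gt ((A : ℝ) ^ 2) B with hAB2 | hAB2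
          · have p1 : (A : ℝ) ^ 4 ≤ (B : ℝ) ^ 2 := by
              calc (A : ℝ) ^ 4 = ((A : ℝ) ^ 2) ^ 2 := by ring
                _ ≤ (B : ℝ) ^ 2 := pow_le_pow_left₀ (by positivity) hAB2 2
            have p2 : (A : ℝ) ^ 4 * B ^ 3 ≤ (B : ℝ) ^ 2 * B ^ 3 :=
              mul_le_mul_of_nonneg_right p1 (by positivity)
            have p3 : (B : ℝ) ^ 2 * B ^ 3 = (B : ℝ) ^ 5 := by ring
            linarith
          · have p1 : (c : ℝ) ≤ 4 * ((A : ℝ) ^ 2 * B) := by nlinarith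
            have p2 : (A : ℝ) ^ 4 * B ^ 3 ≤ 4 * ((A : ℝ) ^ 6 * B ^ 4 / c) := by
              rw [show 4 * ((A : ℝ) ^ 6 * B ^ 4 / c) = 4 * ((A : ℝ) ^ 6 * B ^ 4) / c by ring,
                le_div_iff₀ hc0]
              have p3 := mul_le_mul_of_nonneg_left p1
                (show 0 ≤ (A : ℝ) ^ 4 * B ^ 3 by positivity)
              calc (A : ℝ) ^ 4 * B ^ 3 * c ≤ (A : ℝ) ^ 4 * B ^ 3 * (4 * ((A : ℝ) ^ 2 * B)) := p3
                _ = 4 * ((A : ℝ) ^ 6 * B ^ 4) := by ring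
            have p4 : 0 ≤ (B : ℝ) ^ 5 := by positivity
            linarith
        have q4 : 0 ≤ ((A : ℝ) * B) ^ 6 / (c : ℝ) ^ 3 := by positivity
        have q5 : 0 ≤ (A : ℝ) ^ 6 * B ^ 4 / c := by positivity
        have q6 : 0 ≤ (B : ℝ) ^ 5 := by positivity
        have q7 : (B : ℝ) * ((2 * B) ^ 4 + (A : ℝ) ^ 4 * (2 * B) ^ 2 +
            (A : ℝ) ^ 5 * (2 * B) ^ 3 / c) =
            16 * (B : ℝ) ^ 5 + 4 * ((A : ℝ) ^ 4 * B ^ 3) + 8 * ((A : ℝ) ^ 5 * B ^ 4 / c) := by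
          ring
        rw [q7]
        linarith
      have e3 := mul_le_mul_of_nonneg_left e2 (show 0 ≤ C * (c : ℝ) ^ ε by positivity)
      calc _ = C * (c : ℝ) ^ ε * ((B : ℝ) * (((2 * B : ℕ) : ℝ) ^ (5 - 1) +
            (A : ℝ) ^ (5 - 1) * ((2 * B : ℕ) : ℝ) ^ (5 - 3) +
            (A : ℝ) ^ 5 * ((2 * B : ℕ) : ℝ) ^ (5 - 2) / c)) := by ring
        _ ≤ _ := e3
        _ = _ := by ring)
    r hr K ε hK hε
  refine ⟨C, hC, fun c a b A B hc ha hb hA hAB hBK hcB => ?_⟩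
  simpa using h c a b A B hc ha hb hA hAB hBK hcB

theorem thm (h1 : StM2) (h2 : StM4) (h3 : StM6) : StREC := by
  intro r K ε hK hε
  obtain ⟨C2, hC2, g2⟩ : ∃ C : ℝ, 0 < C ∧ (2 ≤ r →
      ∀ (c : ℕ) (a b : ℤ) (A B : ℕ), 1 ≤ c → IsCoprime a c → IsCoprime b c → 1 ≤ A → A ≤ B →
        (B : ℝ) ≤ K * c →
        (N c a b r A B : ℝ) ≤ C * (c : ℝ) ^ ε * ((B : ℝ) ^ (r - 1) +
          ((A : ℝ) * B) ^ r / (c : ℝ) ^ 3 *
          (1 + c * ((c : ℝ) ^ 2 / ((A : ℝ) * (B : ℝ) ^ 2)) ^ ((r : ℝ) / 2)))) := by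
    by_cases hr : 2 ≤ r
    · obtain ⟨C, hC, h⟩ := case2 h1 r hr K ε hK hε
      exact ⟨C, hC, fun _ => h⟩
    · exact ⟨1, one_pos, fun h => absurd h hr⟩
  obtain ⟨C4, hC4, g4⟩ : ∃ C : ℝ, 0 < C ∧ (4 ≤ r →
      ∀ (c : ℕ) (a b : ℤ) (A B : ℕ), 1 ≤ c → IsCoprime a c → IsCoprime b c → 1 ≤ A → A ≤ B →
        (B : ℝ) ≤ K * c →
        (N c a b r A B : ℝ) ≤ C * (c : ℝ) ^ ε * ((B : ℝ) ^ (r - 1) +
          ((A : ℝ) * B) ^ r / (c : ℝ) ^ 3 *
          (1 + c * ((c : ℝ) ^ 2 / (B : ℝ) ^ 3) ^ ((r : ℝ) / 4)))) := by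
    by_cases hr : 4 ≤ r
    · obtain ⟨C, hC, h⟩ := case4 h2 r hr K ε hK hε
      exact ⟨C, hC, fun _ => h⟩
    · exact ⟨1, one_pos, fun h => absurd h hr⟩
  obtain ⟨C6, hC6, g6⟩ : ∃ C : ℝ, 0 < C ∧ (6 ≤ r →
      ∀ (c : ℕ) (a b : ℤ) (A B : ℕ), 1 ≤ c → IsCoprime a c → IsCoprime b c → 1 ≤ A → A ≤ B →
        (B : ℝ) ≤ K * c → (c : ℝ) ≤ 4 * (B : ℝ) ^ 2 →
        (N c a b r A B : ℝ) ≤ C * (c : ℝ) ^ ε * ((B : ℝ) ^ (r - 1) +
          ((A : ℝ) * B) ^ r / (c : ℝ) ^ 3 *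
          (1 + c * ((c : ℝ) / (B : ℝ) ^ 2) ^ ((r : ℝ) / 6)))) := by
    by_cases hr : 6 ≤ r
    · obtain ⟨C, hC, h⟩ := case6 h3 r hr K ε hK hε
      exact ⟨C, hC, fun _ => h⟩
    · exact ⟨1, one_pos, fun h => absurd h hr⟩
  refine ⟨C2 + C4 + C6, by positivity, ?_⟩
  intro c a b A B hc ha hb hA hAB hBK
  refine ⟨fun hr => ?_, fun hr => ?_, fun hr hcB => ?_⟩
  · refine (g2 hr c a b A B hc ha hb hA hAB hBK).trans ?_
    refine mul_le_mul_of_nonneg_right ?_ (by positivity)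
    exact mul_le_mul_of_nonneg_right (by linarith) (by positivity)
  · refine (g4 hr c a b A B hc ha hb hA hAB hBK).trans ?_
    refine mul_le_mul_of_nonneg_right ?_ (by positivity)
    exact mul_le_mul_of_nonneg_right (by linarith) (by positivity)
  · refine (g6 hr c a b A B hc ha hb hA hAB hBK hcB).trans ?_
    refine mul_le_mul_of_nonneg_right ?_ (by positivity)
    exact mul_le_mul_of_nonneg_right (by linarith) (by positivity)

end Pool.Agent.Helper28.SP.REC
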