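import Pool.Agent.Helper28.SP.St

set_option autoImplicit false

namespace Pool.Agent.Helper28.SP.W2

open Pool.Agent.Helper28.SP
open Finset Matrix
open Pool.Agent.Helper56.SW (τ)

/-- a residue class in a set of diameter `D` -/
theorem cls (D n m : ℕ) (S : Finset ℤ) (hm : 1 ≤ m) (hD : ∀ x ∈ S, ∀ y ∈ S, x - y ≤ D)
    (hDn : D ≤ n)
    (hd : ∀ x ∈ S, ∀ y ∈ S, (m : ℤ) ∣ x - y) : (S.card : ℝ) ≤ (n : ℝ) / m + 1 := by
  rcases S.eq_empty_or_nonempty with hE | hne
  · rw [hE, Finset.card_empty]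
    push_cast
    positivity
  have hm0 : (0 : ℤ) < m := by exact_mod_cast hm
  have hmin : ∀ x ∈ S, S.min' hne ≤ x := fun x hx => S.min'_le x hx
  have hmem := S.min'_mem hne
  set y := S.min' hne with hy
  have h1 : S.card ≤ (Finset.range (n / m + 1)).card := by
    apply Finset.card_le_card_of_injOn (fun x : ℤ => ((x - y) / m).toNat)
    · intro x hx
      have hx' : x ∈ S := hx
      have h2 : x - y ≤ n := le_trans (hD x hx' y hmem) (by exact_mod_cast hDn)
      have h3 : 0 ≤ x - y := by linarith [hmin x hx']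
      have h4 : (x - y) / m ≤ (n : ℤ) / m := Int.ediv_le_ediv hm0 h2
      have h5 : 0 ≤ (x - y) / m := Int.ediv_nonneg h3 hm0.le
      have h6 : ((n / m : ℕ) : ℤ) = (n : ℤ) / m := by push_cast; rfl
      show ((x - y) / m).toNat ∈ ((Finset.range (n / m + 1) : Finset ℕ) : Set ℕ)
      rw [Finset.mem_coe, Finset.mem_range]
      have h7 : ((x - y) / m) ≤ ((n / m : ℕ) : ℤ) := by rw [h6]; exact h4
      omega
    · intro x hx x' hx' h
      have hx1 : x ∈ S := hx
      have hx1' : x' ∈ S := hx'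
      have h3 : 0 ≤ x - y := by linarith [hmin x hx1]
      have h3' : 0 ≤ x' - y := by linarith [hmin x' hx1']
      have h5 : 0 ≤ (x - y) / m := Int.ediv_nonneg h3 hm0.le
      have h5' : 0 ≤ (x' - y) / m := Int.ediv_nonneg h3' hm0.le
      have h6 : (x - y) / m = (x' - y) / m := by
        have h' : ((x - y) / m).toNat = ((x' - y) / m).toNat := h
        omega
      have h7 := Int.ediv_mul_cancel (hd x hx1 y hmem)
      have h8 := Int.ediv_mul_cancel (hd x' hx1' y hmem)
      rw [h6, h8] at h7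
      linarith
  rw [Finset.card_range] at h1
  have h2 : (S.card : ℝ) ≤ ((n / m : ℕ) : ℝ) + 1 := by exact_mod_cast h1
  have h3 : ((n / m : ℕ) : ℝ) ≤ (n : ℝ) / m := Nat.cast_div_le
  linarith

/-- cancel the common factor -/
theorem dvd_cancel (m : ℕ) (hm : 1 ≤ m) (x d : ℤ) (h : (m : ℤ) ∣ x * d) :
    ((m / Int.gcd x m : ℕ) : ℤ) ∣ d := by
  set g := Int.gcd x m with hg
  have hgm : g ∣ m := by
    have := Int.gcd_dvd_right x (m : ℤ)
    exact_mod_cast this
  have hg0 : 0 < g := Nat.pos_of_dvd_of_pos hgm hm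
  obtain ⟨m', hm'⟩ := hgm
  have h1 : (m : ℤ) ∣ (g : ℤ) * d := by
    have h2 : (g : ℤ) = x * Int.gcdA x m + m * Int.gcdB x m := Int.gcd_eq_gcd_ab x m
    rw [h2]
    have h3 : (x * Int.gcdA x m + m * Int.gcdB x m) * d =
        (x * d) * Int.gcdA x m + m * (Int.gcdB x m * d) := by ring
    rw [h3]
    exact dvd_add (Dvd.dvd.mul_right h _) (dvd_mul_right _ _)
  have h4 : m / g = m' := by
    rw [hm']
    exact Nat.mul_div_cancel_left _ hg0
  rw [h4]
  have h5 : (g : ℤ) * m' ∣ (g : ℤ) * d := by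
    have : ((m : ℕ) : ℤ) = (g : ℤ) * m' := by
      rw [hm']
      push_cast
      ring
    rw [← this]
    exact h1
  exact (mul_dvd_mul_iff_left (by exact_mod_cast hg0.ne')).1 h5

/-- a residue class modulo `m / gcd` among `n` consecutive natural numbers -/
theorem clsN (n m : ℕ) (z : ℤ) (S : Finset ℕ) (hm : 1 ≤ m)
    (hS : S ⊆ range n) (hd : ∀ x ∈ S, ∀ y ∈ S, (m : ℤ) ∣ z * ((x : ℤ) - y)) :
    (S.card : ℝ) ≤ (n : ℝ) * (Int.gcd z m : ℝ) / m + 1 := by
  have hgm : Int.gcd z m ∣ m := by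
    have := Int.gcd_dvd_right z (m : ℤ)
    exact_mod_cast this
  have hg0 : 0 < Int.gcd z m := Nat.pos_of_dvd_of_pos hgm hm
  have h1 : 1 ≤ m / Int.gcd z m := Nat.div_pos (Nat.le_of_dvd hm hgm) hg0
  have h2 := cls n n (m / Int.gcd z m) (S.map Nat.castEmbedding) h1
    (by
      intro x hx y hy
      obtain ⟨x', hx', rfl⟩ := Finset.mem_map.1 hx
      obtain ⟨y', hy', rfl⟩ := Finset.mem_map.1 hy
      have e := Finset.mem_range.1 (hS hx')
      simp only [Nat.castEmbedding_apply]
      omega) le_rfl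
    (by
      intro x hx y hy
      obtain ⟨x', hx', rfl⟩ := Finset.mem_map.1 hx
      obtain ⟨y', hy', rfl⟩ := Finset.mem_map.1 hy
      exact dvd_cancel m hm z _ (hd x' hx' y' hy'))
  rw [Finset.card_map] at h2
  have h3 : ((m / Int.gcd z m : ℕ) : ℝ) = (m : ℝ) / (Int.gcd z m : ℝ) :=
    Nat.cast_div hgm (by exact_mod_cast hg0.ne')
  rw [h3] at h2
  have h4 : (n : ℝ) / ((m : ℝ) / (Int.gcd z m : ℝ)) = (n : ℝ) * (Int.gcd z m : ℝ) / m := by
    have : (0 : ℝ) < Int.gcd z m := by exact_mod_cast hg0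
    have : (0 : ℝ) < m := by exact_mod_cast hm
    field_simp
  rw [h4] at h2
  exact h2

theorem coprime_dvd {m : ℤ} {a x : ℤ} (h : IsCoprime a m) (hd : m ∣ a * x) : m ∣ x :=
  h.symm.dvd_of_dvd_mul_left hd

theorem red_entry {c : ℕ} {g h : SZ} (e : red c g = red c h) (i j : Fin 2) :
    (c : ℤ) ∣ (g : Matrix (Fin 2) (Fin 2) ℤ) i j - (h : Matrix (Fin 2) (Fin 2) ℤ) i j := by
  have h1 : (red c g : Matrix (Fin 2) (Fin 2) (ZMod c)) i j =
      (red c h : Matrix (Fin 2) (Fin 2) (ZMod c)) i j := by rw [e]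
  have h2 : (((g : Matrix (Fin 2) (Fin 2) ℤ) i j : ℤ) : ZMod c) =
      (((h : Matrix (Fin 2) (Fin 2) ℤ) i j : ℤ) : ZMod c) := h1
  have h3 : (((g : Matrix (Fin 2) (Fin 2) ℤ) i j - (h : Matrix (Fin 2) (Fin 2) ℤ) i j : ℤ) :
      ZMod c) = 0 := by
    push_cast
    rw [h2, sub_self]
  exact (ZMod.intCast_zmod_eq_zero_iff_dvd _ c).1 h3

theorem Uu_inv (x : ℤ) : (Uu x : SZ)⁻¹ = Uu (-x) := by
  rw [inv_eq_iff_mul_eq_one]
  ext i j
  fin_cases i <;> fin_cases j <;> simp [Uu, Matrix.mul_apply, Fin.sum_univ_two]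

theorem Ll_inv (x : ℤ) : (Ll x : SZ)⁻¹ = Ll (-x) := by
  rw [inv_eq_iff_mul_eq_one]
  ext i j
  fin_cases i <;> fin_cases j <;> simp [Ll, Matrix.mul_apply, Fin.sum_univ_two]

/-- `L(x) U(y) L(z)` -/
theorem LUL_coe (x y z : ℤ) :
    ((Ll x * Uu y * Ll z : SZ) : Matrix (Fin 2) (Fin 2) ℤ) =
      !![1 + y * z, y; x * (1 + y * z) + z, x * y + 1] := by
  have : ((Ll x * Uu y * Ll z : SZ) : Matrix (Fin 2) (Fin 2) ℤ) =
      !![1, 0; x, 1] * !![1, y; 0, 1] * !![1, 0; z, 1] := rfl
  rw [this]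
  ext i j
  fin_cases i <;> fin_cases j <;>
    simp [Matrix.mul_apply, Fin.sum_univ_two] <;> ring

/-- the arithmetic of the product condition -/
theorem arith {c : ℕ} {a b h1 h2 k1 k1' k2 k2' : ℤ} (ha : IsCoprime a c) (hb : IsCoprime b c)
    (e : red c ((Ll (-(b * k1)) * Uu (a * h1) * Ll (b * k1')) *
      (Ll (-(b * k2)) * Uu (a * h2) * Ll (b * k2'))) = 1) :
    (c : ℤ) ∣ h2 + h1 ∧ (c : ℤ) ∣ h1 * (k2 - k1') ∧ (c : ℤ) ∣ k2' - (k1 - k1' + k2) := by
  have e1 : red c (Ll (-(b * k1)) * Uu (a * h1) * Ll (b * k1')) =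
      red c (Ll (-(b * k2')) * Uu (-(a * h2)) * Ll (b * k2)) := by
    have hh : (Ll (-(b * k2')) * Uu (-(a * h2)) * Ll (b * k2) : SZ) =
        (Ll (-(b * k2)) * Uu (a * h2) * Ll (b * k2') : SZ)⁻¹ := by
      rw [_root_.mul_inv_rev, _root_.mul_inv_rev, Uu_inv, Ll_inv, Ll_inv, neg_neg, mul_assoc]
    rw [hh, map_inv]
    rw [map_mul] at e
    exact eq_inv_of_mul_eq_one_left e
  have f01 := red_entry e1 0 1
  have f00 := red_entry e1 0 0
  have f11 := red_entry e1 1 1
  have f10 := red_entry e1 1 0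
  rw [LUL_coe, LUL_coe] at f01 f00 f11 f10
  simp only [Matrix.of_apply, Matrix.cons_val', Matrix.cons_val_zero, Matrix.cons_val_one,
    Matrix.cons_val_fin_one] at f01 f00 f11 f10
  have g1 : (c : ℤ) ∣ h2 + h1 := by
    apply coprime_dvd ha
    have : a * (h2 + h1) = a * h1 - -(a * h2) := by ring
    rw [this]
    exact f01
  have g2 : (c : ℤ) ∣ h1 * (k2 - k1') := by
    apply coprime_dvd ha
    apply coprime_dvd hb
    have h3 : b * (a * (h1 * (k2 - k1'))) =
        -(1 + a * h1 * (b * k1') - (1 + -(a * h2) * (b * k2))) + (h2 + h1) * (a * (b * k2)) := by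
      ring
    rw [h3]
    exact dvd_add ((dvd_neg).2 f00) (Dvd.dvd.mul_right g1 _)
  have g3 : (c : ℤ) ∣ h1 * (k1 - k2') := by
    apply coprime_dvd ha
    apply coprime_dvd hb
    have h3 : b * (a * (h1 * (k1 - k2'))) =
        -(-(b * k1) * (a * h1) + 1 - (-(b * k2') * -(a * h2) + 1)) -
          (h2 + h1) * (a * (b * k2')) := by
      ring
    rw [h3]
    exact dvd_sub ((dvd_neg).2 f11) (Dvd.dvd.mul_right g1 _)
  refine ⟨g1, g2, ?_⟩
  apply coprime_dvd hb
  have h3 : b * (k2' - (k1 - k1' + k2)) =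
      (-(b * k1) * (1 + a * h1 * (b * k1')) + b * k1' -
        (-(b * k2') * (1 + -(a * h2) * (b * k2)) + b * k2)) +
        (-(h1 * (k2 - k1')) * (a * b * b * k1) + (h1 * (k1 - k2')) * (a * b * b * k2) +
          (h2 + h1) * (a * b * b * (k2' * k2))) := by
    ring
  rw [h3]
  exact dvd_add f10 (dvd_add (dvd_add (Dvd.dvd.mul_right ((dvd_neg).2 g2) _)
    (Dvd.dvd.mul_right g3 _)) (Dvd.dvd.mul_right g1 _))

/-- the counting function as a sum of indicators -/
theorem cnt_two {G ι : Type} [Group G] (s : Finset ι) (u : ι → G) :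
    cnt s u 2 1 = ∑ i ∈ s, ∑ j ∈ s, cnt s u 0 ((u j)⁻¹ * ((u i)⁻¹ * 1)) := rfl

theorem cnt_zero_le {G ι : Type} [Group G] (s : Finset ι) (u : ι → G) (x y : G) (P : Prop)
    [Decidable P] (h : x * y = 1 → P) :
    (cnt s u 0 (y⁻¹ * (x⁻¹ * 1)) : ℝ) ≤ if P then 1 else 0 := by
  classical
  by_cases e : y⁻¹ * (x⁻¹ * 1) = 1
  · have e' : x * y = 1 := by
      rw [mul_one, ← _root_.mul_inv_rev, inv_eq_one] at e
      exact e
    rw [if_pos (h e')]
    unfold cnt
    rw [if_pos e]
    simp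
  · unfold cnt
    rw [if_neg e]
    split_ifs <;> simp

theorem card_Hs (A : ℕ) : (Hs A).card = 2 * A := by
  unfold Hs
  rw [Finset.card_erase_of_mem (Finset.mem_Icc.2 ⟨by omega, by omega⟩), Int.card_Icc]
  omega

theorem thm (h : StSUM) : StW2 := by
  intro c a b A B hc ha hb hA
  classical
  have hc0 : (0 : ℝ) < c := by exact_mod_cast hc
  have hA1 : (1 : ℝ) ≤ A := by exact_mod_cast hA
  have hA0 : (0 : ℝ) < A := by linarith
  have hτ : (1 : ℝ) ≤ τ c := by
    unfold τ
    have : 0 < c.divisors.card := Finset.card_pos.2 ⟨1, Nat.mem_divisors.2 ⟨one_dvd _, by omega⟩⟩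
    exact_mod_cast this
  set B1 : ℝ := 2 * (B : ℝ) + 1 with hB1
  have hB10 : 0 < B1 := by positivity
  set m : ℝ := min (A : ℝ) c with hm
  set n : ℝ := min B1 c with hn
  have hm0 : 0 < m := lt_min hA0 hc0
  have hn0 : 0 < n := lt_min hB10 hc0
  -- the number of values of the last variables
  have key : ∀ i ∈ sM A B, ∑ j ∈ sM A B,
      (cnt (sM A B) (fun i => red c (wM a b i)) 0
        ((red c (wM a b j))⁻¹ * ((red c (wM a b i))⁻¹ * 1)) : ℝ) ≤
      (2 * A / c + 1) * ((B1 * (Int.gcd i.1 c : ℝ) / c + 1) * (B1 / c + 1)) := by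
    intro i hi
    obtain ⟨h1, k1, k1'⟩ := i
    set P1 : ℤ → Prop := fun h2 => (c : ℤ) ∣ h2 + h1 with hP1
    set P2 : ℕ → Prop := fun k2 => (c : ℤ) ∣ h1 * ((k2 : ℤ) - k1') with hP2
    set P3 : ℕ → ℕ → Prop := fun k2 k2' => (c : ℤ) ∣ (k2' : ℤ) - ((k1 : ℤ) - k1' + k2) with hP3
    have s1 : ∑ j ∈ sM A B,
      (cnt (sM A B) (fun i => red c (wM a b i)) 0
        ((red c (wM a b j))⁻¹ * ((red c (wM a b (h1, k1, k1')))⁻¹ * 1)) : ℝ) ≤
        ∑ j ∈ sM A B, (if (P1 j.1 ∧ P2 j.2.1 ∧ P3 j.2.1 j.2.2) then (1 : ℝ) else 0) := by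
      apply Finset.sum_le_sum
      intro j _
      apply cnt_zero_le
      intro e
      rw [← map_mul] at e
      exact arith ha hb e
    refine s1.trans ?_
    unfold sM
    rw [Finset.sum_product]
    have s2 : ∀ h2 ∈ Hs A, ∑ q ∈ (range (2 * B + 1) ×ˢ range (2 * B + 1) : Finset (ℕ × ℕ)),
        (if (P1 h2 ∧ P2 q.1 ∧ P3 q.1 q.2) then (1 : ℝ) else 0) ≤
        (if P1 h2 then (1 : ℝ) else 0) *
          ((B1 * (Int.gcd h1 c : ℝ) / c + 1) * (B1 / c + 1)) := by
      intro h2 _
      by_cases e1 : P1 h2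
      · rw [if_pos e1, one_mul, Finset.sum_product]
        have s3 : ∀ k2 ∈ range (2 * B + 1), ∑ k2' ∈ range (2 * B + 1),
            (if (P1 h2 ∧ P2 k2 ∧ P3 k2 k2') then (1 : ℝ) else 0) ≤
            (if P2 k2 then (1 : ℝ) else 0) * (B1 / c + 1) := by
          intro k2 _
          by_cases e2 : P2 k2
          · rw [if_pos e2, one_mul]
            have s4 : ∑ k2' ∈ range (2 * B + 1),
                (if (P1 h2 ∧ P2 k2 ∧ P3 k2 k2') then (1 : ℝ) else 0) =
                (((range (2 * B + 1)).filter fun k2' => P3 k2 k2').card : ℝ) := by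
              rw [Finset.card_filter]
              push_cast
              apply Finset.sum_congr rfl
              intro k2' _
              by_cases e3 : P3 k2 k2'
              · rw [if_pos ⟨e1, e2, e3⟩, if_pos e3]
              · rw [if_neg (fun hh => e3 hh.2.2), if_neg e3]
            rw [s4]
            have s5 := clsN (2 * B + 1) c 1 ((range (2 * B + 1)).filter fun k2' => P3 k2 k2') hc
              (Finset.filter_subset _ _) (by
                intro x hx y hy
                have hx' := (Finset.mem_filter.1 hx).2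
                have hy' := (Finset.mem_filter.1 hy).2
                have := dvd_sub hx' hy'
                rw [one_mul]
                have h9 : (x : ℤ) - ((k1 : ℤ) - k1' + k2) - ((y : ℤ) - ((k1 : ℤ) - k1' + k2)) =
                    (x : ℤ) - y := by ring
                rw [h9] at this
                exact this)
            rw [Int.one_gcd] at s5
            push_cast at s5
            rw [mul_one] at s5
            exact s5
          · rw [if_neg e2, zero_mul]
            apply le_of_eq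
            apply Finset.sum_eq_zero
            intro k2' _
            rw [if_neg (fun hh => e2 hh.2.1)]
        refine (Finset.sum_le_sum s3).trans ?_
        rw [← Finset.sum_mul]
        apply mul_le_mul_of_nonneg_right _ (by positivity)
        have s6 : ∑ k2 ∈ range (2 * B + 1), (if P2 k2 then (1 : ℝ) else 0) =
            (((range (2 * B + 1)).filter fun k2 => P2 k2).card : ℝ) := by
          rw [Finset.card_filter]
          push_cast
          rfl
        rw [s6]
        have s7 := clsN (2 * B + 1) c h1 ((range (2 * B + 1)).filter fun k2 => P2 k2) hc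
          (Finset.filter_subset _ _) (by
            intro x hx y hy
            have hx' := (Finset.mem_filter.1 hx).2
            have hy' := (Finset.mem_filter.1 hy).2
            have := dvd_sub hx' hy'
            have h9 : h1 * ((x : ℤ) - k1') - h1 * ((y : ℤ) - k1') = h1 * ((x : ℤ) - y) := by ring
            rw [h9] at this
            exact this)
        push_cast at s7
        exact s7
      · rw [if_neg e1, zero_mul]
        apply le_of_eq
        apply Finset.sum_eq_zero
        intro q _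
        rw [if_neg (fun hh => e1 hh.1)]
    refine (Finset.sum_le_sum s2).trans ?_
    rw [← Finset.sum_mul]
    apply mul_le_mul_of_nonneg_right _ (by positivity)
    have s8 : ∑ h2 ∈ Hs A, (if P1 h2 then (1 : ℝ) else 0) =
        (((Hs A).filter fun h2 => P1 h2).card : ℝ) := by
      rw [Finset.card_filter]
      push_cast
      rfl
    rw [s8]
    have s9 := cls (2 * A) (2 * A) c ((Hs A).filter fun h2 => P1 h2) hc
      (by
        intro x hx y hy
        have hx' := Finset.mem_Icc.1 (Finset.mem_of_mem_erase (Finset.mem_filter.1 hx).1)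
        have hy' := Finset.mem_Icc.1 (Finset.mem_of_mem_erase (Finset.mem_filter.1 hy).1)
        push_cast
        linarith [hx'.2, hy'.1]) le_rfl
      (by
        intro x hx y hy
        have hx' := (Finset.mem_filter.1 hx).2
        have hy' := (Finset.mem_filter.1 hy).2
        have := dvd_sub hx' hy'
        have h9 : x + h1 - (y + h1) = x - y := by ring
        rw [h9] at this
        exact this)
    push_cast at s9
    exact s9
  -- summation over the first letter
  have t1 : (W (sM A B) (wM a b) c 2 1 : ℝ) ≤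
      ∑ i ∈ sM A B, (2 * A / c + 1) * ((B1 * (Int.gcd i.1 c : ℝ) / c + 1) * (B1 / c + 1)) := by
    unfold W
    rw [map_one, cnt_two]
    push_cast
    exact Finset.sum_le_sum key
  have t2 : ∑ i ∈ sM A B, (2 * A / c + 1) * ((B1 * (Int.gcd i.1 c : ℝ) / c + 1) * (B1 / c + 1)) =
      B1 ^ 2 * ((2 * A / c + 1) * (B1 / c + 1)) *
        (B1 / c * ∑ h1 ∈ Hs A, (Int.gcd h1 c : ℝ) + 2 * A) := by
    unfold sM
    rw [Finset.sum_product]
    simp only [Finset.sum_const, Finset.card_product, Finset.card_range, nsmul_eq_mul]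
    rw [← Finset.mul_sum, ← Finset.mul_sum, ← Finset.sum_mul, Finset.sum_add_distrib,
      Finset.sum_const, card_Hs]
    have : ∑ h1 ∈ Hs A, B1 * (Int.gcd h1 c : ℝ) / c = B1 / c * ∑ h1 ∈ Hs A, (Int.gcd h1 c : ℝ) := by
      rw [Finset.mul_sum]
      apply Finset.sum_congr rfl
      intro h1 _
      ring
    rw [this, nsmul_eq_mul]
    push_cast
    rw [← hB1]
    ring
  rw [t2] at t1
  refine t1.trans ?_
  have u1 : 2 * (A : ℝ) / c + 1 ≤ 3 * A / m := by
    rcases le_total (A : ℝ) c with e | e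
    · rw [hm, min_eq_left e]
      have e1 : 2 * (A : ℝ) / c ≤ 2 := by
        rw [div_le_iff₀ hc0]
        linarith
      have e2 : 3 * (A : ℝ) / A = 3 := by field_simp
      rw [e2]
      linarith
    · rw [hm, min_eq_right e]
      have e1 : 1 ≤ (A : ℝ) / c := by
        rw [le_div_iff₀ hc0]
        linarith
      have e2 : 3 * (A : ℝ) / c = 2 * A / c + A / c := by ring
      rw [e2]
      linarith
  have u2 : B1 / c + 1 ≤ 2 * B1 / n := by
    have e1 : B1 / c ≤ B1 / n := div_le_div_of_nonneg_left hB10.le hn0 (min_le_right _ _)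
    have e2 : 1 ≤ B1 / n := by
      rw [le_div_iff₀ hn0, one_mul]
      exact min_le_left _ _
    have e3 : 2 * B1 / n = B1 / n + B1 / n := by ring
    rw [e3]
    linarith
  have u3 : B1 / c * ∑ h1 ∈ Hs A, (Int.gcd h1 c : ℝ) + 2 * A ≤ 4 * A * τ c * B1 / n := by
    have e1 : B1 / c ≤ B1 / n := div_le_div_of_nonneg_left hB10.le hn0 (min_le_right _ _)
    have e2 : 1 ≤ B1 / n := by
      rw [le_div_iff₀ hn0, one_mul]
      exact min_le_left _ _
    have e4 : B1 / c * ∑ h1 ∈ Hs A, (Int.gcd h1 c : ℝ) ≤ B1 / n * (2 * A * τ c) := by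
      apply mul_le_mul e1 (h c A hc) (Finset.sum_nonneg (fun _ _ => by positivity)) (by positivity)
    have e5 : 2 * (A : ℝ) ≤ B1 / n * (2 * A * τ c) := by
      have e6 : (1 : ℝ) * (2 * A * 1) ≤ B1 / n * (2 * A * τ c) := by
        apply mul_le_mul e2 _ (by positivity) (by positivity)
        exact mul_le_mul_of_nonneg_left hτ (by positivity)
      linarith
    have e7 : 4 * A * τ c * B1 / n = B1 / n * (2 * A * τ c) + B1 / n * (2 * A * τ c) := by ring
    rw [e7]
    linarith
  have v : B1 ^ 2 * ((2 * A / c + 1) * (B1 / c + 1)) *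
        (B1 / c * ∑ h1 ∈ Hs A, (Int.gcd h1 c : ℝ) + 2 * A) ≤
      B1 ^ 2 * ((3 * A / m) * (2 * B1 / n)) * (4 * A * τ c * B1 / n) := by
    apply mul_le_mul _ u3 (add_nonneg (mul_nonneg (by positivity)
      (Finset.sum_nonneg (fun _ _ => by positivity))) (by positivity)) (by positivity)
    apply mul_le_mul_of_nonneg_left _ (by positivity)
    exact mul_le_mul u1 u2 (by positivity) (by positivity)
  refine v.trans (le_of_eq ?_)
  field_simp
  ring

end Pool.Agent.Helper28.SP.W2
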