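import Pool.Agent.Helper28.SP.Asm2
import Pool.Agent.Helper28.SP.M_CARD
import Pool.Agent.Helper28.SP.M_CHAR
import Pool.Agent.Helper28.SP.M_TR
import Pool.Agent.Helper28.SP.M_Q
import Pool.Agent.Helper28.SP.M_N0W
import Pool.Agent.Helper28.SP.M_NPW
import Pool.Agent.Helper28.SP.M_CONV
import Pool.Agent.Helper28.SP.M_W2
import Pool.Agent.Helper28.SP.M_REC
import Pool.Agent.Helper28.SP.M_LAM
import Pool.Agent.Helper28.SP.M_GEN

/-!
# MP_e188f1_nt, spectral range: all modules together
-/

set_option autoImplicit false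

namespace Pool.Agent.Helper28.SP

theorem fin_St : StFIN := by
  have hS : StSURJ := SURJ.thm
  have hK : StKER := KER.thm hS
  have hG : StGEN := GEN.thm hK hS
  have hP : StPROD := PROD.thm hK hS
  have hL : StLAM := LAM.thm
  exact asm CARD.thm (CHAR.thm hG hK hS) (TR.thm hL hK hS) (Q.thm hL hK hP hS) N0W.thm NPW.thm
    NPW.thm' (CONV.thm hL) (W2.thm MINK.thm') REC.thm

end Pool.Agent.Helper28.SP
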