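import Pool.Agent.Helper28.SP.St

set_option autoImplicit false

namespace Pool.Agent.Helper28.SP.MINK

open Finset
open Pool.Agent.Helper28.SP
open Pool.Agent.Helper56.SW (τ)

theorem thm : StMINK := by
  intro G ι _ s f _
  have h1 : ∑ g : G, (∑ i ∈ s, f i g) ^ 2 = ∑ i ∈ s, ∑ j ∈ s, ∑ g : G, f i g * f j g := by
    have h2 : ∀ g : G, (∑ i ∈ s, f i g) ^ 2 = ∑ i ∈ s, ∑ j ∈ s, f i g * f j g := by
      intro g
      rw [sq, Finset.sum_mul_sum]
    rw [Finset.sum_congr rfl (fun g _ => h2 g), Finset.sum_comm]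
    refine Finset.sum_congr rfl (fun i _ => ?_)
    rw [Finset.sum_comm]
  rw [h1, sq, Finset.sum_mul_sum]
  refine Finset.sum_le_sum (fun i _ => Finset.sum_le_sum (fun j _ => ?_))
  exact Real.sum_mul_le_sqrt_mul_sqrt Finset.univ (fun g => f i g) (fun g => f j g)

theorem card_Hs (n : ℕ) : (Hs n).card = 2 * n := by
  have h0 : (0 : ℤ) ∈ Icc (-(n : ℤ)) n := by
    rw [Finset.mem_Icc]
    constructor
    · have : (0 : ℤ) ≤ (n : ℤ) := Int.natCast_nonneg n
      linarith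
    · exact Int.natCast_nonneg n
  unfold Hs
  rw [Finset.card_erase_of_mem h0, Int.card_Icc]
  omega

theorem mem_Hs (n : ℕ) (h : ℤ) : h ∈ Hs n ↔ h ≠ 0 ∧ -(n : ℤ) ≤ h ∧ h ≤ n := by
  unfold Hs
  rw [Finset.mem_erase, Finset.mem_Icc]

theorem card_dvd (A d : ℕ) (hd : 1 ≤ d) :
    ((Hs A).filter (fun h : ℤ => (d : ℤ) ∣ h)).card ≤ 2 * (A / d) := by
  classical
  rw [← card_Hs (A / d)]
  have hd0 : (0 : ℤ) < (d : ℤ) := by exact_mod_cast hd
  refine Finset.card_le_card_of_injOn (fun h => h / (d : ℤ)) ?_ ?_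
  · intro h hh
    have hh' := Finset.mem_filter.mp hh
    obtain ⟨k, hk⟩ := hh'.2
    have hA := (mem_Hs A h).mp hh'.1
    show h / (d : ℤ) ∈ (Hs (A / d) : Finset ℤ)
    rw [mem_Hs]
    have hq : h / (d : ℤ) = k := by
      rw [hk]
      exact Int.mul_ediv_cancel_left k (ne_of_gt hd0)
    rw [hq]
    have hcast : ((A / d : ℕ) : ℤ) = (A : ℤ) / (d : ℤ) := by simp
    refine ⟨?_, ?_, ?_⟩
    · rintro rfl
      apply hA.1
      rw [hk]
      simp
    · have h3 : -k ≤ (A : ℤ) / (d : ℤ) := by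
        rw [Int.le_ediv_iff_mul_le hd0]
        have := hA.2.1
        rw [hk] at this
        nlinarith
      rw [hcast]
      linarith
    · rw [hcast, Int.le_ediv_iff_mul_le hd0]
      have := hA.2.2
      rw [hk] at this
      nlinarith
  · intro x hx y hy hxy
    have hx' := (Finset.mem_filter.mp hx).2
    have hy' := (Finset.mem_filter.mp hy).2
    have h1 : x = (d : ℤ) * (x / (d : ℤ)) := (Int.mul_ediv_cancel' hx').symm
    have h2 : y = (d : ℤ) * (y / (d : ℤ)) := (Int.mul_ediv_cancel' hy').symm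
    have h3 : x / (d : ℤ) = y / (d : ℤ) := hxy
    rw [h1, h2, h3]

theorem thm' : StSUM := by
  intro c A hc
  classical
  have hstep : ∀ h ∈ Hs A, (Int.gcd h c : ℝ) ≤
      ∑ d ∈ c.divisors, (if (d : ℤ) ∣ h then (d : ℝ) else 0) := by
    intro h _
    have hmem : Int.gcd h c ∈ c.divisors := by
      rw [Nat.mem_divisors]
      refine ⟨?_, by omega⟩
      have : ((Int.gcd h c : ℕ) : ℤ) ∣ (c : ℤ) := Int.gcd_dvd_right _ _
      exact_mod_cast this
    have hdv : ((Int.gcd h c : ℕ) : ℤ) ∣ h := Int.gcd_dvd_left _ _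
    have h1 := Finset.single_le_sum (f := fun d : ℕ => (if (d : ℤ) ∣ h then (d : ℝ) else 0))
      (s := c.divisors) (fun d _ => by
        show (0 : ℝ) ≤ (if (d : ℤ) ∣ h then (d : ℝ) else 0)
        split_ifs
        · exact Nat.cast_nonneg d
        · exact le_refl _) hmem
    have h2 : (if ((Int.gcd h c : ℕ) : ℤ) ∣ h then ((Int.gcd h c : ℕ) : ℝ) else 0)
        = ((Int.gcd h c : ℕ) : ℝ) := if_pos hdv
    calc (Int.gcd h c : ℝ) = (if ((Int.gcd h c : ℕ) : ℤ) ∣ h then ((Int.gcd h c : ℕ) : ℝ) else 0) :=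
          h2.symm
      _ ≤ _ := h1
  calc ∑ h ∈ Hs A, (Int.gcd h c : ℝ)
      ≤ ∑ h ∈ Hs A, ∑ d ∈ c.divisors, (if (d : ℤ) ∣ h then (d : ℝ) else 0) :=
        Finset.sum_le_sum hstep
    _ = ∑ d ∈ c.divisors, ∑ h ∈ Hs A, (if (d : ℤ) ∣ h then (d : ℝ) else 0) := Finset.sum_comm
    _ ≤ ∑ d ∈ c.divisors, (2 * A : ℝ) := by
        refine Finset.sum_le_sum (fun d hd => ?_)
        have hd1 : 1 ≤ d := Nat.pos_of_mem_divisors hd
        rw [← Finset.sum_filter, Finset.sum_const, nsmul_eq_mul]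
        have h1 := card_dvd A d hd1
        have h2 : ((Hs A).filter (fun h : ℤ => (d : ℤ) ∣ h)).card * d ≤ 2 * A := by
          calc ((Hs A).filter (fun h : ℤ => (d : ℤ) ∣ h)).card * d ≤ (2 * (A / d)) * d :=
                Nat.mul_le_mul_right d h1
            _ = 2 * (A / d * d) := by ring
            _ ≤ 2 * A := Nat.mul_le_mul_left 2 (Nat.div_mul_le_self A d)
        exact_mod_cast h2
    _ = 2 * A * τ c := by
        rw [Finset.sum_const, nsmul_eq_mul]
        unfold Pool.Agent.Helper56.SW.τ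
        ring

end Pool.Agent.Helper28.SP.MINK
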