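import Pool.Agent.Helper28.SP.St
import Pool.Agent.Helper56.SW.M_AP
import Pool.Agent.Helper56.SW.M_Fac

/-! # MP_e188f1_nt, spectral range, module EN -/

set_option autoImplicit false

namespace Pool.Agent.Helper28.SP.EN

open Finset Matrix
open Pool.Agent.Helper28.SP
open Pool.Agent.Helper56.SW (τ I stAP stMul stFac mem_I card_I)

/-- counting a filtered product by its first coordinate -/
theorem cfp {α β : Type} (A : Finset α) (B : Finset β) (P : α × β → Prop) [DecidablePred P] :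
    ((A ×ˢ B).filter P).card = ∑ a ∈ A, (B.filter fun b => P (a, b)).card := by
  rw [Finset.card_filter, Finset.sum_product]
  exact Finset.sum_congr rfl fun a _ => (Finset.card_filter _ _).symm

/-- counting a filtered product by its second coordinate -/
theorem cfp' {α β : Type} (A : Finset α) (B : Finset β) (P : α × β → Prop) [DecidablePred P] :
    ((A ×ˢ B).filter P).card = ∑ b ∈ B, (A.filter fun a => P (a, b)).card := by
  rw [Finset.card_filter, Finset.sum_product_right]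
  exact Finset.sum_congr rfl fun a _ => (Finset.card_filter _ _).symm

/-- the coprimality step -/
theorem dvd_cls (d : ℕ) (hd : 1 ≤ d) (u t : ℤ) (h : (d : ℤ) ∣ u * t) :
    ((d / Int.gcd u d : ℕ) : ℤ) ∣ t := by
  have hg : 0 < Int.gcd u d := by
    apply Nat.pos_of_ne_zero
    intro h0
    rw [Int.gcd_eq_zero_iff] at h0
    have : (d : ℤ) = 0 := h0.2
    omega
  obtain ⟨e, he⟩ : Int.gcd u d ∣ d := by
    have := Int.gcd_dvd_right u (d : ℤ)
    exact_mod_cast this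
  obtain ⟨v, hv⟩ : ((Int.gcd u d : ℕ) : ℤ) ∣ u := Int.gcd_dvd_left u (d : ℤ)
  have hq : d / Int.gcd u d = e := Nat.div_eq_of_eq_mul_right hg he
  rw [hq]
  have hc : IsCoprime (e : ℤ) v := by
    have h1 : Int.gcd (u / (Int.gcd u d : ℤ)) ((d : ℤ) / (Int.gcd u d : ℤ)) = 1 :=
      Int.gcd_ediv_gcd_ediv_gcd hg
    have hg' : ((Int.gcd u d : ℕ) : ℤ) ≠ 0 := by exact_mod_cast hg.ne'
    have h2 : u / (Int.gcd u d : ℤ) = v := Int.ediv_eq_of_eq_mul_right hg' hv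
    have h3 : (d : ℤ) / (Int.gcd u d : ℤ) = e :=
      Int.ediv_eq_of_eq_mul_right hg' (by exact_mod_cast he)
    rw [h2, h3] at h1
    exact (Int.isCoprime_iff_gcd_eq_one.2 h1).symm
  apply hc.dvd_of_dvd_mul_left
  have hg' : ((Int.gcd u d : ℕ) : ℤ) ≠ 0 := by exact_mod_cast hg.ne'
  apply Int.dvd_of_mul_dvd_mul_left hg'
  have h4 : ((Int.gcd u d : ℕ) : ℤ) * e = d := by exact_mod_cast he.symm
  rw [h4]
  have h5 : ((Int.gcd u d : ℕ) : ℤ) * (v * t) = u * t := by rw [← mul_assoc, ← hv]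
  rw [h5]
  exact h

/-- subtracting one solution -/
theorem sub_sol (c : ℕ) (A B C i j : ℤ) (n : ℕ) :
    ((Iv i n ×ˢ Iv j n).filter fun p => (c : ℤ) ∣ A * p.1 - B * p.2 + C).card ≤
      ((I (n - 1) ×ˢ I (n - 1)).filter fun p => (c : ℤ) ∣ A * p.1 - B * p.2).card := by
  rcases ((Iv i n ×ˢ Iv j n).filter fun p => (c : ℤ) ∣ A * p.1 - B * p.2 + C).eq_empty_or_nonempty
    with hE | ⟨q, hq⟩
  · rw [hE, Finset.card_empty]
    exact Nat.zero_le _
  · rw [Finset.mem_filter, Finset.mem_product] at hq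
    apply Finset.card_le_card_of_injOn (fun p : ℤ × ℤ => (p.1 - q.1, p.2 - q.2))
    · intro p hp
      have hp' : p ∈ (Iv i n ×ˢ Iv j n).filter fun p => (c : ℤ) ∣ A * p.1 - B * p.2 + C := hp
      rw [Finset.mem_filter, Finset.mem_product] at hp'
      have h1 := hp'.1.1
      have h2 := hp'.1.2
      have h3 := hq.1.1
      have h4 := hq.1.2
      unfold Iv at h1 h2 h3 h4
      rw [Finset.mem_Ico] at h1 h2 h3 h4
      have hn : 1 ≤ n := by
        by_contra h0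
        have : n = 0 := by omega
        subst this
        have := h1.1
        have := h1.2
        push_cast at *
        omega
      have hn' : ((n - 1 : ℕ) : ℤ) = (n : ℤ) - 1 := by
        rw [Nat.cast_sub hn, Nat.cast_one]
      show (p.1 - q.1, p.2 - q.2) ∈ (((I (n - 1) ×ˢ I (n - 1)).filter
        fun p => (c : ℤ) ∣ A * p.1 - B * p.2 : Finset (ℤ × ℤ)) : Set (ℤ × ℤ))
      rw [Finset.mem_coe, Finset.mem_filter, Finset.mem_product]
      refine ⟨⟨?_, ?_⟩, ?_⟩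
      · show p.1 - q.1 ∈ I (n - 1)
        rw [mem_I, hn', abs_le]
        constructor <;> linarith [h1.1, h1.2, h3.1, h3.2, Int.add_one_le_iff.2 h1.2,
          Int.add_one_le_iff.2 h3.2]
      · show p.2 - q.2 ∈ I (n - 1)
        rw [mem_I, hn', abs_le]
        constructor <;> linarith [h2.1, h2.2, h4.1, h4.2, Int.add_one_le_iff.2 h2.2,
          Int.add_one_le_iff.2 h4.2]
      · show (c : ℤ) ∣ A * (p.1 - q.1) - B * (p.2 - q.2)
        have h5 := dvd_sub hp'.2 hq.2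
        have e : A * p.1 - B * p.2 + C - (A * q.1 - B * q.2 + C) =
            A * (p.1 - q.1) - B * (p.2 - q.2) := by ring
        rwa [e] at h5
    · intro p _ p' _ h
      have h' : (p.1 - q.1, p.2 - q.2) = (p'.1 - q.1, p'.2 - q.2) := h
      rw [Prod.mk.injEq] at h'
      exact Prod.ext (by linarith [h'.1]) (by linarith [h'.2])

/-- the first reduction -/
theorem red1 (c : ℕ) (α β γ δ i1 i2 : ℤ) (n : ℕ) :
    (((Iv i1 n ×ˢ Iv i2 n) ×ˢ (Iv i1 n ×ˢ Iv i2 n)).filter fun p =>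
      (c : ℤ) ∣ (δ + β * p.1.1 + γ * p.1.2 + α * p.1.1 * p.1.2) -
        (δ + β * p.2.1 + γ * p.2.2 + α * p.2.1 * p.2.2)).card ≤
    (((I (n - 1) ×ˢ I (n - 1)) ×ˢ (I (n - 1) ×ˢ I (n - 1))).filter fun p =>
      (c : ℤ) ∣ α * (p.1.1 * p.1.2 - p.2.1 * p.2.2)).card := by
  calc _ ≤ (((Iv i1 n ×ˢ Iv i1 n) ×ˢ (Iv i2 n ×ˢ Iv i2 n)).filter fun p =>
      (c : ℤ) ∣ (α * p.1.1 + γ) * p.2.1 - (α * p.1.2 + γ) * p.2.2 +
        β * (p.1.1 - p.1.2)).card := by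
        apply Finset.card_le_card_of_injOn
          (fun p : (ℤ × ℤ) × (ℤ × ℤ) => ((p.1.1, p.2.1), (p.1.2, p.2.2)))
        · intro p hp
          have hp' := Finset.mem_coe.1 hp
          rw [Finset.mem_filter, Finset.mem_product, Finset.mem_product,
            Finset.mem_product] at hp'
          rw [Finset.mem_coe, Finset.mem_filter, Finset.mem_product, Finset.mem_product,
            Finset.mem_product]
          refine ⟨⟨⟨hp'.1.1.1, hp'.1.2.1⟩, ⟨hp'.1.1.2, hp'.1.2.2⟩⟩, ?_⟩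
          have h5 := hp'.2
          have e : (δ + β * p.1.1 + γ * p.1.2 + α * p.1.1 * p.1.2) -
              (δ + β * p.2.1 + γ * p.2.2 + α * p.2.1 * p.2.2) =
              (α * p.1.1 + γ) * p.1.2 - (α * p.2.1 + γ) * p.2.2 + β * (p.1.1 - p.2.1) := by ring
          rwa [e] at h5
        · intro p _ p' _ h
          have h' : ((p.1.1, p.2.1), (p.1.2, p.2.2)) = ((p'.1.1, p'.2.1), (p'.1.2, p'.2.2)) := h
          rw [Prod.mk.injEq, Prod.mk.injEq, Prod.mk.injEq] at h'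
          exact Prod.ext (Prod.ext h'.1.1 h'.2.1) (Prod.ext h'.1.2 h'.2.2)
    _ ≤ (((Iv i1 n ×ˢ Iv i1 n) ×ˢ (I (n - 1) ×ˢ I (n - 1))).filter fun p =>
      (c : ℤ) ∣ (α * p.1.1 + γ) * p.2.1 - (α * p.1.2 + γ) * p.2.2).card := by
        rw [cfp, cfp]
        apply Finset.sum_le_sum
        intro p _
        exact sub_sol c (α * p.1 + γ) (α * p.2 + γ) (β * (p.1 - p.2)) i2 i2 n
    _ ≤ (((I (n - 1) ×ˢ I (n - 1)) ×ˢ (I (n - 1) ×ˢ I (n - 1))).filter fun p =>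
      (c : ℤ) ∣ (α * p.2.1) * p.1.1 - (α * p.2.2) * p.1.2).card := by
        rw [cfp', cfp']
        apply Finset.sum_le_sum
        intro q _
        refine le_trans (Finset.card_le_card ?_)
          (sub_sol c (α * q.1) (α * q.2) (γ * (q.1 - q.2)) i1 i1 n)
        intro p hp
        rw [Finset.mem_filter] at hp ⊢
        refine ⟨hp.1, ?_⟩
        have h5 := hp.2
        have e : (α * p.1 + γ) * q.1 - (α * p.2 + γ) * q.2 =
            α * q.1 * p.1 - α * q.2 * p.2 + γ * (q.1 - q.2) := by ring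
        have h6 : (c : ℤ) ∣ (α * p.1 + γ) * q.1 - (α * p.2 + γ) * q.2 := h5
        rw [e] at h6
        exact h6
    _ ≤ _ := by
        apply Finset.card_le_card_of_injOn
          (fun p : (ℤ × ℤ) × (ℤ × ℤ) => ((p.1.1, p.2.1), (p.1.2, p.2.2)))
        · intro p hp
          have hp' := Finset.mem_coe.1 hp
          rw [Finset.mem_filter, Finset.mem_product, Finset.mem_product,
            Finset.mem_product] at hp'
          rw [Finset.mem_coe, Finset.mem_filter, Finset.mem_product, Finset.mem_product,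
            Finset.mem_product]
          refine ⟨⟨⟨hp'.1.1.1, hp'.1.2.1⟩, ⟨hp'.1.1.2, hp'.1.2.2⟩⟩, ?_⟩
          have h5 := hp'.2
          have e : (α * p.2.1) * p.1.1 - (α * p.2.2) * p.1.2 =
              α * (p.1.1 * p.2.1 - p.1.2 * p.2.2) := by ring
          rwa [e] at h5
        · intro p _ p' _ h
          have h' : ((p.1.1, p.2.1), (p.1.2, p.2.2)) = ((p'.1.1, p'.2.1), (p'.1.2, p'.2.2)) := h
          rw [Prod.mk.injEq, Prod.mk.injEq, Prod.mk.injEq] at h'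
          exact Prod.ext (Prod.ext h'.1.1 h'.2.1) (Prod.ext h'.1.2 h'.2.2)

/-- pairs with product zero -/
theorem prod_zero (n : ℕ) (hn : 1 ≤ n) :
    (((I (n - 1) ×ˢ I (n - 1)).filter fun p => p.1 * p.2 = 0).card : ℝ) ≤ 4 * n := by
  have h1 : ((I (n - 1) ×ˢ I (n - 1)).filter fun p => p.1 * p.2 = 0) ⊆
      (({0} : Finset ℤ) ×ˢ I (n - 1)) ∪ (I (n - 1) ×ˢ ({0} : Finset ℤ)) := by
    intro p hp
    rw [Finset.mem_filter, Finset.mem_product] at hp
    rw [Finset.mem_union, Finset.mem_product, Finset.mem_product, Finset.mem_singleton,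
      Finset.mem_singleton]
    rcases mul_eq_zero.1 hp.2 with h | h
    · exact Or.inl ⟨h, hp.1.2⟩
    · exact Or.inr ⟨hp.1.1, h⟩
  have h2 := (Finset.card_le_card h1).trans (Finset.card_union_le _ _)
  rw [Finset.card_product, Finset.card_product, Finset.card_singleton, card_I] at h2
  have h3 : ((I (n - 1) ×ˢ I (n - 1)).filter fun p => p.1 * p.2 = 0).card ≤ 4 * n := by omega
  exact_mod_cast h3

/-- the divisor bound for products in a set of nonzero integers -/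
theorem fac (n : ℕ) (hn : 1 ≤ n) (D : ℝ) (hD : ∀ j : ℕ, 1 ≤ j → j ≤ n ^ 2 → τ j ≤ D)
    (S : Finset ℤ) (hS : ∀ w ∈ S, w ≠ 0 ∧ w ∈ I (n ^ 2)) :
    (((I (n - 1) ×ˢ I (n - 1)).filter fun p => p.1 * p.2 ∈ S).card : ℝ) ≤ S.card * (2 * D) := by
  refine (stFac (n - 1) (n - 1) D S ?_).1
  intro j hj
  refine ⟨(hS j hj).1, hD _ (Int.natAbs_pos.2 (hS j hj).1) ?_⟩
  have h1 := (hS j hj).2
  rw [mem_I] at h1
  have h2 : ((j.natAbs : ℕ) : ℤ) ≤ ((n ^ 2 : ℕ) : ℤ) := by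
    rw [Int.natCast_natAbs]
    exact h1
  exact_mod_cast h2

theorem prod_mem (n : ℕ) (hn : 1 ≤ n) {s u : ℤ} (hs : s ∈ I (n - 1)) (hu : u ∈ I (n - 1)) :
    s * u ∈ I (n ^ 2) := by
  rw [mem_I] at hs hu ⊢
  rw [abs_mul]
  have h0 : ((n - 1 : ℕ) : ℤ) ≤ n := by
    have : n - 1 ≤ n := Nat.sub_le _ _
    exact_mod_cast this
  have h1 : |s| ≤ n := hs.trans h0
  have h2 : |u| ≤ n := hu.trans h0
  push_cast
  nlinarith [abs_nonneg s, abs_nonneg u]

/-- the count modulo `c₁` -/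
theorem count (c1 : ℕ) (hc : 1 ≤ c1) (n : ℕ) (hn : 1 ≤ n) (D : ℝ)
    (hD : ∀ j : ℕ, 1 ≤ j → j ≤ n ^ 2 → τ j ≤ D) :
    ((((I (n - 1) ×ˢ I (n - 1)) ×ˢ (I (n - 1) ×ˢ I (n - 1))).filter fun p =>
      (c1 : ℤ) ∣ p.1.1 * p.1.2 - p.2.1 * p.2.2).card : ℝ) ≤
      32 * D * ((n : ℝ) ^ 4 / c1 + (n : ℝ) ^ 2) := by
  have hD1 : 1 ≤ D := by
    have h := hD 1 le_rfl (Nat.one_le_pow _ _ hn)
    have h2 : τ 1 = 1 := by unfold τ; simp
    linarith
  have hcr : (0 : ℝ) < c1 := by exact_mod_cast hc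
  have hnr : (1 : ℝ) ≤ n := by exact_mod_cast hn
  -- the pairs `(t, v)` with `c1 ∣ t v`
  have hz : (((I (n - 1) ×ˢ I (n - 1)).filter fun q => (c1 : ℤ) ∣ q.1 * q.2).card : ℝ) ≤
      4 * n + (2 * (n : ℝ) ^ 2 / c1) * (2 * D) := by
    set S : Finset ℤ := (I (n ^ 2)).filter fun w => w ≠ 0 ∧ (c1 : ℤ) ∣ w with hS
    have h1 : ((I (n - 1) ×ˢ I (n - 1)).filter fun q => (c1 : ℤ) ∣ q.1 * q.2) ⊆
        ((I (n - 1) ×ˢ I (n - 1)).filter fun p => p.1 * p.2 = 0) ∪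
        ((I (n - 1) ×ˢ I (n - 1)).filter fun p => p.1 * p.2 ∈ S) := by
      intro p hp
      rw [Finset.mem_filter] at hp
      rw [Finset.mem_union, Finset.mem_filter, Finset.mem_filter]
      by_cases h0 : p.1 * p.2 = 0
      · exact Or.inl ⟨hp.1, h0⟩
      · refine Or.inr ⟨hp.1, ?_⟩
        rw [hS, Finset.mem_filter]
        have hp1 := Finset.mem_product.1 hp.1
        exact ⟨prod_mem n hn hp1.1 hp1.2, h0, hp.2⟩
    have h2 := (Finset.card_le_card h1).trans (Finset.card_union_le _ _)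
    have h3 := prod_zero n hn
    have h4 := fac n hn D hD S (fun w hw => by
      rw [hS, Finset.mem_filter] at hw
      exact ⟨hw.2.1, hw.1⟩)
    have h5 : (S.card : ℝ) ≤ 2 * (n ^ 2 : ℕ) / c1 := by
      refine stMul (n ^ 2) c1 S hc (Finset.filter_subset _ _) ?_
      intro x hx
      rw [hS, Finset.mem_filter] at hx
      exact hx.2
    have h2' : (((I (n - 1) ×ˢ I (n - 1)).filter fun q => (c1 : ℤ) ∣ q.1 * q.2).card : ℝ) ≤
        (((I (n - 1) ×ˢ I (n - 1)).filter fun p => p.1 * p.2 = 0).card : ℝ) +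
        (((I (n - 1) ×ˢ I (n - 1)).filter fun p => p.1 * p.2 ∈ S).card : ℝ) := by
      exact_mod_cast h2
    have h6 : (S.card : ℝ) * (2 * D) ≤ (2 * (n : ℝ) ^ 2 / c1) * (2 * D) := by
      apply mul_le_mul_of_nonneg_right _ (by linarith)
      push_cast at h5
      exact h5
    linarith
  -- the pairs `(s, u)` with `s u ≠ 0` for given `(t, v)`
  have hnz : ∀ q : ℤ × ℤ, (((I (n - 1) ×ˢ I (n - 1)).filter fun p =>
      (c1 : ℤ) ∣ p.1 * p.2 - q.1 * q.2 ∧ p.1 * p.2 ≠ 0).card : ℝ) ≤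
      (2 * (n : ℝ) ^ 2 / c1 + 1) * (2 * D) := by
    intro q
    set S : Finset ℤ := (I (n ^ 2)).filter fun w => w ≠ 0 ∧ (c1 : ℤ) ∣ w - q.1 * q.2 with hS
    have h1 : ((I (n - 1) ×ˢ I (n - 1)).filter fun p =>
        (c1 : ℤ) ∣ p.1 * p.2 - q.1 * q.2 ∧ p.1 * p.2 ≠ 0) ⊆
        ((I (n - 1) ×ˢ I (n - 1)).filter fun p => p.1 * p.2 ∈ S) := by
      intro p hp
      rw [Finset.mem_filter] at hp ⊢
      refine ⟨hp.1, ?_⟩
      rw [hS, Finset.mem_filter]
      have hp1 := Finset.mem_product.1 hp.1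
      exact ⟨prod_mem n hn hp1.1 hp1.2, hp.2.2, hp.2.1⟩
    have h2 := Finset.card_le_card h1
    have h4 := fac n hn D hD S (fun w hw => by
      rw [hS, Finset.mem_filter] at hw
      exact ⟨hw.2.1, hw.1⟩)
    have h5 : (S.card : ℝ) ≤ 2 * (n ^ 2 : ℕ) / c1 + 1 := by
      refine stAP (n ^ 2) c1 S hc (Finset.filter_subset _ _) ?_
      intro x hx y hy
      rw [hS, Finset.mem_filter] at hx hy
      have h6 := dvd_sub hx.2.2 hy.2.2
      have e : x - q.1 * q.2 - (y - q.1 * q.2) = x - y := by ring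
      rwa [e] at h6
    have h2' : (((I (n - 1) ×ˢ I (n - 1)).filter fun p =>
        (c1 : ℤ) ∣ p.1 * p.2 - q.1 * q.2 ∧ p.1 * p.2 ≠ 0).card : ℝ) ≤
        (((I (n - 1) ×ˢ I (n - 1)).filter fun p => p.1 * p.2 ∈ S).card : ℝ) := by
      exact_mod_cast h2
    have h6 : (S.card : ℝ) * (2 * D) ≤ (2 * (n : ℝ) ^ 2 / c1 + 1) * (2 * D) := by
      apply mul_le_mul_of_nonneg_right _ (by linarith)
      push_cast at h5
      exact h5
    linarith
  -- the split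
  have hsplit : (((I (n - 1) ×ˢ I (n - 1)) ×ˢ (I (n - 1) ×ˢ I (n - 1))).filter fun p =>
      (c1 : ℤ) ∣ p.1.1 * p.1.2 - p.2.1 * p.2.2) ⊆
      (((I (n - 1) ×ˢ I (n - 1)) ×ˢ (I (n - 1) ×ˢ I (n - 1))).filter fun p =>
      (c1 : ℤ) ∣ p.1.1 * p.1.2 - p.2.1 * p.2.2 ∧ p.1.1 * p.1.2 ≠ 0) ∪
      (((I (n - 1) ×ˢ I (n - 1)).filter fun p => p.1 * p.2 = 0) ×ˢ
        ((I (n - 1) ×ˢ I (n - 1)).filter fun q => (c1 : ℤ) ∣ q.1 * q.2)) := by
    intro p hp
    rw [Finset.mem_filter] at hp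
    have hp1 := Finset.mem_product.1 hp.1
    rw [Finset.mem_union]
    by_cases h0 : p.1.1 * p.1.2 = 0
    · refine Or.inr (Finset.mem_product.2 ⟨Finset.mem_filter.2 ⟨hp1.1, h0⟩,
        Finset.mem_filter.2 ⟨hp1.2, ?_⟩⟩)
      have h3 := hp.2
      rw [h0, zero_sub, dvd_neg] at h3
      exact h3
    · exact Or.inl (Finset.mem_filter.2 ⟨hp.1, hp.2, h0⟩)
  have h1 := (Finset.card_le_card hsplit).trans (Finset.card_union_le _ _)
  rw [Finset.card_product] at h1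
  have h1' : ((((I (n - 1) ×ˢ I (n - 1)) ×ˢ (I (n - 1) ×ˢ I (n - 1))).filter fun p =>
      (c1 : ℤ) ∣ p.1.1 * p.1.2 - p.2.1 * p.2.2).card : ℝ) ≤
      ((((I (n - 1) ×ˢ I (n - 1)) ×ˢ (I (n - 1) ×ˢ I (n - 1))).filter fun p =>
      (c1 : ℤ) ∣ p.1.1 * p.1.2 - p.2.1 * p.2.2 ∧ p.1.1 * p.1.2 ≠ 0).card : ℝ) +
      (((I (n - 1) ×ˢ I (n - 1)).filter fun p => p.1 * p.2 = 0).card : ℝ) *
        (((I (n - 1) ×ˢ I (n - 1)).filter fun q => (c1 : ℤ) ∣ q.1 * q.2).card : ℝ) := by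
    exact_mod_cast h1
  have hcard : ((I (n - 1) ×ˢ I (n - 1)).card : ℝ) ≤ 4 * (n : ℝ) ^ 2 := by
    rw [Finset.card_product, card_I]
    have : 2 * (n - 1) + 1 ≤ 2 * n := by omega
    have h2 : (2 * (n - 1) + 1) * (2 * (n - 1) + 1) ≤ 4 * n ^ 2 := by nlinarith
    exact_mod_cast h2
  have hA : ((((I (n - 1) ×ˢ I (n - 1)) ×ˢ (I (n - 1) ×ˢ I (n - 1))).filter fun p =>
      (c1 : ℤ) ∣ p.1.1 * p.1.2 - p.2.1 * p.2.2 ∧ p.1.1 * p.1.2 ≠ 0).card : ℝ) ≤
      4 * (n : ℝ) ^ 2 * ((2 * (n : ℝ) ^ 2 / c1 + 1) * (2 * D)) := by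
    rw [cfp']
    push_cast
    calc _ ≤ ∑ _q ∈ I (n - 1) ×ˢ I (n - 1), (2 * (n : ℝ) ^ 2 / c1 + 1) * (2 * D) :=
          Finset.sum_le_sum fun q _ => hnz q
      _ = ((I (n - 1) ×ˢ I (n - 1)).card : ℝ) * ((2 * (n : ℝ) ^ 2 / c1 + 1) * (2 * D)) := by
          rw [Finset.sum_const, nsmul_eq_mul]
      _ ≤ _ := by
          apply mul_le_mul_of_nonneg_right hcard
          positivity
  have hB : (((I (n - 1) ×ˢ I (n - 1)).filter fun p => p.1 * p.2 = 0).card : ℝ) *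
        (((I (n - 1) ×ˢ I (n - 1)).filter fun q => (c1 : ℤ) ∣ q.1 * q.2).card : ℝ) ≤
      4 * n * (4 * n + (2 * (n : ℝ) ^ 2 / c1) * (2 * D)) :=
    mul_le_mul (prod_zero n hn) hz (by positivity) (by positivity)
  have hX : 0 ≤ (n : ℝ) ^ 2 / c1 := by positivity
  have e4 : (n : ℝ) ^ 4 / c1 = (n : ℝ) ^ 2 * ((n : ℝ) ^ 2 / c1) := by ring
  have e2 : 2 * (n : ℝ) ^ 2 / c1 = 2 * ((n : ℝ) ^ 2 / c1) := by ring
  rw [e2] at hA hB
  rw [e4]
  set X : ℝ := (n : ℝ) ^ 2 / c1 with hXd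
  have k1 : (n : ℝ) * X ≤ (n : ℝ) ^ 2 * X := by
    apply mul_le_mul_of_nonneg_right _ hX
    nlinarith
  have k2 : D * (n * X) ≤ D * ((n : ℝ) ^ 2 * X) := mul_le_mul_of_nonneg_left k1 (by linarith)
  have k3 : (n : ℝ) ^ 2 ≤ D * (n : ℝ) ^ 2 := by
    have : (0 : ℝ) ≤ (n : ℝ) ^ 2 := by positivity
    nlinarith
  nlinarith [h1', hA, hB, k2, k3]

theorem thm : StEN := by
  intro c a b h1 h2 h3 n i1 i2 D hc hac hbc hn hD
  set h : ℤ := h1 * h2 * h3 with hh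
  have hcz : (0 : ℤ) < c := by exact_mod_cast hc
  have hg : 0 < Int.gcd h c := by
    apply Nat.pos_of_ne_zero
    intro h0
    rw [Int.gcd_eq_zero_iff] at h0
    omega
  have hdv : Int.gcd h c ∣ c := by
    have := Int.gcd_dvd_right h (c : ℤ)
    exact_mod_cast this
  have hle : Int.gcd h c ≤ c := Nat.le_of_dvd hc hdv
  have hc1 : 1 ≤ c / Int.gcd h c := (Nat.one_le_div_iff hg).2 hle
  have hr := red1 c (a ^ 3 * b ^ 2 * h) (a * h1 * (a * h2) * b + a * h1 * (a * h3) * b)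
    ((a * h1 + a * h2) * (a * h3) * b) (a * h1 + a * h2 + a * h3) i1 i2 n
  have hE : En c a b h1 h2 h3 n i1 i2 ≤
      (((I (n - 1) ×ˢ I (n - 1)) ×ˢ (I (n - 1) ×ˢ I (n - 1))).filter fun p =>
      (c : ℤ) ∣ a ^ 3 * b ^ 2 * h * (p.1.1 * p.1.2 - p.2.1 * p.2.2)).card := by
    refine le_trans (le_of_eq ?_) hr
    unfold En
    congr 1
    apply Finset.filter_congr
    intro p _
    have e : ∀ k l : ℤ, m3 a b h1 h2 h3 k l =
        (a * h1 + a * h2 + a * h3) + (a * h1 * (a * h2) * b + a * h1 * (a * h3) * b) * k +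
        ((a * h1 + a * h2) * (a * h3) * b) * l + (a ^ 3 * b ^ 2 * h) * k * l := by
      intro k l
      unfold m3 W11 Xe
      rw [hh]
      ring
    rw [e, e]
  have hF : (((I (n - 1) ×ˢ I (n - 1)) ×ˢ (I (n - 1) ×ˢ I (n - 1))).filter fun p =>
      (c : ℤ) ∣ a ^ 3 * b ^ 2 * h * (p.1.1 * p.1.2 - p.2.1 * p.2.2)).card ≤
      (((I (n - 1) ×ˢ I (n - 1)) ×ˢ (I (n - 1) ×ˢ I (n - 1))).filter fun p =>
      ((c / Int.gcd h c : ℕ) : ℤ) ∣ p.1.1 * p.1.2 - p.2.1 * p.2.2).card := by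
    apply Finset.card_le_card
    intro p hp
    rw [Finset.mem_filter] at hp ⊢
    refine ⟨hp.1, dvd_cls c hc h _ ?_⟩
    have h4 := hp.2
    rw [mul_assoc] at h4
    have hcop : IsCoprime (c : ℤ) (a ^ 3 * b ^ 2) :=
      (IsCoprime.mul_left hac.pow_left hbc.pow_left).symm
    exact hcop.dvd_of_dvd_mul_left h4
  have hC := count (c / Int.gcd h c) hc1 n hn D hD
  have h5 : (En c a b h1 h2 h3 n i1 i2 : ℝ) ≤
      ((((I (n - 1) ×ˢ I (n - 1)) ×ˢ (I (n - 1) ×ˢ I (n - 1))).filter fun p =>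
      ((c / Int.gcd h c : ℕ) : ℤ) ∣ p.1.1 * p.1.2 - p.2.1 * p.2.2).card : ℝ) := by
    exact_mod_cast hE.trans hF
  refine (h5.trans hC).trans (le_of_eq ?_)
  have h6 : ((c / Int.gcd h c : ℕ) : ℝ) = (c : ℝ) / (Int.gcd h c : ℝ) := by
    rw [Nat.cast_div hdv (by exact_mod_cast hg.ne')]
  rw [h6]
  have hgr : (0 : ℝ) < (Int.gcd h c : ℝ) := by exact_mod_cast hg
  have hcr : (0 : ℝ) < (c : ℝ) := by exact_mod_cast hc
  field_simp

end Pool.Agent.Helper28.SP.EN
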