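import Pool.Agent.Helper28.SP.St
import Pool.Agent.Helper56.SW.Final

set_option autoImplicit false

namespace Pool.Agent.Helper28.SP.FIN

open Finset Matrix Pool.Agent.Helper28.SP
open Pool.Agent.Helper56.SW (τ Γ J I bx E Rel N N0 Nq)

theorem key (r k : ℕ) (T t : ℝ) (hk : 1 ≤ k) (hT : 0 ≤ T) (ht : 0 ≤ t)
    (h : T ≤ 2 ^ (k + 3) * t ^ k) : T ^ ((r : ℝ) / k) ≤ 16 ^ r * t ^ r := by
  have hk0 : (0 : ℝ) < k := by exact_mod_cast hk
  have h1 : T ≤ (16 * t) ^ k := by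
    rw [mul_pow]
    refine h.trans (mul_le_mul_of_nonneg_right ?_ (pow_nonneg ht k))
    have : (16 : ℝ) ^ k = 2 ^ (4 * k) := by
      rw [pow_mul]; norm_num
    rw [this]
    exact pow_le_pow_right₀ (by norm_num) (by omega)
  have h16 : 0 ≤ 16 * t := by positivity
  calc T ^ ((r : ℝ) / k) ≤ ((16 * t) ^ k) ^ ((r : ℝ) / k) :=
        Real.rpow_le_rpow hT h1 (by positivity)
    _ = (16 * t) ^ (r : ℝ) := by
        rw [← Real.rpow_natCast (16 * t) k, ← Real.rpow_mul h16]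
        congr 1
        field_simp
    _ = 16 ^ r * t ^ r := by rw [Real.rpow_natCast, mul_pow]

theorem floor_half (x : ℝ) (hx : 1 ≤ x) : x / 2 ≤ (⌊x⌋₊ : ℝ) := by
  have h1 : x < ⌊x⌋₊ + 1 := Nat.lt_floor_add_one x
  have h2 : (1 : ℝ) ≤ ⌊x⌋₊ := by
    have : 1 ≤ ⌊x⌋₊ := Nat.le_floor (by simpa using hx)
    exact_mod_cast this
  linarith

/-- combining the constants -/
theorem comb (r : ℕ) (M c e A B H₁ H₂ t T1 N : ℝ) (hM : 0 ≤ M) (hc : 0 < c) (he : 0 ≤ e)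
    (hA : 0 ≤ A) (hB : 0 ≤ B) (hA1 : A ≤ H₁) (hB2 : B ≤ H₂) (ht : 0 ≤ t)
    (hT : T1 ≤ 16 ^ r * t ^ r) (hN : N ≤ M * e * (B ^ (r - 1) + (A * B) ^ r / c ^ 3 * (1 + c * T1)))
    (hT0 : 0 ≤ T1) :
    N ≤ M * 16 ^ r * e * (H₂ ^ (r - 1) + (H₁ * H₂) ^ r / c ^ 3 * (1 + c * t ^ r)) := by
  have h16 : (1 : ℝ) ≤ 16 ^ r := one_le_pow₀ (by norm_num)
  have hH1 : 0 ≤ H₁ := hA.trans hA1
  have hH2 : 0 ≤ H₂ := hB.trans hB2
  have g1 : B ^ (r - 1) ≤ 16 ^ r * H₂ ^ (r - 1) :=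
    (pow_le_pow_left₀ hB hB2 _).trans (le_mul_of_one_le_left (by positivity) h16)
  have g2 : (A * B) ^ r / c ^ 3 ≤ (H₁ * H₂) ^ r / c ^ 3 :=
    div_le_div_of_nonneg_right (pow_le_pow_left₀ (by positivity) (mul_le_mul hA1 hB2 hB hH1) _)
      (by positivity)
  have g3 : 1 + c * T1 ≤ 16 ^ r * (1 + c * t ^ r) := by
    have : c * T1 ≤ c * (16 ^ r * t ^ r) := mul_le_mul_of_nonneg_left hT hc.le
    nlinarith
  have g4 : (A * B) ^ r / c ^ 3 * (1 + c * T1) ≤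
      (H₁ * H₂) ^ r / c ^ 3 * (16 ^ r * (1 + c * t ^ r)) :=
    mul_le_mul g2 g3 (by positivity) (by positivity)
  calc N ≤ M * e * (B ^ (r - 1) + (A * B) ^ r / c ^ 3 * (1 + c * T1)) := hN
    _ ≤ M * e * (16 ^ r * H₂ ^ (r - 1) + (H₁ * H₂) ^ r / c ^ 3 * (16 ^ r * (1 + c * t ^ r))) :=
        mul_le_mul_of_nonneg_left (add_le_add g1 g4) (by positivity)
    _ = _ := by ring

theorem thm (h1 : StREC) (h2 : StMP) : StFIN := by
  intro r K ε hr hK hε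
  obtain ⟨C1, hC1, hR⟩ := h1 r K ε hK hε
  have hP : ∀ k : ℕ, ∃ C : ℝ, 0 < C ∧ (3 ≤ k → k ≤ r →
      ∀ (c : ℕ) (a b : ℤ) (A B : ℕ), 1 ≤ c → IsCoprime a c → IsCoprime b c → 1 ≤ A → A ≤ B →
      (B : ℝ) ≤ K * c →
      (N c a b r A B : ℝ) ≤ C * (c : ℝ) ^ ε * (((A : ℝ) * B) ^ r / (c : ℝ) ^ 3 *
        (1 + c * ((c : ℝ) ^ 2 / ((A : ℝ) ^ k * B) + c / (B : ℝ) ^ 2 +
          (c : ℝ) ^ 2 / ((A : ℝ) * (B : ℝ) ^ 3)) ^ ((r : ℝ) / k)))) := by
    intro k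
    by_cases hk : 3 ≤ k ∧ k ≤ r
    · obtain ⟨C, hC, h⟩ := h2 k r K ε hk.1 hk.2 hK hε
      exact ⟨C, hC, fun _ _ => h⟩
    · exact ⟨1, one_pos, fun a b => absurd ⟨a, b⟩ hk⟩
  choose f hf0 hf using hP
  set M : ℝ := C1 + ∑ k ∈ range (r + 1), f k with hM
  have hsum0 : 0 ≤ ∑ k ∈ range (r + 1), f k := sum_nonneg fun k _ => (hf0 k).le
  have hM0 : 0 < M := by linarith
  have hC1M : C1 ≤ M := by linarith
  have hfM : ∀ k ≤ r, f k ≤ M := by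
    intro k hk
    have : f k ≤ ∑ k ∈ range (r + 1), f k :=
      single_le_sum (f := f) (fun i _ => (hf0 i).le) (mem_range.2 (by omega))
    linarith
  refine ⟨M * 16 ^ r, by positivity, ?_⟩
  intro c a₁ a₂ H₁ H₂ hc hH1 hH12 hH2K t ht hAdm
  obtain ⟨a, b, ha, hb, hN⟩ := Pool.Agent.Helper56.SW.stTr r c a₁ a₂ H₁ H₂ hc hH1 hH12
  rw [hN]
  set A := ⌊H₁⌋₊ with hA
  set B := ⌊H₂⌋₊ with hB
  have hH2 : 1 ≤ H₂ := hH1.trans hH12
  have hc0 : (0 : ℝ) < c := by exact_mod_cast hc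
  have hA1 : 1 ≤ A := Nat.le_floor (by simpa using hH1)
  have hAB : A ≤ B := Nat.floor_le_floor hH12
  have hAle : (A : ℝ) ≤ H₁ := Nat.floor_le (by linarith)
  have hBle : (B : ℝ) ≤ H₂ := Nat.floor_le (by linarith)
  have hAhalf : H₁ / 2 ≤ (A : ℝ) := floor_half H₁ hH1
  have hBhalf : H₂ / 2 ≤ (B : ℝ) := floor_half H₂ hH2
  have hA0 : (0 : ℝ) < A := by linarith
  have hB0 : (0 : ℝ) < B := by linarith
  have hBK : (B : ℝ) ≤ K * c := hBle.trans hH2K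
  have he : (0 : ℝ) ≤ (c : ℝ) ^ ε := by positivity
  have hH10 : 0 < H₁ := by linarith
  have hH20 : 0 < H₂ := by linarith
  -- comparison of monomials
  have cmp : ∀ (p q : ℕ) (x : ℝ), 0 ≤ x →
      x / ((A : ℝ) ^ p * (B : ℝ) ^ q) ≤ 2 ^ (p + q) * (x / (H₁ ^ p * H₂ ^ q)) := by
    intro p q x hx
    have e1 : (H₁ / 2) ^ p * (H₂ / 2) ^ q ≤ (A : ℝ) ^ p * (B : ℝ) ^ q :=
      mul_le_mul (pow_le_pow_left₀ (by positivity) hAhalf _)
        (pow_le_pow_left₀ (by positivity) hBhalf _) (by positivity) (by positivity)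
    have e2 : x / ((A : ℝ) ^ p * (B : ℝ) ^ q) ≤ x / ((H₁ / 2) ^ p * (H₂ / 2) ^ q) :=
      div_le_div_of_nonneg_left hx (by positivity) e1
    refine e2.trans (le_of_eq ?_)
    rw [div_pow, div_pow, pow_add]
    field_simp
  obtain ⟨hR2, hR4, hR6⟩ := hR c a b A B hc ha hb hA1 hAB hBK
  have monoM : ∀ (C x : ℝ), C ≤ M → 0 ≤ x → C * (c : ℝ) ^ ε * x ≤ M * (c : ℝ) ^ ε * x := by
    intro C x h hx
    exact mul_le_mul_of_nonneg_right (mul_le_mul_of_nonneg_right h he) hx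
  rcases hAdm with ⟨hr2, hT⟩ | ⟨hr4, hT⟩ | ⟨hr6, hcH, hT⟩ | ⟨k, hk3, hkr, hT⟩
  · -- k = 2
    set T : ℝ := (c : ℝ) ^ 2 / ((A : ℝ) * (B : ℝ) ^ 2) with hTd
    have hT0 : 0 ≤ T := by positivity
    have hTle : T ≤ 2 ^ (2 + 3) * t ^ 2 := by
      have := cmp 1 2 ((c : ℝ) ^ 2) (by positivity)
      simp only [pow_one] at this
      rw [hTd]
      refine this.trans ?_
      have h3 : (2 : ℝ) ^ (1 + 2) * ((c : ℝ) ^ 2 / (H₁ * H₂ ^ 2)) ≤ 2 ^ (1 + 2) * t ^ 2 :=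
        mul_le_mul_of_nonneg_left hT (by positivity)
      have h4 : (0 : ℝ) ≤ t ^ 2 := by positivity
      norm_num at h3 ⊢
      linarith
    have hk := key r 2 T t (by norm_num) hT0 ht hTle
    have hcast : ((2 : ℕ) : ℝ) = 2 := by norm_num
    rw [hcast] at hk
    refine comb r M c _ A B H₁ H₂ t _ _ hM0.le hc0 he hA0.le hB0.le hAle hBle ht hk ?_
      (Real.rpow_nonneg hT0 _)
    exact (hR2 hr2).trans (monoM _ _ hC1M (by positivity))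
  · -- k = 4
    set T : ℝ := (c : ℝ) ^ 2 / (B : ℝ) ^ 3 with hTd
    have hT0 : 0 ≤ T := by positivity
    have hTle : T ≤ 2 ^ (4 + 3) * t ^ 4 := by
      have := cmp 0 3 ((c : ℝ) ^ 2) (by positivity)
      simp only [pow_zero, one_mul] at this
      rw [hTd]
      refine this.trans ?_
      have h3 : (2 : ℝ) ^ (0 + 3) * ((c : ℝ) ^ 2 / (H₂ ^ 3)) ≤ 2 ^ (0 + 3) * t ^ 4 :=
        mul_le_mul_of_nonneg_left hT (by positivity)
      have h4 : (0 : ℝ) ≤ t ^ 4 := by positivity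
      norm_num at h3 ⊢
      linarith
    have hk := key r 4 T t (by norm_num) hT0 ht hTle
    have hcast : ((4 : ℕ) : ℝ) = 4 := by norm_num
    rw [hcast] at hk
    refine comb r M c _ A B H₁ H₂ t _ _ hM0.le hc0 he hA0.le hB0.le hAle hBle ht hk ?_
      (Real.rpow_nonneg hT0 _)
    exact (hR4 hr4).trans (monoM _ _ hC1M (by positivity))
  · -- k = 6
    set T : ℝ := (c : ℝ) / (B : ℝ) ^ 2 with hTd
    have hT0 : 0 ≤ T := by positivity
    have hTle : T ≤ 2 ^ (6 + 3) * t ^ 6 := by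
      have := cmp 0 2 ((c : ℝ)) (by positivity)
      simp only [pow_zero, one_mul] at this
      rw [hTd]
      refine this.trans ?_
      have h3 : (2 : ℝ) ^ (0 + 2) * ((c : ℝ) / (H₂ ^ 2)) ≤ 2 ^ (0 + 2) * t ^ 6 :=
        mul_le_mul_of_nonneg_left hT (by positivity)
      have h4 : (0 : ℝ) ≤ t ^ 6 := by positivity
      norm_num at h3 ⊢
      linarith
    have hk := key r 6 T t (by norm_num) hT0 ht hTle
    have hcast : ((6 : ℕ) : ℝ) = 6 := by norm_num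
    rw [hcast] at hk
    have hc4 : (c : ℝ) ≤ 4 * (B : ℝ) ^ 2 := by
      have : (H₂ / 2) ^ 2 ≤ (B : ℝ) ^ 2 := pow_le_pow_left₀ (by positivity) hBhalf 2
      nlinarith
    refine comb r M c _ A B H₁ H₂ t _ _ hM0.le hc0 he hA0.le hB0.le hAle hBle ht hk ?_
      (Real.rpow_nonneg hT0 _)
    exact (hR6 hr6 hc4).trans (monoM _ _ hC1M (by positivity))
  · -- positive family
    set T : ℝ := (c : ℝ) ^ 2 / ((A : ℝ) ^ k * B) + c / (B : ℝ) ^ 2 +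
          (c : ℝ) ^ 2 / ((A : ℝ) * (B : ℝ) ^ 3) with hTd
    have hT0 : 0 ≤ T := by positivity
    have hTle : T ≤ 2 ^ (k + 3) * t ^ k := by
      have e1 := cmp k 1 ((c : ℝ) ^ 2) (by positivity)
      have e2 := cmp 0 2 ((c : ℝ)) (by positivity)
      have e3 := cmp 1 3 ((c : ℝ) ^ 2) (by positivity)
      simp only [pow_zero, one_mul, pow_one] at e1 e2 e3
      have b1 : (2 : ℝ) ^ (k + 1) ≤ 2 ^ (k + 3) := pow_le_pow_right₀ (by norm_num) (by omega)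
      have b2 : (2 : ℝ) ^ (0 + 2) ≤ 2 ^ (k + 3) := pow_le_pow_right₀ (by norm_num) (by omega)
      have b3 : (2 : ℝ) ^ (1 + 3) ≤ 2 ^ (k + 3) := pow_le_pow_right₀ (by norm_num) (by omega)
      have f1 := e1.trans (mul_le_mul_of_nonneg_right b1
        (by positivity : 0 ≤ (c : ℝ) ^ 2 / (H₁ ^ k * H₂)))
      have f2 := e2.trans (mul_le_mul_of_nonneg_right b2 (by positivity : 0 ≤ (c : ℝ) / H₂ ^ 2))
      have f3 := e3.trans (mul_le_mul_of_nonneg_right b3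
        (by positivity : 0 ≤ (c : ℝ) ^ 2 / (H₁ * H₂ ^ 3)))
      rw [hTd]
      calc (c : ℝ) ^ 2 / ((A : ℝ) ^ k * B) + c / (B : ℝ) ^ 2 +
          (c : ℝ) ^ 2 / ((A : ℝ) * (B : ℝ) ^ 3)
          ≤ 2 ^ (k + 3) * ((c : ℝ) ^ 2 / (H₁ ^ k * H₂)) + 2 ^ (k + 3) * ((c : ℝ) / H₂ ^ 2) +
            2 ^ (k + 3) * ((c : ℝ) ^ 2 / (H₁ * H₂ ^ 3)) := add_le_add (add_le_add f1 f2) f3
        _ = 2 ^ (k + 3) * ((c : ℝ) ^ 2 / (H₁ ^ k * H₂) + (c : ℝ) / H₂ ^ 2 +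
            (c : ℝ) ^ 2 / (H₁ * H₂ ^ 3)) := by ring
        _ ≤ _ := mul_le_mul_of_nonneg_left hT (by positivity)
    have hk := key r k T t (by omega) hT0 ht hTle
    refine comb r M c _ A B H₁ H₂ t _ _ hM0.le hc0 he hA0.le hB0.le hAle hBle ht hk ?_
      (Real.rpow_nonneg hT0 _)
    have hT1 : 0 ≤ T ^ ((r : ℝ) / k) := Real.rpow_nonneg hT0 _
    refine (hf k hk3 hkr c a b A B hc ha hb hA1 hAB hBK).trans ?_
    refine (monoM _ _ (hfM k hkr) (by positivity)).trans ?_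
    refine mul_le_mul_of_nonneg_left ?_ (by positivity)
    have : (0 : ℝ) ≤ (B : ℝ) ^ (r - 1) := by positivity
    linarith

/-- a nonnegative number whose `k`-th power is at most `M ≥ 1` is at most `M` -/
theorem le_of_pow (x M : ℝ) (k : ℕ) (hk : 1 ≤ k) (hM : 1 ≤ M) (h : x ^ k ≤ M) : x ≤ M := by
  by_contra hx
  have hx1 : 1 ≤ x := by linarith
  have : x ≤ x ^ k := le_self_pow₀ hx1 (by omega)
  linarith

theorem rt (T : ℝ) (hT : 0 ≤ T) (k r : ℕ) (hk : 1 ≤ k) :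
    (T ^ ((1 : ℝ) / k)) ^ k = T ∧ ((T ^ ((1 : ℝ) / k)) ^ r) ^ k = T ^ r := by
  have h1 : (T ^ ((1 : ℝ) / k)) ^ k = T := by
    rw [one_div]
    exact Real.rpow_inv_natCast_pow hT (by omega)
  refine ⟨h1, ?_⟩
  rw [← pow_mul, mul_comm, pow_mul, h1]

theorem thm' (h : StFIN) : StQ1 := by
  intro r K ε hr hK hε
  obtain ⟨C, hC, hF⟩ := h r K ε hr hK hε
  refine ⟨C * (1 + 3 ^ (r + 1)), by positivity, ?_⟩
  intro c a₁ a₂ H₁ H₂ hc hH1 hH12 hH2K hRange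
  have hF' := hF c a₁ a₂ H₁ H₂ hc hH1 hH12 hH2K
  have hc1 : (1 : ℝ) ≤ c := by exact_mod_cast hc
  have hc0 : (0 : ℝ) < c := by linarith
  have hH10 : 0 < H₁ := by linarith
  have hH20 : 0 < H₂ := by linarith
  have h31 : (1 : ℝ) ≤ 3 ^ (r + 1) := one_le_pow₀ (by norm_num)
  -- it suffices to find an admissible t with c t^r ≤ 3^(r+1)
  suffices hs : ∃ t : ℝ, 0 ≤ t ∧ Adm r c H₁ H₂ t ∧ c * t ^ r ≤ 3 ^ (r + 1) by
    obtain ⟨t, ht, hA, hct⟩ := hs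
    refine (hF' t ht hA).trans ?_
    have g1 : (H₁ * H₂) ^ r / (c : ℝ) ^ 3 * (1 + c * t ^ r) ≤
        (H₁ * H₂) ^ r / (c : ℝ) ^ 3 * (1 + 3 ^ (r + 1)) :=
      mul_le_mul_of_nonneg_left (by linarith) (by positivity)
    have g2 : H₂ ^ (r - 1) ≤ H₂ ^ (r - 1) * (1 + 3 ^ (r + 1)) :=
      le_mul_of_one_le_right (by positivity) (by linarith)
    calc C * (c : ℝ) ^ ε * (H₂ ^ (r - 1) + (H₁ * H₂) ^ r / (c : ℝ) ^ 3 * (1 + c * t ^ r))
        ≤ C * (c : ℝ) ^ ε * (H₂ ^ (r - 1) * (1 + 3 ^ (r + 1)) +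
          (H₁ * H₂) ^ r / (c : ℝ) ^ 3 * (1 + 3 ^ (r + 1))) :=
          mul_le_mul_of_nonneg_left (add_le_add g2 g1) (by positivity)
      _ = _ := by ring
  rcases hRange with ⟨hr2, hT⟩ | ⟨hr4, hT⟩ | ⟨hr6, hT⟩ | ⟨k, hk3, hkr, hT1, hT2, hT3⟩
  · set T : ℝ := (c : ℝ) ^ 2 / (H₁ * H₂ ^ 2) with hTd
    have hT0 : 0 ≤ T := by positivity
    obtain ⟨e1, e2⟩ := rt T hT0 2 r (by norm_num)
    refine ⟨T ^ ((1 : ℝ) / (2 : ℕ)), Real.rpow_nonneg hT0 _, Or.inl ⟨hr2, e1.ge⟩, ?_⟩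
    refine le_of_pow _ _ 2 (by norm_num) h31 ?_
    rw [mul_pow, e2, hTd, div_pow, ← pow_mul]
    refine le_trans ?_ h31
    rw [← mul_div_assoc, div_le_one (by positivity), ← pow_add]
    refine le_trans (le_of_eq ?_) hT
    congr 1
    ring
  · set T : ℝ := (c : ℝ) ^ 2 / H₂ ^ 3 with hTd
    have hT0 : 0 ≤ T := by positivity
    obtain ⟨e1, e2⟩ := rt T hT0 4 r (by norm_num)
    refine ⟨T ^ ((1 : ℝ) / (4 : ℕ)), Real.rpow_nonneg hT0 _, Or.inr (Or.inl ⟨hr4, e1.ge⟩), ?_⟩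
    refine le_of_pow _ _ 4 (by norm_num) h31 ?_
    rw [mul_pow, e2, hTd, div_pow, ← pow_mul, ← pow_mul]
    refine le_trans ?_ h31
    rw [← mul_div_assoc, div_le_one (by positivity), ← pow_add]
    refine le_trans (le_of_eq ?_) hT
    congr 1
    ring
  · set T : ℝ := (c : ℝ) / H₂ ^ 2 with hTd
    have hT0 : 0 ≤ T := by positivity
    obtain ⟨e1, e2⟩ := rt T hT0 6 r (by norm_num)
    have hcH : (c : ℝ) ≤ H₂ ^ 2 := by
      have h5 : (c : ℝ) ^ r ≤ (H₂ ^ 2) ^ r := by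
        rw [← pow_mul]
        exact (pow_le_pow_right₀ hc1 (by omega)).trans hT
      exact le_of_pow_le_pow_left₀ (by omega) (by positivity) h5
    refine ⟨T ^ ((1 : ℝ) / (6 : ℕ)), Real.rpow_nonneg hT0 _,
      Or.inr (Or.inr (Or.inl ⟨hr6, hcH, e1.ge⟩)), ?_⟩
    refine le_of_pow _ _ 6 (by norm_num) h31 ?_
    rw [mul_pow, e2, hTd, div_pow, ← pow_mul]
    refine le_trans ?_ h31
    rw [← mul_div_assoc, div_le_one (by positivity), ← pow_add]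
    refine le_trans (le_of_eq ?_) hT
    congr 1
    ring
  · set T1 : ℝ := (c : ℝ) ^ 2 / (H₁ ^ k * H₂) with hTd1
    set T2 : ℝ := (c : ℝ) / H₂ ^ 2 with hTd2
    set T3 : ℝ := (c : ℝ) ^ 2 / (H₁ * H₂ ^ 3) with hTd3
    have p1 : 0 ≤ T1 := by positivity
    have p2 : 0 ≤ T2 := by positivity
    have p3 : 0 ≤ T3 := by positivity
    have hT0 : 0 ≤ T1 + T2 + T3 := by positivity
    obtain ⟨e1, e2⟩ := rt (T1 + T2 + T3) hT0 k r (by omega)
    refine ⟨(T1 + T2 + T3) ^ ((1 : ℝ) / k), Real.rpow_nonneg hT0 _,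
      Or.inr (Or.inr (Or.inr ⟨k, hk3, hkr, e1.ge⟩)), ?_⟩
    refine le_of_pow _ _ k (by omega) h31 ?_
    rw [mul_pow, e2]
    have q1 : (c : ℝ) ^ k * T1 ^ r ≤ 1 := by
      rw [hTd1, div_pow, ← pow_mul, ← mul_div_assoc, div_le_one (by positivity), ← pow_add]
      refine le_trans (le_of_eq ?_) hT2
      congr 1
      ring
    have q2 : (c : ℝ) ^ k * T2 ^ r ≤ 1 := by
      rw [hTd2, div_pow, ← pow_mul, ← mul_div_assoc, div_le_one (by positivity), ← pow_add]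
      refine le_trans (le_of_eq ?_) hT1
      congr 1
      ring
    have q3 : (c : ℝ) ^ k * T3 ^ r ≤ 1 := by
      rw [hTd3, div_pow, ← pow_mul, ← mul_div_assoc, div_le_one (by positivity), ← pow_add]
      refine le_trans (le_of_eq ?_) hT3
      congr 1
      ring
    have hmax : (T1 + T2 + T3) ^ r ≤ 3 ^ r * (T1 ^ r + T2 ^ r + T3 ^ r) := by
      have hb : ∀ m : ℝ, 0 ≤ m → T1 ≤ m → T2 ≤ m → T3 ≤ m → (T1 + T2 + T3) ^ r ≤ 3 ^ r * m ^ r := by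
        intro m _ h1 h2 h3
        rw [← mul_pow]
        exact pow_le_pow_left₀ hT0 (by linarith) r
      have r1 : 0 ≤ T1 ^ r := pow_nonneg p1 r
      have r2 : 0 ≤ T2 ^ r := pow_nonneg p2 r
      have r3 : 0 ≤ T3 ^ r := pow_nonneg p3 r
      have h3r : (0 : ℝ) < 3 ^ r := by positivity
      rcases le_total T1 T2 with h12 | h12
      · rcases le_total T2 T3 with h23 | h23
        · refine (hb T3 p3 (h12.trans h23) h23 le_rfl).trans ?_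
          exact mul_le_mul_of_nonneg_left (by linarith) h3r.le
        · refine (hb T2 p2 h12 le_rfl h23).trans ?_
          exact mul_le_mul_of_nonneg_left (by linarith) h3r.le
      · rcases le_total T1 T3 with h13 | h13
        · refine (hb T3 p3 h13 (h12.trans h13) le_rfl).trans ?_
          exact mul_le_mul_of_nonneg_left (by linarith) h3r.le
        · refine (hb T1 p1 le_rfl h12 h13).trans ?_
          exact mul_le_mul_of_nonneg_left (by linarith) h3r.le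
    calc (c : ℝ) ^ k * (T1 + T2 + T3) ^ r ≤ (c : ℝ) ^ k * (3 ^ r * (T1 ^ r + T2 ^ r + T3 ^ r)) :=
          mul_le_mul_of_nonneg_left hmax (by positivity)
      _ = 3 ^ r * ((c : ℝ) ^ k * T1 ^ r + (c : ℝ) ^ k * T2 ^ r + (c : ℝ) ^ k * T3 ^ r) := by ring
      _ ≤ 3 ^ r * (1 + 1 + 1) := mul_le_mul_of_nonneg_left (by linarith) (by positivity)
      _ = 3 ^ (r + 1) := by rw [pow_succ]; ring

end Pool.Agent.Helper28.SP.FIN
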