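import Pool.Agent.Helper28.SP.St
import Pool.Agent.Helper56.SW.Final

/-! # MP_e188f1_nt, spectral range, modules M2, M4, M6 -/

set_option autoImplicit false

namespace Pool.Agent.Helper28.SP.M2

open Pool.Agent.Helper28.SP
open Finset Matrix
open Pool.Agent.Helper56.SW (τ Γ N N0)

theorem exists_sc (hS : StSURJ) (c : ℕ) (hc : 1 ≤ c) :
    ∃ sc : ℕ → SZ, ∀ x ∈ Γ c, ((red c (sc x) : SG c) : Matrix (Fin 2) (Fin 2) (ZMod c)) =
      ((x : ℕ) : ZMod c) • 1 := by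
  classical
  have key : ∀ x : ℕ, ∃ g : SZ, x ∈ Γ c →
      ((red c g : SG c) : Matrix (Fin 2) (Fin 2) (ZMod c)) = ((x : ℕ) : ZMod c) • 1 := by
    intro x
    by_cases hx : x ∈ Γ c
    · have hdet : (((x : ℕ) : ZMod c) • (1 : Matrix (Fin 2) (Fin 2) (ZMod c))).det = 1 := by
        rw [Matrix.det_smul, Matrix.det_one, mul_one, Fintype.card_fin]
        have h1 := (mem_filter.1 hx).2
        have h2 : (((x : ℤ) ^ 2 - 1 : ℤ) : ZMod c) = 0 :=
          (ZMod.intCast_zmod_eq_zero_iff_dvd _ _).2 h1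
        push_cast at h2
        linear_combination h2
      obtain ⟨g, hg⟩ := hS c hc ⟨_, hdet⟩
      exact ⟨g, fun _ => by rw [hg]⟩
    · exact ⟨1, fun h => absurd h hx⟩
  choose sc hsc using key
  exact ⟨sc, hsc⟩

theorem tau_mono {e c : ℕ} (hc : 1 ≤ c) (h : e ∣ c) : τ e ≤ τ c := by
  unfold Pool.Agent.Helper56.SW.τ
  exact_mod_cast card_le_card (Nat.divisors_subset_of_dvd (by omega) h)

/-- the common estimate -/
theorem gen (hL : StLEVEL) (hSY : StSYM) (hN : StN0W) (hS : StSURJ) (k j : ℕ) (K ε : ℝ)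
    (hk : 1 ≤ k) (hke : Even k) (hkj : k ≤ j) (hK : 1 ≤ K) (hε : 0 < ε) :
    ∃ C : ℝ, 0 < C ∧ ∀ (c : ℕ) (a b : ℤ) (A B : ℕ) (s : ℝ), 1 ≤ c → 1 ≤ A → A ≤ B → 0 ≤ s →
      (∀ T : ℝ, 1 ≤ T → (∀ i : ℕ, 1 ≤ i → i ≤ c ^ 2 → τ i ≤ T) →
        ∃ t : ℝ, 0 ≤ t ∧ t ≤ K ^ 3 * s ∧ ∀ e ∈ c.divisors,
          (W (sM A B) (wM a b) e k 1 : ℝ) * (e : ℝ) ^ 2 ≤
            (65536 * T ^ 9) * (2 * A * (2 * (B : ℝ) + 1) ^ 2) ^ k * (1 / e + t)) →
      (N0 c a b j A B : ℝ) ≤ C * (c : ℝ) ^ ε * (((A : ℝ) * B) ^ j / (c : ℝ) ^ 3 *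
        (1 + c * s ^ ((j : ℝ) / k))) := by
  set m : ℕ := 11 * j + 3 with hm
  have hm0 : (0 : ℝ) < m := by positivity
  obtain ⟨D, hD1, hD⟩ := Pool.Agent.Helper56.SW.fn_div (ε / (2 * m)) (by positivity)
  refine ⟨2 * 4 ^ (j + 1) * 65536 ^ j * D ^ m * K ^ (3 * j) * 12 ^ j, by positivity, ?_⟩
  intro c a b A B s hc hA hAB hs hyp
  have hc' : (1 : ℝ) ≤ c := by exact_mod_cast hc
  have hc0 : (0 : ℝ) < c := by linarith
  have hA' : (1 : ℝ) ≤ A := by exact_mod_cast hA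
  have hAB' : (A : ℝ) ≤ B := by exact_mod_cast hAB
  have hB' : (1 : ℝ) ≤ B := hA'.trans hAB'
  have hk0 : (0 : ℝ) < k := by exact_mod_cast hk
  have hj0 : (0 : ℝ) ≤ j := Nat.cast_nonneg _
  set T : ℝ := D * (c : ℝ) ^ (ε / m) with hT
  have hce : (1 : ℝ) ≤ (c : ℝ) ^ (ε / m) := Real.one_le_rpow hc' (by positivity)
  have hT1 : 1 ≤ T := by
    rw [hT]
    exact one_le_mul_of_one_le_of_one_le hD1 hce
  have hTτ : ∀ i : ℕ, 1 ≤ i → i ≤ c ^ 2 → τ i ≤ T := by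
    intro i hi hic
    refine (hD i hi).trans ?_
    rw [hT]
    refine mul_le_mul_of_nonneg_left ?_ (by linarith)
    have h1 : (i : ℝ) ^ (ε / (2 * m)) ≤ ((c : ℝ) ^ 2) ^ (ε / (2 * m)) := by
      refine Real.rpow_le_rpow (Nat.cast_nonneg _) (by exact_mod_cast hic) (by positivity)
    refine h1.trans (le_of_eq ?_)
    rw [← Real.rpow_natCast, ← Real.rpow_mul hc0.le]
    congr 1
    push_cast
    field_simp
  obtain ⟨t, ht0, hts, ht⟩ := hyp T hT1 hTτ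
  obtain ⟨sc, hsc⟩ := exists_sc hS c hc
  have h1 := hN c a b j A B sc hc (hk.trans hkj) hsc
  set mu : ℝ := 2 * A * (2 * (B : ℝ) + 1) ^ 2 with hmu
  have hmu0 : 0 ≤ mu := by positivity
  have hτc : τ c ≤ T := hTτ c hc (by nlinarith)
  have hτ0 : (0 : ℝ) ≤ τ c := by
    unfold Pool.Agent.Helper56.SW.τ; positivity
  have hC1 : (1 : ℝ) ≤ 65536 * T ^ 9 := by
    have : (1 : ℝ) ≤ T ^ 9 := one_le_pow₀ hT1
    linarith
  set Y : ℝ := 1 + c * s ^ ((j : ℝ) / k) with hY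
  have hY0 : 0 ≤ Y := by positivity
  set P : ℝ := (4 * T ^ 2) ^ (j + 1) * (65536 * T ^ 9) ^ j with hP
  have hP0 : 0 ≤ P := by positivity
  have hjk : (j : ℝ) / k ≤ j := div_le_self hj0 (by exact_mod_cast hk)
  have hjk0 : 0 ≤ (j : ℝ) / k := by positivity
  have hW : ∀ g0 : SZ, (W (sM A B) (wM a b) c j g0 : ℝ) ≤
      P * mu ^ j / (c : ℝ) ^ 3 * (K ^ (3 * j) * Y) := by
    intro g0
    have h2 := hL k j _ (sM A B) (wM a b) (hSY a b A B).1 hk hkj (Or.inl hke) c mu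
      (65536 * T ^ 9) t hc hmu0 (by positivity) ht0 ht g0
    refine h2.trans ?_
    have e1 : (65536 * T ^ 9) ^ ((j : ℝ) / k) ≤ (65536 * T ^ 9) ^ j := by
      rw [← Real.rpow_natCast (65536 * T ^ 9) j]
      exact Real.rpow_le_rpow_of_exponent_le hC1 hjk
    have e2 : (4 * τ c ^ 2) ^ (j + 1) ≤ (4 * T ^ 2) ^ (j + 1) := by
      have : τ c ^ 2 ≤ T ^ 2 := pow_le_pow_left₀ hτ0 hτc 2
      exact pow_le_pow_left₀ (by positivity) (by linarith) _
    have e3 : t ^ ((j : ℝ) / k) ≤ K ^ (3 * j) * s ^ ((j : ℝ) / k) := by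
      calc t ^ ((j : ℝ) / k) ≤ (K ^ 3 * s) ^ ((j : ℝ) / k) := Real.rpow_le_rpow ht0 hts hjk0
        _ = (K ^ 3) ^ ((j : ℝ) / k) * s ^ ((j : ℝ) / k) :=
            Real.mul_rpow (by positivity) hs
        _ ≤ K ^ (3 * j) * s ^ ((j : ℝ) / k) := by
            refine mul_le_mul_of_nonneg_right ?_ (by positivity)
            rw [pow_mul, ← Real.rpow_natCast (K ^ 3) j]
            exact Real.rpow_le_rpow_of_exponent_le (one_le_pow₀ hK) hjk
    have e4 : 1 + c * t ^ ((j : ℝ) / k) ≤ K ^ (3 * j) * Y := by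
      rw [hY, mul_add, mul_one]
      have h5 : (1 : ℝ) ≤ K ^ (3 * j) := one_le_pow₀ hK
      have h6 : c * t ^ ((j : ℝ) / k) ≤ c * (K ^ (3 * j) * s ^ ((j : ℝ) / k)) :=
        mul_le_mul_of_nonneg_left e3 hc0.le
      linarith
    refine mul_le_mul ?_ e4 (by positivity) (by positivity)
    refine div_le_div_of_nonneg_right ?_ (by positivity)
    refine mul_le_mul_of_nonneg_right ?_ (by positivity)
    rw [hP]
    exact mul_le_mul e2 e1 (by positivity) (by positivity)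
  have hcard : ((Γ c).card : ℝ) ≤ 2 * T :=
    (Pool.Agent.Helper56.SW.stSqrt c hc).trans (by linarith)
  have h3 : ∑ x ∈ Γ c, (W (sM A B) (wM a b) c j (sc x) : ℝ) ≤
      2 * T * (P * mu ^ j / (c : ℝ) ^ 3 * (K ^ (3 * j) * Y)) := by
    refine (sum_le_sum fun x _ => hW (sc x)).trans ?_
    rw [sum_const, nsmul_eq_mul]
    exact mul_le_mul_of_nonneg_right hcard (by positivity)
  have hmuB : mu ≤ 12 * (A * B) * (B + 1) := by
    rw [hmu]
    have h4 : (2 * (B : ℝ) + 1) ^ 2 ≤ 6 * B * (B + 1) := by nlinarith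
    have h5 := mul_le_mul_of_nonneg_left h4 (show (0 : ℝ) ≤ 2 * A by positivity)
    linarith
  have hmuj : mu ^ j ≤ 12 ^ j * (A * B : ℝ) ^ j * ((B : ℝ) + 1) ^ j := by
    refine (pow_le_pow_left₀ hmu0 hmuB j).trans (le_of_eq ?_)
    rw [mul_pow, mul_pow]
  have hTm : 2 * T * P = 2 * 4 ^ (j + 1) * 65536 ^ j * (D ^ m * (c : ℝ) ^ ε) := by
    have h6 : T ^ m = D ^ m * (c : ℝ) ^ ε := by
      rw [hT, mul_pow, ← Real.rpow_natCast ((c : ℝ) ^ (ε / m)) m, ← Real.rpow_mul hc0.le]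
      congr 2
      field_simp
    rw [← h6, hP, mul_pow, mul_pow, hm]
    ring
  have hBp : (0 : ℝ) < ((B : ℝ) + 1) ^ j := by positivity
  have h7 : (N0 c a b j A B : ℝ) * ((B : ℝ) + 1) ^ j ≤
      (2 * 4 ^ (j + 1) * 65536 ^ j * D ^ m * K ^ (3 * j) * 12 ^ j * (c : ℝ) ^ ε *
        (((A : ℝ) * B) ^ j / (c : ℝ) ^ 3 * Y)) * ((B : ℝ) + 1) ^ j := by
    calc (N0 c a b j A B : ℝ) * ((B : ℝ) + 1) ^ j
        ≤ 2 * T * (P * mu ^ j / (c : ℝ) ^ 3 * (K ^ (3 * j) * Y)) := h1.trans h3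
      _ = (2 * T * P) * (K ^ (3 * j) * Y) / (c : ℝ) ^ 3 * mu ^ j := by ring
      _ ≤ (2 * T * P) * (K ^ (3 * j) * Y) / (c : ℝ) ^ 3 *
          (12 ^ j * (A * B : ℝ) ^ j * ((B : ℝ) + 1) ^ j) :=
          mul_le_mul_of_nonneg_left hmuj (by positivity)
      _ = _ := by rw [hTm]; ring
  exact le_of_mul_le_mul_right h7 hBp

theorem T_bound {T x : ℝ} (hT : 1 ≤ T) (hx0 : 0 ≤ x) (hx : x ≤ T) :
    6 * x ≤ 65536 * T ^ 9 ∧ 768 * x ^ 5 ≤ 65536 * T ^ 9 ∧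
      32768 * x ^ 6 * (T + x ^ 3) ≤ 65536 * T ^ 9 := by
  have hT0 : 0 ≤ T := by linarith
  have h1 : T ≤ T ^ 9 := le_self_pow₀ hT (by norm_num)
  have h5 : T ^ 5 ≤ T ^ 9 := pow_le_pow_right₀ hT (by norm_num)
  have h7 : T ^ 7 ≤ T ^ 9 := pow_le_pow_right₀ hT (by norm_num)
  have x5 : x ^ 5 ≤ T ^ 5 := pow_le_pow_left₀ hx0 hx 5
  have x6 : x ^ 6 ≤ T ^ 6 := pow_le_pow_left₀ hx0 hx 6
  have x3 : x ^ 3 ≤ T ^ 3 := pow_le_pow_left₀ hx0 hx 3
  refine ⟨by linarith, by nlinarith, ?_⟩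
  have h2 : x ^ 6 * (T + x ^ 3) ≤ T ^ 6 * (T + T ^ 3) :=
    mul_le_mul x6 (by linarith) (by positivity) (by positivity)
  have h3 : T ^ 6 * (T + T ^ 3) = T ^ 7 + T ^ 9 := by ring
  have h4 : 32768 * x ^ 6 * (T + x ^ 3) = 32768 * (x ^ 6 * (T + x ^ 3)) := by ring
  rw [h4]
  linarith

theorem min_ge {K x c B : ℝ} (hK : 1 ≤ K) (hB : 0 < B) (hx : B ≤ x) (hc : B ≤ K * c) :
    B / K ≤ min x c := by
  have hK0 : 0 < K := by linarith
  refine le_min ?_ ?_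
  · exact (div_le_self hB.le hK).trans hx
  · rw [div_le_iff₀ hK0]; linarith

theorem thm (h1 : StLEVEL) (h2 : StSYM) (h3 : StN0W) (h4 : StSURJ) (h5 : StW2) : StM2 := by
  intro j K ε hj hK hε
  obtain ⟨C, hC, h⟩ := gen h1 h2 h3 h4 2 j K ε (by norm_num) (by decide) hj hK hε
  refine ⟨C, hC, ?_⟩
  intro c a b A B hc ha hb hA hAB hBK
  have hc' : (1 : ℝ) ≤ c := by exact_mod_cast hc
  have hc0 : (0 : ℝ) < c := by linarith
  have hA' : (1 : ℝ) ≤ A := by exact_mod_cast hA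
  have hAB' : (A : ℝ) ≤ B := by exact_mod_cast hAB
  have hB' : (1 : ℝ) ≤ B := hA'.trans hAB'
  have hK0 : 0 < K := by linarith
  have := h c a b A B ((c : ℝ) ^ 2 / ((A : ℝ) * (B : ℝ) ^ 2)) hc hA hAB (by positivity) ?_
  · simpa using this
  intro T hT hτ
  have hmA : (A : ℝ) / K ≤ min (A : ℝ) c := min_ge hK (by linarith) le_rfl (by linarith)
  have hmB : (B : ℝ) / K ≤ min (2 * (B : ℝ) + 1) c := min_ge hK (by linarith) (by linarith) hBK
  have hmA0 : 0 < min (A : ℝ) c := lt_min (by linarith) hc0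
  have hmB0 : 0 < min (2 * (B : ℝ) + 1) c := lt_min (by linarith) hc0
  refine ⟨(c : ℝ) ^ 2 / (min (A : ℝ) c * min (2 * (B : ℝ) + 1) c ^ 2), by positivity, ?_, ?_⟩
  · have e1 : (A : ℝ) / K * ((B : ℝ) / K) ^ 2 ≤ min (A : ℝ) c * min (2 * (B : ℝ) + 1) c ^ 2 :=
      mul_le_mul hmA (pow_le_pow_left₀ (by positivity) hmB 2) (by positivity) hmA0.le
    calc (c : ℝ) ^ 2 / (min (A : ℝ) c * min (2 * (B : ℝ) + 1) c ^ 2)
        ≤ (c : ℝ) ^ 2 / ((A : ℝ) / K * ((B : ℝ) / K) ^ 2) :=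
          div_le_div_of_nonneg_left (by positivity) (by positivity) e1
      _ = K ^ 3 * ((c : ℝ) ^ 2 / ((A : ℝ) * (B : ℝ) ^ 2)) := by field_simp
  · intro e he
    have hed : e ∣ c := Nat.dvd_of_mem_divisors he
    have he1 : 1 ≤ e := Nat.pos_of_mem_divisors he
    have hec : e ≤ c := Nat.le_of_dvd hc hed
    have he' : (1 : ℝ) ≤ e := by exact_mod_cast he1
    have hec' : (e : ℝ) ≤ c := by exact_mod_cast hec
    have he0 : (0 : ℝ) < e := by linarith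
    have hdv : (e : ℤ) ∣ (c : ℤ) := by exact_mod_cast hed
    have hW := h5 e a b A B he1 (ha.of_isCoprime_of_dvd_right hdv)
      (hb.of_isCoprime_of_dvd_right hdv) hA
    have hmA1 : 0 < min (A : ℝ) e := lt_min (by linarith) he0
    have hmB1 : 0 < min (2 * (B : ℝ) + 1) e := lt_min (by linarith) he0
    set mu : ℝ := 2 * A * (2 * (B : ℝ) + 1) ^ 2 with hmu
    have hτe := hτ e he1 (by nlinarith)
    have hτ0 : (0 : ℝ) ≤ τ e := by
      unfold Pool.Agent.Helper56.SW.τ; positivity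
    have key : (e : ℝ) ^ 2 / (min (A : ℝ) e * min (2 * (B : ℝ) + 1) e ^ 2) ≤
        1 / e + (c : ℝ) ^ 2 / (min (A : ℝ) c * min (2 * (B : ℝ) + 1) c ^ 2) := by
      have ht0 : 0 ≤ (c : ℝ) ^ 2 / (min (A : ℝ) c * min (2 * (B : ℝ) + 1) c ^ 2) := by positivity
      have hi0 : (0 : ℝ) ≤ 1 / e := by positivity
      rcases le_or_gt (e : ℝ) A with hA2 | hA2
      · rw [min_eq_right hA2, min_eq_right (by linarith : (e : ℝ) ≤ 2 * B + 1)]
        have : (e : ℝ) ^ 2 / (e * (e : ℝ) ^ 2) = 1 / e := by field_simp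
        rw [this]; linarith
      · have hAc : (A : ℝ) < c := by linarith
        rw [min_eq_left hA2.le, min_eq_left hAc.le]
        rcases le_or_gt (e : ℝ) (2 * B + 1) with hB2 | hB2
        · rw [min_eq_right hB2]
          have e2 : (e : ℝ) ^ 2 / (A * (e : ℝ) ^ 2) = 1 / A := by field_simp
          have e3 : (c : ℝ) ^ 2 / (A * (c : ℝ) ^ 2) = 1 / A := by field_simp
          have e4 : (c : ℝ) ^ 2 / (A * (c : ℝ) ^ 2) ≤
              (c : ℝ) ^ 2 / (A * min (2 * (B : ℝ) + 1) c ^ 2) := by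
            refine div_le_div_of_nonneg_left (by positivity) (by positivity) ?_
            exact mul_le_mul_of_nonneg_left
              (pow_le_pow_left₀ hmB0.le (min_le_right _ _) 2) (by linarith)
          rw [e2]; rw [e3] at e4; linarith
        · rw [min_eq_left hB2.le, min_eq_left (by linarith : 2 * (B : ℝ) + 1 ≤ c)]
          have e5 : (e : ℝ) ^ 2 / (A * (2 * (B : ℝ) + 1) ^ 2) ≤
              (c : ℝ) ^ 2 / (A * (2 * (B : ℝ) + 1) ^ 2) :=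
            div_le_div_of_nonneg_right (pow_le_pow_left₀ he0.le hec' 2) (by positivity)
          linarith
    calc (W (sM A B) (wM a b) e 2 1 : ℝ) * (e : ℝ) ^ 2
        ≤ 6 * τ e * mu ^ 2 / (min (A : ℝ) e * min (2 * (B : ℝ) + 1) e ^ 2) * (e : ℝ) ^ 2 :=
          mul_le_mul_of_nonneg_right hW (by positivity)
      _ = (6 * τ e) * mu ^ 2 *
          ((e : ℝ) ^ 2 / (min (A : ℝ) e * min (2 * (B : ℝ) + 1) e ^ 2)) := by ring
      _ ≤ (65536 * T ^ 9) * mu ^ 2 *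
          (1 / e + (c : ℝ) ^ 2 / (min (A : ℝ) c * min (2 * (B : ℝ) + 1) c ^ 2)) := by
          refine mul_le_mul ?_ key (by positivity) (by positivity)
          exact mul_le_mul_of_nonneg_right (T_bound hT hτ0 hτe).1 (by positivity)

theorem thm4 (h1 : StLEVEL) (h2 : StSYM) (h3 : StN0W) (h4 : StSURJ) (h5 : StW4) : StM4 := by
  intro j K ε hj hK hε
  obtain ⟨C, hC, h⟩ := gen h1 h2 h3 h4 4 j K ε (by norm_num) (by decide) hj hK hε
  refine ⟨C, hC, ?_⟩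
  intro c a b A B hc ha hb hA hAB hBK
  have hc' : (1 : ℝ) ≤ c := by exact_mod_cast hc
  have hc0 : (0 : ℝ) < c := by linarith
  have hA' : (1 : ℝ) ≤ A := by exact_mod_cast hA
  have hAB' : (A : ℝ) ≤ B := by exact_mod_cast hAB
  have hB' : (1 : ℝ) ≤ B := hA'.trans hAB'
  have hK0 : 0 < K := by linarith
  have := h c a b A B ((c : ℝ) ^ 2 / (B : ℝ) ^ 3) hc hA hAB (by positivity) ?_
  · simpa using this
  intro T hT hτ
  have hmB : (B : ℝ) / K ≤ min (2 * (B : ℝ) + 1) c := min_ge hK (by linarith) (by linarith) hBK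
  have hmB0 : 0 < min (2 * (B : ℝ) + 1) c := lt_min (by linarith) hc0
  refine ⟨(c : ℝ) ^ 2 / min (2 * (B : ℝ) + 1) c ^ 3, by positivity, ?_, ?_⟩
  · have e1 : ((B : ℝ) / K) ^ 3 ≤ min (2 * (B : ℝ) + 1) c ^ 3 :=
      pow_le_pow_left₀ (by positivity) hmB 3
    calc (c : ℝ) ^ 2 / min (2 * (B : ℝ) + 1) c ^ 3
        ≤ (c : ℝ) ^ 2 / ((B : ℝ) / K) ^ 3 :=
          div_le_div_of_nonneg_left (by positivity) (by positivity) e1
      _ = K ^ 3 * ((c : ℝ) ^ 2 / (B : ℝ) ^ 3) := by field_simp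
  · intro e he
    have hed : e ∣ c := Nat.dvd_of_mem_divisors he
    have he1 : 1 ≤ e := Nat.pos_of_mem_divisors he
    have hec : e ≤ c := Nat.le_of_dvd hc hed
    have he' : (1 : ℝ) ≤ e := by exact_mod_cast he1
    have hec' : (e : ℝ) ≤ c := by exact_mod_cast hec
    have he0 : (0 : ℝ) < e := by linarith
    have hdv : (e : ℤ) ∣ (c : ℤ) := by exact_mod_cast hed
    have hW := h5 e a b A B he1 (ha.of_isCoprime_of_dvd_right hdv)
      (hb.of_isCoprime_of_dvd_right hdv) hA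
    have hmB1 : 0 < min (2 * (B : ℝ) + 1) e := lt_min (by linarith) he0
    set mu : ℝ := 2 * A * (2 * (B : ℝ) + 1) ^ 2 with hmu
    have hτe := hτ e he1 (by nlinarith)
    have hτ0 : (0 : ℝ) ≤ τ e := by
      unfold Pool.Agent.Helper56.SW.τ; positivity
    have key : (e : ℝ) ^ 2 / min (2 * (B : ℝ) + 1) e ^ 3 ≤
        1 / e + (c : ℝ) ^ 2 / min (2 * (B : ℝ) + 1) c ^ 3 := by
      have ht0 : 0 ≤ (c : ℝ) ^ 2 / min (2 * (B : ℝ) + 1) c ^ 3 := by positivity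
      have hi0 : (0 : ℝ) ≤ 1 / e := by positivity
      rcases le_or_gt (e : ℝ) (2 * B + 1) with hB2 | hB2
      · rw [min_eq_right hB2]
        have e2 : (e : ℝ) ^ 2 / (e : ℝ) ^ 3 = 1 / e := by field_simp
        rw [e2]; linarith
      · rw [min_eq_left hB2.le, min_eq_left (by linarith : 2 * (B : ℝ) + 1 ≤ c)]
        have e5 : (e : ℝ) ^ 2 / (2 * (B : ℝ) + 1) ^ 3 ≤ (c : ℝ) ^ 2 / (2 * (B : ℝ) + 1) ^ 3 :=
          div_le_div_of_nonneg_right (pow_le_pow_left₀ he0.le hec' 2) (by positivity)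
        linarith
    calc (W (sM A B) (wM a b) e 4 1 : ℝ) * (e : ℝ) ^ 2
        ≤ 768 * τ e ^ 5 * mu ^ 4 / min (2 * (B : ℝ) + 1) e ^ 3 * (e : ℝ) ^ 2 :=
          mul_le_mul_of_nonneg_right hW (by positivity)
      _ = (768 * τ e ^ 5) * mu ^ 4 * ((e : ℝ) ^ 2 / min (2 * (B : ℝ) + 1) e ^ 3) := by ring
      _ ≤ (65536 * T ^ 9) * mu ^ 4 *
          (1 / e + (c : ℝ) ^ 2 / min (2 * (B : ℝ) + 1) c ^ 3) := by
          refine mul_le_mul ?_ key (by positivity) (by positivity)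
          exact mul_le_mul_of_nonneg_right (T_bound hT hτ0 hτe).2.1 (by positivity)

theorem thm6 (h1 : StLEVEL) (h2 : StSYM) (h3 : StN0W) (h4 : StSURJ) (h5 : StW6) : StM6 := by
  intro j K ε hj hK hε
  obtain ⟨C, hC, h⟩ := gen h1 h2 h3 h4 6 j K ε (by norm_num) (by decide) hj hK hε
  refine ⟨C, hC, ?_⟩
  intro c a b A B hc ha hb hA hAB hBK hcB
  have hc' : (1 : ℝ) ≤ c := by exact_mod_cast hc
  have hc0 : (0 : ℝ) < c := by linarith
  have hA' : (1 : ℝ) ≤ A := by exact_mod_cast hA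
  have hAB' : (A : ℝ) ≤ B := by exact_mod_cast hAB
  have hB' : (1 : ℝ) ≤ B := hA'.trans hAB'
  have hK0 : 0 < K := by linarith
  have := h c a b A B ((c : ℝ) / (B : ℝ) ^ 2) hc hA hAB (by positivity) ?_
  · simpa using this
  intro T hT hτ
  have hmB : (B : ℝ) / K ≤ min (2 * (B : ℝ) + 1) c := min_ge hK (by linarith) (by linarith) hBK
  have hmB0 : 0 < min (2 * (B : ℝ) + 1) c := lt_min (by linarith) hc0
  refine ⟨(c : ℝ) / min (2 * (B : ℝ) + 1) c ^ 2, by positivity, ?_, ?_⟩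
  · have e1 : ((B : ℝ) / K) ^ 2 ≤ min (2 * (B : ℝ) + 1) c ^ 2 :=
      pow_le_pow_left₀ (by positivity) hmB 2
    calc (c : ℝ) / min (2 * (B : ℝ) + 1) c ^ 2
        ≤ (c : ℝ) / ((B : ℝ) / K) ^ 2 :=
          div_le_div_of_nonneg_left (by positivity) (by positivity) e1
      _ = K ^ 2 * ((c : ℝ) / (B : ℝ) ^ 2) := by field_simp
      _ ≤ K ^ 3 * ((c : ℝ) / (B : ℝ) ^ 2) :=
          mul_le_mul_of_nonneg_right (pow_le_pow_right₀ hK (by norm_num)) (by positivity)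
  · intro e he
    have hed : e ∣ c := Nat.dvd_of_mem_divisors he
    have he1 : 1 ≤ e := Nat.pos_of_mem_divisors he
    have hec : e ≤ c := Nat.le_of_dvd hc hed
    have he' : (1 : ℝ) ≤ e := by exact_mod_cast he1
    have hec' : (e : ℝ) ≤ c := by exact_mod_cast hec
    have he0 : (0 : ℝ) < e := by linarith
    have hdv : (e : ℤ) ∣ (c : ℤ) := by exact_mod_cast hed
    have hcB' : c ≤ 4 * B ^ 2 := by exact_mod_cast hcB
    have hW := h5 e a b A B T he1 (ha.of_isCoprime_of_dvd_right hdv)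
      (hb.of_isCoprime_of_dvd_right hdv) hA hAB (by nlinarith)
      (fun i hi hi2 => hτ i hi (hi2.trans (Nat.pow_le_pow_left hec 2)))
    have hmB1 : 0 < min (2 * (B : ℝ) + 1) e := lt_min (by linarith) he0
    set mu : ℝ := 2 * A * (2 * (B : ℝ) + 1) ^ 2 with hmu
    have hτe := hτ e he1 (by nlinarith)
    have hτ0 : (0 : ℝ) ≤ τ e := by
      unfold Pool.Agent.Helper56.SW.τ; positivity
    have key : (e : ℝ) / min (2 * (B : ℝ) + 1) e ^ 2 ≤
        1 / e + (c : ℝ) / min (2 * (B : ℝ) + 1) c ^ 2 := by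
      have ht0 : 0 ≤ (c : ℝ) / min (2 * (B : ℝ) + 1) c ^ 2 := by positivity
      have hi0 : (0 : ℝ) ≤ 1 / e := by positivity
      rcases le_or_gt (e : ℝ) (2 * B + 1) with hB2 | hB2
      · rw [min_eq_right hB2]
        have e2 : (e : ℝ) / (e : ℝ) ^ 2 = 1 / e := by field_simp
        rw [e2]; linarith
      · rw [min_eq_left hB2.le, min_eq_left (by linarith : 2 * (B : ℝ) + 1 ≤ c)]
        have e5 : (e : ℝ) / (2 * (B : ℝ) + 1) ^ 2 ≤ (c : ℝ) / (2 * (B : ℝ) + 1) ^ 2 :=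
          div_le_div_of_nonneg_right hec' (by positivity)
        linarith
    calc (W (sM A B) (wM a b) e 6 1 : ℝ) * (e : ℝ) ^ 2
        ≤ 32768 * τ e ^ 6 * (T + τ e ^ 3) * mu ^ 6 /
          (min (2 * (B : ℝ) + 1) e ^ 2 * e) * (e : ℝ) ^ 2 :=
          mul_le_mul_of_nonneg_right hW (by positivity)
      _ = (32768 * τ e ^ 6 * (T + τ e ^ 3)) * mu ^ 6 *
          ((e : ℝ) / min (2 * (B : ℝ) + 1) e ^ 2) := by field_simp
      _ ≤ (65536 * T ^ 9) * mu ^ 6 *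
          (1 / e + (c : ℝ) / min (2 * (B : ℝ) + 1) c ^ 2) := by
          refine mul_le_mul ?_ key (by positivity) (by positivity)
          exact mul_le_mul_of_nonneg_right (T_bound hT hτ0 hτe).2.2 (by positivity)

end Pool.Agent.Helper28.SP.M2
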