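import Pool.Agent.Helper28.SP.St

/-!
# MP_e188f1_nt, spectral range, module R2: fourth moment by Minkowski
-/

set_option autoImplicit false

namespace Pool.Agent.Helper28.SP.R2

open Finset Matrix
open Pool.Agent.Helper28.SP

noncomputable section

theorem Ll_mul (x y : ℤ) : (Ll x * Ll y : SZ) = Ll (x + y) := by
  apply Subtype.ext
  change (!![1, 0; x, 1] * !![1, 0; y, 1] : Matrix (Fin 2) (Fin 2) ℤ) = !![1, 0; x + y, 1]
  rw [Matrix.mul_fin_two]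
  simp

theorem wM_mul (a b : ℤ) (h1 h2 : ℤ) (k1 k1' k2 k2' : ℕ) :
    wM a b (h1, k1, k1') * wM a b (h2, k2, k2') =
      F2 a b h1 h2 (-(k1 : ℤ)) ((k1' : ℤ) - k2) k2' := by
  unfold wM F2
  have e1 : (Ll (b * ((k1' : ℤ) - k2)) : SZ) = Ll (b * (k1' : ℤ)) * Ll (-(b * (k2 : ℤ))) := by
    rw [Ll_mul]; congr 1; ring
  have e2 : (Ll (b * (-(k1 : ℤ))) : SZ) = Ll (-(b * (k1 : ℤ))) := by congr 1; ring
  rw [e1, e2]
  simp only [mul_assoc]

/-- consecutive intervals -/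
theorem sum_blocks (φ : ℤ → ℕ) (s : ℤ) (n P : ℕ) :
    ∑ x ∈ Ico s (s + (P : ℤ) * n), φ x = ∑ p ∈ range P, ∑ x ∈ Iv (s + (p : ℤ) * n) n, φ x := by
  induction P with
  | zero => simp
  | succ P ih =>
    rw [Finset.sum_range_succ, ← ih]
    have h1 : s ≤ s + (P : ℤ) * n := by nlinarith [Int.natCast_nonneg n, Int.natCast_nonneg P, mul_nonneg (Int.natCast_nonneg P) (Int.natCast_nonneg n)]
    have h2 : s + (P : ℤ) * n ≤ s + ((P + 1 : ℕ) : ℤ) * n := by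
      push_cast
      nlinarith [Int.natCast_nonneg n]
    rw [← Finset.Ico_union_Ico_eq_Ico h1 h2, Finset.sum_union (Finset.Ico_disjoint_Ico_consecutive _ _ _)]
    congr 1
    unfold Iv
    congr 2
    push_cast
    ring

/-- covering an interval by blocks -/
theorem cover (φ : ℤ → ℕ) (s : ℤ) (n P L : ℕ) (hL : L ≤ P * n) (e : ℕ → ℤ)
    (he : ∀ k ∈ range L, s ≤ e k ∧ e k < s + L) (hi : Set.InjOn e (range L : Finset ℕ)) :
    ∑ k ∈ range L, φ (e k) ≤ ∑ p ∈ range P, ∑ x ∈ Iv (s + (p : ℤ) * n) n, φ x := by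
  rw [← sum_blocks, ← Finset.sum_image hi]
  apply Finset.sum_le_sum_of_subset
  intro x hx
  rw [Finset.mem_image] at hx
  obtain ⟨k, hk, rfl⟩ := hx
  obtain ⟨h1, h2⟩ := he k hk
  rw [Finset.mem_Ico]
  refine ⟨h1, h2.trans_le ?_⟩
  have : (L : ℤ) ≤ (P : ℤ) * n := by exact_mod_cast hL
  linarith

/-- covering of three intervals by blocks -/
theorem cover3 (φ : ℤ → ℤ → ℤ → ℕ) (s0 s1 s2 : ℤ) (n P L : ℕ) (hL : L ≤ P * n)
    (e0 e1 e2 : ℕ → ℤ)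
    (h0 : ∀ k ∈ range L, s0 ≤ e0 k ∧ e0 k < s0 + L) (i0 : Set.InjOn e0 (range L : Finset ℕ))
    (h1 : ∀ k ∈ range L, s1 ≤ e1 k ∧ e1 k < s1 + L) (i1 : Set.InjOn e1 (range L : Finset ℕ))
    (h2 : ∀ k ∈ range L, s2 ≤ e2 k ∧ e2 k < s2 + L) (i2 : Set.InjOn e2 (range L : Finset ℕ)) :
    ∑ k0 ∈ range L, ∑ k1 ∈ range L, ∑ k2 ∈ range L, φ (e0 k0) (e1 k1) (e2 k2) ≤
      ∑ p0 ∈ range P, ∑ p1 ∈ range P, ∑ p2 ∈ range P,
        ∑ x ∈ Iv (s0 + (p0 : ℤ) * n) n, ∑ y ∈ Iv (s1 + (p1 : ℤ) * n) n,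
          ∑ z ∈ Iv (s2 + (p2 : ℤ) * n) n, φ x y z := by
  calc ∑ k0 ∈ range L, ∑ k1 ∈ range L, ∑ k2 ∈ range L, φ (e0 k0) (e1 k1) (e2 k2)
      ≤ ∑ k0 ∈ range L, ∑ k1 ∈ range L,
          ∑ p2 ∈ range P, ∑ z ∈ Iv (s2 + (p2 : ℤ) * n) n, φ (e0 k0) (e1 k1) z := by
        refine Finset.sum_le_sum fun k0 _ => Finset.sum_le_sum fun k1 _ => ?_
        exact cover (fun z => φ (e0 k0) (e1 k1) z) s2 n P L hL e2 h2 i2
    _ ≤ ∑ k0 ∈ range L, ∑ p1 ∈ range P, ∑ y ∈ Iv (s1 + (p1 : ℤ) * n) n,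
          ∑ p2 ∈ range P, ∑ z ∈ Iv (s2 + (p2 : ℤ) * n) n, φ (e0 k0) y z := by
        refine Finset.sum_le_sum fun k0 _ => ?_
        exact cover (fun y => ∑ p2 ∈ range P, ∑ z ∈ Iv (s2 + (p2 : ℤ) * n) n, φ (e0 k0) y z)
          s1 n P L hL e1 h1 i1
    _ ≤ ∑ p0 ∈ range P, ∑ x ∈ Iv (s0 + (p0 : ℤ) * n) n,
          ∑ p1 ∈ range P, ∑ y ∈ Iv (s1 + (p1 : ℤ) * n) n,
          ∑ p2 ∈ range P, ∑ z ∈ Iv (s2 + (p2 : ℤ) * n) n, φ x y z :=
        cover (fun x => ∑ p1 ∈ range P, ∑ y ∈ Iv (s1 + (p1 : ℤ) * n) n,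
          ∑ p2 ∈ range P, ∑ z ∈ Iv (s2 + (p2 : ℤ) * n) n, φ x y z) s0 n P L hL e0 h0 i0
    _ = _ := by
        refine Finset.sum_congr rfl fun p0 _ => ?_
        rw [Finset.sum_comm]
        refine Finset.sum_congr rfl fun p1 _ => ?_
        rw [Finset.sum_comm' (s := Iv (s0 + (p0 : ℤ) * n) n)
          (t := fun _ => Iv (s1 + (p1 : ℤ) * n) n) (t' := Iv (s1 + (p1 : ℤ) * n) n)
          (s' := fun _ => Iv (s0 + (p0 : ℤ) * n) n) (by intro x y; tauto)]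
        have e : ∀ y ∈ Iv (s1 + (p1 : ℤ) * n) n,
            ∑ x ∈ Iv (s0 + (p0 : ℤ) * n) n, ∑ p2 ∈ range P,
              ∑ z ∈ Iv (s2 + (p2 : ℤ) * n) n, φ x y z =
            ∑ p2 ∈ range P, ∑ x ∈ Iv (s0 + (p0 : ℤ) * n) n,
              ∑ z ∈ Iv (s2 + (p2 : ℤ) * n) n, φ x y z := fun y _ => Finset.sum_comm
        rw [Finset.sum_congr rfl e, Finset.sum_comm]
        refine Finset.sum_congr rfl fun p2 _ => ?_
        rw [Finset.sum_comm]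

open Classical in
/-- number of words of a block with a given value -/
def pc (c : ℕ) (a b h1 h2 : ℤ) (n : ℕ) (i0 i1 i2 : ℤ) (g : SG c) : ℕ :=
  ((Iv i0 n ×ˢ (Iv i1 n ×ˢ Iv i2 n)).filter
    fun q => red c (F2 a b h1 h2 q.1 q.2.1 q.2.2) = g).card

open Classical in
theorem pc_eq (c : ℕ) (a b h1 h2 : ℤ) (n : ℕ) (i0 i1 i2 : ℤ) (g : SG c) :
    pc c a b h1 h2 n i0 i1 i2 g = ∑ x ∈ Iv i0 n, ∑ y ∈ Iv i1 n, ∑ z ∈ Iv i2 n,
      if red c (F2 a b h1 h2 x y z) = g then 1 else 0 := by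
  unfold pc
  rw [Finset.card_filter, Finset.sum_product]
  refine Finset.sum_congr rfl fun x _ => ?_
  rw [Finset.sum_product]

theorem sum_pc_sq (c : ℕ) [Fintype (SG c)] (a b h1 h2 : ℤ) (n : ℕ) (i0 i1 i2 : ℤ) :
    ∑ g : SG c, pc c a b h1 h2 n i0 i1 i2 g ^ 2 = V2 c a b h1 h2 n i0 i1 i2 := by
  classical
  unfold V2
  rw [Finset.card_eq_sum_card_fiberwise (t := (Finset.univ : Finset (SG c)))
    (f := fun p => red c (F2 a b h1 h2 p.1.1 p.1.2.1 p.1.2.2)) (fun x _ => Finset.mem_univ _)]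
  refine Finset.sum_congr rfl fun g _ => ?_
  unfold pc
  rw [sq, ← Finset.card_product]
  congr 1
  ext p
  simp only [Finset.mem_product, Finset.mem_filter]
  constructor
  · rintro ⟨⟨⟨h1, h2, h3⟩, h4⟩, ⟨h5, h6, h7⟩, h8⟩
    exact ⟨⟨⟨⟨h1, h2, h3⟩, h5, h6, h7⟩, h4.trans h8.symm⟩, h4⟩
  · rintro ⟨⟨⟨⟨h1, h2, h3⟩, h5, h6, h7⟩, h8⟩, h4⟩
    exact ⟨⟨⟨h1, h2, h3⟩, h4⟩, ⟨h5, h6, h7⟩, h8.symm.trans h4⟩

/-- the index set of the blocks -/
def idx (A B P : ℕ) : Finset ((ℤ × ℤ) × (ℕ × (ℕ × (ℕ × ℕ)))) :=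
  (Hs A ×ˢ Hs A) ×ˢ (range (2 * B + 1) ×ˢ (range P ×ˢ (range P ×ˢ range P)))

/-- the number of words in the block `t` -/
def blk (c : ℕ) (a b : ℤ) (B n : ℕ) (t : (ℤ × ℤ) × (ℕ × (ℕ × (ℕ × ℕ)))) (g : SG c) : ℕ :=
  pc c a b t.1.1 t.1.2 n (-(2 * B : ℤ) + (t.2.2.1 : ℤ) * n)
    ((t.2.1 : ℤ) - 2 * B + (t.2.2.2.1 : ℤ) * n) (0 + (t.2.2.2.2 : ℤ) * n) g

theorem cnt_two_le (c : ℕ) (a b : ℤ) (A B n P : ℕ) (hP : 2 * B + 1 ≤ P * n) (g : SG c) :
    cnt (sM A B) (fun i => red c (wM a b i)) 2 g ≤ ∑ t ∈ idx A B P, blk c a b B n t g := by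
  classical
  have hc : ∀ x y : ℤ × ℕ × ℕ, ((red c (wM a b y))⁻¹ * ((red c (wM a b x))⁻¹ * g) = 1) ↔
      red c (F2 a b x.1 y.1 (-(x.2.1 : ℤ)) ((x.2.2 : ℤ) - y.2.1) y.2.2) = g := by
    intro x y
    rw [inv_mul_eq_one, eq_inv_mul_iff_mul_eq, ← map_mul]
    have := wM_mul a b x.1 y.1 x.2.1 x.2.2 y.2.1 y.2.2
    rw [← this]
  have h2 : cnt (sM A B) (fun i => red c (wM a b i)) 2 g =
      ∑ x ∈ sM A B, ∑ y ∈ sM A B,
        if red c (F2 a b x.1 y.1 (-(x.2.1 : ℤ)) ((x.2.2 : ℤ) - y.2.1) y.2.2) = g then 1 else 0 := by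
    simp only [cnt]
    refine Finset.sum_congr rfl fun x _ => Finset.sum_congr rfl fun y _ => ?_
    by_cases h : red c (F2 a b x.1 y.1 (-(x.2.1 : ℤ)) ((x.2.2 : ℤ) - y.2.1) y.2.2) = g
    · rw [if_pos h, if_pos ((hc x y).2 h)]
    · rw [if_neg h, if_neg (fun h' => h ((hc x y).1 h'))]
  rw [h2]
  have h3 : ∑ x ∈ sM A B, ∑ y ∈ sM A B,
        (if red c (F2 a b x.1 y.1 (-(x.2.1 : ℤ)) ((x.2.2 : ℤ) - y.2.1) y.2.2) = g then 1 else 0) =
      ∑ h1 ∈ Hs A, ∑ h2 ∈ Hs A, ∑ k ∈ range (2 * B + 1),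
        ∑ k0 ∈ range (2 * B + 1), ∑ k1 ∈ range (2 * B + 1), ∑ k2 ∈ range (2 * B + 1),
        (if red c (F2 a b h1 h2 (-(k0 : ℤ)) ((k : ℤ) - k1) k2) = g then 1 else 0) := by
    unfold sM
    rw [Finset.sum_product]
    refine Finset.sum_congr rfl fun h1 _ => ?_
    rw [Finset.sum_product]
    have e1 : ∀ k0 ∈ range (2 * B + 1), ∀ k ∈ range (2 * B + 1),
        ∑ y ∈ Hs A ×ˢ (range (2 * B + 1) ×ˢ range (2 * B + 1)),
          (if red c (F2 a b h1 y.1 (-(k0 : ℤ)) ((k : ℤ) - y.2.1) y.2.2) = g then 1 else 0) =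
        ∑ h2 ∈ Hs A, ∑ k1 ∈ range (2 * B + 1), ∑ k2 ∈ range (2 * B + 1),
          (if red c (F2 a b h1 h2 (-(k0 : ℤ)) ((k : ℤ) - k1) k2) = g then 1 else 0) := by
      intro k0 _ k _
      rw [Finset.sum_product]
      refine Finset.sum_congr rfl fun h2 _ => ?_
      rw [Finset.sum_product]
    rw [Finset.sum_congr rfl fun k0 h0 => Finset.sum_congr rfl fun k hk => e1 k0 h0 k hk]
    rw [Finset.sum_comm]
    have e2 : ∀ k ∈ range (2 * B + 1), ∑ k0 ∈ range (2 * B + 1), ∑ h2 ∈ Hs A,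
        ∑ k1 ∈ range (2 * B + 1), ∑ k2 ∈ range (2 * B + 1),
          (if red c (F2 a b h1 h2 (-(k0 : ℤ)) ((k : ℤ) - k1) k2) = g then 1 else 0) =
        ∑ h2 ∈ Hs A, ∑ k0 ∈ range (2 * B + 1),
        ∑ k1 ∈ range (2 * B + 1), ∑ k2 ∈ range (2 * B + 1),
          (if red c (F2 a b h1 h2 (-(k0 : ℤ)) ((k : ℤ) - k1) k2) = g then 1 else 0) :=
      fun k _ => Finset.sum_comm
    rw [Finset.sum_congr rfl e2, Finset.sum_comm]
  rw [h3]
  unfold idx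
  rw [Finset.sum_product, Finset.sum_product]
  refine Finset.sum_le_sum fun h1 _ => Finset.sum_le_sum fun h2 _ => ?_
  rw [Finset.sum_product]
  refine Finset.sum_le_sum fun k hk => ?_
  have hk' : (k : ℤ) < 2 * B + 1 := by
    have := Finset.mem_range.1 hk
    exact_mod_cast this
  rw [Finset.sum_product]
  have e3 : ∀ p0 ∈ range P, ∑ q ∈ range P ×ˢ range P,
      blk c a b B n ((h1, h2), (k, (p0, q))) g =
      ∑ p1 ∈ range P, ∑ p2 ∈ range P,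
        ∑ x ∈ Iv (-(2 * B : ℤ) + (p0 : ℤ) * n) n, ∑ y ∈ Iv ((k : ℤ) - 2 * B + (p1 : ℤ) * n) n,
          ∑ z ∈ Iv (0 + (p2 : ℤ) * n) n,
            (if red c (F2 a b h1 h2 x y z) = g then 1 else 0) := by
    intro p0 _
    rw [Finset.sum_product]
    refine Finset.sum_congr rfl fun p1 _ => Finset.sum_congr rfl fun p2 _ => ?_
    exact pc_eq c a b h1 h2 n _ _ _ g
  rw [Finset.sum_congr rfl e3]
  refine cover3 (fun x y z => if red c (F2 a b h1 h2 x y z) = g then 1 else 0)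
    (-(2 * B : ℤ)) ((k : ℤ) - 2 * B) 0 n P (2 * B + 1) hP
    (fun k0 => -(k0 : ℤ)) (fun k1 => (k : ℤ) - k1) (fun k2 => (k2 : ℤ)) ?_ ?_ ?_ ?_ ?_ ?_
  · intro j hj
    have := Finset.mem_range.1 hj
    push_cast
    constructor
    · have : (j : ℤ) < 2 * B + 1 := by exact_mod_cast this
      linarith
    · linarith [Int.natCast_nonneg j]
  · intro x _ y _ hxy
    have : -(x : ℤ) = -(y : ℤ) := hxy
    have : (x : ℤ) = y := by linarith
    exact_mod_cast this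
  · intro j hj
    have := Finset.mem_range.1 hj
    push_cast
    constructor
    · have : (j : ℤ) < 2 * B + 1 := by exact_mod_cast this
      linarith
    · linarith [Int.natCast_nonneg j]
  · intro x _ y _ hxy
    have : (k : ℤ) - (x : ℤ) = (k : ℤ) - (y : ℤ) := hxy
    have : (x : ℤ) = y := by linarith
    exact_mod_cast this
  · intro j hj
    have := Finset.mem_range.1 hj
    push_cast
    constructor
    · exact Int.natCast_nonneg j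
    · have : (j : ℤ) < 2 * B + 1 := by exact_mod_cast this
      linarith
  · intro x _ y _ hxy
    have : (x : ℤ) = y := hxy
    exact_mod_cast this

/-- **(R2)** -/
theorem thm (h1 : StCONV) (h2 : StMINK) (h3 : StSYM) : StR2 := by
  classical
  intro c a b A B n v hc hn hv
  have : NeZero c := ⟨by omega⟩
  have : Fintype (SG c) := Fintype.ofFinite _
  set L : ℕ := 2 * B + 1 with hLdef
  have hn1 : 1 ≤ n := by rw [hn]; omega
  have hnL : n ≤ L := by rw [hn]; exact min_le_left _ _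
  set P : ℕ := L / n + 1 with hPdef
  have hP : L ≤ P * n := by
    have := Nat.lt_mul_div_succ L (show 0 < n by omega)
    rw [hPdef]
    nlinarith
  have hPr : (P : ℝ) ≤ 2 * (L : ℝ) / n := by
    have hn0 : (0 : ℝ) < n := by exact_mod_cast hn1
    rw [le_div_iff₀ hn0]
    have e1 : (P * n : ℕ) ≤ 2 * L := by
      rw [hPdef, add_mul, one_mul]
      have := Nat.div_mul_le_self L n
      omega
    exact_mod_cast e1
  have hsym : Sym (sM A B) (fun i => red c (wM a b i)) := by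
    obtain ⟨σ, hσ⟩ := (h3 a b A B).1
    refine ⟨σ, fun i hi => ⟨(hσ i hi).1, (hσ i hi).2.1, ?_⟩⟩
    show red c (wM a b (σ i)) = (red c (wM a b i))⁻¹
    rw [(hσ i hi).2.2, map_inv]
  have hW : W (sM A B) (wM a b) c 4 1 =
      ∑ g : SG c, cnt (sM A B) (fun i => red c (wM a b i)) 2 g ^ 2 := by
    have := h1 (SG c) (ℤ × ℕ × ℕ) (sM A B) (fun i => red c (wM a b i)) 2 hsym
    unfold W
    rw [map_one]
    exact this
  have hstep : ∀ g : SG c, ((cnt (sM A B) (fun i => red c (wM a b i)) 2 g : ℕ) : ℝ) ≤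
      ∑ t ∈ idx A B P, (blk c a b B n t g : ℝ) := by
    intro g
    have := cnt_two_le c a b A B n P hP g
    exact_mod_cast this
  have hmink := h2 (SG c) _ (idx A B P) (fun t g => (blk c a b B n t g : ℝ))
    (fun t g => Nat.cast_nonneg _)
  have hsqrt : ∀ t ∈ idx A B P, Real.sqrt (∑ g : SG c, (blk c a b B n t g : ℝ) ^ 2) ≤
      Real.sqrt (v t.1.1 t.1.2) := by
    intro t ht
    apply Real.sqrt_le_sqrt
    have e := sum_pc_sq c a b t.1.1 t.1.2 n (-(2 * B : ℤ) + (t.2.2.1 : ℤ) * n)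
      ((t.2.1 : ℤ) - 2 * B + (t.2.2.2.1 : ℤ) * n) (0 + (t.2.2.2.2 : ℤ) * n)
    have ht1 : t.1.1 ∈ Hs A ∧ t.1.2 ∈ Hs A := by
      unfold idx at ht
      rw [Finset.mem_product, Finset.mem_product] at ht
      exact ht.1
    have e' := hv t.1.1 ht1.1 t.1.2 ht1.2 (-(2 * B : ℤ) + (t.2.2.1 : ℤ) * n)
      ((t.2.1 : ℤ) - 2 * B + (t.2.2.2.1 : ℤ) * n) (0 + (t.2.2.2.2 : ℤ) * n)
    rw [← e] at e'
    push_cast at e'
    exact e'
  have hsum : ∑ t ∈ idx A B P, Real.sqrt (v t.1.1 t.1.2) =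
      (L : ℝ) * (P : ℝ) ^ 3 * ∑ x ∈ Hs A, ∑ y ∈ Hs A, Real.sqrt (v x y) := by
    unfold idx
    rw [Finset.sum_product, Finset.sum_product, Finset.mul_sum]
    refine Finset.sum_congr rfl fun x _ => ?_
    rw [Finset.mul_sum]
    refine Finset.sum_congr rfl fun y _ => ?_
    change ∑ _z ∈ range (2 * B + 1) ×ˢ (range P ×ˢ (range P ×ˢ range P)), Real.sqrt (v x y) = _
    rw [Finset.sum_const, Finset.card_product, Finset.card_product, Finset.card_product,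
      Finset.card_range, Finset.card_range, nsmul_eq_mul, ← hLdef]
    push_cast
    ring
  have hT0 : 0 ≤ ∑ x ∈ Hs A, ∑ y ∈ Hs A, Real.sqrt (v x y) :=
    Finset.sum_nonneg fun x _ => Finset.sum_nonneg fun y _ => Real.sqrt_nonneg _
  have hLr : ((L : ℕ) : ℝ) = 2 * (B : ℝ) + 1 := by rw [hLdef]; push_cast; ring
  calc (W (sM A B) (wM a b) c 4 1 : ℝ)
      = ∑ g : SG c, ((cnt (sM A B) (fun i => red c (wM a b i)) 2 g : ℕ) : ℝ) ^ 2 := by
        rw [hW]; push_cast; rfl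
    _ ≤ ∑ g : SG c, (∑ t ∈ idx A B P, (blk c a b B n t g : ℝ)) ^ 2 :=
        Finset.sum_le_sum fun g _ => pow_le_pow_left₀ (Nat.cast_nonneg _) (hstep g) 2
    _ ≤ (∑ t ∈ idx A B P, Real.sqrt (∑ g : SG c, (blk c a b B n t g : ℝ) ^ 2)) ^ 2 := hmink
    _ ≤ (∑ t ∈ idx A B P, Real.sqrt (v t.1.1 t.1.2)) ^ 2 :=
        pow_le_pow_left₀ (Finset.sum_nonneg fun t _ => Real.sqrt_nonneg _)
          (Finset.sum_le_sum hsqrt) 2
    _ = ((L : ℝ) * (P : ℝ) ^ 3 * ∑ x ∈ Hs A, ∑ y ∈ Hs A, Real.sqrt (v x y)) ^ 2 := by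
        rw [hsum]
    _ ≤ ((2 * (B : ℝ) + 1) * (2 * (2 * (B : ℝ) + 1) / n) ^ 3 *
        ∑ x ∈ Hs A, ∑ y ∈ Hs A, Real.sqrt (v x y)) ^ 2 := by
        rw [← hLr]
        have hP0 : (0 : ℝ) ≤ P := Nat.cast_nonneg _
        have hL0 : (0 : ℝ) ≤ L := Nat.cast_nonneg _
        apply pow_le_pow_left₀
        · positivity
        · apply mul_le_mul_of_nonneg_right _ hT0
          apply mul_le_mul_of_nonneg_left _ hL0
          exact pow_le_pow_left₀ hP0 hPr 3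

end

end Pool.Agent.Helper28.SP.R2
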