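import Pool.Agent.Helper28.SP.St

/-!
# Project SR (MP_e188f1_nt), module R3: the sixth moment by Minkowski
-/

set_option autoImplicit false

namespace Pool.Agent.Helper28.SP.R3

open Pool.Agent.Helper28.SP Finset

/-- number of pairs with equal images -/
theorem pairs_card {G α : Type} [Fintype G] (S : Finset α) (φ : α → G)
    [DecidableEq G] :
    ∑ g : G, ((S.filter fun x => φ x = g).card) ^ 2 =
      ((S ×ˢ S).filter fun p => φ p.1 = φ p.2).card := by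
  have h1 : ((S ×ˢ S).filter fun p => φ p.1 = φ p.2).card =
      ∑ g : G, (((S ×ˢ S).filter fun p => φ p.1 = φ p.2).filter fun p => φ p.1 = g).card :=
    Finset.card_eq_sum_card_fiberwise (fun _ _ => Finset.mem_coe.2 (Finset.mem_univ _))
  rw [h1]
  refine Finset.sum_congr rfl fun g _ => ?_
  rw [sq, ← Finset.card_product]
  congr 1
  ext ⟨x, y⟩
  simp only [Finset.mem_product, Finset.mem_filter]
  constructor
  · rintro ⟨⟨hx, hxg⟩, hy, hyg⟩
    exact ⟨⟨⟨hx, hy⟩, by rw [hxg, hyg]⟩, hxg⟩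
  · rintro ⟨⟨⟨hx, hy⟩, hxy⟩, hxg⟩
    exact ⟨⟨hx, hxg⟩, hy, by rw [← hxy, hxg]⟩

/-- three letters as a cardinality -/
theorem cnt3 {G ι : Type} [Group G] [DecidableEq G] (s : Finset ι) (u : ι → G) (g : G) :
    cnt s u 3 g = ((s ×ˢ (s ×ˢ s)).filter fun p => u p.1 * u p.2.1 * u p.2.2 = g).card := by
  classical
  rw [Finset.card_filter, Finset.sum_product]
  simp only [Finset.sum_product, cnt]
  refine Finset.sum_congr rfl fun i _ => Finset.sum_congr rfl fun j _ =>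
    Finset.sum_congr rfl fun k _ => ?_
  have h : (u k)⁻¹ * ((u j)⁻¹ * ((u i)⁻¹ * g)) = 1 ↔ u i * u j * u k = g := by
    constructor
    · intro h
      have h2 : g = u i * (u j * (u k * 1)) := by rw [← h]; group
      rw [h2]; group
    · intro h
      rw [← h]; group
  by_cases hh : u i * u j * u k = g
  · rw [if_pos hh, if_pos (h.2 hh)]
  · rw [if_neg hh, if_neg (fun h3 => hh (h.1 h3))]

theorem Ll_mul {R : Type} [CommRing R] (x y : R) : Ll x * Ll y = Ll (x + y) := by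
  apply Subtype.ext
  change (!![1, 0; x, 1] : Matrix (Fin 2) (Fin 2) R) * !![1, 0; y, 1] = !![1, 0; x + y, 1]
  rw [Matrix.mul_fin_two]
  congr 1
  ext i j
  fin_cases i <;> fin_cases j <;> simp

theorem word3 (a b : ℤ) (i1 i2 i3 : ℤ × ℕ × ℕ) :
    wM a b i1 * wM a b i2 * wM a b i3 =
      F3 a b i1.1 i2.1 i3.1 (-(i1.2.1 : ℤ)) ((i1.2.2 : ℤ) - i2.2.1) ((i2.2.2 : ℤ) - i3.2.1)
        i3.2.2 := by
  unfold wM F3
  have h1 : (Ll (b * ((i1.2.2 : ℤ) - i2.2.1)) : SZ) = Ll (b * i1.2.2) * Ll (-(b * i2.2.1)) := by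
    rw [Ll_mul]; congr 1; ring
  have h2 : (Ll (b * ((i2.2.2 : ℤ) - i3.2.1)) : SZ) = Ll (b * i2.2.2) * Ll (-(b * i3.2.1)) := by
    rw [Ll_mul]; congr 1; ring
  have h3 : (Ll (b * (-(i1.2.1 : ℤ))) : SZ) = Ll (-(b * i1.2.1)) := by
    congr 1; ring
  rw [h1, h2, h3]
  simp only [mul_assoc]

theorem sym_map {G H ι : Type} [Group G] [Group H] (f : G →* H) (s : Finset ι) (u : ι → G)
    (h : Sym s u) : Sym s (fun i => f (u i)) := by
  obtain ⟨σ, hσ⟩ := h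
  refine ⟨σ, fun i hi => ⟨(hσ i hi).1, (hσ i hi).2.1, ?_⟩⟩
  show f (u (σ i)) = (f (u i))⁻¹
  rw [(hσ i hi).2.2, map_inv]

/-- index type of the pieces -/
abbrev Ix : Type := (ℤ × ℤ × ℤ) × (ℕ × ℕ) × (ℕ × ℕ × ℕ × ℕ)

/-- the pieces -/
noncomputable def box (B n : ℕ) (q : Ix) : Finset (ℤ × ℤ × ℤ × ℤ) :=
  Iv (-(2 * B : ℤ) + n * q.2.2.1) n ×ˢ
    (Iv ((q.2.1.1 : ℤ) - 2 * B + n * q.2.2.2.1) n ×ˢ
      (Iv ((q.2.1.2 : ℤ) - 2 * B + n * q.2.2.2.2.1) n ×ˢ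
        Iv (0 + n * q.2.2.2.2.2 : ℤ) n))

/-- the word of a point in a piece -/
noncomputable def wd (c : ℕ) (a b : ℤ) (q : Ix) (p : ℤ × ℤ × ℤ × ℤ) : SG c :=
  red c (F3 a b q.1.1 q.1.2.1 q.1.2.2 p.1 p.2.1 p.2.2.1 p.2.2.2)

/-- the set of indices -/
noncomputable def ix (A B P : ℕ) : Finset Ix :=
  (Hs A ×ˢ (Hs A ×ˢ Hs A)) ×ˢ ((range (2 * B + 1) ×ˢ range (2 * B + 1)) ×ˢ
    (range P ×ˢ (range P ×ˢ (range P ×ˢ range P))))

theorem mem_Iv_of {i : ℤ} {n r : ℕ} (hn : 1 ≤ n) :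
    i + r ∈ Iv (i + n * (r / n : ℕ)) n := by
  unfold Iv
  rw [Finset.mem_Ico]
  have h1 := Nat.div_add_mod r n
  have h2 := Nat.mod_lt r (by omega : n > 0)
  have h3 : (r : ℤ) = n * ((r / n : ℕ) : ℤ) + ((r % n : ℕ) : ℤ) := by exact_mod_cast h1.symm
  constructor
  · rw [h3]
    have : (0 : ℤ) ≤ ((r % n : ℕ) : ℤ) := by positivity
    linarith
  · have h4 : ((r % n : ℕ) : ℤ) < n := by exact_mod_cast h2
    linarith

theorem cnt_le {c : ℕ} [NeZero c] (a b : ℤ) (A B n P : ℕ) (hn : 1 ≤ n)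
    (hP : P = (2 * B + 1) / n + 1) (g : SG c) :
    cnt (sM A B) (fun i => red c (wM a b i)) 3 g ≤
      ∑ q ∈ ix A B P, ((box B n q).filter fun p => wd c a b q p = g).card := by
  classical
  rw [cnt3, ← Finset.card_sigma]
  refine Finset.card_le_card_of_injOn
    (fun p => (⟨((p.1.1, p.2.1.1, p.2.2.1), ((p.1.2.2, p.2.1.2.2),
      ((2 * B - p.1.2.1) / n, (2 * B - p.2.1.2.1) / n, (2 * B - p.2.2.2.1) / n,
        p.2.2.2.2 / n))),
      ((-(p.1.2.1 : ℤ)), (p.1.2.2 : ℤ) - p.2.1.2.1, (p.2.1.2.2 : ℤ) - p.2.2.2.1,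
        (p.2.2.2.2 : ℤ))⟩ : Σ _ : Ix, ℤ × ℤ × ℤ × ℤ)) ?_ ?_
  · rintro ⟨⟨h1, k1, k1'⟩, ⟨h2, k2, k2'⟩, ⟨h3, k3, k3'⟩⟩ hp
    simp only [sM, Finset.coe_filter, Finset.mem_product, Finset.mem_range, Set.mem_ofPred_eq]
      at hp
    obtain ⟨⟨⟨hh1, hk1, hk1'⟩, ⟨hh2, hk2, hk2'⟩, ⟨hh3, hk3, hk3'⟩⟩, hw⟩ := hp
    rw [Finset.mem_coe, Finset.mem_sigma, Finset.mem_filter]
    have hlt : ∀ r : ℕ, r < 2 * B + 1 → r / n < P := by
      intro r hr
      rw [hP]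
      exact Nat.lt_succ_of_le (Nat.div_le_div_right hr.le)
    refine ⟨?_, ?_, ?_⟩
    · simp only [ix, Finset.mem_product, Finset.mem_range]
      exact ⟨⟨hh1, hh2, hh3⟩, ⟨hk1', hk2'⟩, hlt _ (by omega), hlt _ (by omega), hlt _ (by omega),
        hlt _ hk3'⟩
    · simp only [box, Finset.mem_product]
      refine ⟨?_, ?_, ?_, ?_⟩
      · have := mem_Iv_of (i := -(2 * B : ℤ)) (r := 2 * B - k1) hn
        have e : -(2 * B : ℤ) + ((2 * B - k1 : ℕ) : ℤ) = -(k1 : ℤ) := by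
          rw [Nat.cast_sub (by omega)]; push_cast; ring
        rwa [e] at this
      · have := mem_Iv_of (i := (k1' : ℤ) - 2 * B) (r := 2 * B - k2) hn
        have e : (k1' : ℤ) - 2 * B + ((2 * B - k2 : ℕ) : ℤ) = (k1' : ℤ) - k2 := by
          rw [Nat.cast_sub (by omega)]; push_cast; ring
        rwa [e] at this
      · have := mem_Iv_of (i := (k2' : ℤ) - 2 * B) (r := 2 * B - k3) hn
        have e : (k2' : ℤ) - 2 * B + ((2 * B - k3 : ℕ) : ℤ) = (k2' : ℤ) - k3 := by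
          rw [Nat.cast_sub (by omega)]; push_cast; ring
        rwa [e] at this
      · have := mem_Iv_of (i := (0 : ℤ)) (r := k3') hn
        simpa using this
    · have := word3 a b (h1, k1, k1') (h2, k2, k2') (h3, k3, k3')
      unfold wd
      dsimp only at this hw ⊢
      rw [← this, map_mul, map_mul]
      exact hw
  · rintro ⟨⟨h1, k1, k1'⟩, ⟨h2, k2, k2'⟩, ⟨h3, k3, k3'⟩⟩ _
      ⟨⟨g1, l1, l1'⟩, ⟨g2, l2, l2'⟩, ⟨g3, l3, l3'⟩⟩ _ he
    simp only [Sigma.mk.injEq, Prod.mk.injEq, heq_eq_eq] at he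
    obtain ⟨⟨⟨e1, e2, e3⟩, ⟨e4, e5⟩, -⟩, e6, e7, e8, e9⟩ := he
    subst e1 e2 e3 e4 e5
    have f1 : k1 = l1 := by omega
    have f2 : k2 = l2 := by omega
    have f3 : k3 = l3 := by omega
    have f4 : k3' = l3' := by omega
    subst f1 f2 f3 f4
    rfl

theorem thm (h1 : StCONV) (h2 : StMINK) (h3 : StSYM) : StR3 := by
  classical
  intro c a b A B n v hc hn hv
  have : NeZero c := ⟨by omega⟩
  have hn1 : 1 ≤ n := by rw [hn]; exact le_min (by omega) hc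
  have hnB : n ≤ 2 * B + 1 := by rw [hn]; exact min_le_left _ _
  set P : ℕ := (2 * B + 1) / n + 1 with hP
  have hsym : Sym (sM A B) (fun i => red c (wM a b i)) := sym_map (red c) _ _ (h3 a b A B).1
  have hW : W (sM A B) (wM a b) c 6 1 =
      ∑ g : SG c, cnt (sM A B) (fun i => red c (wM a b i)) 3 g ^ 2 := by
    unfold W
    rw [map_one]
    exact h1 (SG c) (ℤ × ℕ × ℕ) (sM A B) (fun i => red c (wM a b i)) 3 hsym
  have hmink := h2 (SG c) Ix (ix A B P)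
    (fun q g => (((box B n q).filter fun p => wd c a b q p = g).card : ℝ))
    (fun _ _ => Nat.cast_nonneg _)
  have step1 : (W (sM A B) (wM a b) c 6 1 : ℝ) ≤
      ∑ g : SG c, (∑ q ∈ ix A B P,
        (((box B n q).filter fun p => wd c a b q p = g).card : ℝ)) ^ 2 := by
    rw [hW]
    push_cast
    refine Finset.sum_le_sum fun g _ => ?_
    refine pow_le_pow_left₀ (Nat.cast_nonneg _) ?_ 2
    have := cnt_le (c := c) a b A B n P hn1 hP g
    exact_mod_cast this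
  refine (step1.trans hmink).trans ?_
  have hsq : ∀ q ∈ ix A B P,
      Real.sqrt (∑ g : SG c, (((box B n q).filter fun p => wd c a b q p = g).card : ℝ) ^ 2) ≤
        Real.sqrt (v q.1.1 q.1.2.1 q.1.2.2) := by
    intro q hq
    refine Real.sqrt_le_sqrt ?_
    have hq' := hq
    simp only [ix, Finset.mem_product] at hq'
    have h4 := hv q.1.1 hq'.1.1 q.1.2.1 hq'.1.2.1 q.1.2.2 hq'.1.2.2
      (-(2 * B : ℤ) + n * q.2.2.1) ((q.2.1.1 : ℤ) - 2 * B + n * q.2.2.2.1)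
      ((q.2.1.2 : ℤ) - 2 * B + n * q.2.2.2.2.1) (0 + n * q.2.2.2.2.2 : ℤ)
    refine le_trans (le_of_eq ?_) h4
    have h5 := pairs_card (box B n q) (wd c a b q)
    have h6 : V3 c a b q.1.1 q.1.2.1 q.1.2.2 n
      (-(2 * B : ℤ) + n * q.2.2.1) ((q.2.1.1 : ℤ) - 2 * B + n * q.2.2.2.1)
      ((q.2.1.2 : ℤ) - 2 * B + n * q.2.2.2.2.1) (0 + n * q.2.2.2.2.2 : ℤ) =
      ((box B n q ×ˢ box B n q).filter fun p => wd c a b q p.1 = wd c a b q p.2).card := by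
      unfold V3 box wd
      congr 1
    rw [h6, ← h5]
    push_cast
    rfl
  have hsum : ∑ q ∈ ix A B P, Real.sqrt
      (∑ g : SG c, (((box B n q).filter fun p => wd c a b q p = g).card : ℝ) ^ 2) ≤
      (2 * (B : ℝ) + 1) ^ 2 * (2 * (2 * (B : ℝ) + 1) / n) ^ 4 *
        ∑ h1 ∈ Hs A, ∑ h2 ∈ Hs A, ∑ h3 ∈ Hs A, Real.sqrt (v h1 h2 h3) := by
    refine (Finset.sum_le_sum hsq).trans ?_
    have e1 : ∑ q ∈ ix A B P, Real.sqrt (v q.1.1 q.1.2.1 q.1.2.2) =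
        ((2 * (B : ℝ) + 1) ^ 2 * (P : ℝ) ^ 4) *
          ∑ h1 ∈ Hs A, ∑ h2 ∈ Hs A, ∑ h3 ∈ Hs A, Real.sqrt (v h1 h2 h3) := by
      unfold ix
      rw [Finset.sum_product, Finset.mul_sum, Finset.sum_product]
      refine Finset.sum_congr rfl fun x _ => ?_
      rw [Finset.mul_sum, Finset.sum_product]
      refine Finset.sum_congr rfl fun y _ => ?_
      rw [Finset.mul_sum]
      refine Finset.sum_congr rfl fun z _ => ?_
      show ∑ _y ∈ (range (2 * B + 1) ×ˢ range (2 * B + 1)) ×ˢ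
        (range P ×ˢ (range P ×ˢ (range P ×ˢ range P))), Real.sqrt (v x y z) = _
      rw [Finset.sum_const, Finset.card_product, Finset.card_product, Finset.card_product,
        Finset.card_product, Finset.card_product, Finset.card_range, Finset.card_range, nsmul_eq_mul]
      push_cast
      ring
    rw [e1]
    have hn0 : (0 : ℝ) < n := by exact_mod_cast hn1
    have hPle : (P : ℝ) ≤ 2 * (2 * (B : ℝ) + 1) / n := by
      have h7 : (((2 * B + 1) / n : ℕ) : ℝ) ≤ ((2 * B + 1 : ℕ) : ℝ) / n := Nat.cast_div_le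
      have h8 : (1 : ℝ) ≤ ((2 * B + 1 : ℕ) : ℝ) / n := by
        rw [le_div_iff₀ hn0, one_mul]
        exact_mod_cast hnB
      rw [hP]
      push_cast at h7 h8 ⊢
      have h9 : 2 * (2 * (B : ℝ) + 1) / n = (2 * (B : ℝ) + 1) / n + (2 * (B : ℝ) + 1) / n := by
        ring
      rw [h9]
      linarith
    have hS : 0 ≤ ∑ h1 ∈ Hs A, ∑ h2 ∈ Hs A, ∑ h3 ∈ Hs A, Real.sqrt (v h1 h2 h3) :=
      Finset.sum_nonneg fun _ _ => Finset.sum_nonneg fun _ _ => Finset.sum_nonneg fun _ _ =>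
        Real.sqrt_nonneg _
    refine mul_le_mul_of_nonneg_right ?_ hS
    refine mul_le_mul_of_nonneg_left ?_ (by positivity)
    exact pow_le_pow_left₀ (Nat.cast_nonneg _) hPle 4
  refine pow_le_pow_left₀ (Finset.sum_nonneg fun _ _ => Real.sqrt_nonneg _) hsum 2

end Pool.Agent.Helper28.SP.R3
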