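import Pool.Agent.Helper28.SP.St

set_option autoImplicit false

namespace Pool.Agent.Helper28.SP.V2

open Pool.Agent.Helper28.SP
open Finset Matrix
open Pool.Agent.Helper56.SW (τ)

/-- a residue class in an interval -/
theorem cls (i : ℤ) (n m : ℕ) (S : Finset ℤ) (hn : 1 ≤ n) (hm : 1 ≤ m) (hS : S ⊆ Iv i n)
    (hd : ∀ x ∈ S, ∀ y ∈ S, (m : ℤ) ∣ x - y) : (S.card : ℝ) ≤ (n : ℝ) / m + 1 := by
  rcases S.eq_empty_or_nonempty with hE | hne
  · rw [hE, Finset.card_empty]
    push_cast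
    positivity
  have hm0 : (0 : ℤ) < m := by exact_mod_cast hm
  have hmin : ∀ x ∈ S, S.min' hne ≤ x := fun x hx => S.min'_le x hx
  have hmem := S.min'_mem hne
  set y := S.min' hne with hy
  have h1 : S.card ≤ (Finset.range (n / m + 1)).card := by
    apply Finset.card_le_card_of_injOn (fun x : ℤ => ((x - y) / m).toNat)
    · intro x hx
      have hx' : x ∈ S := hx
      have hxB := Finset.mem_Ico.1 (hS hx')
      have hyB := Finset.mem_Ico.1 (hS hmem)
      have h2 : x - y ≤ n := by linarith [hxB.2, hyB.1]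
      have h3 : 0 ≤ x - y := by linarith [hmin x hx']
      have h4 : (x - y) / m ≤ (n : ℤ) / m := Int.ediv_le_ediv hm0 h2
      have h5 : 0 ≤ (x - y) / m := Int.ediv_nonneg h3 hm0.le
      have h6 : ((n / m : ℕ) : ℤ) = (n : ℤ) / m := by push_cast; rfl
      show ((x - y) / m).toNat ∈ ((Finset.range (n / m + 1) : Finset ℕ) : Set ℕ)
      rw [Finset.mem_coe, Finset.mem_range]
      have h7 : ((x - y) / m) ≤ ((n / m : ℕ) : ℤ) := by rw [h6]; exact h4
      omega
    · intro x hx x' hx' h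
      have hx1 : x ∈ S := hx
      have hx1' : x' ∈ S := hx'
      have h3 : 0 ≤ x - y := by linarith [hmin x hx1]
      have h3' : 0 ≤ x' - y := by linarith [hmin x' hx1']
      have h5 : 0 ≤ (x - y) / m := Int.ediv_nonneg h3 hm0.le
      have h5' : 0 ≤ (x' - y) / m := Int.ediv_nonneg h3' hm0.le
      have h6 : (x - y) / m = (x' - y) / m := by
        have h' : ((x - y) / m).toNat = ((x' - y) / m).toNat := h
        omega
      have h7 := Int.ediv_mul_cancel (hd x hx1 y hmem)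
      have h8 := Int.ediv_mul_cancel (hd x' hx1' y hmem)
      rw [h6, h8] at h7
      linarith
  rw [Finset.card_range] at h1
  have h2 : (S.card : ℝ) ≤ ((n / m : ℕ) : ℝ) + 1 := by exact_mod_cast h1
  have h3 : ((n / m : ℕ) : ℝ) ≤ (n : ℝ) / m := Nat.cast_div_le
  linarith

/-- cancel the common factor -/
theorem dvd_cancel (m : ℕ) (hm : 1 ≤ m) (x d : ℤ) (h : (m : ℤ) ∣ x * d) :
    ((m / Int.gcd x m : ℕ) : ℤ) ∣ d := by
  set g := Int.gcd x m with hg
  have hgm : g ∣ m := by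
    have := Int.gcd_dvd_right x (m : ℤ)
    exact_mod_cast this
  have hg0 : 0 < g := Nat.pos_of_dvd_of_pos hgm hm
  obtain ⟨m', hm'⟩ := hgm
  have h1 : (m : ℤ) ∣ (g : ℤ) * d := by
    have h2 : (g : ℤ) = x * Int.gcdA x m + m * Int.gcdB x m := Int.gcd_eq_gcd_ab x m
    rw [h2]
    have h3 : (x * Int.gcdA x m + m * Int.gcdB x m) * d =
        (x * d) * Int.gcdA x m + m * (Int.gcdB x m * d) := by ring
    rw [h3]
    exact dvd_add (Dvd.dvd.mul_right h _) (dvd_mul_right _ _)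
  have h4 : m / g = m' := by
    rw [hm']
    exact Nat.mul_div_cancel_left _ hg0
  rw [h4]
  have h5 : (g : ℤ) * m' ∣ (g : ℤ) * d := by
    have : ((m : ℕ) : ℤ) = (g : ℤ) * m' := by
      rw [hm']
      push_cast
      ring
    rw [← this]
    exact h1
  exact (mul_dvd_mul_iff_left (by exact_mod_cast hg0.ne')).1 h5

/-- a residue class modulo `m / gcd` in an interval -/
theorem cls' (i : ℤ) (n m : ℕ) (z : ℤ) (S : Finset ℤ) (hn : 1 ≤ n) (hm : 1 ≤ m)
    (hS : S ⊆ Iv i n) (hd : ∀ x ∈ S, ∀ y ∈ S, (m : ℤ) ∣ z * (x - y)) :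
    (S.card : ℝ) ≤ (n : ℝ) * (Int.gcd z m : ℝ) / m + 1 := by
  have hgm : Int.gcd z m ∣ m := by
    have := Int.gcd_dvd_right z (m : ℤ)
    exact_mod_cast this
  have hg0 : 0 < Int.gcd z m := Nat.pos_of_dvd_of_pos hgm hm
  have h1 : 1 ≤ m / Int.gcd z m := Nat.div_pos (Nat.le_of_dvd hm hgm) hg0
  have h2 := cls i n (m / Int.gcd z m) S hn h1 hS
    (fun x hx y hy => dvd_cancel m hm z (x - y) (hd x hx y hy))
  have h3 : ((m / Int.gcd z m : ℕ) : ℝ) = (m : ℝ) / (Int.gcd z m : ℝ) :=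
    Nat.cast_div hgm (by exact_mod_cast hg0.ne')
  rw [h3] at h2
  have h4 : (n : ℝ) / ((m : ℝ) / (Int.gcd z m : ℝ)) = (n : ℝ) * (Int.gcd z m : ℝ) / m := by
    have : (0 : ℝ) < Int.gcd z m := by exact_mod_cast hg0
    have : (0 : ℝ) < m := by exact_mod_cast hm
    field_simp
  rw [h4] at h2
  exact h2

theorem F2_coe (a b h1 h2 x k y : ℤ) :
    (F2 a b h1 h2 x k y : Matrix (Fin 2) (Fin 2) ℤ) =
      !![1, 0; b * x, 1] * !![1, a * h1; 0, 1] * !![1, 0; b * k, 1] * !![1, a * h2; 0, 1] *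
        !![1, 0; b * y, 1] := rfl

theorem F2_01 (a b h1 h2 x k y : ℤ) :
    (F2 a b h1 h2 x k y : Matrix (Fin 2) (Fin 2) ℤ) 0 1 = Xe a b h1 h2 k := by
  rw [F2_coe]
  simp only [Matrix.mul_apply, Fin.sum_univ_two]
  simp [Xe]
  ring

theorem F2_11 (a b h1 h2 x k y : ℤ) :
    (F2 a b h1 h2 x k y : Matrix (Fin 2) (Fin 2) ℤ) 1 1 =
      1 + b * k * (a * h2) + b * x * Xe a b h1 h2 k := by
  rw [F2_coe]
  simp only [Matrix.mul_apply, Fin.sum_univ_two]
  simp [Xe]
  ring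

theorem red_entry {c : ℕ} {g h : SZ} (e : red c g = red c h) (i j : Fin 2) :
    (c : ℤ) ∣ (g : Matrix (Fin 2) (Fin 2) ℤ) i j - (h : Matrix (Fin 2) (Fin 2) ℤ) i j := by
  have h1 : (red c g : Matrix (Fin 2) (Fin 2) (ZMod c)) i j =
      (red c h : Matrix (Fin 2) (Fin 2) (ZMod c)) i j := by rw [e]
  have h2 : (((g : Matrix (Fin 2) (Fin 2) ℤ) i j : ℤ) : ZMod c) =
      (((h : Matrix (Fin 2) (Fin 2) ℤ) i j : ℤ) : ZMod c) := h1
  have h3 : (((g : Matrix (Fin 2) (Fin 2) ℤ) i j - (h : Matrix (Fin 2) (Fin 2) ℤ) i j : ℤ) :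
      ZMod c) = 0 := by
    push_cast
    rw [h2, sub_self]
  exact (ZMod.intCast_zmod_eq_zero_iff_dvd _ c).1 h3

theorem red_Ll {c : ℕ} {y y' : ℤ} (e : red c (Ll y) = red c (Ll y')) : (c : ℤ) ∣ y - y' := by
  have := red_entry e 1 0
  simpa [Ll] using this

theorem coprime_dvd {m : ℤ} {a x : ℤ} (h : IsCoprime a m) (hd : m ∣ a * x) : m ∣ x :=
  h.symm.dvd_of_dvd_mul_left hd

/-- the `y`-part -/
theorem y_unique {c : ℕ} {a b h1 h2 x k y x' k' y1 y2 : ℤ} (hb : IsCoprime b c)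
    (e1 : red c (F2 a b h1 h2 x k y) = red c (F2 a b h1 h2 x' k' y1))
    (e2 : red c (F2 a b h1 h2 x k y) = red c (F2 a b h1 h2 x' k' y2)) : (c : ℤ) ∣ y1 - y2 := by
  rw [e1] at e2
  unfold F2 at e2
  rw [map_mul, map_mul _ _ (Ll (b * y2))] at e2
  have h3 := red_Ll (mul_left_cancel e2)
  have h4 : b * y1 - b * y2 = b * (y1 - y2) := by ring
  rw [h4] at h3
  exact coprime_dvd hb h3

theorem iv_eq {c n : ℕ} {i x y : ℤ} (hn : n ≤ c) (hx : x ∈ Iv i n) (hy : y ∈ Iv i n)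
    (h : (c : ℤ) ∣ x - y) : x = y := by
  have h1 := Finset.mem_Ico.1 hx
  have h2 := Finset.mem_Ico.1 hy
  have h3 : |x - y| < c := by
    have : (n : ℤ) ≤ c := by exact_mod_cast hn
    rw [abs_lt]
    constructor <;> linarith [h1.1, h1.2, h2.1, h2.2]
  have h4 := Int.eq_zero_of_abs_lt_dvd h h3
  linarith

theorem X_sub (a b h1 h2 k k' : ℤ) :
    Xe a b h1 h2 k - Xe a b h1 h2 k' = a * (a * (b * ((h1 * h2) * (k - k')))) := by
  unfold Xe
  ring

theorem card_Iv (i : ℤ) (n : ℕ) : (Iv i n).card = n := by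
  unfold Iv
  rw [Int.card_Ico]
  simp

theorem thm : StV2 := by
  intro c a b h1 h2 n i0 i1 i2 hc ha hb hn hnc
  classical
  set X : ℤ → ℤ := Xe a b h1 h2 with hX
  set Γ : ℝ := (Int.gcd h1 c : ℝ) * Int.gcd h2 c with hΓ
  have hc0 : (0 : ℝ) < c := by exact_mod_cast hc
  have hn0 : (0 : ℝ) < n := by exact_mod_cast hn
  have hnc' : (n : ℝ) ≤ c := by exact_mod_cast hnc
  have hτ : 1 ≤ τ c := by
    unfold τ
    have : 0 < c.divisors.card := Finset.card_pos.2 ⟨1, Nat.mem_divisors.2 ⟨one_dvd _, by omega⟩⟩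
    exact_mod_cast this
  have hg1 : 1 ≤ Int.gcd h1 c := by
    have h := Int.gcd_dvd_right h1 (c : ℤ)
    have h' : Int.gcd h1 c ∣ c := by exact_mod_cast h
    exact Nat.pos_of_dvd_of_pos h' hc
  have hg2 : 1 ≤ Int.gcd h2 c := by
    have h := Int.gcd_dvd_right h2 (c : ℤ)
    have h' : Int.gcd h2 c ∣ c := by exact_mod_cast h
    exact Nat.pos_of_dvd_of_pos h' hc
  have hΓ1 : 1 ≤ Γ := by
    have e1 : (1 : ℝ) ≤ Int.gcd h1 c := by exact_mod_cast hg1
    have e2 : (1 : ℝ) ≤ Int.gcd h2 c := by exact_mod_cast hg2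
    nlinarith
  -- the gcd of the product
  have hG : ∀ g : ℕ, g ∣ c → (Int.gcd (h1 * h2) g : ℝ) ≤ Γ := by
    intro g hg
    have e1 : Int.gcd (h1 * h2) g ∣ Int.gcd (h1 * h2) c := by
      have : ((Int.gcd (h1 * h2) g : ℕ) : ℤ) ∣ ((Int.gcd (h1 * h2) c : ℕ) : ℤ) := by
        apply Int.dvd_coe_gcd
        · exact Int.gcd_dvd_left _ _
        · exact (Int.gcd_dvd_right _ _).trans (by exact_mod_cast hg)
      exact_mod_cast this
    have e2 : Int.gcd (h1 * h2) c ∣ Int.gcd h1 c * Int.gcd h2 c := by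
      unfold Int.gcd
      rw [Int.natAbs_mul]
      have := Nat.gcd_mul_right_dvd_mul_gcd (c : ℤ).natAbs h1.natAbs h2.natAbs
      rw [Nat.gcd_comm, Nat.gcd_comm h1.natAbs, Nat.gcd_comm h2.natAbs]
      exact this
    have e3 := Nat.le_of_dvd (Nat.mul_pos hg1 hg2) (e1.trans e2)
    rw [hΓ]
    exact_mod_cast e3
  -- differences of X
  have hXd : ∀ m : ℕ, m ∣ c → ∀ k k' : ℤ, (m : ℤ) ∣ X k - X k' → (m : ℤ) ∣ (h1 * h2) * (k - k') := by
    intro m hm k k' h
    have hmc : (m : ℤ) ∣ (c : ℤ) := by exact_mod_cast hm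
    have ha' : IsCoprime a (m : ℤ) := IsCoprime.of_isCoprime_of_dvd_right ha hmc
    have hb' : IsCoprime b (m : ℤ) := IsCoprime.of_isCoprime_of_dvd_right hb hmc
    rw [hX, X_sub] at h
    exact coprime_dvd hb' (coprime_dvd ha' (coprime_dvd ha' h))
  set s := Iv i0 n with hs
  set t := Iv i1 n with ht
  set w := Iv i2 n with hw
  -- quadruples
  set Q : Finset ((ℤ × ℤ) × (ℤ × ℤ)) := ((t ×ˢ t) ×ˢ (s ×ˢ s)).filter fun q =>
    (c : ℤ) ∣ X q.1.1 - X q.1.2 ∧
    (c : ℤ) ∣ (1 + b * q.1.1 * (a * h2) + b * q.2.1 * X q.1.1) -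
      (1 + b * q.1.2 * (a * h2) + b * q.2.2 * X q.1.2) with hQ
  have step1 : V2 c a b h1 h2 n i0 i1 i2 ≤ n * Q.card := by
    unfold V2
    apply Finset.card_le_mul_card_image_of_maps_to
      (f := fun p : (ℤ × ℤ × ℤ) × (ℤ × ℤ × ℤ) => ((p.1.2.1, p.2.2.1), (p.1.1, p.2.1)))
    · intro p hp
      rw [Finset.mem_filter, Finset.mem_product, Finset.mem_product, Finset.mem_product,
        Finset.mem_product, Finset.mem_product] at hp
      obtain ⟨⟨⟨q1, q2, q3⟩, ⟨q4, q5, q6⟩⟩, e⟩ := hp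
      rw [hQ, Finset.mem_filter, Finset.mem_product, Finset.mem_product, Finset.mem_product]
      refine ⟨⟨⟨q2, q5⟩, ⟨q1, q4⟩⟩, ?_, ?_⟩
      · have := red_entry e 0 1
        rw [F2_01, F2_01] at this
        exact this
      · have := red_entry e 1 1
        rw [F2_11, F2_11] at this
        exact this
    · rintro ⟨⟨k, k'⟩, ⟨x, x'⟩⟩ _
      refine (Finset.card_le_card_of_injOn (t := w) (fun p => p.1.2.2) ?_ ?_).trans
        (le_of_eq (card_Iv i2 n))
      · intro p hp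
        rw [Finset.mem_coe, Finset.mem_filter, Finset.mem_filter, Finset.mem_product,
          Finset.mem_product, Finset.mem_product] at hp
        exact hp.1.1.1.2.2
      · rintro ⟨⟨x1, k1, y1⟩, ⟨x1', k1', y1'⟩⟩ hp ⟨⟨x2, k2, y2⟩, ⟨x2', k2', y2'⟩⟩ hq hy
        rw [Finset.mem_coe, Finset.mem_filter, Finset.mem_filter, Finset.mem_product,
          Finset.mem_product, Finset.mem_product, Finset.mem_product, Finset.mem_product] at hp hq
        obtain ⟨⟨⟨_, ⟨_, _, p6⟩⟩, e1⟩, f1⟩ := hp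
        obtain ⟨⟨⟨_, ⟨_, _, q6⟩⟩, e2⟩, f2⟩ := hq
        simp only [Prod.mk.injEq] at f1 f2 hy e1 e2
        obtain ⟨⟨rfl, rfl⟩, rfl, rfl⟩ := f1
        obtain ⟨⟨rfl, rfl⟩, rfl, rfl⟩ := f2
        subst hy
        have h3 : y1' = y2' := iv_eq hnc p6 q6 (y_unique hb e1 e2)
        rw [h3]
  -- the number of k for given k'
  set D : Finset (ℤ × ℤ) := (t ×ˢ t).filter fun q => (c : ℤ) ∣ X q.1 - X q.2 with hD
  have hclsk : ∀ m : ℕ, 1 ≤ m → m ∣ c → ∀ S ⊆ t, (∀ x ∈ S, ∀ y ∈ S, (m : ℤ) ∣ X x - X y) →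
      (S.card : ℝ) ≤ 2 * Γ * (c / m) := by
    intro m hm hmc S hS hd
    have h3 := cls' i1 n m (h1 * h2) S hn hm hS (fun x hx y hy => hXd m hmc x y (hd x hx y hy))
    have hm0 : (0 : ℝ) < m := by exact_mod_cast hm
    have hmc' : (m : ℝ) ≤ c := by exact_mod_cast Nat.le_of_dvd hc hmc
    have h4 := hG m hmc
    have h5 : (n : ℝ) * (Int.gcd (h1 * h2) m : ℝ) / m ≤ c * Γ / m := by
      apply div_le_div_of_nonneg_right _ hm0.le
      exact mul_le_mul hnc' h4 (by positivity) hc0.le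
    have h6 : (1 : ℝ) ≤ c * Γ / m := by
      rw [le_div_iff₀ hm0]
      nlinarith
    have h7 : 2 * Γ * (c / m) = c * Γ / m + c * Γ / m := by ring
    linarith
  have hk' : ∀ k' ∈ t, (((D.filter fun q => q.2 = k').card : ℕ) : ℝ) ≤ 2 * Γ := by
    intro k' _
    have h3 : (D.filter fun q => q.2 = k').card = ((D.filter fun q => q.2 = k').image
        Prod.fst).card := by
      rw [Finset.card_image_of_injOn]
      rintro ⟨x, y⟩ hx ⟨x', y'⟩ hx' h
      rw [Finset.mem_coe, Finset.mem_filter] at hx hx'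
      have e1 : y = k' := hx.2
      have e2 : y' = k' := hx'.2
      have e3 : x = x' := h
      rw [e1, e2, e3]
    rw [h3]
    have h4 := hclsk c hc dvd_rfl ((D.filter fun q => q.2 = k').image Prod.fst) ?_ ?_
    · rw [div_self hc0.ne', mul_one] at h4
      exact h4
    · intro x hx
      obtain ⟨q, hq, rfl⟩ := Finset.mem_image.1 hx
      rw [Finset.mem_filter, hD, Finset.mem_filter, Finset.mem_product] at hq
      exact hq.1.1.1
    · intro x hx y hy
      obtain ⟨q, hq, rfl⟩ := Finset.mem_image.1 hx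
      obtain ⟨r, hr, rfl⟩ := Finset.mem_image.1 hy
      rw [Finset.mem_filter, hD, Finset.mem_filter] at hq hr
      have e1 := hq.1.2
      have e2 := hr.1.2
      rw [hq.2] at e1
      rw [hr.2] at e2
      have e3 : X q.1 - X r.1 = (X q.1 - X k') - (X r.1 - X k') := by ring
      rw [e3]
      exact dvd_sub e1 e2
  -- the number of (x, x') for given (k, k')
  have hx' : ∀ q ∈ D, (((Q.filter fun r => r.1 = q).card : ℕ) : ℝ) ≤
      n * ((n : ℝ) * (Int.gcd (X q.2) c : ℝ) / c + 1) := by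
    rintro ⟨k, k'⟩ _
    have h3 : (Q.filter fun r => r.1 = (k, k')).card =
        ∑ x ∈ s, ((Q.filter fun r => r.1 = (k, k')).filter fun r => r.2.1 = x).card := by
      apply Finset.card_eq_sum_card_fiberwise
      intro r hr
      rw [Finset.mem_coe, Finset.mem_filter, hQ, Finset.mem_filter, Finset.mem_product,
        Finset.mem_product, Finset.mem_product] at hr
      exact hr.1.1.2.1
    rw [h3]
    push_cast
    have h4 : ∀ x ∈ s, ((((Q.filter fun r => r.1 = (k, k')).filter fun r => r.2.1 = x).card : ℕ) :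
        ℝ) ≤ (n : ℝ) * (Int.gcd (X k') c : ℝ) / c + 1 := by
      intro x _
      have h5 : ((Q.filter fun r => r.1 = (k, k')).filter fun r => r.2.1 = x).card =
          (((Q.filter fun r => r.1 = (k, k')).filter fun r => r.2.1 = x).image
            fun r => r.2.2).card := by
        rw [Finset.card_image_of_injOn]
        rintro ⟨⟨u1, u2⟩, ⟨u3, u4⟩⟩ hx1 ⟨⟨v1, v2⟩, ⟨v3, v4⟩⟩ hx2 h
        rw [Finset.mem_coe, Finset.mem_filter, Finset.mem_filter] at hx1 hx2
        have e1 : ((u1, u2) : ℤ × ℤ) = (k, k') := hx1.1.2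
        have e2 : ((v1, v2) : ℤ × ℤ) = (k, k') := hx2.1.2
        have e3 : u3 = x := hx1.2
        have e4 : v3 = x := hx2.2
        have e5 : u4 = v4 := h
        rw [e1, e2, e3, e4, e5]
      rw [h5]
      apply cls' i0 n c (X k') _ hn hc
      · intro y hy
        obtain ⟨r, hr, rfl⟩ := Finset.mem_image.1 hy
        rw [Finset.mem_filter, Finset.mem_filter, hQ, Finset.mem_filter, Finset.mem_product,
          Finset.mem_product, Finset.mem_product] at hr
        exact hr.1.1.1.2.2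
      · intro y hy z hz
        obtain ⟨r, hr, rfl⟩ := Finset.mem_image.1 hy
        obtain ⟨r', hr', rfl⟩ := Finset.mem_image.1 hz
        rw [Finset.mem_filter, Finset.mem_filter, hQ, Finset.mem_filter] at hr hr'
        obtain ⟨⟨⟨_, _, e1⟩, e2⟩, e3⟩ := hr
        obtain ⟨⟨⟨_, _, e4⟩, e5⟩, e6⟩ := hr'
        rw [e2, e3] at e1
        rw [e5, e6] at e4
        have e7 := dvd_sub e4 e1
        have e8 : (1 + b * (k, k').1 * (a * h2) + b * x * X (k, k').1 -
            (1 + b * (k, k').2 * (a * h2) + b * r'.2.2 * X (k, k').2)) -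
            (1 + b * (k, k').1 * (a * h2) + b * x * X (k, k').1 -
            (1 + b * (k, k').2 * (a * h2) + b * r.2.2 * X (k, k').2)) =
            b * (X k' * (r.2.2 - r'.2.2)) := by ring
        rw [e8] at e7
        exact coprime_dvd hb e7
    refine (Finset.sum_le_sum h4).trans ?_
    rw [Finset.sum_const, hs, card_Iv, nsmul_eq_mul]
  -- sum
  have step2 : (Q.card : ℝ) ≤ ∑ q ∈ D, (n * ((n : ℝ) * (Int.gcd (X q.2) c : ℝ) / c + 1)) := by
    have h3 : Q.card = ∑ q ∈ D, (Q.filter fun r => r.1 = q).card := by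
      apply Finset.card_eq_sum_card_fiberwise
      intro r hr
      rw [Finset.mem_coe, hQ, Finset.mem_filter, Finset.mem_product] at hr
      rw [Finset.mem_coe, hD, Finset.mem_filter]
      exact ⟨hr.1.1, hr.2.1⟩
    rw [h3]
    push_cast
    exact Finset.sum_le_sum hx'
  have step3 : ∑ q ∈ D, (n * ((n : ℝ) * (Int.gcd (X q.2) c : ℝ) / c + 1)) ≤
      ∑ k' ∈ t, 2 * Γ * (n * ((n : ℝ) * (Int.gcd (X k') c : ℝ) / c + 1)) := by
    have h3 : ∑ q ∈ D, (n * ((n : ℝ) * (Int.gcd (X q.2) c : ℝ) / c + 1)) =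
        ∑ k' ∈ t, ∑ q ∈ D.filter (fun q => q.2 = k'),
          (n * ((n : ℝ) * (Int.gcd (X q.2) c : ℝ) / c + 1)) := by
      rw [Finset.sum_fiberwise_of_maps_to]
      intro q hq
      rw [hD, Finset.mem_filter, Finset.mem_product] at hq
      exact hq.1.2
    rw [h3]
    apply Finset.sum_le_sum
    intro k' hk
    have h4 : ∑ q ∈ D.filter (fun q => q.2 = k'),
          (n * ((n : ℝ) * (Int.gcd (X q.2) c : ℝ) / c + 1)) =
        ∑ q ∈ D.filter (fun q => q.2 = k'),
          (n * ((n : ℝ) * (Int.gcd (X k') c : ℝ) / c + 1)) := by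
      apply Finset.sum_congr rfl
      intro q hq
      rw [(Finset.mem_filter.1 hq).2]
    rw [h4, Finset.sum_const, nsmul_eq_mul]
    exact mul_le_mul_of_nonneg_right (hk' k' hk) (by positivity)
  -- the sum over k'
  have step4 : ∑ k' ∈ t, (n : ℝ) * (Int.gcd (X k') c : ℝ) / c ≤ τ c * (2 * n * Γ) := by
    have h3 : ∑ k' ∈ t, (n : ℝ) * (Int.gcd (X k') c : ℝ) / c =
        ∑ g ∈ c.divisors, ∑ k' ∈ t.filter (fun k' => Int.gcd (X k') c = g),
          (n : ℝ) * (Int.gcd (X k') c : ℝ) / c := by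
      rw [Finset.sum_fiberwise_of_maps_to]
      intro k' _
      rw [Nat.mem_divisors]
      refine ⟨?_, by omega⟩
      have := Int.gcd_dvd_right (X k') (c : ℤ)
      exact_mod_cast this
    rw [h3]
    have h4 : ∀ g ∈ c.divisors, ∑ k' ∈ t.filter (fun k' => Int.gcd (X k') c = g),
          (n : ℝ) * (Int.gcd (X k') c : ℝ) / c ≤ 2 * n * Γ := by
      intro g hg
      have hgc : g ∣ c := Nat.dvd_of_mem_divisors hg
      have hg0 : 1 ≤ g := Nat.pos_of_mem_divisors hg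
      have h5 : ∑ k' ∈ t.filter (fun k' => Int.gcd (X k') c = g),
          (n : ℝ) * (Int.gcd (X k') c : ℝ) / c =
          ∑ k' ∈ t.filter (fun k' => Int.gcd (X k') c = g), (n : ℝ) * g / c := by
        apply Finset.sum_congr rfl
        intro k' hk
        rw [(Finset.mem_filter.1 hk).2]
      rw [h5, Finset.sum_const, nsmul_eq_mul]
      have h6 := hclsk g hg0 hgc (t.filter (fun k' => Int.gcd (X k') c = g))
        (Finset.filter_subset _ _) (fun x hx y hy => by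
          have e1 : (g : ℤ) ∣ X x := by
            rw [← (Finset.mem_filter.1 hx).2]
            exact Int.gcd_dvd_left _ _
          have e2 : (g : ℤ) ∣ X y := by
            rw [← (Finset.mem_filter.1 hy).2]
            exact Int.gcd_dvd_left _ _
          exact dvd_sub e1 e2)
      have hg0' : (0 : ℝ) < g := by exact_mod_cast hg0
      calc ((t.filter (fun k' => Int.gcd (X k') c = g)).card : ℝ) * ((n : ℝ) * g / c)
          ≤ (2 * Γ * (c / g)) * ((n : ℝ) * g / c) :=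
            mul_le_mul_of_nonneg_right h6 (by positivity)
        _ = 2 * n * Γ := by field_simp
    refine (Finset.sum_le_sum h4).trans ?_
    rw [Finset.sum_const, nsmul_eq_mul]
    rfl
  -- conclusion
  have hQ' : (Q.card : ℝ) ≤ 2 * Γ * n * (n + τ c * (2 * n * Γ)) := by
    refine (step2.trans step3).trans ?_
    have h3 : ∑ k' ∈ t, 2 * Γ * (n * ((n : ℝ) * (Int.gcd (X k') c : ℝ) / c + 1)) =
        2 * Γ * n * (∑ k' ∈ t, (n : ℝ) * (Int.gcd (X k') c : ℝ) / c + n) := by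
      have h4 : (n : ℝ) = ∑ k' ∈ t, (1 : ℝ) := by
        rw [Finset.sum_const, ht, card_Iv, nsmul_eq_mul, mul_one]
      conv_rhs => rw [h4]
      rw [← Finset.sum_add_distrib, Finset.mul_sum]
      apply Finset.sum_congr rfl
      intro k' _
      rw [← h4]
      ring
    rw [h3]
    apply mul_le_mul_of_nonneg_left _ (by positivity)
    linarith
  have h9 : (V2 c a b h1 h2 n i0 i1 i2 : ℝ) ≤ n * Q.card := by exact_mod_cast step1
  refine h9.trans ?_
  have h10 : (n : ℝ) * Q.card ≤ n * (2 * Γ * n * (n + τ c * (2 * n * Γ))) :=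
    mul_le_mul_of_nonneg_left hQ' hn0.le
  refine h10.trans ?_
  have h11 : (n : ℝ) * (2 * Γ * n * (n + τ c * (2 * n * Γ))) =
      (n : ℝ) ^ 3 * (2 * Γ + 4 * (τ c * Γ ^ 2)) := by ring
  have h12 : 12 * τ c * (n : ℝ) ^ 3 * Γ ^ 2 = (n : ℝ) ^ 3 * (12 * (τ c * Γ ^ 2)) := by ring
  rw [h11, h12]
  apply mul_le_mul_of_nonneg_left _ (by positivity)
  have h13 : Γ ≤ τ c * Γ ^ 2 := by
    have e1 : Γ * 1 ≤ Γ * (τ c * Γ) := by
      apply mul_le_mul_of_nonneg_left _ (by linarith)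
      nlinarith
    nlinarith
  have h14 : 0 ≤ τ c * Γ ^ 2 := by positivity
  linarith

end Pool.Agent.Helper28.SP.V2
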