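import Pool.Agent.Helper28.SP.St

/-!
# Module V3: assembly of the bound for three letters
-/

set_option autoImplicit false

namespace Pool.Agent.Helper28.SP.V3

open Finset Matrix
open Pool.Agent.Helper28.SP
open Pool.Agent.Helper56.SW (τ)

private theorem one_le_tau (c : ℕ) (hc : 1 ≤ c) : (1 : ℝ) ≤ τ c := by
  have : 0 < c.divisors.card := Finset.card_pos.mpr ⟨1, Nat.one_mem_divisors.mpr (by omega)⟩
  have h : (1 : ℝ) ≤ (c.divisors.card : ℝ) := by exact_mod_cast this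
  exact h

private theorem sum_Z3_le (c : ℕ) (a b h1 h2 h3 : ℤ) (n : ℕ) (i1 i2 : ℤ) :
    ∑ g ∈ c.divisors, Z3 c a b h1 h2 h3 n i1 i2 g ≤ En c a b h1 h2 h3 n i1 i2 := by
  classical
  unfold Z3 En
  rw [← Finset.card_biUnion]
  · refine Finset.card_le_card ?_
    intro p hp
    simp only [Finset.mem_biUnion, Finset.mem_filter] at hp ⊢
    obtain ⟨g, _, h1, h2, _⟩ := hp
    exact ⟨h1, h2⟩
  · intro g _ g' _ hne
    rw [Function.onFun, Finset.disjoint_left]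
    intro p hp hp'
    simp only [Finset.mem_filter] at hp hp'
    exact hne (hp.2.2.1.symm.trans hp'.2.2.1)

private theorem gcd_mul_le (h k : ℤ) (c : ℕ) (hc : 1 ≤ c) :
    Int.gcd (h * k) c ≤ Int.gcd h c * Int.gcd k c := by
  apply Nat.le_of_dvd
  · exact Nat.mul_pos (Int.gcd_pos_of_ne_zero_right _ (by exact_mod_cast (by omega : c ≠ 0)))
      (Int.gcd_pos_of_ne_zero_right _ (by exact_mod_cast (by omega : c ≠ 0)))
  · rw [Int.gcd_def, Int.gcd_def, Int.gcd_def, Int.natAbs_mul, Int.natAbs_natCast, Nat.gcd_comm,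
      Nat.gcd_comm h.natAbs, Nat.gcd_comm k.natAbs]
    exact Nat.gcd_mul_right_dvd_mul_gcd _ _ _

theorem thm (h1 : StVZ) (h2 : StEN) (h3 : StZ1) (h4 : StZ2) : StV3 := by
  intro c a b x1 x2 x3 n i0 i1 i2 i3 D hc ha hb hn hnc hcn hg3 hD
  have hcR : (1 : ℝ) ≤ c := by exact_mod_cast hc
  have hnR : (1 : ℝ) ≤ n := by exact_mod_cast hn
  have hncR : (n : ℝ) ≤ c := by exact_mod_cast hnc
  have hcnR : (c : ℝ) ≤ (n : ℝ) ^ 2 := by exact_mod_cast hcn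
  have hτ := one_le_tau c hc
  have hτ0 : (0 : ℝ) ≤ τ c := by linarith
  have hD1 : 1 ≤ D := le_trans (one_le_tau 1 le_rfl) (hD 1 le_rfl (Nat.one_le_pow _ _ hn))
  set Γ : ℝ := (Int.gcd x1 c : ℝ) * Int.gcd x2 c * Int.gcd x3 c with hΓ
  have hc0 : (c : ℤ) ≠ 0 := by exact_mod_cast (by omega : c ≠ 0)
  have hg1' : (1 : ℝ) ≤ Int.gcd x1 c := by
    exact_mod_cast Int.gcd_pos_of_ne_zero_right x1 hc0
  have hg2' : (1 : ℝ) ≤ Int.gcd x2 c := by
    exact_mod_cast Int.gcd_pos_of_ne_zero_right x2 hc0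
  have hg3' : (1 : ℝ) ≤ Int.gcd x3 c := by
    exact_mod_cast Int.gcd_pos_of_ne_zero_right x3 hc0
  have hΓ1 : 1 ≤ Γ := one_le_mul_of_one_le_of_one_le
    (one_le_mul_of_one_le_of_one_le hg1' hg2') hg3'
  have hG3 : (Int.gcd (x1 * x2 * x3) c : ℝ) ≤ Γ := by
    have e1 := gcd_mul_le (x1 * x2) x3 c hc
    have e2 := gcd_mul_le x1 x2 c hc
    have e3 : Int.gcd (x1 * x2 * x3) c ≤ Int.gcd x1 c * Int.gcd x2 c * Int.gcd x3 c :=
      e1.trans (Nat.mul_le_mul_right _ e2)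
    rw [hΓ]
    exact_mod_cast e3
  set K : ℝ := 72 * τ c ^ 2 * (n : ℝ) ^ 4 * Γ ^ 2 / c with hK
  have hcpos : (0 : ℝ) < c := by linarith
  have hterm : ∀ g ∈ c.divisors, ((n : ℝ) * g / c + 1) * (Z3 c a b x1 x2 x3 n i1 i2 g : ℝ) ≤
      2 * (Z3 c a b x1 x2 x3 n i1 i2 g : ℝ) + K := by
    intro g hg
    have hgd : g ∣ c := Nat.dvd_of_mem_divisors hg
    have hg0 : 1 ≤ g := Nat.pos_of_mem_divisors hg
    have hgR : (1 : ℝ) ≤ g := by exact_mod_cast hg0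
    have hgc : (g : ℝ) ≤ c := by exact_mod_cast Nat.le_of_dvd hc hgd
    have hZ0 : (0 : ℝ) ≤ (Z3 c a b x1 x2 x3 n i1 i2 g : ℝ) := Nat.cast_nonneg _
    have hK0 : 0 ≤ K := by rw [hK]; positivity
    rcases le_or_gt ((n : ℝ) * g) c with hle | hgt
    · have : (n : ℝ) * g / c ≤ 1 := (div_le_one hcpos).mpr hle
      nlinarith
    · have h1' : 1 ≤ (n : ℝ) * g / c := (one_le_div hcpos).mpr hgt.le
      have hmain : (2 * ((n : ℝ) * g / c)) * (Z3 c a b x1 x2 x3 n i1 i2 g : ℝ) ≤ K := by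
        rcases le_or_gt g n with hgn | hgn
        · have hz := h3 c a b x1 x2 x3 n i1 i2 g hc ha hb hn hnc hgd hgn hg3
          calc (2 * ((n : ℝ) * g / c)) * (Z3 c a b x1 x2 x3 n i1 i2 g : ℝ)
              ≤ (2 * ((n : ℝ) * g / c)) * (16 * τ c ^ 2 * (n : ℝ) ^ 3 * Γ ^ 2 / g) :=
                mul_le_mul_of_nonneg_left hz (by positivity)
            _ = 32 * τ c ^ 2 * (n : ℝ) ^ 4 * Γ ^ 2 / c := by
                field_simp
                ring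
            _ ≤ K := by
                rw [hK]
                apply div_le_div_of_nonneg_right _ hcpos.le
                have : 0 ≤ (τ c : ℝ) ^ 2 * (n : ℝ) ^ 4 * Γ ^ 2 := by positivity
                nlinarith
        · have hz := h4 c a b x1 x2 x3 n i1 i2 g hc ha hb hn hnc hgd hgn hg3
          calc (2 * ((n : ℝ) * g / c)) * (Z3 c a b x1 x2 x3 n i1 i2 g : ℝ)
              ≤ (2 * ((n : ℝ) * g / c)) * (36 * τ c * (n : ℝ) * Γ ^ 2) :=
                mul_le_mul_of_nonneg_left hz (by positivity)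
            _ = 72 * τ c * (n : ℝ) ^ 2 * g * Γ ^ 2 / c := by
                field_simp
                ring
            _ ≤ K := by
                rw [hK]
                apply div_le_div_of_nonneg_right _ hcpos.le
                have e1 : (τ c : ℝ) ≤ (τ c : ℝ) ^ 2 := by nlinarith
                have e2 : (g : ℝ) ≤ (n : ℝ) ^ 2 := hgc.trans hcnR
                calc 72 * (τ c : ℝ) * (n : ℝ) ^ 2 * g * Γ ^ 2
                    ≤ 72 * (τ c : ℝ) ^ 2 * (n : ℝ) ^ 2 * (n : ℝ) ^ 2 * Γ ^ 2 := by gcongr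
                  _ = 72 * (τ c : ℝ) ^ 2 * (n : ℝ) ^ 4 * Γ ^ 2 := by ring
      have : ((n : ℝ) * g / c + 1) ≤ 2 * ((n : ℝ) * g / c) := by linarith
      calc ((n : ℝ) * g / c + 1) * (Z3 c a b x1 x2 x3 n i1 i2 g : ℝ)
          ≤ (2 * ((n : ℝ) * g / c)) * (Z3 c a b x1 x2 x3 n i1 i2 g : ℝ) :=
            mul_le_mul_of_nonneg_right this hZ0
        _ ≤ K := hmain
        _ ≤ 2 * (Z3 c a b x1 x2 x3 n i1 i2 g : ℝ) + K := by linarith
  have hEn : (En c a b x1 x2 x3 n i1 i2 : ℝ) ≤ 64 * D * (n : ℝ) ^ 4 * Γ ^ 2 / c := by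
    have hz := h2 c a b x1 x2 x3 n i1 i2 D hc ha hb hn hD
    refine hz.trans ?_
    have e1 : (n : ℝ) ^ 4 * (Int.gcd (x1 * x2 * x3) c : ℝ) / c ≤ (n : ℝ) ^ 4 * Γ ^ 2 / c := by
      apply div_le_div_of_nonneg_right _ hcpos.le
      apply mul_le_mul_of_nonneg_left _ (by positivity)
      nlinarith
    have e2 : (n : ℝ) ^ 2 ≤ (n : ℝ) ^ 4 * Γ ^ 2 / c := by
      rw [le_div_iff₀ hcpos]
      calc (n : ℝ) ^ 2 * c ≤ (n : ℝ) ^ 2 * (n : ℝ) ^ 2 := by gcongr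
        _ = (n : ℝ) ^ 4 * 1 := by ring
        _ ≤ (n : ℝ) ^ 4 * Γ ^ 2 := by
            apply mul_le_mul_of_nonneg_left _ (by positivity)
            nlinarith
    calc 32 * D * ((n : ℝ) ^ 4 * (Int.gcd (x1 * x2 * x3) c : ℝ) / c + (n : ℝ) ^ 2)
        ≤ 32 * D * ((n : ℝ) ^ 4 * Γ ^ 2 / c + (n : ℝ) ^ 4 * Γ ^ 2 / c) :=
          mul_le_mul_of_nonneg_left (add_le_add e1 e2) (by positivity)
      _ = 64 * D * (n : ℝ) ^ 4 * Γ ^ 2 / c := by ring
  have hsum : ∑ g ∈ c.divisors, ((n : ℝ) * g / c + 1) * (Z3 c a b x1 x2 x3 n i1 i2 g : ℝ) ≤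
      128 * D * (n : ℝ) ^ 4 * Γ ^ 2 / c + τ c * K := by
    calc ∑ g ∈ c.divisors, ((n : ℝ) * g / c + 1) * (Z3 c a b x1 x2 x3 n i1 i2 g : ℝ)
        ≤ ∑ g ∈ c.divisors, (2 * (Z3 c a b x1 x2 x3 n i1 i2 g : ℝ) + K) :=
          Finset.sum_le_sum hterm
      _ = 2 * (∑ g ∈ c.divisors, (Z3 c a b x1 x2 x3 n i1 i2 g : ℝ)) + τ c * K := by
          rw [Finset.sum_add_distrib, ← Finset.mul_sum, Finset.sum_const, nsmul_eq_mul]
          rfl
      _ ≤ 2 * (En c a b x1 x2 x3 n i1 i2 : ℝ) + τ c * K := by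
          have : (∑ g ∈ c.divisors, (Z3 c a b x1 x2 x3 n i1 i2 g : ℝ)) ≤
              (En c a b x1 x2 x3 n i1 i2 : ℝ) := by
            exact_mod_cast sum_Z3_le c a b x1 x2 x3 n i1 i2
          linarith
      _ ≤ 128 * D * (n : ℝ) ^ 4 * Γ ^ 2 / c + τ c * K := by
          have : 128 * D * (n : ℝ) ^ 4 * Γ ^ 2 / c = 2 * (64 * D * (n : ℝ) ^ 4 * Γ ^ 2 / c) := by
            ring
          linarith
  calc (V3 c a b x1 x2 x3 n i0 i1 i2 i3 : ℝ)
      ≤ (n : ℝ) ^ 2 * ∑ g ∈ c.divisors,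
          ((n : ℝ) * g / c + 1) * (Z3 c a b x1 x2 x3 n i1 i2 g : ℝ) :=
        h1 c a b x1 x2 x3 n i0 i1 i2 i3 hc ha hb hn hnc
    _ ≤ (n : ℝ) ^ 2 * (128 * D * (n : ℝ) ^ 4 * Γ ^ 2 / c + τ c * K) :=
        mul_le_mul_of_nonneg_left hsum (by positivity)
    _ = (128 * D + 72 * τ c ^ 3) * (n : ℝ) ^ 6 * Γ ^ 2 / c := by
        rw [hK]; ring
    _ ≤ 128 * (D + τ c ^ 3) * (n : ℝ) ^ 6 * Γ ^ 2 / c := by
        apply div_le_div_of_nonneg_right _ hcpos.le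
        have : (128 * D + 72 * (τ c : ℝ) ^ 3) ≤ 128 * (D + τ c ^ 3) := by
          have : (0 : ℝ) ≤ (τ c : ℝ) ^ 3 := by positivity
          linarith
        gcongr

end Pool.Agent.Helper28.SP.V3
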