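import Pool.Agent.Helper28.SP.St

/-!
# MP_e188f1_nt, spectral range: module VZ
-/

set_option autoImplicit false

namespace Pool.Agent.Helper28.SP.VZ

open Finset Matrix
open Pool.Agent.Helper28.SP

/-- integers of an interval of length `n` in one class modulo `M` -/
theorem ap (M n : ℕ) (hM : 1 ≤ M) (i : ℤ) (S : Finset ℤ) (hS : S ⊆ Ico i (i + n))
    (hc : ∀ x ∈ S, ∀ y ∈ S, (M : ℤ) ∣ x - y) : (S.card : ℝ) ≤ (n : ℝ) / M + 1 := by
  have hM0 : (0 : ℝ) < M := by exact_mod_cast hM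
  rcases S.eq_empty_or_nonempty with he | hne
  · rw [he]
    simp only [card_empty, Nat.cast_zero]
    positivity
  · set x0 := S.min' hne with hx0
    have hx0S : x0 ∈ S := S.min'_mem hne
    have hsub : S ⊆ (range (n / M + 1)).image (fun k : ℕ => x0 + (M : ℤ) * k) := by
      intro x hx
      have h1 : x0 ≤ x := S.min'_le x hx
      obtain ⟨t, ht⟩ := hc x hx x0 hx0S
      have hxI := mem_Ico.mp (hS hx)
      have hx0I := mem_Ico.mp (hS hx0S)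
      have hMz : (0 : ℤ) < M := by exact_mod_cast hM
      have ht0 : 0 ≤ t := by
        by_contra hneg
        push Not at hneg
        nlinarith
      have htn : (M : ℤ) * t ≤ n := by linarith
      rw [mem_image]
      refine ⟨t.toNat, ?_, ?_⟩
      · rw [mem_range]
        apply Nat.lt_succ_of_le
        rw [Nat.le_div_iff_mul_le (by omega)]
        have : ((t.toNat * M : ℕ) : ℤ) ≤ n := by
          push_cast
          rw [Int.toNat_of_nonneg ht0]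
          linarith
        exact_mod_cast this
      · rw [Int.toNat_of_nonneg ht0]
        linarith
    have h2 : S.card ≤ n / M + 1 := by
      refine (card_le_card hsub).trans (card_image_le.trans ?_)
      rw [card_range]
    have h3 : ((n / M : ℕ) : ℝ) ≤ (n : ℝ) / M := Nat.cast_div_le
    have h4 : (S.card : ℝ) ≤ ((n / M + 1 : ℕ) : ℝ) := by exact_mod_cast h2
    push_cast at h4
    linarith

theorem F3_val (a b h1 h2 h3 x k l y : ℤ) :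
    (F3 a b h1 h2 h3 x k l y).1 = !![1, 0; b * x, 1] * !![1, a * h1; 0, 1] * !![1, 0; b * k, 1] *
      !![1, a * h2; 0, 1] * !![1, 0; b * l, 1] * !![1, a * h3; 0, 1] * !![1, 0; b * y, 1] := rfl

theorem F3_01 (a b h1 h2 h3 x k l y : ℤ) :
    (F3 a b h1 h2 h3 x k l y).1 0 1 = m3 a b h1 h2 h3 k l := by
  rw [F3_val]
  simp [m3, W11, Xe]
  ring

theorem F3_00 (a b h1 h2 h3 x k l y : ℤ) :
    (F3 a b h1 h2 h3 x k l y).1 0 0 =
      W11 a b h1 h2 k l + m3 a b h1 h2 h3 k l * (b * y) := by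
  rw [F3_val]
  simp [m3, W11, Xe]
  ring

theorem F3_11 (a b h1 h2 h3 x k l y : ℤ) :
    (F3 a b h1 h2 h3 x k l y).1 1 1 =
      W22 a b h2 h3 k l + b * x * m3 a b h1 h2 h3 k l := by
  rw [F3_val]
  simp [m3, W11, W22, Xe]
  ring

theorem entry {c : ℕ} {g g' : SZ} (h : red c g = red c g') (i j : Fin 2) :
    (c : ℤ) ∣ g.1 i j - g'.1 i j := by
  have h1 : ((red c g).1 i j) = ((red c g').1 i j) := by rw [h]
  have h2 : ((g.1 i j : ℤ) : ZMod c) = ((g'.1 i j : ℤ) : ZMod c) := h1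
  rw [← sub_eq_zero, ← Int.cast_sub] at h2
  exact (ZMod.intCast_zmod_eq_zero_iff_dvd _ _).1 h2

/-- the conditions on the two middle pairs -/
noncomputable def Zall (c : ℕ) (a b h1 h2 h3 : ℤ) (n : ℕ) (i1 i2 : ℤ) : Finset ((ℤ × ℤ) × (ℤ × ℤ)) :=
  ((Iv i1 n ×ˢ Iv i2 n) ×ˢ (Iv i1 n ×ˢ Iv i2 n)).filter fun p =>
    (c : ℤ) ∣ m3 a b h1 h2 h3 p.1.1 p.1.2 - m3 a b h1 h2 h3 p.2.1 p.2.2 ∧
    ((Int.gcd (m3 a b h1 h2 h3 p.1.1 p.1.2) c : ℕ) : ℤ) ∣
      W11 a b h1 h2 p.1.1 p.1.2 - W11 a b h1 h2 p.2.1 p.2.2 ∧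
    ((Int.gcd (m3 a b h1 h2 h3 p.1.1 p.1.2) c : ℕ) : ℤ) ∣
      W22 a b h2 h3 p.1.1 p.1.2 - W22 a b h2 h3 p.2.1 p.2.2

theorem red_Ll {c : ℕ} {b : ℤ} (hb : IsCoprime b (c : ℤ)) {y y' : ℤ}
    (h : red c (Ll (b * y)) = red c (Ll (b * y'))) : (c : ℤ) ∣ y - y' := by
  have h1 := entry h 1 0
  have h2 : (c : ℤ) ∣ b * y - b * y' := h1
  rw [← mul_sub] at h2
  exact hb.symm.dvd_of_dvd_mul_left h2

theorem conds {c : ℕ} {a b h1 h2 h3 x k l y x' k' l' y' : ℤ}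
    (h : red c (F3 a b h1 h2 h3 x k l y) = red c (F3 a b h1 h2 h3 x' k' l' y')) :
    (c : ℤ) ∣ m3 a b h1 h2 h3 k l - m3 a b h1 h2 h3 k' l' ∧
    ((Int.gcd (m3 a b h1 h2 h3 k l) c : ℕ) : ℤ) ∣ W11 a b h1 h2 k l - W11 a b h1 h2 k' l' ∧
    ((Int.gcd (m3 a b h1 h2 h3 k l) c : ℕ) : ℤ) ∣ W22 a b h2 h3 k l - W22 a b h2 h3 k' l' ∧
    (c : ℤ) ∣ b * m3 a b h1 h2 h3 k l * (x - x') - (W22 a b h2 h3 k' l' - W22 a b h2 h3 k l) := by
  have e01 := entry h 0 1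
  have e00 := entry h 0 0
  have e11 := entry h 1 1
  rw [F3_01, F3_01] at e01
  rw [F3_00, F3_00] at e00
  rw [F3_11, F3_11] at e11
  set m := m3 a b h1 h2 h3 k l with hm
  set m' := m3 a b h1 h2 h3 k' l' with hm'
  have gm : ((Int.gcd m c : ℕ) : ℤ) ∣ m := Int.gcd_dvd_left _ _
  have gc : ((Int.gcd m c : ℕ) : ℤ) ∣ (c : ℤ) := Int.gcd_dvd_right _ _
  have gm' : ((Int.gcd m c : ℕ) : ℤ) ∣ m' := by
    have := dvd_sub gm (gc.trans e01)
    rwa [sub_sub_cancel] at this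
  refine ⟨e01, ?_, ?_, ?_⟩
  · have h5 := gc.trans e00
    have h6 : W11 a b h1 h2 k l - W11 a b h1 h2 k' l' =
        (W11 a b h1 h2 k l + m * (b * y) - (W11 a b h1 h2 k' l' + m' * (b * y'))) -
          (m * (b * y) - m' * (b * y')) := by ring
    rw [h6]
    exact dvd_sub h5 (dvd_sub (gm.mul_right _) (gm'.mul_right _))
  · have h5 := gc.trans e11
    have h6 : W22 a b h2 h3 k l - W22 a b h2 h3 k' l' =
        (W22 a b h2 h3 k l + b * x * m - (W22 a b h2 h3 k' l' + b * x' * m')) -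
          (m * (b * x) - m' * (b * x')) := by ring
    rw [h6]
    exact dvd_sub h5 (dvd_sub (gm.mul_right _) (gm'.mul_right _))
  · have h6 : b * m * (x - x') - (W22 a b h2 h3 k' l' - W22 a b h2 h3 k l) =
        (W22 a b h2 h3 k l + b * x * m - (W22 a b h2 h3 k' l' + b * x' * m')) -
          (m - m') * (b * x') := by ring
    rw [h6]
    exact dvd_sub e11 (e01.mul_right _)

/-- bound for the number of `(x', y')` when everything else is fixed -/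
theorem fibre (c : ℕ) (a b h1 h2 h3 : ℤ) (n : ℕ) (i0 i3 : ℤ) (hc : 1 ≤ c)
    (hb : IsCoprime b (c : ℤ)) (hn : n ≤ c) (x k l y k' l' : ℤ) (S : Finset (ℤ × ℤ))
    (hS : ∀ p ∈ S, p.1 ∈ Iv i0 n ∧ p.2 ∈ Iv i3 n ∧
      red c (F3 a b h1 h2 h3 x k l y) = red c (F3 a b h1 h2 h3 p.1 k' l' p.2)) :
    (S.card : ℝ) ≤ (n : ℝ) * (Int.gcd (m3 a b h1 h2 h3 k l) c : ℕ) / c + 1 := by
  set m := m3 a b h1 h2 h3 k l with hm
  set g : ℕ := Int.gcd m c with hg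
  have hc0 : (c : ℤ) ≠ 0 := by exact_mod_cast (by omega : c ≠ 0)
  have hg0 : 0 < g := Nat.pos_of_ne_zero (by
    intro h0
    have := Int.gcd_eq_zero_iff.1 (hg ▸ h0)
    exact hc0 this.2)
  have hgc : g ∣ c := by
    have : (g : ℤ) ∣ (c : ℤ) := Int.gcd_dvd_right _ _
    exact_mod_cast this
  obtain ⟨M, hM⟩ := hgc
  have hM1 : 1 ≤ M := by
    rcases Nat.eq_zero_or_pos M with h0 | h0
    · rw [h0, mul_zero] at hM
      omega
    · exact h0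
  -- injectivity of the first coordinate
  have hinj : Set.InjOn (Prod.fst : ℤ × ℤ → ℤ) (S : Set (ℤ × ℤ)) := by
    rintro ⟨x1, y1⟩ hp ⟨x2, y2⟩ hq hxy
    simp only at hxy
    subst hxy
    obtain ⟨_, hy1, e1⟩ := hS _ hp
    obtain ⟨_, hy2, e2⟩ := hS _ hq
    simp only at hy1 hy2 e1 e2
    have e3 := e1.symm.trans e2
    unfold F3 at e3
    rw [map_mul _ _ (Ll (b * y1)), map_mul _ _ (Ll (b * y2))] at e3
    have e4 := red_Ll hb (mul_left_cancel e3)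
    have hy1' := mem_Ico.1 hy1
    have hy2' := mem_Ico.1 hy2
    have hnc : (n : ℤ) ≤ c := by exact_mod_cast hn
    have e5 : y1 - y2 = 0 := by
      refine Int.eq_zero_of_abs_lt_dvd e4 ?_
      rw [abs_lt]
      constructor <;> linarith
    rw [sub_eq_zero.1 e5]
  have hcard : (S.image Prod.fst).card = S.card := card_image_of_injOn hinj
  rw [← hcard]
  have hap := ap M n hM1 i0 (S.image Prod.fst) ?_ ?_
  · refine hap.trans (le_of_eq ?_)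
    have hM0 : (M : ℝ) ≠ 0 := by exact_mod_cast (by omega : M ≠ 0)
    have hg0' : (g : ℝ) ≠ 0 := by exact_mod_cast hg0.ne'
    have hcc : (c : ℝ) = g * M := by exact_mod_cast hM
    rw [hcc]
    congr 1
    field_simp
  · intro z hz
    obtain ⟨p, hp, rfl⟩ := mem_image.1 hz
    exact (hS p hp).1
  · intro z hz z' hz'
    obtain ⟨p, hp, rfl⟩ := mem_image.1 hz
    obtain ⟨p', hp', rfl⟩ := mem_image.1 hz'
    have c1 := (conds (hS p hp).2.2).2.2.2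
    have c2 := (conds (hS p' hp').2.2).2.2.2
    have c3 := dvd_sub c2 c1
    rw [← hm] at c3
    have c4 : (c : ℤ) ∣ b * (m * (p.1 - p'.1)) := by
      have h6 : b * (m * (p.1 - p'.1)) =
        (b * m * (x - p'.1) - (W22 a b h2 h3 k' l' - W22 a b h2 h3 k l)) -
          (b * m * (x - p.1) - (W22 a b h2 h3 k' l' - W22 a b h2 h3 k l)) := by ring
      rw [h6]
      exact c3
    have c5 : (c : ℤ) ∣ m * (p.1 - p'.1) := hb.symm.dvd_of_dvd_mul_left c4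
    -- divide by the gcd
    have hgm : (g : ℤ) ∣ m := Int.gcd_dvd_left _ _
    obtain ⟨m1, hm1⟩ := hgm
    have hgz : (g : ℤ) ≠ 0 := by exact_mod_cast hg0.ne'
    have hcz : (c : ℤ) = g * M := by exact_mod_cast hM
    have hcop : IsCoprime (M : ℤ) m1 := by
      have h7 : Int.gcd m c = g := rfl
      rw [hm1, hcz, Int.gcd_mul_left] at h7
      have h8 : Int.gcd m1 M = 1 := by
        have : g * Int.gcd m1 M = g * 1 := by simpa using h7
        exact Nat.eq_of_mul_eq_mul_left hg0 this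
      exact (Int.isCoprime_iff_gcd_eq_one.2 h8).symm
    have c6 : (M : ℤ) ∣ m1 * (p.1 - p'.1) := by
      rw [hm1, hcz, mul_assoc] at c5
      exact (mul_dvd_mul_iff_left hgz).1 c5
    exact hcop.dvd_of_dvd_mul_left c6

theorem thm : StVZ := by
  intro c a b h1 h2 h3 n i0 i1 i2 i3 hc ha hb hn1 hn
  classical
  set T := Iv i0 n ×ˢ (Iv i1 n ×ˢ (Iv i2 n ×ˢ Iv i3 n)) with hT
  set A := (T ×ˢ T).filter
    (fun p => red c (F3 a b h1 h2 h3 p.1.1 p.1.2.1 p.1.2.2.1 p.1.2.2.2) =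
      red c (F3 a b h1 h2 h3 p.2.1 p.2.2.1 p.2.2.2.1 p.2.2.2.2)) with hA
  have hV : V3 c a b h1 h2 h3 n i0 i1 i2 i3 = A.card := by
    unfold V3
    rw [hA]
  set Q := Zall c a b h1 h2 h3 n i1 i2 with hQ
  set φ : (ℤ × ℤ × ℤ × ℤ) × (ℤ × ℤ × ℤ × ℤ) → ((ℤ × ℤ) × (ℤ × ℤ)) × (ℤ × ℤ) := fun p =>
    (((p.1.2.1, p.1.2.2.1), (p.2.2.1, p.2.2.2.1)), (p.1.1, p.1.2.2.2)) with hφ
  have hmaps : Set.MapsTo φ (A : Set ((ℤ × ℤ × ℤ × ℤ) × (ℤ × ℤ × ℤ × ℤ)))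
      ((Q ×ˢ (Iv i0 n ×ˢ Iv i3 n) : Finset _) : Set (((ℤ × ℤ) × (ℤ × ℤ)) × (ℤ × ℤ))) := by
    intro p hp
    rw [mem_coe, hA, mem_filter, mem_product, hT] at hp
    obtain ⟨⟨hp1, hp2⟩, he⟩ := hp
    simp only [mem_product] at hp1 hp2
    have hcd := conds he
    rw [mem_coe, mem_product, mem_product, hQ, Zall, mem_filter, mem_product, mem_product,
      mem_product]
    exact ⟨⟨⟨⟨hp1.2.1, hp1.2.2.1⟩, ⟨hp2.2.1, hp2.2.2.1⟩⟩, hcd.1, hcd.2.1, hcd.2.2.1⟩,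
      hp1.1, hp1.2.2.2⟩
  rw [hV, card_eq_sum_card_fiberwise hmaps]
  push_cast
  have hcardI : ∀ i : ℤ, ((Iv i n).card : ℝ) = n := by
    intro i
    unfold Iv
    rw [Int.card_Ico]
    simp
  set w : ℕ → ℝ := fun g => (n : ℝ) * g / c + 1 with hw
  have hfib : ∀ t ∈ Q ×ˢ (Iv i0 n ×ˢ Iv i3 n), ((A.filter (fun p => φ p = t)).card : ℝ) ≤
      w (Int.gcd (m3 a b h1 h2 h3 t.1.1.1 t.1.1.2) c) := by
    rintro ⟨⟨⟨k, l⟩, ⟨k', l'⟩⟩, ⟨x, y⟩⟩ ht
    set B := A.filter (fun p => φ p = (((k, l), (k', l')), (x, y))) with hB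
    have hBi : Set.InjOn (fun p : (ℤ × ℤ × ℤ × ℤ) × (ℤ × ℤ × ℤ × ℤ) => (p.2.1, p.2.2.2.2))
        (B : Set ((ℤ × ℤ × ℤ × ℤ) × (ℤ × ℤ × ℤ × ℤ))) := by
      rintro ⟨⟨x1, k1, l1, y1⟩, ⟨x1', k1', l1', y1'⟩⟩ hp ⟨⟨x2, k2, l2, y2⟩, ⟨x2', k2', l2', y2'⟩⟩ hq
        hpq
      rw [mem_coe, hB, mem_filter] at hp hq
      have e1 := hp.2
      have e2 := hq.2
      simp only [hφ, Prod.mk.injEq] at e1 e2 hpq
      simp only [Prod.mk.injEq]
      refine ⟨⟨?_, ?_, ?_, ?_⟩, ?_, ?_, ?_, ?_⟩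
      · rw [e1.2.1, e2.2.1]
      · rw [e1.1.1.1, e2.1.1.1]
      · rw [e1.1.1.2, e2.1.1.2]
      · rw [e1.2.2, e2.2.2]
      · exact hpq.1
      · rw [e1.1.2.1, e2.1.2.1]
      · rw [e1.1.2.2, e2.1.2.2]
      · exact hpq.2
    rw [← card_image_of_injOn hBi]
    apply fibre c a b h1 h2 h3 n i0 i3 hc hb hn x k l y k' l'
    intro z hz
    obtain ⟨p, hp, rfl⟩ := mem_image.1 hz
    rw [hB, mem_filter, hA, mem_filter, mem_product, hT] at hp
    obtain ⟨⟨⟨hp1, hp2⟩, he⟩, hφp⟩ := hp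
    simp only [mem_product] at hp1 hp2
    simp only [hφ, Prod.mk.injEq] at hφp
    refine ⟨hp2.1, hp2.2.2.2, ?_⟩
    rw [← hφp.1.1.1, ← hφp.1.1.2, ← hφp.1.2.1, ← hφp.1.2.2, ← hφp.2.1, ← hφp.2.2]
    exact he
  refine (sum_le_sum hfib).trans (le_of_eq ?_)
  rw [sum_product]
  simp only [sum_const, nsmul_eq_mul, card_product]
  push_cast
  rw [hcardI, hcardI, ← mul_sum]
  have hmaps2 : ∀ q ∈ Q, Int.gcd (m3 a b h1 h2 h3 q.1.1 q.1.2) c ∈ c.divisors := by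
    intro q _
    rw [Nat.mem_divisors]
    refine ⟨?_, by omega⟩
    have : ((Int.gcd (m3 a b h1 h2 h3 q.1.1 q.1.2) c : ℕ) : ℤ) ∣ (c : ℤ) := Int.gcd_dvd_right _ _
    exact_mod_cast this
  rw [← sum_fiberwise_of_maps_to hmaps2, ← sq]
  congr 1
  apply sum_congr rfl
  intro g _
  have h1' : ∀ q ∈ Q.filter (fun q => Int.gcd (m3 a b h1 h2 h3 q.1.1 q.1.2) c = g),
      w (Int.gcd (m3 a b h1 h2 h3 q.1.1 q.1.2) c) = w g := by
    intro q hq
    rw [(mem_filter.1 hq).2]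
  rw [sum_congr rfl h1', sum_const, nsmul_eq_mul, mul_comm]
  congr 2
  unfold Z3
  congr 1
  rw [hQ, Zall, filter_filter]
  apply filter_congr
  intro q _
  constructor
  · rintro ⟨⟨q1, q2, q3⟩, q4⟩
    rw [q4] at q2 q3
    exact ⟨q1, q4, q2, q3⟩
  · rintro ⟨q1, q4, q2, q3⟩
    rw [q4]
    exact ⟨⟨q1, q2, q3⟩, rfl⟩

end Pool.Agent.Helper28.SP.VZ
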