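import Pool.Agent.Helper28.SP.St

/-! Module W4 of project SR (MP_e188f1_nt), by helper57. -/

set_option autoImplicit false

namespace Pool.Agent.Helper28.SP.W4

open Finset Matrix
open Pool.Agent.Helper28.SP
open Pool.Agent.Helper56.SW (τ)

theorem thm (h1 : StR2) (h2 : StV2) (h3 : StSUM) : StW4 := by
  intro c a b A B hc ha hb hA
  obtain ⟨n, hn⟩ : ∃ n : ℕ, n = min (2 * B + 1) c := ⟨_, rfl⟩
  have hn1 : 1 ≤ n := by rw [hn]; exact le_min (by omega) hc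
  have hnc : n ≤ c := by rw [hn]; exact min_le_right _ _
  have hnR : (n : ℝ) = min (2 * (B : ℝ) + 1) c := by
    rw [hn]; push_cast; rfl
  have hn0 : (0 : ℝ) < n := by exact_mod_cast hn1
  have hτ : (0 : ℝ) ≤ τ c := by unfold Pool.Agent.Helper56.SW.τ; exact Nat.cast_nonneg _
  have key := h1 c a b A B n
    (fun x y => 12 * τ c * (n : ℝ) ^ 3 * ((Int.gcd x c : ℝ) * Int.gcd y c) ^ 2) hc hn
    (fun x _ y _ i0 i1 i2 => h2 c a b x y n i0 i1 i2 hc ha hb hn1 hnc)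
  have hsum := h3 c A hc
  set S : ℝ := ∑ h ∈ Hs A, (Int.gcd h c : ℝ) with hS
  have hS0 : 0 ≤ S := Finset.sum_nonneg fun _ _ => Nat.cast_nonneg _
  have hsq : ∑ x ∈ Hs A, ∑ y ∈ Hs A,
      Real.sqrt (12 * τ c * (n : ℝ) ^ 3 * ((Int.gcd x c : ℝ) * Int.gcd y c) ^ 2) =
      Real.sqrt (12 * τ c * (n : ℝ) ^ 3) * S ^ 2 := by
    have e1 : ∀ x y : ℤ,
        Real.sqrt (12 * τ c * (n : ℝ) ^ 3 * ((Int.gcd x c : ℝ) * Int.gcd y c) ^ 2) =
        Real.sqrt (12 * τ c * (n : ℝ) ^ 3) * ((Int.gcd x c : ℝ) * Int.gcd y c) := by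
      intro x y
      rw [Real.sqrt_mul (by positivity), Real.sqrt_sq (by positivity)]
    simp only [e1]
    simp only [← Finset.mul_sum]
    rw [← Finset.sum_mul, sq]
  rw [hsq] at key
  rw [← hnR]
  refine key.trans ?_
  have hB1 : (0 : ℝ) ≤ 2 * (B : ℝ) + 1 := by positivity
  have hS2 : S ^ 2 ≤ (2 * A * τ c) ^ 2 := pow_le_pow_left₀ hS0 hsum 2
  have hle : (2 * (B : ℝ) + 1) * (2 * (2 * (B : ℝ) + 1) / n) ^ 3 *
        (Real.sqrt (12 * τ c * (n : ℝ) ^ 3) * S ^ 2) ≤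
      (2 * (B : ℝ) + 1) * (2 * (2 * (B : ℝ) + 1) / n) ^ 3 *
        (Real.sqrt (12 * τ c * (n : ℝ) ^ 3) * (2 * A * τ c) ^ 2) := by
    apply mul_le_mul_of_nonneg_left _ (by positivity)
    exact mul_le_mul_of_nonneg_left hS2 (Real.sqrt_nonneg _)
  have hle2 := pow_le_pow_left₀ (by positivity) hle 2
  refine hle2.trans (le_of_eq ?_)
  rw [mul_pow, mul_pow _ ((2 * (A : ℝ) * τ c) ^ 2), Real.sq_sqrt (by positivity)]
  field_simp
  ring

end Pool.Agent.Helper28.SP.W4
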