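import Pool.Agent.Helper28.SP.St

/-! # MP_e188f1_nt, spectral range: module W6 (three letters, assembly) -/

set_option autoImplicit false

namespace Pool.Agent.Helper28.SP.W6

open Finset Matrix Pool.Agent.Helper28.SP
open Pool.Agent.Helper56.SW (τ)

theorem thm (h1 : StR3) (h2 : StV3) (h3 : StSUM) : StW6 := by
  intro c a b A B D hc ha hb hA hAB hcB hD
  have hτ : 0 ≤ τ c := by unfold τ; exact Nat.cast_nonneg _
  have hD0 : 0 ≤ D := by
    refine le_trans ?_ (hD 1 le_rfl (Nat.one_le_pow _ _ hc))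
    unfold τ; exact Nat.cast_nonneg _
  set n : ℕ := min (2 * B + 1) c with hn
  have hn1 : 1 ≤ n := le_min (by omega) hc
  have hnc : n ≤ c := min_le_right _ _
  have hcn : c ≤ n ^ 2 := by
    rcases le_total (2 * B + 1) c with h | h
    · rw [hn, min_eq_left h]; exact hcB
    · rw [hn, min_eq_right h]; exact Nat.le_self_pow (by norm_num) c
  have hDn : ∀ j : ℕ, 1 ≤ j → j ≤ n ^ 2 → τ j ≤ D := fun j h4 h5 =>
    hD j h4 (h5.trans (Nat.pow_le_pow_left hnc 2))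
  have hg : ∀ h ∈ Hs A, Int.gcd h c ≤ n := by
    intro h hh
    unfold Hs at hh
    rw [Finset.mem_erase, Finset.mem_Icc] at hh
    obtain ⟨h0, h4, h5⟩ := hh
    refine le_min ?_ ?_
    · have h6 : Int.gcd h c ≤ h.natAbs := by
        refine Nat.le_of_dvd (Int.natAbs_pos.2 h0) ?_
        rw [Int.gcd]
        exact Nat.gcd_dvd_left _ _
      omega
    · refine Nat.le_of_dvd hc ?_
      rw [Int.gcd, Int.natAbs_natCast]
      exact Nat.gcd_dvd_right _ _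
  have hnR : (0 : ℝ) < n := by exact_mod_cast hn1
  have hcR : (0 : ℝ) < c := by exact_mod_cast hc
  set s : ℝ := Real.sqrt (128 * (D + τ c ^ 3) * (n : ℝ) ^ 6 / c) with hs
  have hs0 : 0 ≤ s := Real.sqrt_nonneg _
  have hpos : 0 ≤ 128 * (D + τ c ^ 3) * (n : ℝ) ^ 6 / c := by positivity
  have hs2 : s ^ 2 = 128 * (D + τ c ^ 3) * (n : ℝ) ^ 6 / c := Real.sq_sqrt hpos
  have key := h1 c a b A B n (fun x y z => 128 * (D + τ c ^ 3) * (n : ℝ) ^ 6 *
        ((Int.gcd x c : ℝ) * Int.gcd y c * Int.gcd z c) ^ 2 / c) hc hn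
    (fun x _ y _ z hz i0 i1 i2 i3 =>
      h2 c a b x y z n i0 i1 i2 i3 D hc ha hb hn1 hnc hcn (hg z hz) hDn)
  have hsq : ∀ x y z : ℤ, Real.sqrt (128 * (D + τ c ^ 3) * (n : ℝ) ^ 6 *
        ((Int.gcd x c : ℝ) * Int.gcd y c * Int.gcd z c) ^ 2 / c) =
      s * ((Int.gcd x c : ℝ) * Int.gcd y c * Int.gcd z c) := by
    intro x y z
    rw [show 128 * (D + τ c ^ 3) * (n : ℝ) ^ 6 *
        ((Int.gcd x c : ℝ) * Int.gcd y c * Int.gcd z c) ^ 2 / c =
        (128 * (D + τ c ^ 3) * (n : ℝ) ^ 6 / c) *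
        ((Int.gcd x c : ℝ) * Int.gcd y c * Int.gcd z c) ^ 2 by ring,
      Real.sqrt_mul hpos, Real.sqrt_sq (by positivity)]
  have hsum : ∑ x ∈ Hs A, ∑ y ∈ Hs A, ∑ z ∈ Hs A, Real.sqrt (128 * (D + τ c ^ 3) * (n : ℝ) ^ 6 *
        ((Int.gcd x c : ℝ) * Int.gcd y c * Int.gcd z c) ^ 2 / c) =
      s * (∑ x ∈ Hs A, (Int.gcd x c : ℝ)) ^ 3 := by
    simp only [hsq]
    rw [pow_succ, sq, Finset.sum_mul_sum, Finset.sum_mul, Finset.mul_sum]
    refine Finset.sum_congr rfl fun x _ => ?_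
    rw [Finset.sum_mul, Finset.mul_sum]
    refine Finset.sum_congr rfl fun y _ => ?_
    rw [Finset.mul_sum, Finset.mul_sum]
  simp only [hsum] at key
  set G : ℝ := ∑ x ∈ Hs A, (Int.gcd x c : ℝ) with hG
  have hG0 : 0 ≤ G := Finset.sum_nonneg fun x _ => Nat.cast_nonneg _
  have hG1 : G ≤ 2 * A * τ c := h3 c A hc
  have hB : (0 : ℝ) < 2 * (B : ℝ) + 1 := by positivity
  have hbound : (2 * (B : ℝ) + 1) ^ 2 * (2 * (2 * (B : ℝ) + 1) / n) ^ 4 * (s * G ^ 3) ≤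
      (2 * (B : ℝ) + 1) ^ 2 * (2 * (2 * (B : ℝ) + 1) / n) ^ 4 * (s * (2 * A * τ c) ^ 3) := by
    refine mul_le_mul_of_nonneg_left ?_ (by positivity)
    exact mul_le_mul_of_nonneg_left (pow_le_pow_left₀ hG0 hG1 3) hs0
  refine (key.trans (pow_le_pow_left₀ (by positivity) hbound 2)).trans (le_of_eq ?_)
  have hcast : min (2 * (B : ℝ) + 1) (c : ℝ) = (n : ℝ) := by
    rw [hn]
    push_cast
    rfl
  rw [hcast]
  rw [show ((2 * (B : ℝ) + 1) ^ 2 * (2 * (2 * (B : ℝ) + 1) / n) ^ 4 *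
      (s * (2 * A * τ c) ^ 3)) ^ 2 =
      (2 * (B : ℝ) + 1) ^ 4 * (2 * (2 * (B : ℝ) + 1) / n) ^ 8 * (2 * A * τ c) ^ 6 * s ^ 2 by ring,
    hs2]
  field_simp
  ring

end Pool.Agent.Helper28.SP.W6
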