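import Pool.Agent.Helper28.SP.St

/-! # MP_e188f1_nt, spectral range, module Z0 -/

set_option autoImplicit false

namespace Pool.Agent.Helper28.SP.Z0

open Finset Matrix
open Pool.Agent.Helper28.SP

theorem apIv (i : ℤ) (n M : ℕ) (S : Finset ℤ) (hM : 1 ≤ M) (hS : S ⊆ Iv i n)
    (hd : ∀ x ∈ S, ∀ y ∈ S, (M : ℤ) ∣ x - y) : (S.card : ℝ) ≤ (n : ℝ) / M + 1 := by
  have hM0 : (0 : ℤ) < M := by exact_mod_cast hM
  rcases S.eq_empty_or_nonempty with hE | hne
  · rw [hE, Finset.card_empty]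
    push_cast
    positivity
  have hmin : ∀ x ∈ S, S.min' hne ≤ x := fun x hx => S.min'_le x hx
  have hm := S.min'_mem hne
  set y := S.min' hne with hy
  have hI : ∀ x ∈ S, i ≤ x ∧ x < i + n := fun x hx => by
    have := hS hx
    unfold Iv at this
    exact Finset.mem_Ico.1 this
  have h1 : S.card ≤ (Finset.range (n / M + 1)).card := by
    apply Finset.card_le_card_of_injOn (fun x : ℤ => ((x - y) / M).toNat)
    · intro x hx
      have hx' : x ∈ S := hx
      have h2 : x - y ≤ n := by linarith [(hI x hx').2, (hI y hm).1]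
      have h3 : 0 ≤ x - y := by linarith [hmin x hx']
      have h4 : (x - y) / M ≤ (n : ℤ) / M := Int.ediv_le_ediv hM0 h2
      have h5 : 0 ≤ (x - y) / M := Int.ediv_nonneg h3 hM0.le
      have h6 : ((n / M : ℕ) : ℤ) = (n : ℤ) / M := by push_cast; rfl
      show ((x - y) / M).toNat ∈ ((Finset.range (n / M + 1) : Finset ℕ) : Set ℕ)
      rw [Finset.mem_coe, Finset.mem_range]
      have h7 : ((x - y) / M) ≤ ((n / M : ℕ) : ℤ) := by rw [h6]; exact h4
      omega
    · intro x hx x' hx' h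
      have hx1 : x ∈ S := hx
      have hx1' : x' ∈ S := hx'
      have h3 : 0 ≤ x - y := by linarith [hmin x hx1]
      have h3' : 0 ≤ x' - y := by linarith [hmin x' hx1']
      have h5 : 0 ≤ (x - y) / M := Int.ediv_nonneg h3 hM0.le
      have h5' : 0 ≤ (x' - y) / M := Int.ediv_nonneg h3' hM0.le
      have h8 : (x - y) / M = (x' - y) / M := by
        have h9 : ((x - y) / M).toNat = ((x' - y) / M).toNat := h
        omega
      have h10 := Int.ediv_mul_cancel (hd x hx1 y hm)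
      have h11 := Int.ediv_mul_cancel (hd x' hx1' y hm)
      rw [h8, h11] at h10
      linarith
  rw [Finset.card_range] at h1
  have h2 : (S.card : ℝ) ≤ ((n / M : ℕ) : ℝ) + 1 := by exact_mod_cast h1
  have h3 : ((n / M : ℕ) : ℝ) ≤ (n : ℝ) / M := Nat.cast_div_le
  linarith

theorem dvd_cls (d : ℕ) (hd : 1 ≤ d) (u t : ℤ) (h : (d : ℤ) ∣ u * t) :
    ((d / Int.gcd u d : ℕ) : ℤ) ∣ t := by
  have hg : 0 < Int.gcd u d := by
    apply Nat.pos_of_ne_zero
    intro h0
    rw [Int.gcd_eq_zero_iff] at h0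
    have : (d : ℤ) = 0 := h0.2
    omega
  obtain ⟨e, he⟩ : Int.gcd u d ∣ d := by
    have := Int.gcd_dvd_right u (d : ℤ)
    exact_mod_cast this
  obtain ⟨v, hv⟩ : ((Int.gcd u d : ℕ) : ℤ) ∣ u := Int.gcd_dvd_left u (d : ℤ)
  have hq : d / Int.gcd u d = e := Nat.div_eq_of_eq_mul_right hg he
  rw [hq]
  have hc : IsCoprime (e : ℤ) v := by
    have h1 : Int.gcd (u / (Int.gcd u d : ℤ)) ((d : ℤ) / (Int.gcd u d : ℤ)) = 1 :=
      Int.gcd_ediv_gcd_ediv_gcd hg
    have hg' : ((Int.gcd u d : ℕ) : ℤ) ≠ 0 := by exact_mod_cast hg.ne'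
    have h2 : u / (Int.gcd u d : ℤ) = v := Int.ediv_eq_of_eq_mul_right hg' hv
    have h3 : (d : ℤ) / (Int.gcd u d : ℤ) = e :=
      Int.ediv_eq_of_eq_mul_right hg' (by exact_mod_cast he)
    rw [h2, h3] at h1
    exact (Int.isCoprime_iff_gcd_eq_one.2 h1).symm
  apply hc.dvd_of_dvd_mul_left
  have hg' : ((Int.gcd u d : ℕ) : ℤ) ≠ 0 := by exact_mod_cast hg.ne'
  apply Int.dvd_of_mul_dvd_mul_left hg'
  have h4 : ((Int.gcd u d : ℕ) : ℤ) * e = d := by exact_mod_cast he.symm
  rw [h4]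
  have h5 : ((Int.gcd u d : ℕ) : ℤ) * (v * t) = u * t := by rw [← mul_assoc, ← hv]
  rw [h5]
  exact h

theorem cls (d : ℕ) (hd : 1 ≤ d) (u i : ℤ) (n : ℕ) (S : Finset ℤ) (hS : S ⊆ Iv i n)
    (h : ∀ x ∈ S, ∀ y ∈ S, (d : ℤ) ∣ u * (x - y)) :
    (S.card : ℝ) ≤ (n : ℝ) * Int.gcd u d / d + 1 := by
  have hg : 0 < Int.gcd u d := by
    apply Nat.pos_of_ne_zero
    intro h0
    rw [Int.gcd_eq_zero_iff] at h0
    have : (d : ℤ) = 0 := h0.2
    omega
  have hdv : Int.gcd u d ∣ d := by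
    have := Int.gcd_dvd_right u (d : ℤ)
    exact_mod_cast this
  have hle : Int.gcd u d ≤ d := Nat.le_of_dvd hd hdv
  have h1 : 1 ≤ d / Int.gcd u d := (Nat.one_le_div_iff hg).2 hle
  have h2 := apIv i n (d / Int.gcd u d) S h1 hS (fun x hx y hy => dvd_cls d hd u _ (h x hx y hy))
  have h3 : ((d / Int.gcd u d : ℕ) : ℝ) = (d : ℝ) / (Int.gcd u d : ℝ) := by
    rw [Nat.cast_div hdv (by exact_mod_cast hg.ne')]
  rw [h3] at h2
  have hgr : (0 : ℝ) < (Int.gcd u d : ℝ) := by exact_mod_cast hg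
  have hdr : (0 : ℝ) < (d : ℝ) := by exact_mod_cast hd
  have h4 : (n : ℝ) / ((d : ℝ) / (Int.gcd u d : ℝ)) = (n : ℝ) * Int.gcd u d / d := by
    field_simp
  rw [h4] at h2
  exact h2

theorem thm : StZ0 := by
  intro c a b h1 h2 h3 n i1 i2 g δ hc hac hbc hgc
  have hg : 1 ≤ g := Nat.pos_of_dvd_of_pos hgc hc
  have key : ∀ k l : ℤ, (g : ℤ) ∣ m3 a b h1 h2 h3 k l → Int.gcd (Xe a b h1 h2 k) g = δ →
      δ ∣ Int.gcd h3 g := by
    intro k l hm hδ
    have hδX : (δ : ℤ) ∣ Xe a b h1 h2 k := by rw [← hδ]; exact Int.gcd_dvd_left _ _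
    have hδg : (δ : ℤ) ∣ (g : ℤ) := by rw [← hδ]; exact Int.gcd_dvd_right _ _
    have hδm := hδg.trans hm
    have hδc : (δ : ℤ) ∣ (c : ℤ) := hδg.trans (by exact_mod_cast hgc)
    have hca : IsCoprime (δ : ℤ) a := (IsCoprime.of_isCoprime_of_dvd_right hac hδc).symm
    have hc1 : IsCoprime (δ : ℤ) (1 + a * h1 * (b * k)) := by
      obtain ⟨w, hw⟩ := hδX
      refine ⟨-(w * (b * k)), 1 + a * h2 * (b * k), ?_⟩
      have : (δ : ℤ) * w = a * h1 + a * h2 + a * h1 * (a * h2) * (b * k) := by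
        rw [← hw]; rfl
      linear_combination (-(b * k)) * this
    have h4 : (δ : ℤ) ∣ a * ((1 + a * h1 * (b * k)) * h3) := by
      have e : a * ((1 + a * h1 * (b * k)) * h3) = m3 a b h1 h2 h3 k l -
          Xe a b h1 h2 k * (1 + a * h3 * (b * l)) := by
        unfold m3 W11; ring
      rw [e]
      exact dvd_sub hδm (hδX.mul_right _)
    have h5 := hc1.dvd_of_dvd_mul_left (hca.dvd_of_dvd_mul_left h4)
    have h6 := Int.dvd_coe_gcd h5 hδg
    exact_mod_cast h6
  refine ⟨?_, ?_⟩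
  · rintro ⟨p, hp⟩
    rw [Finset.mem_filter] at hp
    exact key p.1 p.2 hp.2.1 hp.2.2
  · set F := (Iv i1 n ×ˢ Iv i2 n).filter fun p => (g : ℤ) ∣ m3 a b h1 h2 h3 p.1 p.2 ∧
      Int.gcd (Xe a b h1 h2 p.1) g = δ with hF
    rcases F.eq_empty_or_nonempty with hE | ⟨p0, hp0⟩
    · rw [hE, Finset.card_empty]
      push_cast
      positivity
    have hp0' := hp0
    rw [hF, Finset.mem_filter] at hp0'
    have hδ0 : 1 ≤ δ := by
      rw [← hp0'.2.2]
      apply Nat.pos_of_ne_zero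
      intro h0
      rw [Int.gcd_eq_zero_iff] at h0
      have : (g : ℤ) = 0 := h0.2
      omega
    have hδg : δ ∣ g := by
      have : ((Int.gcd (Xe a b h1 h2 p0.1) g : ℕ) : ℤ) ∣ (g : ℤ) := Int.gcd_dvd_right _ _
      rw [hp0'.2.2] at this
      exact_mod_cast this
    have hδc : (δ : ℤ) ∣ (c : ℤ) := by exact_mod_cast hδg.trans hgc
    have hgc' : (g : ℤ) ∣ (c : ℤ) := by exact_mod_cast hgc
    have hmem : ∀ p ∈ F, p.1 ∈ Iv i1 n ∧ p.2 ∈ Iv i2 n ∧ (g : ℤ) ∣ m3 a b h1 h2 h3 p.1 p.2 ∧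
        Int.gcd (Xe a b h1 h2 p.1) g = δ := by
      intro p hp
      rw [hF, Finset.mem_filter, Finset.mem_product] at hp
      exact ⟨hp.1.1, hp.1.2, hp.2.1, hp.2.2⟩
    -- first coordinates
    have hK : ((F.image Prod.fst).card : ℝ) ≤ (n : ℝ) * Int.gcd (h1 * h2) c / δ + 1 := by
      have h4 := cls δ hδ0 (h1 * h2) i1 n (F.image Prod.fst) (by
        intro x hx
        rw [Finset.mem_image] at hx
        obtain ⟨p, hp, rfl⟩ := hx
        exact (hmem p hp).1) (by
        intro x hx y hy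
        rw [Finset.mem_image] at hx hy
        obtain ⟨p, hp, rfl⟩ := hx
        obtain ⟨q, hq, rfl⟩ := hy
        have e1 : (δ : ℤ) ∣ Xe a b h1 h2 p.1 := by
          rw [← (hmem p hp).2.2.2]; exact Int.gcd_dvd_left _ _
        have e2 : (δ : ℤ) ∣ Xe a b h1 h2 q.1 := by
          rw [← (hmem q hq).2.2.2]; exact Int.gcd_dvd_left _ _
        have e3 : (δ : ℤ) ∣ a * (a * (b * (h1 * h2 * (p.1 - q.1)))) := by
          have := dvd_sub e1 e2
          have e : Xe a b h1 h2 p.1 - Xe a b h1 h2 q.1 =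
              a * (a * (b * (h1 * h2 * (p.1 - q.1)))) := by unfold Xe; ring
          rwa [e] at this
        have ca : IsCoprime (δ : ℤ) a := (IsCoprime.of_isCoprime_of_dvd_right hac hδc).symm
        have cb : IsCoprime (δ : ℤ) b := (IsCoprime.of_isCoprime_of_dvd_right hbc hδc).symm
        exact cb.dvd_of_dvd_mul_left (ca.dvd_of_dvd_mul_left (ca.dvd_of_dvd_mul_left e3)))
      refine h4.trans ?_
      have h5 : Int.gcd (h1 * h2) δ ≤ Int.gcd (h1 * h2) c := by
        apply Nat.le_of_dvd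
        · apply Nat.pos_of_ne_zero
          intro h0
          rw [Int.gcd_eq_zero_iff] at h0
          have : (c : ℤ) = 0 := h0.2
          omega
        · exact Int.gcd_dvd_gcd_of_dvd_right (h1 * h2) hδc
      have h6 : ((Int.gcd (h1 * h2) δ : ℕ) : ℝ) ≤ (Int.gcd (h1 * h2) c : ℕ) := by
        exact_mod_cast h5
      have hδr : (0 : ℝ) < δ := by exact_mod_cast hδ0
      gcongr
    have hfib : ∀ k ∈ F.image Prod.fst, ((F.filter fun p => p.1 = k).card : ℝ) ≤
        (n : ℝ) * Int.gcd h3 g * δ / g + 1 := by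
      intro k hk
      rw [Finset.mem_image] at hk
      obtain ⟨p1, hp1, hp1k⟩ := hk
      have hinj : ((F.filter fun p => p.1 = k).image Prod.snd).card =
          (F.filter fun p => p.1 = k).card := by
        apply Finset.card_image_of_injOn
        intro p hp q hq hpq
        have hp' := (Finset.mem_filter.1 (Finset.mem_coe.1 hp)).2
        have hq' := (Finset.mem_filter.1 (Finset.mem_coe.1 hq)).2
        exact Prod.ext (hp'.trans hq'.symm) hpq
      rw [← hinj]
      have h4 := cls g hg (h3 * Xe a b h1 h2 k) i2 n ((F.filter fun p => p.1 = k).image Prod.snd)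
        (by
          intro x hx
          rw [Finset.mem_image] at hx
          obtain ⟨p, hp, rfl⟩ := hx
          exact (hmem p (Finset.mem_filter.1 hp).1).2.1)
        (by
          intro x hx y hy
          rw [Finset.mem_image] at hx hy
          obtain ⟨p, hp, rfl⟩ := hx
          obtain ⟨q, hq, rfl⟩ := hy
          obtain ⟨hpF, hpk⟩ := Finset.mem_filter.1 hp
          obtain ⟨hqF, hqk⟩ := Finset.mem_filter.1 hq
          have e1 := (hmem p hpF).2.2.1
          have e2 := (hmem q hqF).2.2.1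
          rw [hpk] at e1
          rw [hqk] at e2
          have e3 : (g : ℤ) ∣ a * (b * (h3 * Xe a b h1 h2 k * (p.2 - q.2))) := by
            have := dvd_sub e1 e2
            have e : m3 a b h1 h2 h3 k p.2 - m3 a b h1 h2 h3 k q.2 =
                a * (b * (h3 * Xe a b h1 h2 k * (p.2 - q.2))) := by unfold m3 W11; ring
            rwa [e] at this
          have ca : IsCoprime (g : ℤ) a := (IsCoprime.of_isCoprime_of_dvd_right hac hgc').symm
          have cb : IsCoprime (g : ℤ) b := (IsCoprime.of_isCoprime_of_dvd_right hbc hgc').symm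
          exact cb.dvd_of_dvd_mul_left (ca.dvd_of_dvd_mul_left e3))
      refine h4.trans ?_
      have hXk : Int.gcd (Xe a b h1 h2 k) g = δ := by rw [← hp1k]; exact (hmem p1 hp1).2.2.2
      have h5 : Int.gcd (h3 * Xe a b h1 h2 k) g ≤ Int.gcd h3 g * δ := by
        rw [← hXk]
        apply Nat.le_of_dvd
        · apply Nat.mul_pos
          · apply Nat.pos_of_ne_zero
            intro h0
            rw [Int.gcd_eq_zero_iff] at h0
            have : (g : ℤ) = 0 := h0.2
            omega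
          · rw [hXk]; omega
        · simp only [Int.gcd, Int.natAbs_mul, Int.natAbs_natCast]
          exact Nat.gcd_mul_left_dvd_mul_gcd _ _ _
      have h6 : ((Int.gcd (h3 * Xe a b h1 h2 k) g : ℕ) : ℝ) ≤ (Int.gcd h3 g : ℝ) * δ := by
        exact_mod_cast h5
      have hgr : (0 : ℝ) < g := by exact_mod_cast hg
      have h7 : (n : ℝ) * (Int.gcd (h3 * Xe a b h1 h2 k) g : ℝ) ≤ (n : ℝ) * Int.gcd h3 g * δ := by
        rw [mul_assoc]
        gcongr
      have h8 : (n : ℝ) * (Int.gcd (h3 * Xe a b h1 h2 k) g : ℝ) / g ≤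
          (n : ℝ) * Int.gcd h3 g * δ / g := by gcongr
      linarith
    have hsum : (F.card : ℝ) = ∑ k ∈ F.image Prod.fst, ((F.filter fun p => p.1 = k).card : ℝ) := by
      rw [Finset.card_eq_sum_card_image Prod.fst F]
      push_cast
      rfl
    rw [hsum]
    calc ∑ k ∈ F.image Prod.fst, ((F.filter fun p => p.1 = k).card : ℝ)
        ≤ ∑ k ∈ F.image Prod.fst, ((n : ℝ) * Int.gcd h3 g * δ / g + 1) :=
          Finset.sum_le_sum hfib
      _ = ((F.image Prod.fst).card : ℝ) * ((n : ℝ) * Int.gcd h3 g * δ / g + 1) := by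
          rw [Finset.sum_const, nsmul_eq_mul]
      _ ≤ _ := by gcongr

end Pool.Agent.Helper28.SP.Z0
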