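import Pool.Agent.Helper28.SP.St

set_option autoImplicit false

namespace Pool.Agent.Helper28.SP.Z1

open Finset Matrix
open Pool.Agent.Helper28.SP
open Pool.Agent.Helper56.SW (τ)

theorem ap {i : ℤ} {n M : ℕ} {S : Finset ℤ} (hM : 1 ≤ M) (hS : S ⊆ Iv i n)
    (h : ∀ x ∈ S, ∀ y ∈ S, (M : ℤ) ∣ x - y) : (S.card : ℝ) ≤ n / M + 1 := by
  have hMz : (0 : ℤ) < M := by exact_mod_cast hM
  have hle : S.card ≤ (range (n / M + 1)).card := by
    refine card_le_card_of_injOn (fun x => ((x - i) / M).toNat) ?_ ?_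
    · intro x hx
      have hx' := hS hx
      rw [Iv, mem_Ico] at hx'
      simp only [coe_range, Set.mem_Iio]
      have h0 : 0 ≤ (x - i) / M := Int.ediv_nonneg (by omega) hMz.le
      have h1 : (x - i) / M ≤ (n : ℤ) / M := Int.ediv_le_ediv hMz (by omega)
      have h2 : ((n : ℤ) / M) = ((n / M : ℕ) : ℤ) := by simp
      omega
    · intro x hx y hy hxy
      have hx' := hS hx
      have hy' := hS hy
      rw [Iv, mem_Ico] at hx' hy'
      simp only at hxy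
      have h0 : 0 ≤ (x - i) / M := Int.ediv_nonneg (by omega) hMz.le
      have h1 : 0 ≤ (y - i) / M := Int.ediv_nonneg (by omega) hMz.le
      have hq : (x - i) / (M : ℤ) = (y - i) / M := by omega
      have hd : (M : ℤ) ∣ (x - i) - (y - i) := by
        have := h x hx y hy
        rwa [sub_sub_sub_cancel_right]
      have hm : (x - i) % (M : ℤ) = (y - i) % M := (Int.modEq_iff_dvd.mpr hd).symm
      have e1 := Int.mul_ediv_add_emod (x - i) M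
      have e2 := Int.mul_ediv_add_emod (y - i) M
      rw [hq, hm] at e1
      linarith
  rw [card_range] at hle
  have h3 : ((n / M : ℕ) : ℝ) ≤ (n : ℝ) / M := Nat.cast_div_le
  have h4 : (S.card : ℝ) ≤ ((n / M + 1 : ℕ) : ℝ) := by exact_mod_cast hle
  push_cast at h4
  linarith

theorem quot_dvd {g : ℕ} {h z : ℤ} (hg : 1 ≤ g) (hd : (g : ℤ) ∣ h * z) :
    ((g / Int.gcd h g : ℕ) : ℤ) ∣ z := by
  have hpos : 0 < Int.gcd h g := Int.gcd_pos_of_ne_zero_right _ (by positivity)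
  have h1 : Int.gcd h g ∣ g := by
    have := Int.gcd_dvd_right h (g : ℤ)
    exact_mod_cast this
  obtain ⟨e, he⟩ := h1
  obtain ⟨f, hf⟩ : ((Int.gcd h g : ℕ) : ℤ) ∣ h := Int.gcd_dvd_left h (g : ℤ)
  have hge : g / Int.gcd h g = e := Nat.div_eq_of_eq_mul_right hpos he
  rw [hge]
  have hcop : IsCoprime (e : ℤ) f := by
    have hb : ((Int.gcd h g : ℕ) : ℤ) = h * Int.gcdA h g + (g : ℤ) * Int.gcdB h g :=
      Int.gcd_eq_gcd_ab h g
    refine ⟨Int.gcdB h g, Int.gcdA h g, ?_⟩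
    have hp : ((Int.gcd h g : ℕ) : ℤ) ≠ 0 := by exact_mod_cast hpos.ne'
    apply mul_left_cancel₀ hp
    have hgz : (g : ℤ) = ((Int.gcd h g : ℕ) : ℤ) * e := by exact_mod_cast he
    calc ((Int.gcd h g : ℕ) : ℤ) * (Int.gcdB h g * e + Int.gcdA h g * f)
        = (((Int.gcd h g : ℕ) : ℤ) * f) * Int.gcdA h g +
          (((Int.gcd h g : ℕ) : ℤ) * e) * Int.gcdB h g := by ring
      _ = h * Int.gcdA h g + (g : ℤ) * Int.gcdB h g := by rw [← hf, ← hgz]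
      _ = ((Int.gcd h g : ℕ) : ℤ) * 1 := by rw [mul_one, ← hb]
  have h2 : ((Int.gcd h g : ℕ) : ℤ) * e ∣ ((Int.gcd h g : ℕ) : ℤ) * (f * z) := by
    have hgz : (g : ℤ) = ((Int.gcd h g : ℕ) : ℤ) * e := by exact_mod_cast he
    rw [← mul_assoc, ← hf, ← hgz]
    exact hd
  have h3 : (e : ℤ) ∣ f * z :=
    (mul_dvd_mul_iff_left (by exact_mod_cast hpos.ne')).mp h2
  exact hcop.dvd_of_dvd_mul_left h3

theorem ap_gcd {i h : ℤ} {n g : ℕ} {S : Finset ℤ} (hg : 1 ≤ g) (hS : S ⊆ Iv i n)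
    (hh : ∀ x ∈ S, ∀ y ∈ S, (g : ℤ) ∣ h * (x - y)) :
    (S.card : ℝ) ≤ n * Int.gcd h g / g + 1 := by
  have hpos : 0 < Int.gcd h g := Int.gcd_pos_of_ne_zero_right _ (by positivity)
  have h1 : Int.gcd h g ∣ g := by
    have := Int.gcd_dvd_right h (g : ℤ)
    exact_mod_cast this
  have hM : 1 ≤ g / Int.gcd h g := Nat.div_pos (Nat.le_of_dvd (by omega) h1) hpos
  have := ap hM hS (fun x hx y hy => quot_dvd hg (hh x hx y hy))
  have e : ((g / Int.gcd h g : ℕ) : ℝ) = (g : ℝ) / Int.gcd h g :=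
    Nat.cast_div h1 (by exact_mod_cast hpos.ne')
  rw [e] at this
  rw [div_div_eq_mul_div] at this
  exact this

theorem cop_of_dvd {a : ℤ} {c g : ℕ} (ha : IsCoprime a (c : ℤ)) (hg : g ∣ c) :
    IsCoprime a (g : ℤ) :=
  ha.of_isCoprime_of_dvd_right (by exact_mod_cast hg)

theorem dvdX {a b h1 h2 k k' : ℤ} {g : ℕ} (ha : IsCoprime a (g : ℤ)) (hb : IsCoprime b (g : ℤ))
    (h : (g : ℤ) ∣ Xe a b h1 h2 k - Xe a b h1 h2 k') : (g : ℤ) ∣ (h1 * h2) * (k - k') := by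
  have e : Xe a b h1 h2 k - Xe a b h1 h2 k' = (a * (a * b)) * ((h1 * h2) * (k - k')) := by
    unfold Xe; ring
  rw [e] at h
  exact (IsCoprime.mul_left ha (IsCoprime.mul_left ha hb)).symm.dvd_of_dvd_mul_left h

/-- number of elements by fibres over the first coordinate -/
theorem card_fib {T : Finset (ℤ × ℤ)} {K : Finset ℤ} {β : ℤ → ℝ} (hβ : ∀ k, 0 ≤ β k)
    (h1 : T.image Prod.fst ⊆ K)
    (h2 : ∀ k ∈ T.image Prod.fst, (((T.filter fun p => p.1 = k).image Prod.snd).card : ℝ) ≤ β k) :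
    (T.card : ℝ) ≤ ∑ k ∈ K, β k := by
  have e : T.card = ∑ k ∈ T.image Prod.fst, (T.filter fun p => p.1 = k).card :=
    card_eq_sum_card_image Prod.fst T
  have e2 : (T.card : ℝ) = ∑ k ∈ T.image Prod.fst, ((T.filter fun p => p.1 = k).card : ℝ) := by
    rw [e]; push_cast; rfl
  rw [e2]
  calc ∑ k ∈ T.image Prod.fst, ((T.filter fun p => p.1 = k).card : ℝ)
      ≤ ∑ k ∈ T.image Prod.fst, β k := by
        refine sum_le_sum fun k hk => ?_
        have hc : (T.filter fun p => p.1 = k).card =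
            ((T.filter fun p => p.1 = k).image Prod.snd).card := by
          rw [card_image_of_injOn]
          intro p hp q hq hpq
          have hp' := (mem_filter.mp hp).2
          have hq' := (mem_filter.mp hq).2
          exact Prod.ext (hp'.trans hq'.symm) hpq
        rw [hc]
        exact h2 k hk
    _ ≤ ∑ k ∈ K, β k := sum_le_sum_of_subset_of_nonneg h1 fun k _ _ => hβ k

theorem gcd_mul_le (h1 h2 : ℤ) {c : ℕ} (hc : 1 ≤ c) :
    Int.gcd (h1 * h2) c ≤ Int.gcd h1 c * Int.gcd h2 c := by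
  have h : Int.gcd (h1 * h2) c ∣ Int.gcd h1 c * Int.gcd h2 c := by
    have := Nat.gcd_mul_right_dvd_mul_gcd c h1.natAbs h2.natAbs
    rw [Nat.gcd_comm c, Nat.gcd_comm c, Nat.gcd_comm c] at this
    simpa [Int.gcd, Int.natAbs_mul] using this
  refine Nat.le_of_dvd (Nat.mul_pos ?_ ?_) h <;>
  exact Int.gcd_pos_of_ne_zero_right _ (by positivity)

theorem gcd_mono (h : ℤ) {c g : ℕ} (hc : 1 ≤ c) (hg : g ∣ c) : Int.gcd h g ≤ Int.gcd h c := by
  refine Nat.le_of_dvd (Int.gcd_pos_of_ne_zero_right _ (by positivity)) ?_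
  have : (Int.gcd h g : ℤ) ∣ Int.gcd h c :=
    Int.dvd_coe_gcd (Int.gcd_dvd_left h (g : ℤ))
      ((Int.gcd_dvd_right h (g : ℤ)).trans (by exact_mod_cast hg))
  exact_mod_cast this

/-- sums over the pairs `(k', l')` with `g ∣ m` -/
theorem sum_A (hZ0 : StZ0) {c : ℕ} {a b h1 h2 h3 : ℤ} {n : ℕ} {i1 i2 : ℤ} {g : ℕ} (hc : 1 ≤ c)
    (ha : IsCoprime a (c : ℤ)) (hb : IsCoprime b (c : ℤ)) (hg : g ∣ c) (Φ : ℕ → ℝ) (C : ℝ)
    (hC : 0 ≤ C) (hΦ : ∀ δ, 0 ≤ Φ δ)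
    (hb' : ∀ δ : ℕ, 1 ≤ δ → δ ∣ Int.gcd h3 g → Φ δ *
      (((n : ℝ) * Int.gcd (h1 * h2) c / δ + 1) * ((n : ℝ) * Int.gcd h3 g * δ / g + 1)) ≤ C) :
    ∑ q ∈ (Iv i1 n ×ˢ Iv i2 n).filter (fun p => (g : ℤ) ∣ m3 a b h1 h2 h3 p.1 p.2),
      Φ (Int.gcd (Xe a b h1 h2 q.1) g) ≤ τ c * C := by
  have hg1 : 1 ≤ g := Nat.pos_of_dvd_of_pos hg hc
  have hmaps : ∀ q ∈ (Iv i1 n ×ˢ Iv i2 n).filter (fun p => (g : ℤ) ∣ m3 a b h1 h2 h3 p.1 p.2),
      Int.gcd (Xe a b h1 h2 q.1) g ∈ c.divisors := by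
    intro q _
    rw [Nat.mem_divisors]
    refine ⟨?_, by omega⟩
    have : (Int.gcd (Xe a b h1 h2 q.1) g : ℤ) ∣ g := Int.gcd_dvd_right _ _
    exact dvd_trans (by exact_mod_cast this) hg
  rw [← sum_fiberwise_of_maps_to hmaps]
  calc _ ≤ ∑ δ ∈ c.divisors, C := by
        refine sum_le_sum fun δ hδ => ?_
        have hδ1 : 1 ≤ δ := Nat.pos_of_mem_divisors hδ
        have e : ∑ q ∈ ((Iv i1 n ×ˢ Iv i2 n).filter
            (fun p => (g : ℤ) ∣ m3 a b h1 h2 h3 p.1 p.2)).filter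
              (fun q => Int.gcd (Xe a b h1 h2 q.1) g = δ), Φ (Int.gcd (Xe a b h1 h2 q.1) g) =
            (((Iv i1 n ×ˢ Iv i2 n).filter fun p => (g : ℤ) ∣ m3 a b h1 h2 h3 p.1 p.2 ∧
              Int.gcd (Xe a b h1 h2 p.1) g = δ).card : ℝ) * Φ δ := by
          rw [filter_filter, sum_congr rfl (fun q hq => by rw [(mem_filter.mp hq).2.2]), sum_const,
            nsmul_eq_mul]
        rw [e]
        obtain ⟨hne, hcard⟩ := hZ0 c a b h1 h2 h3 n i1 i2 g δ hc ha hb hg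
        rcases Finset.eq_empty_or_nonempty ((Iv i1 n ×ˢ Iv i2 n).filter fun p =>
          (g : ℤ) ∣ m3 a b h1 h2 h3 p.1 p.2 ∧ Int.gcd (Xe a b h1 h2 p.1) g = δ) with h0 | h0
        · rw [h0]; simpa using hC
        · rw [mul_comm]
          exact (mul_le_mul_of_nonneg_left hcard (hΦ δ)).trans (hb' δ hδ1 (hne h0))
    _ = τ c * C := by rw [sum_const, nsmul_eq_mul]; rfl

theorem Z3_le {c : ℕ} {a b h1 h2 h3 : ℤ} {n : ℕ} {i1 i2 : ℤ} {g : ℕ} (hg : g ∣ c) :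
    (Z3 c a b h1 h2 h3 n i1 i2 g : ℝ) ≤
    ∑ q ∈ (Iv i1 n ×ˢ Iv i2 n).filter (fun p => (g : ℤ) ∣ m3 a b h1 h2 h3 p.1 p.2),
      ((((Iv i1 n ×ˢ Iv i2 n).filter fun p =>
      (c : ℤ) ∣ m3 a b h1 h2 h3 p.1 p.2 - m3 a b h1 h2 h3 q.1 q.2 ∧
      (g : ℤ) ∣ W11 a b h1 h2 p.1 p.2 - W11 a b h1 h2 q.1 q.2).card : ℕ) : ℝ) := by
  unfold Z3
  set Z := ((Iv i1 n ×ˢ Iv i2 n) ×ˢ (Iv i1 n ×ˢ Iv i2 n)).filter fun p =>
    (c : ℤ) ∣ m3 a b h1 h2 h3 p.1.1 p.1.2 - m3 a b h1 h2 h3 p.2.1 p.2.2 ∧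
    Int.gcd (m3 a b h1 h2 h3 p.1.1 p.1.2) c = g ∧
    (g : ℤ) ∣ W11 a b h1 h2 p.1.1 p.1.2 - W11 a b h1 h2 p.2.1 p.2.2 ∧
    (g : ℤ) ∣ W22 a b h2 h3 p.1.1 p.1.2 - W22 a b h2 h3 p.2.1 p.2.2 with hZ
  have hm : ∀ p ∈ Z, p.2 ∈ (Iv i1 n ×ˢ Iv i2 n).filter
      (fun p => (g : ℤ) ∣ m3 a b h1 h2 h3 p.1 p.2) := by
    intro p hp
    obtain ⟨hp1, hc1, hc2, -⟩ := mem_filter.mp hp
    refine mem_filter.mpr ⟨(mem_product.mp hp1).2, ?_⟩
    have h1' : (g : ℤ) ∣ m3 a b h1 h2 h3 p.1.1 p.1.2 := by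
      rw [← hc2]; exact Int.gcd_dvd_left _ _
    have h2' : (g : ℤ) ∣ m3 a b h1 h2 h3 p.1.1 p.1.2 - m3 a b h1 h2 h3 p.2.1 p.2.2 :=
      dvd_trans (by exact_mod_cast hg) hc1
    have := dvd_sub h1' h2'
    rwa [sub_sub_cancel] at this
  have e := card_eq_sum_card_fiberwise (f := Prod.snd) (s := Z) (fun p hp => hm p hp)
  rw [e]
  push_cast
  refine sum_le_sum fun q _ => ?_
  have : (Z.filter fun p => p.2 = q).card ≤ ((Iv i1 n ×ˢ Iv i2 n).filter fun p =>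
      (c : ℤ) ∣ m3 a b h1 h2 h3 p.1 p.2 - m3 a b h1 h2 h3 q.1 q.2 ∧
      (g : ℤ) ∣ W11 a b h1 h2 p.1 p.2 - W11 a b h1 h2 q.1 q.2).card := by
    refine card_le_card_of_injOn Prod.fst ?_ ?_
    · intro p hp
      obtain ⟨hpZ, hpq⟩ := mem_filter.mp hp
      obtain ⟨hp1, hc1, -, hc3, -⟩ := mem_filter.mp hpZ
      rw [← hpq]
      exact mem_coe.mpr (mem_filter.mpr ⟨(mem_product.mp hp1).1, hc1, hc3⟩)
    · intro p hp r hr hpr
      have hp' := (mem_filter.mp hp).2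
      have hr' := (mem_filter.mp hr).2
      exact Prod.ext hpr (hp'.trans hr'.symm)
  exact_mod_cast this

/-- the `k` with `g ∣ X(k) + x₃ W11(q)` -/
noncomputable def Ks (a b h1 h2 h3 : ℤ) (n : ℕ) (i1 : ℤ) (g : ℕ) (q : ℤ × ℤ) : Finset ℤ :=
  (Iv i1 n).filter fun k => (g : ℤ) ∣ Xe a b h1 h2 k + a * h3 * W11 a b h1 h2 q.1 q.2

theorem inner1 {c : ℕ} {a b h1 h2 h3 : ℤ} {n : ℕ} {i1 i2 : ℤ} {g : ℕ} (hc : 1 ≤ c)
    (ha : IsCoprime a (c : ℤ)) (hb : IsCoprime b (c : ℤ)) (hg : g ∣ c) (q : ℤ × ℤ)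
    (hq : (g : ℤ) ∣ m3 a b h1 h2 h3 q.1 q.2) :
    ((((Iv i1 n ×ˢ Iv i2 n).filter fun p =>
      (c : ℤ) ∣ m3 a b h1 h2 h3 p.1 p.2 - m3 a b h1 h2 h3 q.1 q.2 ∧
      (g : ℤ) ∣ W11 a b h1 h2 p.1 p.2 - W11 a b h1 h2 q.1 q.2).card : ℕ) : ℝ) ≤
      ∑ k ∈ Ks a b h1 h2 h3 n i1 g q,
        ((n : ℝ) * ((Int.gcd h3 c : ℝ) * Int.gcd (Xe a b h1 h2 k) c) / c + 1) := by
  have hg1 : 1 ≤ g := Nat.pos_of_dvd_of_pos hg hc
  set T := (Iv i1 n ×ˢ Iv i2 n).filter fun p =>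
      (c : ℤ) ∣ m3 a b h1 h2 h3 p.1 p.2 - m3 a b h1 h2 h3 q.1 q.2 ∧
      (g : ℤ) ∣ W11 a b h1 h2 p.1 p.2 - W11 a b h1 h2 q.1 q.2 with hT
  refine card_fib (fun k => by positivity) ?_ ?_
  · intro k hk
    obtain ⟨p, hp, rfl⟩ := mem_image.mp hk
    obtain ⟨hp1, hm, hw⟩ := mem_filter.mp hp
    refine mem_filter.mpr ⟨(mem_product.mp hp1).1, ?_⟩
    have hm' : (g : ℤ) ∣ m3 a b h1 h2 h3 p.1 p.2 - m3 a b h1 h2 h3 q.1 q.2 :=
      dvd_trans (by exact_mod_cast hg) hm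
    have e : Xe a b h1 h2 p.1 + a * h3 * W11 a b h1 h2 q.1 q.2 =
        (m3 a b h1 h2 h3 p.1 p.2 - m3 a b h1 h2 h3 q.1 q.2) + m3 a b h1 h2 h3 q.1 q.2 -
        (W11 a b h1 h2 p.1 p.2 - W11 a b h1 h2 q.1 q.2) * (a * h3) := by
      unfold m3; ring
    rw [e]
    exact dvd_sub (dvd_add hm' hq) (Dvd.dvd.mul_right hw _)
  · intro k hk
    have hgc : Int.gcd (h3 * Xe a b h1 h2 k) c ≤ Int.gcd h3 c * Int.gcd (Xe a b h1 h2 k) c :=
      gcd_mul_le _ _ hc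
    have hgc' : ((Int.gcd (h3 * Xe a b h1 h2 k) c : ℕ) : ℝ) ≤
        (Int.gcd h3 c : ℝ) * Int.gcd (Xe a b h1 h2 k) c := by exact_mod_cast hgc
    have hc0 : (0 : ℝ) < c := by exact_mod_cast hc
    have key : ((((T.filter fun p => p.1 = k).image Prod.snd).card : ℕ) : ℝ) ≤
        n * Int.gcd (h3 * Xe a b h1 h2 k) c / c + 1 := by
      refine ap_gcd hc (i := i2) ?_ ?_
      · intro l hl
        obtain ⟨p, hp, rfl⟩ := mem_image.mp hl
        exact (mem_product.mp (mem_filter.mp (mem_filter.mp hp).1).1).2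
      · intro x hx y hy
        obtain ⟨p, hp, rfl⟩ := mem_image.mp hx
        obtain ⟨r, hr, rfl⟩ := mem_image.mp hy
        obtain ⟨hpT, hpk⟩ := mem_filter.mp hp
        obtain ⟨hrT, hrk⟩ := mem_filter.mp hr
        have hp2 := (mem_filter.mp hpT).2.1
        have hr2 := (mem_filter.mp hrT).2.1
        have h3' := dvd_sub hp2 hr2
        rw [sub_sub_sub_cancel_right] at h3'
        have e : m3 a b h1 h2 h3 p.1 p.2 - m3 a b h1 h2 h3 r.1 r.2 =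
            (a * b) * ((h3 * Xe a b h1 h2 k) * (p.2 - r.2)) := by
          rw [hpk, hrk]; unfold m3 W11; ring
        rw [e] at h3'
        exact (IsCoprime.mul_left ha hb).symm.dvd_of_dvd_mul_left h3'
    refine key.trans ?_
    have : (n : ℝ) * Int.gcd (h3 * Xe a b h1 h2 k) c / c ≤
        (n : ℝ) * ((Int.gcd h3 c : ℝ) * Int.gcd (Xe a b h1 h2 k) c) / c :=
      div_le_div_of_nonneg_right (mul_le_mul_of_nonneg_left hgc' (by positivity)) hc0.le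
    linarith

theorem cardKs {c : ℕ} {a b h1 h2 h3 : ℤ} {n : ℕ} {i1 : ℤ} {g : ℕ} (hc : 1 ≤ c)
    (ha : IsCoprime a (c : ℤ)) (hb : IsCoprime b (c : ℤ)) (hg : g ∣ c) (q : ℤ × ℤ) :
    ((Ks a b h1 h2 h3 n i1 g q).card : ℝ) ≤ n * Int.gcd (h1 * h2) c / g + 1 := by
  have hg1 : 1 ≤ g := Nat.pos_of_dvd_of_pos hg hc
  have hag := cop_of_dvd ha hg
  have hbg := cop_of_dvd hb hg
  have key : ((Ks a b h1 h2 h3 n i1 g q).card : ℝ) ≤ n * Int.gcd (h1 * h2) g / g + 1 := by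
    refine ap_gcd hg1 (i := i1) (filter_subset _ _) ?_
    intro x hx y hy
    have hx' := (mem_filter.mp hx).2
    have hy' := (mem_filter.mp hy).2
    have := dvd_sub hx' hy'
    rw [add_sub_add_right_eq_sub] at this
    exact dvdX hag hbg this
  have hg0 : (0 : ℝ) < g := by exact_mod_cast hg1
  have : (n : ℝ) * Int.gcd (h1 * h2) g / g ≤ n * Int.gcd (h1 * h2) c / g :=
    div_le_div_of_nonneg_right (mul_le_mul_of_nonneg_left
      (by exact_mod_cast gcd_mono (h1 * h2) hc hg) (by positivity)) hg0.le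
  linarith

theorem cardKδ {c : ℕ} {a b h1 h2 h3 : ℤ} {n : ℕ} {i1 : ℤ} {g δ : ℕ} (hc : 1 ≤ c)
    (ha : IsCoprime a (c : ℤ)) (hb : IsCoprime b (c : ℤ)) (hg : g ∣ c) (q : ℤ × ℤ)
    (hq : (g : ℤ) ∣ m3 a b h1 h2 h3 q.1 q.2) (hδ : δ ∣ c) :
    (((Ks a b h1 h2 h3 n i1 g q).filter fun k => Int.gcd (Xe a b h1 h2 k) c = δ).card : ℝ) ≤
      n * Int.gcd (h1 * h2) c * Int.gcd h3 g / (g * δ) + 1 := by
  have hg1 : 1 ≤ g := Nat.pos_of_dvd_of_pos hg hc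
  have hδ1 : 1 ≤ δ := Nat.pos_of_dvd_of_pos hδ hc
  have hg0 : (0 : ℝ) < g := by exact_mod_cast hg1
  have hδ0 : (0 : ℝ) < δ := by exact_mod_cast hδ1
  rcases Finset.eq_empty_or_nonempty
    ((Ks a b h1 h2 h3 n i1 g q).filter fun k => Int.gcd (Xe a b h1 h2 k) c = δ) with h0 | h0
  · rw [h0]; simp only [card_empty, Nat.cast_zero]; positivity
  obtain ⟨k0, hk0⟩ := h0
  obtain ⟨hk1, hk2⟩ := mem_filter.mp hk0
  have hk3 := (mem_filter.mp hk1).2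
  -- `gcd (δ, g) ∣ gcd (h3, g)`
  have hd : Nat.gcd g δ ∣ Int.gcd h3 g := by
    have d1 : ((Nat.gcd g δ : ℕ) : ℤ) ∣ (g : ℤ) := by exact_mod_cast Nat.gcd_dvd_left g δ
    have d2 : ((Nat.gcd g δ : ℕ) : ℤ) ∣ (δ : ℤ) := by exact_mod_cast Nat.gcd_dvd_right g δ
    have d3 : (δ : ℤ) ∣ Xe a b h1 h2 k0 := by rw [← hk2]; exact Int.gcd_dvd_left _ _
    have d4 : ((Nat.gcd g δ : ℕ) : ℤ) ∣ a * (h3 * W11 a b h1 h2 q.1 q.2) := by
      have := dvd_sub (d1.trans hk3) (d2.trans d3)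
      rw [add_sub_cancel_left, mul_assoc] at this
      exact this
    have hcopd : IsCoprime a ((Nat.gcd g δ : ℕ) : ℤ) :=
      cop_of_dvd ha ((Nat.gcd_dvd_left g δ).trans hg)
    have d5 : ((Nat.gcd g δ : ℕ) : ℤ) ∣ h3 * W11 a b h1 h2 q.1 q.2 :=
      hcopd.symm.dvd_of_dvd_mul_left d4
    have hW : IsCoprime (W11 a b h1 h2 q.1 q.2) ((Nat.gcd g δ : ℕ) : ℤ) := by
      obtain ⟨e, he⟩ := d1.trans hq
      refine ⟨W22 a b h2 h3 q.1 q.2,
        -(e * (b * q.1 * (1 + a * h2 * (b * q.2)) + b * q.2)), ?_⟩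
      have e1 : W22 a b h2 h3 q.1 q.2 * W11 a b h1 h2 q.1 q.2 -
          m3 a b h1 h2 h3 q.1 q.2 * (b * q.1 * (1 + a * h2 * (b * q.2)) + b * q.2) = 1 := by
        unfold W22 m3 W11 Xe; ring
      rw [he] at e1
      linarith
    have d6 : ((Nat.gcd g δ : ℕ) : ℤ) ∣ h3 := hW.symm.dvd_of_dvd_mul_right d5
    have d7 : ((Nat.gcd g δ : ℕ) : ℤ) ∣ (Int.gcd h3 g : ℤ) := Int.dvd_coe_gcd d6 d1
    exact_mod_cast d7
  have hM1 : 1 ≤ Nat.lcm g δ := Nat.lcm_pos hg1 hδ1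
  have hMc : Nat.lcm g δ ∣ c := Nat.lcm_dvd hg hδ
  have key : (((Ks a b h1 h2 h3 n i1 g q).filter fun k =>
      Int.gcd (Xe a b h1 h2 k) c = δ).card : ℝ) ≤
      n * Int.gcd (h1 * h2) (Nat.lcm g δ : ℕ) / (Nat.lcm g δ : ℕ) + 1 := by
    refine ap_gcd hM1 (i := i1) ((filter_subset _ _).trans (filter_subset _ _)) ?_
    intro x hx y hy
    obtain ⟨hx1, hx2⟩ := mem_filter.mp hx
    obtain ⟨hy1, hy2⟩ := mem_filter.mp hy
    have hx3 := (mem_filter.mp hx1).2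
    have hy3 := (mem_filter.mp hy1).2
    have t1 := dvd_sub hx3 hy3
    rw [add_sub_add_right_eq_sub] at t1
    have t2 := dvdX (cop_of_dvd ha hg) (cop_of_dvd hb hg) t1
    have u1 : (δ : ℤ) ∣ Xe a b h1 h2 x := by rw [← hx2]; exact Int.gcd_dvd_left _ _
    have u2 : (δ : ℤ) ∣ Xe a b h1 h2 y := by rw [← hy2]; exact Int.gcd_dvd_left _ _
    have u3 := dvdX (cop_of_dvd ha hδ) (cop_of_dvd hb hδ) (dvd_sub u1 u2)
    have : ((Nat.lcm g δ : ℕ) : ℤ) = ((Int.lcm (g : ℤ) (δ : ℤ) : ℕ) : ℤ) := by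
      simp [Int.lcm]
    rw [this]
    exact Int.coe_lcm_dvd t2 u3
  refine key.trans ?_
  have hGle : ((Int.gcd (h1 * h2) (Nat.lcm g δ : ℕ) : ℕ) : ℝ) ≤ Int.gcd (h1 * h2) c := by
    exact_mod_cast gcd_mono (h1 * h2) hc hMc
  have hM0 : (0 : ℝ) < (Nat.lcm g δ : ℕ) := by exact_mod_cast hM1
  have hd' : ((Nat.gcd g δ : ℕ) : ℝ) ≤ Int.gcd h3 g := by
    have hp : 0 < Int.gcd h3 g := Int.gcd_pos_of_ne_zero_right _ (by positivity)
    exact_mod_cast Nat.le_of_dvd hp hd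
  have hprod : ((Nat.gcd g δ : ℕ) : ℝ) * (Nat.lcm g δ : ℕ) = g * δ := by
    exact_mod_cast Nat.gcd_mul_lcm g δ
  have hfin : (n : ℝ) * Int.gcd (h1 * h2) (Nat.lcm g δ : ℕ) / (Nat.lcm g δ : ℕ) ≤
      n * Int.gcd (h1 * h2) c * Int.gcd h3 g / (g * δ) := by
    rw [div_le_div_iff₀ hM0 (by positivity), ← hprod]
    have s1 : (n : ℝ) * Int.gcd (h1 * h2) (Nat.lcm g δ : ℕ) * (Nat.gcd g δ : ℕ) ≤
        n * Int.gcd (h1 * h2) c * Int.gcd h3 g := by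
      refine mul_le_mul (mul_le_mul_of_nonneg_left hGle (by positivity)) hd' (by positivity)
        (by positivity)
    calc (n : ℝ) * Int.gcd (h1 * h2) (Nat.lcm g δ : ℕ) *
        ((Nat.gcd g δ : ℕ) * (Nat.lcm g δ : ℕ) : ℝ) =
        ((n : ℝ) * Int.gcd (h1 * h2) (Nat.lcm g δ : ℕ) * (Nat.gcd g δ : ℕ)) *
          (Nat.lcm g δ : ℕ) := by ring
      _ ≤ _ := mul_le_mul_of_nonneg_right s1 hM0.le
  linarith

theorem sumKs {c : ℕ} {a b h1 h2 h3 : ℤ} {n : ℕ} {i1 : ℤ} {g : ℕ} (hc : 1 ≤ c)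
    (ha : IsCoprime a (c : ℤ)) (hb : IsCoprime b (c : ℤ)) (hg : g ∣ c) (q : ℤ × ℤ)
    (hq : (g : ℤ) ∣ m3 a b h1 h2 h3 q.1 q.2) :
    ∑ k ∈ Ks a b h1 h2 h3 n i1 g q, (Int.gcd (Xe a b h1 h2 k) c : ℝ) ≤
      τ c * (n * Int.gcd (h1 * h2) c * Int.gcd h3 g / g + c) := by
  have hg1 : 1 ≤ g := Nat.pos_of_dvd_of_pos hg hc
  have hg0 : (0 : ℝ) < g := by exact_mod_cast hg1
  have hmaps : ∀ k ∈ Ks a b h1 h2 h3 n i1 g q, Int.gcd (Xe a b h1 h2 k) c ∈ c.divisors := by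
    intro k _
    rw [Nat.mem_divisors]
    refine ⟨?_, by omega⟩
    have : (Int.gcd (Xe a b h1 h2 k) c : ℤ) ∣ c := Int.gcd_dvd_right _ _
    exact_mod_cast this
  rw [← sum_fiberwise_of_maps_to hmaps]
  calc _ ≤ ∑ δ ∈ c.divisors, ((n : ℝ) * Int.gcd (h1 * h2) c * Int.gcd h3 g / g + c) := by
        refine sum_le_sum fun δ hδ => ?_
        have hδ1 : 1 ≤ δ := Nat.pos_of_mem_divisors hδ
        have hδ0 : (0 : ℝ) < δ := by exact_mod_cast hδ1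
        have hδc : δ ∣ c := Nat.dvd_of_mem_divisors hδ
        rw [sum_congr rfl (fun k hk => by rw [(mem_filter.mp hk).2]), sum_const, nsmul_eq_mul]
        have := cardKδ (h3 := h3) (n := n) (i1 := i1) (h1 := h1) (h2 := h2) hc ha hb hg q hq hδc
        calc _ ≤ ((n : ℝ) * Int.gcd (h1 * h2) c * Int.gcd h3 g / (g * δ) + 1) * δ :=
              mul_le_mul_of_nonneg_right this hδ0.le
          _ = (n : ℝ) * Int.gcd (h1 * h2) c * Int.gcd h3 g / g + δ := by field_simp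
          _ ≤ _ := by
              have : (δ : ℝ) ≤ c := by exact_mod_cast Nat.le_of_dvd hc hδc
              linarith
    _ = _ := by rw [sum_const, nsmul_eq_mul]; rfl

theorem ar1 {n G e g c g3 t : ℝ} (hn : 1 ≤ n) (hG : 1 ≤ G) (he : 1 ≤ e) (heg : e ≤ g)
    (hnc : n ≤ c) (hg3 : 1 ≤ g3) (ht : 1 ≤ t) :
    n * g3 / c * (t * (n * G * e / g + c)) + (n * G / g + 1) ≤ 4 * t * n * G * g3 := by
  have hg0 : 0 < g := by linarith
  have hc0 : 0 < c := by linarith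
  have hg1 : 1 ≤ g := by linarith
  have e1 : n * g3 / c * (t * (n * G * e / g + c)) =
      (t * n * G * g3) * ((n / c) * (e / g)) + t * n * g3 := by field_simp
  have h1 : (n / c) * (e / g) ≤ 1 := by
    have a1 : n / c ≤ 1 := (div_le_one hc0).mpr hnc
    have a2 : e / g ≤ 1 := (div_le_one hg0).mpr heg
    have a3 : 0 ≤ e / g := by positivity
    nlinarith [mul_le_mul a1 a2 a3 (by norm_num : (0 : ℝ) ≤ 1)]
  have hP : 0 ≤ t * n * G * g3 := by positivity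
  have h2 : (t * n * G * g3) * ((n / c) * (e / g)) ≤ t * n * G * g3 := by nlinarith
  have h3 : t * n * g3 ≤ t * n * G * g3 := by
    have : 0 ≤ t * n * g3 := by positivity
    nlinarith
  have h4 : n * G / g ≤ n * G := div_le_self (by positivity) hg1
  have h5 : n * G ≤ t * n * G * g3 := by
    have : 0 ≤ n * G := by positivity
    have h6 : 1 ≤ t * g3 := by nlinarith
    nlinarith
  have h7 : 1 ≤ t * n * G * g3 := by
    have : 1 ≤ n * G := by nlinarith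
    linarith
  rw [e1]
  linarith

theorem ar2 {n G e δ g : ℝ} (hn : 1 ≤ n) (hG : 1 ≤ G) (he : e ≤ n) (hδ : 1 ≤ δ) (hδe : δ ≤ e)
    (hg1 : 1 ≤ g) (hg : g ≤ n) : (n * G / δ + 1) * (n * e * δ / g + 1) ≤
      4 * (n ^ 2 * G * e / g) := by
  have hg0 : 0 < g := by linarith
  have hδ0 : 0 < δ := by linarith
  have he1 : 1 ≤ e := by linarith
  have e1 : (n * G / δ + 1) * (n * e * δ / g + 1) =
      n ^ 2 * G * e / g + n * G / δ + n * e * δ / g + 1 := by field_simp; ring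
  rw [e1]
  have key : ∀ x : ℝ, x * g ≤ n ^ 2 * G * e → x ≤ n ^ 2 * G * e / g := fun x hx =>
    (le_div_iff₀ hg0).mpr hx
  have hnG : 1 ≤ n * G := by nlinarith
  have h1 : n * G / δ ≤ n ^ 2 * G * e / g := by
    refine (div_le_self (by positivity) hδ).trans (key _ ?_)
    have : n * G * g ≤ n * G * n := mul_le_mul_of_nonneg_left hg (by positivity)
    have h2 : n * G * n ≤ n ^ 2 * G * e := by
      have : 0 ≤ n ^ 2 * G := by positivity
      nlinarith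
    linarith
  have h2 : n * e * δ / g ≤ n ^ 2 * G * e / g := by
    refine div_le_div_of_nonneg_right ?_ hg0.le
    have a1 : n * e * δ ≤ n * e * n := mul_le_mul_of_nonneg_left (by linarith) (by positivity)
    have a2 : n * e * n ≤ n ^ 2 * G * e := by
      have : 0 ≤ n ^ 2 * e := by positivity
      nlinarith
    linarith
  have h3 : 1 ≤ n ^ 2 * G * e / g := by
    refine key _ ?_
    have a1 : n * 1 ≤ n * (n * G) := mul_le_mul_of_nonneg_left hnG (by positivity)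
    have a2 : n * (n * G) ≤ n * (n * G) * e := by
      have : 0 ≤ n * (n * G) := by positivity
      nlinarith
    calc 1 * g ≤ n := by linarith
      _ ≤ n * (n * G) * e := by linarith
      _ = _ := by ring
  linarith

theorem thm (h : StZ0) : StZ1 := by
  intro c a b h1 h2 h3 n i1 i2 g hc ha hb hn hnc hg hgn h3n
  have hg1 : 1 ≤ g := Nat.pos_of_dvd_of_pos hg hc
  have hc0 : (0 : ℝ) < c := by exact_mod_cast hc
  set G : ℝ := (Int.gcd (h1 * h2) c : ℝ) with hGdef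
  set Γ : ℝ := (Int.gcd h1 c : ℝ) * Int.gcd h2 c with hΓdef
  have hG1 : 1 ≤ G := by
    have : 0 < Int.gcd (h1 * h2) c := Int.gcd_pos_of_ne_zero_right _ (by positivity)
    rw [hGdef]; exact_mod_cast this
  have hGΓ : G ≤ Γ := by
    rw [hGdef, hΓdef]; exact_mod_cast gcd_mul_le h1 h2 hc
  have he1 : (1 : ℝ) ≤ (Int.gcd h3 g : ℝ) := by
    have : 0 < Int.gcd h3 g := Int.gcd_pos_of_ne_zero_right _ (by positivity)
    exact_mod_cast this
  have heg : (Int.gcd h3 g : ℝ) ≤ (Int.gcd h3 c : ℝ) := by exact_mod_cast gcd_mono h3 hc hg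
  have heg' : (Int.gcd h3 g : ℝ) ≤ g := by
    have : (Int.gcd h3 g : ℤ) ∣ g := Int.gcd_dvd_right _ _
    have h' : Int.gcd h3 g ∣ g := by exact_mod_cast this
    exact_mod_cast Nat.le_of_dvd hg1 h'
  have hen : (Int.gcd h3 g : ℝ) ≤ n := heg.trans (by exact_mod_cast h3n)
  have hn1 : (1 : ℝ) ≤ n := by exact_mod_cast hn
  have hngR : (g : ℝ) ≤ n := by exact_mod_cast hgn
  have hg0 : (0 : ℝ) < g := by exact_mod_cast hg1
  have hncR : (n : ℝ) ≤ c := by exact_mod_cast hnc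
  have hτ : 1 ≤ τ c := by
    unfold τ
    have : 0 < c.divisors.card := card_pos.mpr ⟨1, Nat.one_mem_divisors.mpr (by omega)⟩
    exact_mod_cast this
  set g3 : ℝ := (Int.gcd h3 c : ℝ) with hg3
  have hg31 : 1 ≤ g3 := he1.trans heg
  set e3 : ℝ := (Int.gcd h3 g : ℝ) with he3
  have hA := sum_A h (i1 := i1) (i2 := i2) (n := n) (h1 := h1) (h2 := h2) (h3 := h3) hc ha hb hg
    (fun _ => 4 * τ c * n * G * g3) (4 * τ c * n * G * g3 * (4 * (n ^ 2 * G * e3 / g)))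
    (by positivity) (fun δ => by positivity) (fun δ hδ hδe => by
      have hδe' : (δ : ℝ) ≤ e3 := by
        rw [he3]
        exact_mod_cast Nat.le_of_dvd (Int.gcd_pos_of_ne_zero_right _ (by positivity)) hδe
      exact mul_le_mul_of_nonneg_left (ar2 hn1 hG1 hen (by exact_mod_cast hδ) hδe'
        (by exact_mod_cast hg1) hngR) (by positivity))
  calc (Z3 c a b h1 h2 h3 n i1 i2 g : ℝ) ≤ _ := Z3_le hg
    _ ≤ ∑ q ∈ (Iv i1 n ×ˢ Iv i2 n).filter (fun p => (g : ℤ) ∣ m3 a b h1 h2 h3 p.1 p.2),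
        4 * τ c * n * G * g3 := by
        refine sum_le_sum fun q hq => ?_
        have hq' := (mem_filter.mp hq).2
        refine (inner1 hc ha hb hg q hq').trans ?_
        have e : ∑ k ∈ Ks a b h1 h2 h3 n i1 g q,
            ((n : ℝ) * (g3 * Int.gcd (Xe a b h1 h2 k) c) / c + 1) =
            (n : ℝ) * g3 / c * ∑ k ∈ Ks a b h1 h2 h3 n i1 g q,
              (Int.gcd (Xe a b h1 h2 k) c : ℝ) + (Ks a b h1 h2 h3 n i1 g q).card := by
          rw [sum_add_distrib, sum_const, nsmul_eq_mul, mul_one, mul_sum]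
          refine congrArg₂ _ (sum_congr rfl fun k _ => ?_) rfl
          ring
        rw [e]
        have s1 := sumKs (h3 := h3) (n := n) (i1 := i1) (h1 := h1) (h2 := h2) hc ha hb hg q hq'
        have s2 := cardKs (h3 := h3) (n := n) (i1 := i1) (h1 := h1) (h2 := h2) hc ha hb hg q
        have s3 := mul_le_mul_of_nonneg_left s1 (by positivity : (0 : ℝ) ≤ n * g3 / c)
        exact (add_le_add s3 s2).trans (ar1 hn1 hG1 he1 heg' hncR hg31 hτ)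
    _ ≤ τ c * (4 * τ c * n * G * g3 * (4 * (n ^ 2 * G * e3 / g))) := hA
    _ = 16 * τ c ^ 2 * (n : ℝ) ^ 3 * ((G * e3) * (G * g3)) / g := by ring
    _ ≤ 16 * τ c ^ 2 * (n : ℝ) ^ 3 * (Γ * g3) ^ 2 / g := by
        have k1 : G * e3 ≤ Γ * g3 := mul_le_mul hGΓ heg (by linarith) (by linarith)
        have k2 : G * g3 ≤ Γ * g3 := mul_le_mul_of_nonneg_right hGΓ (by linarith)
        have k3 : (G * e3) * (G * g3) ≤ (Γ * g3) ^ 2 := by
          rw [sq]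
          exact mul_le_mul k1 k2 (by positivity) (by positivity)
        exact div_le_div_of_nonneg_right
          (mul_le_mul_of_nonneg_left k3 (by positivity)) hg0.le

end Pool.Agent.Helper28.SP.Z1
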