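import Pool.Agent.Helper28.SP.M_DIM
import Pool.Agent.Helper28.SP.M_EIG
import Pool.Agent.Helper28.SP.M_EN
import Pool.Agent.Helper28.SP.M_FIN
import Pool.Agent.Helper28.SP.M_FOLD
import Pool.Agent.Helper28.SP.M_GEN
import Pool.Agent.Helper28.SP.M_KER
import Pool.Agent.Helper28.SP.M_LA
import Pool.Agent.Helper28.SP.M_LAM
import Pool.Agent.Helper28.SP.M_LEVEL
import Pool.Agent.Helper28.SP.M_M2
import Pool.Agent.Helper28.SP.M_MINK
import Pool.Agent.Helper28.SP.M_MP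
import Pool.Agent.Helper28.SP.M_PROD
import Pool.Agent.Helper28.SP.M_R2
import Pool.Agent.Helper28.SP.M_R3
import Pool.Agent.Helper28.SP.M_SURJ
import Pool.Agent.Helper28.SP.M_SYM
import Pool.Agent.Helper28.SP.M_TJ
import Pool.Agent.Helper28.SP.M_V2
import Pool.Agent.Helper28.SP.M_V3
import Pool.Agent.Helper28.SP.M_VZ
import Pool.Agent.Helper28.SP.M_W4
import Pool.Agent.Helper28.SP.M_W6
import Pool.Agent.Helper28.SP.M_Z0
import Pool.Agent.Helper28.SP.M_Z1
import Pool.Agent.Helper28.SP.M_Z2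

/-!
# MP_e188f1_nt, spectral range: assembly
-/

set_option autoImplicit false

namespace Pool.Agent.Helper28.SP

theorem asm (hCARD : StCARD) (hCHAR : StCHAR) (hTR : StTR) (hQ : StQ) (hN0W : StN0W)
    (hNPW : StNPW) (hWPN : StWPN) (hCONV : StCONV) (hW2 : StW2)
    (hREC : StM2 → StM4 → StM6 → StREC) : StFIN := by
  have hS : StSURJ := SURJ.thm
  have hD : StDIM := DIM.thm hCHAR
  have hTJ : StTJ := TJ.thm LA.thm EIG.thm LAM.thm hD hTR hQ
  have hL : StLEVEL := LEVEL.thm hTJ hCARD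
  have hSym : StSYM := SYM.thm
  have hSum : StSUM := MINK.thm'
  have hR2 : StR2 := R2.thm hCONV MINK.thm hSym
  have hR3 : StR3 := R3.thm hCONV MINK.thm hSym
  have hW4 : StW4 := W4.thm hR2 V2.thm hSum
  have hZ0 : StZ0 := Z0.thm
  have hV3 : StV3 := V3.thm VZ.thm EN.thm (Z1.thm hZ0) (Z2.thm hZ0)
  have hW6 : StW6 := W6.thm hR3 hV3 hSum
  have hM2 : StM2 := M2.thm hL hSym hN0W hS hW2
  have hM4 : StM4 := M2.thm4 hL hSym hN0W hS hW4
  have hM6 : StM6 := M2.thm6 hL hSym hN0W hS hW6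
  have hMP : StMP := MP.thm hL hSym hNPW hWPN FOLD.thm hS
  exact FIN.thm (hREC hM2 hM4 hM6) hMP

end Pool.Agent.Helper28.SP
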