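import Pool.Agent.Helper28.SP.Asm

/-!
# MP_e188f1_nt, spectral range: the final statement
-/

set_option autoImplicit false

open Pool.Agent.Helper56.SW

namespace Pool.Agent.Helper28.SP

theorem fin2 (h : StFIN) (r : ℕ) (K ε : ℝ) (hr : 1 ≤ r) (hK : 1 ≤ K) (hε : 0 < ε) :
    ∃ C : ℝ, 0 < C ∧ ∀ (c : ℕ) (a₁ a₂ : (ZMod c)ˣ) (H₁ H₂ : ℝ), 1 ≤ c → 1 ≤ H₁ → H₁ ≤ H₂ →
      H₂ ≤ K * c →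
      (∀ t : ℝ, 0 ≤ t →
        ((2 ≤ r ∧ (c : ℝ) ^ 2 / (H₁ * H₂ ^ 2) ≤ t ^ 2) ∨
          (4 ≤ r ∧ (c : ℝ) ^ 2 / H₂ ^ 3 ≤ t ^ 4) ∨
          (6 ≤ r ∧ (c : ℝ) ≤ H₂ ^ 2 ∧ (c : ℝ) / H₂ ^ 2 ≤ t ^ 6) ∨
          (∃ k : ℕ, 3 ≤ k ∧ k ≤ r ∧
            (c : ℝ) ^ 2 / (H₁ ^ k * H₂) + c / H₂ ^ 2 + (c : ℝ) ^ 2 / (H₁ * H₂ ^ 3) ≤ t ^ k)) →
        (Nq (2 * r) c a₁ a₂ H₁ H₂ : ℝ) ≤ C * (c : ℝ) ^ ε * (H₂ ^ (r - 1) +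
          (H₁ * H₂) ^ r / (c : ℝ) ^ 3 * (1 + c * t ^ r))) ∧
      (((2 ≤ r ∧ (c : ℝ) ^ (2 * r + 2) ≤ (H₁ * H₂ ^ 2) ^ r) ∨
          (4 ≤ r ∧ (c : ℝ) ^ (2 * r + 4) ≤ H₂ ^ (3 * r)) ∨
          (6 ≤ r ∧ (c : ℝ) ^ (r + 6) ≤ H₂ ^ (2 * r)) ∨
          (∃ k : ℕ, 3 ≤ k ∧ k ≤ r ∧ (c : ℝ) ^ (r + k) ≤ H₂ ^ (2 * r) ∧
            (c : ℝ) ^ (2 * r + k) ≤ (H₁ ^ k * H₂) ^ r ∧
            (c : ℝ) ^ (2 * r + k) ≤ (H₁ * H₂ ^ 3) ^ r)) →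
        (Nq (2 * r) c a₁ a₂ H₁ H₂ : ℝ) ≤ C * (c : ℝ) ^ ε *
          (H₂ ^ (r - 1) + (H₁ * H₂) ^ r / (c : ℝ) ^ 3)) := by
  obtain ⟨C1, hC1, h1⟩ := h r K ε hr hK hε
  obtain ⟨C2, hC2, h2⟩ := FIN.thm' h r K ε hr hK hε
  refine ⟨C1 + C2, by positivity, ?_⟩
  intro c a₁ a₂ H₁ H₂ hc hH1 hH12 hH2
  have hH1' : 0 ≤ H₁ := by linarith
  have hH2' : 0 ≤ H₂ := by linarith
  refine ⟨?_, ?_⟩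
  · intro t ht hA
    refine (h1 c a₁ a₂ H₁ H₂ hc hH1 hH12 hH2 t ht hA).trans ?_
    have : 0 ≤ H₂ ^ (r - 1) + (H₁ * H₂) ^ r / (c : ℝ) ^ 3 * (1 + c * t ^ r) := by positivity
    refine mul_le_mul_of_nonneg_right ?_ this
    refine mul_le_mul_of_nonneg_right ?_ (by positivity)
    linarith
  · intro hR
    refine (h2 c a₁ a₂ H₁ H₂ hc hH1 hH12 hH2 hR).trans ?_
    have : 0 ≤ H₂ ^ (r - 1) + (H₁ * H₂) ^ r / (c : ℝ) ^ 3 := by positivity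
    refine mul_le_mul_of_nonneg_right ?_ this
    refine mul_le_mul_of_nonneg_right ?_ (by positivity)
    linarith

end Pool.Agent.Helper28.SP
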