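import Mathlib
import Pool.Agent.Helper56.SW.Statements

/-!
# MP_e188f1_nt, spectral range: definitions

`SZ = SL_2(ℤ)`, `SG c = SL_2(ℤ/c)`, `red c : SZ →* SG c`.
-/

set_option autoImplicit false

namespace Pool.Agent.Helper28.SP

open Finset Matrix

noncomputable section

/-- `SL_2(ℤ)` -/
abbrev SZ : Type := Matrix.SpecialLinearGroup (Fin 2) ℤ

/-- `SL_2(ℤ/c)` -/
abbrev SG (c : ℕ) : Type := Matrix.SpecialLinearGroup (Fin 2) (ZMod c)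

/-- `[[1,x],[0,1]]` -/
def Uu {R : Type} [CommRing R] (x : R) : Matrix.SpecialLinearGroup (Fin 2) R :=
  ⟨!![1, x; 0, 1], by simp [Matrix.det_fin_two_of]⟩

/-- `[[1,0],[y,1]]` -/
def Ll {R : Type} [CommRing R] (y : R) : Matrix.SpecialLinearGroup (Fin 2) R :=
  ⟨!![1, 0; y, 1], by simp [Matrix.det_fin_two_of]⟩

/-- reduction modulo `c` -/
def red (c : ℕ) : SZ →* SG c := Matrix.SpecialLinearGroup.map (Int.castRingHom (ZMod c))

/-- number of words of length `j` in the letters `u i`, `i ∈ s`, with product `g` -/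
def cnt {G ι : Type} [Group G] (s : Finset ι) (u : ι → G) : ℕ → G → ℕ
  | 0, g => by classical exact if g = 1 then 1 else 0
  | j + 1, g => ∑ i ∈ s, cnt s u j ((u i)⁻¹ * g)

/-- number of words of length `j` in the letters `w i`, `i ∈ s`, with product congruent to `g`
modulo `d` -/
def W {ι : Type} (s : Finset ι) (w : ι → SZ) (d j : ℕ) (g : SZ) : ℕ :=
  cnt s (fun i => red d (w i)) j (red d g)

/-- the family of letters is closed under inversion (with multiplicities) -/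
def Sym {G ι : Type} [Group G] (s : Finset ι) (u : ι → G) : Prop :=
  ∃ σ : ι → ι, ∀ i ∈ s, σ i ∈ s ∧ σ (σ i) = i ∧ u (σ i) = (u i)⁻¹

/-- the sum of the letters is of the form `z* z` in the group ring -/
def Pos {G ι : Type} [Group G] (s : Finset ι) (u : ι → G) : Prop :=
  ∃ (κ : Type) (t : Finset κ) (z : κ → G), ∀ f : G → ℂ,
    ∑ i ∈ s, f (u i) = ∑ x ∈ t, ∑ y ∈ t, f ((z x)⁻¹ * z y)

/-- the kernel of `SL_2(ℤ/c) → SL_2(ℤ/d)` (for `d ∣ c`) -/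
def KK (c d : ℕ) : Subgroup (SG c) := ((red d).ker).map (red c)

/-- the elements of a subgroup of a finite group -/
def Kf {G : Type} [Group G] [Finite G] (K : Subgroup G) : Finset G :=
  (Set.toFinite (K : Set G)).toFinset

theorem mem_Kf {G : Type} [Group G] [Finite G] (K : Subgroup G) (x : G) : x ∈ Kf K ↔ x ∈ K := by
  simp [Kf]

/-- left translation by `g` as a matrix: `(lam g *ᵥ f) x = f (g⁻¹ * x)` -/
def lam {G : Type} [Group G] (g : G) : Matrix G G ℂ := by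
  classical exact Matrix.of fun x y => if x = g * y then 1 else 0

/-- the sum of the letters as an operator -/
def opX {G ι : Type} [Group G] (s : Finset ι) (u : ι → G) : Matrix G G ℂ := ∑ i ∈ s, lam (u i)

/-- averaging over a subgroup -/
def EK {G : Type} [Group G] [Finite G] (K : Subgroup G) : Matrix G G ℂ :=
  ((Kf K).card : ℂ)⁻¹ • ∑ k ∈ Kf K, lam k

/-- projection to the new part at level `c` -/
def opQ (c : ℕ) [NeZero c] : Matrix (SG c) (SG c) ℂ :=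
  ∑ d ∈ c.divisors, (ArithmeticFunction.moebius (c / d) : ℂ) • EK (KK c d)

/-- functions on `SL_2(ℤ/c)` all of whose averages over the kernels of the reductions modulo the
`c/p` vanish -/
def New (c : ℕ) [NeZero c] (f : SG c → ℂ) : Prop :=
  ∀ p ∈ c.primeFactors, ∀ x : SG c, ∑ k ∈ Kf (KK c (c / p)), f (k * x) = 0

/-! ### the letters -/

/-- nonzero integers of absolute value at most `A` -/
def Hs (A : ℕ) : Finset ℤ := (Icc (-(A : ℤ)) A).erase 0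

/-- index set of the letters `L(-bk) U(ah) L(bk')`, `0 < |h| ≤ A`, `0 ≤ k, k' ≤ 2B` -/
def sM (A B : ℕ) : Finset (ℤ × ℕ × ℕ) := Hs A ×ˢ (range (2 * B + 1) ×ˢ range (2 * B + 1))

/-- the letters `L(-bk) U(ah) L(bk')` -/
def wM (a b : ℤ) (i : ℤ × ℕ × ℕ) : SZ := Ll (-(b * i.2.1)) * Uu (a * i.1) * Ll (b * i.2.2)

/-- index set of the positive family of letters -/
def sP (A B : ℕ) : Finset ((ℕ × ℕ) × (ℕ × ℕ)) :=
  (range (2 * A + 1) ×ˢ range (2 * B + 1)) ×ˢ (range (2 * A + 1) ×ˢ range (2 * B + 1))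

/-- `U(ah) L(bk)` -/
def zP (a b : ℤ) (i : ℕ × ℕ) : SZ := Uu (a * i.1) * Ll (b * i.2)

/-- the letters `L(-bk) U(a(h'-h)) L(bk')` -/
def wP (a b : ℤ) (i : (ℕ × ℕ) × (ℕ × ℕ)) : SZ := (zP a b i.1)⁻¹ * zP a b i.2

/-! ### counting functions for two and three letters -/

/-- an interval of `n` integers -/
def Iv (i : ℤ) (n : ℕ) : Finset ℤ := Ico i (i + n)

/-- `L(bx) U(ah₁) L(bk) U(ah₂) L(by)` -/
def F2 (a b h1 h2 x k y : ℤ) : SZ :=
  Ll (b * x) * Uu (a * h1) * Ll (b * k) * Uu (a * h2) * Ll (b * y)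

/-- `L(bx) U(ah₁) L(bk) U(ah₂) L(bl) U(ah₃) L(by)` -/
def F3 (a b h1 h2 h3 x k l y : ℤ) : SZ :=
  Ll (b * x) * Uu (a * h1) * Ll (b * k) * Uu (a * h2) * Ll (b * l) * Uu (a * h3) * Ll (b * y)

/-- number of pairs of equal words modulo `c`, two letters -/
def V2 (c : ℕ) (a b h1 h2 : ℤ) (n : ℕ) (i0 i1 i2 : ℤ) : ℕ := by
  classical
  exact (((Iv i0 n ×ˢ (Iv i1 n ×ˢ Iv i2 n)) ×ˢ (Iv i0 n ×ˢ (Iv i1 n ×ˢ Iv i2 n))).filter
    fun p => red c (F2 a b h1 h2 p.1.1 p.1.2.1 p.1.2.2) =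
      red c (F2 a b h1 h2 p.2.1 p.2.2.1 p.2.2.2)).card

/-- number of pairs of equal words modulo `c`, three letters -/
def V3 (c : ℕ) (a b h1 h2 h3 : ℤ) (n : ℕ) (i0 i1 i2 i3 : ℤ) : ℕ := by
  classical
  exact (((Iv i0 n ×ˢ (Iv i1 n ×ˢ (Iv i2 n ×ˢ Iv i3 n))) ×ˢ
    (Iv i0 n ×ˢ (Iv i1 n ×ˢ (Iv i2 n ×ˢ Iv i3 n)))).filter
    fun p => red c (F3 a b h1 h2 h3 p.1.1 p.1.2.1 p.1.2.2.1 p.1.2.2.2) =
      red c (F3 a b h1 h2 h3 p.2.1 p.2.2.1 p.2.2.2.1 p.2.2.2.2)).card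

/-- entry `(1,2)` of `U(x₁) L(bk) U(x₂)`, `x_i = a h_i` -/
def Xe (a b h1 h2 k : ℤ) : ℤ := a * h1 + a * h2 + a * h1 * (a * h2) * (b * k)

/-- entry `(1,1)` of `W = U(x₁) L(bk) U(x₂) L(bl) U(x₃)` -/
def W11 (a b h1 h2 k l : ℤ) : ℤ := 1 + a * h1 * (b * k) + Xe a b h1 h2 k * (b * l)

/-- entry `(2,2)` of `W` -/
def W22 (a b h2 h3 k l : ℤ) : ℤ := 1 + a * h3 * (b * l) + b * k * Xe a b h2 h3 l

/-- entry `(1,2)` of `W` -/
def m3 (a b h1 h2 h3 k l : ℤ) : ℤ := Xe a b h1 h2 k + a * h3 * W11 a b h1 h2 k l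

theorem m3_eq (a b h1 h2 h3 k l : ℤ) :
    m3 a b h1 h2 h3 k l = Xe a b h2 h3 l + a * h1 * W22 a b h2 h3 k l := by
  unfold m3 W11 W22 Xe; ring

/-- number of `(k, l, k', l')` with equal entries `(1,2)` modulo `c` -/
def En (c : ℕ) (a b h1 h2 h3 : ℤ) (n : ℕ) (i1 i2 : ℤ) : ℕ :=
  (((Iv i1 n ×ˢ Iv i2 n) ×ˢ (Iv i1 n ×ˢ Iv i2 n)).filter fun p =>
    (c : ℤ) ∣ m3 a b h1 h2 h3 p.1.1 p.1.2 - m3 a b h1 h2 h3 p.2.1 p.2.2).card

/-- the same with `gcd (m, c) = g` and congruent diagonal entries modulo `g` -/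
def Z3 (c : ℕ) (a b h1 h2 h3 : ℤ) (n : ℕ) (i1 i2 : ℤ) (g : ℕ) : ℕ :=
  (((Iv i1 n ×ˢ Iv i2 n) ×ˢ (Iv i1 n ×ˢ Iv i2 n)).filter fun p =>
    (c : ℤ) ∣ m3 a b h1 h2 h3 p.1.1 p.1.2 - m3 a b h1 h2 h3 p.2.1 p.2.2 ∧
    Int.gcd (m3 a b h1 h2 h3 p.1.1 p.1.2) c = g ∧
    (g : ℤ) ∣ W11 a b h1 h2 p.1.1 p.1.2 - W11 a b h1 h2 p.2.1 p.2.2 ∧
    (g : ℤ) ∣ W22 a b h2 h3 p.1.1 p.1.2 - W22 a b h2 h3 p.2.1 p.2.2).card

end

end Pool.Agent.Helper28.SP
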