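import Pool.Agent.Helper28.SP.St

set_option autoImplicit false

namespace Pool.Agent.Helper28.SP.Z2

open Finset Matrix
open Pool.Agent.Helper28.SP
open Pool.Agent.Helper56.SW (τ)

theorem ap {i : ℤ} {n M : ℕ} {S : Finset ℤ} (hM : 1 ≤ M) (hS : S ⊆ Iv i n)
    (h : ∀ x ∈ S, ∀ y ∈ S, (M : ℤ) ∣ x - y) : (S.card : ℝ) ≤ n / M + 1 := by
  have hMz : (0 : ℤ) < M := by exact_mod_cast hM
  have hle : S.card ≤ (range (n / M + 1)).card := by
    refine card_le_card_of_injOn (fun x => ((x - i) / M).toNat) ?_ ?_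
    · intro x hx
      have hx' := hS hx
      rw [Iv, mem_Ico] at hx'
      simp only [coe_range, Set.mem_Iio]
      have h0 : 0 ≤ (x - i) / M := Int.ediv_nonneg (by omega) hMz.le
      have h1 : (x - i) / M ≤ (n : ℤ) / M := Int.ediv_le_ediv hMz (by omega)
      have h2 : ((n : ℤ) / M) = ((n / M : ℕ) : ℤ) := by simp
      omega
    · intro x hx y hy hxy
      have hx' := hS hx
      have hy' := hS hy
      rw [Iv, mem_Ico] at hx' hy'
      simp only at hxy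
      have h0 : 0 ≤ (x - i) / M := Int.ediv_nonneg (by omega) hMz.le
      have h1 : 0 ≤ (y - i) / M := Int.ediv_nonneg (by omega) hMz.le
      have hq : (x - i) / (M : ℤ) = (y - i) / M := by omega
      have hd : (M : ℤ) ∣ (x - i) - (y - i) := by
        have := h x hx y hy
        rwa [sub_sub_sub_cancel_right]
      have hm : (x - i) % (M : ℤ) = (y - i) % M := (Int.modEq_iff_dvd.mpr hd).symm
      have e1 := Int.mul_ediv_add_emod (x - i) M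
      have e2 := Int.mul_ediv_add_emod (y - i) M
      rw [hq, hm] at e1
      linarith
  rw [card_range] at hle
  have h3 : ((n / M : ℕ) : ℝ) ≤ (n : ℝ) / M := Nat.cast_div_le
  have h4 : (S.card : ℝ) ≤ ((n / M + 1 : ℕ) : ℝ) := by exact_mod_cast hle
  push_cast at h4
  linarith

theorem quot_dvd {g : ℕ} {h z : ℤ} (hg : 1 ≤ g) (hd : (g : ℤ) ∣ h * z) :
    ((g / Int.gcd h g : ℕ) : ℤ) ∣ z := by
  have hpos : 0 < Int.gcd h g := Int.gcd_pos_of_ne_zero_right _ (by positivity)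
  have h1 : Int.gcd h g ∣ g := by
    have := Int.gcd_dvd_right h (g : ℤ)
    exact_mod_cast this
  obtain ⟨e, he⟩ := h1
  obtain ⟨f, hf⟩ : ((Int.gcd h g : ℕ) : ℤ) ∣ h := Int.gcd_dvd_left h (g : ℤ)
  have hge : g / Int.gcd h g = e := Nat.div_eq_of_eq_mul_right hpos he
  rw [hge]
  have hcop : IsCoprime (e : ℤ) f := by
    have hb : ((Int.gcd h g : ℕ) : ℤ) = h * Int.gcdA h g + (g : ℤ) * Int.gcdB h g :=
      Int.gcd_eq_gcd_ab h g
    refine ⟨Int.gcdB h g, Int.gcdA h g, ?_⟩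
    have hp : ((Int.gcd h g : ℕ) : ℤ) ≠ 0 := by exact_mod_cast hpos.ne'
    apply mul_left_cancel₀ hp
    have hgz : (g : ℤ) = ((Int.gcd h g : ℕ) : ℤ) * e := by exact_mod_cast he
    calc ((Int.gcd h g : ℕ) : ℤ) * (Int.gcdB h g * e + Int.gcdA h g * f)
        = (((Int.gcd h g : ℕ) : ℤ) * f) * Int.gcdA h g +
          (((Int.gcd h g : ℕ) : ℤ) * e) * Int.gcdB h g := by ring
      _ = h * Int.gcdA h g + (g : ℤ) * Int.gcdB h g := by rw [← hf, ← hgz]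
      _ = ((Int.gcd h g : ℕ) : ℤ) * 1 := by rw [mul_one, ← hb]
  have h2 : ((Int.gcd h g : ℕ) : ℤ) * e ∣ ((Int.gcd h g : ℕ) : ℤ) * (f * z) := by
    have hgz : (g : ℤ) = ((Int.gcd h g : ℕ) : ℤ) * e := by exact_mod_cast he
    rw [← mul_assoc, ← hf, ← hgz]
    exact hd
  have h3 : (e : ℤ) ∣ f * z :=
    (mul_dvd_mul_iff_left (by exact_mod_cast hpos.ne')).mp h2
  exact hcop.dvd_of_dvd_mul_left h3

theorem ap_gcd {i h : ℤ} {n g : ℕ} {S : Finset ℤ} (hg : 1 ≤ g) (hS : S ⊆ Iv i n)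
    (hh : ∀ x ∈ S, ∀ y ∈ S, (g : ℤ) ∣ h * (x - y)) :
    (S.card : ℝ) ≤ n * Int.gcd h g / g + 1 := by
  have hpos : 0 < Int.gcd h g := Int.gcd_pos_of_ne_zero_right _ (by positivity)
  have h1 : Int.gcd h g ∣ g := by
    have := Int.gcd_dvd_right h (g : ℤ)
    exact_mod_cast this
  have hM : 1 ≤ g / Int.gcd h g := Nat.div_pos (Nat.le_of_dvd (by omega) h1) hpos
  have := ap hM hS (fun x hx y hy => quot_dvd hg (hh x hx y hy))
  have e : ((g / Int.gcd h g : ℕ) : ℝ) = (g : ℝ) / Int.gcd h g :=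
    Nat.cast_div h1 (by exact_mod_cast hpos.ne')
  rw [e] at this
  rw [div_div_eq_mul_div] at this
  exact this

theorem cop_of_dvd {a : ℤ} {c g : ℕ} (ha : IsCoprime a (c : ℤ)) (hg : g ∣ c) :
    IsCoprime a (g : ℤ) :=
  ha.of_isCoprime_of_dvd_right (by exact_mod_cast hg)

theorem dvdX {a b h1 h2 k k' : ℤ} {g : ℕ} (ha : IsCoprime a (g : ℤ)) (hb : IsCoprime b (g : ℤ))
    (h : (g : ℤ) ∣ Xe a b h1 h2 k - Xe a b h1 h2 k') : (g : ℤ) ∣ (h1 * h2) * (k - k') := by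
  have e : Xe a b h1 h2 k - Xe a b h1 h2 k' = (a * (a * b)) * ((h1 * h2) * (k - k')) := by
    unfold Xe; ring
  rw [e] at h
  exact (IsCoprime.mul_left ha (IsCoprime.mul_left ha hb)).symm.dvd_of_dvd_mul_left h

/-- a product-like count: first coordinates and fibres -/
theorem card_two {T : Finset (ℤ × ℤ)} {α β : ℝ} (hβ : 0 ≤ β)
    (h1 : ((T.image Prod.fst).card : ℝ) ≤ α)
    (h2 : ∀ k ∈ T.image Prod.fst, (((T.filter fun p => p.1 = k).image Prod.snd).card : ℝ) ≤ β) :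
    (T.card : ℝ) ≤ α * β := by
  have e : T.card = ∑ k ∈ T.image Prod.fst, (T.filter fun p => p.1 = k).card :=
    card_eq_sum_card_image Prod.fst T
  have e2 : (T.card : ℝ) = ∑ k ∈ T.image Prod.fst, ((T.filter fun p => p.1 = k).card : ℝ) := by
    rw [e]; push_cast; rfl
  rw [e2]
  calc ∑ k ∈ T.image Prod.fst, ((T.filter fun p => p.1 = k).card : ℝ)
      ≤ ∑ k ∈ T.image Prod.fst, β := by
        refine sum_le_sum fun k hk => ?_
        have hc : (T.filter fun p => p.1 = k).card =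
            ((T.filter fun p => p.1 = k).image Prod.snd).card := by
          rw [card_image_of_injOn]
          intro p hp q hq hpq
          have hp' := (mem_filter.mp hp).2
          have hq' := (mem_filter.mp hq).2
          exact Prod.ext (hp'.trans hq'.symm) hpq
        rw [hc]
        exact h2 k hk
    _ = ((T.image Prod.fst).card : ℝ) * β := by rw [sum_const, nsmul_eq_mul]
    _ ≤ α * β := mul_le_mul_of_nonneg_right h1 hβ

/-- the words `(k, l)` for given `(k', l')` -/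
theorem inner {c : ℕ} {a b h1 h2 h3 : ℤ} {n : ℕ} {i1 i2 : ℤ} {g : ℕ} (hc : 1 ≤ c)
    (ha : IsCoprime a (c : ℤ)) (hb : IsCoprime b (c : ℤ)) (hg : g ∣ c) (q : ℤ × ℤ) :
    ((((Iv i1 n ×ˢ Iv i2 n).filter fun p =>
      (c : ℤ) ∣ m3 a b h1 h2 h3 p.1 p.2 - m3 a b h1 h2 h3 q.1 q.2 ∧
      (g : ℤ) ∣ W11 a b h1 h2 p.1 p.2 - W11 a b h1 h2 q.1 q.2).card : ℕ) : ℝ) ≤
      ((n : ℝ) * Int.gcd (h1 * h2) g / g + 1) *
        ((n : ℝ) * Int.gcd (Xe a b h1 h2 q.1) g / g + 1) := by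
  have hg1 : 1 ≤ g := Nat.pos_of_dvd_of_pos hg hc
  have hag := cop_of_dvd ha hg
  have hbg := cop_of_dvd hb hg
  set T := (Iv i1 n ×ˢ Iv i2 n).filter fun p =>
      (c : ℤ) ∣ m3 a b h1 h2 h3 p.1 p.2 - m3 a b h1 h2 h3 q.1 q.2 ∧
      (g : ℤ) ∣ W11 a b h1 h2 p.1 p.2 - W11 a b h1 h2 q.1 q.2 with hT
  have hX : ∀ p ∈ T, (g : ℤ) ∣ Xe a b h1 h2 p.1 - Xe a b h1 h2 q.1 := by
    intro p hp
    obtain ⟨-, hm, hw⟩ := mem_filter.mp hp
    have hm' : (g : ℤ) ∣ m3 a b h1 h2 h3 p.1 p.2 - m3 a b h1 h2 h3 q.1 q.2 :=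
      dvd_trans (by exact_mod_cast hg) hm
    have e : Xe a b h1 h2 p.1 - Xe a b h1 h2 q.1 =
        (m3 a b h1 h2 h3 p.1 p.2 - m3 a b h1 h2 h3 q.1 q.2) -
        (W11 a b h1 h2 p.1 p.2 - W11 a b h1 h2 q.1 q.2) * (a * h3) := by
      unfold m3; ring
    rw [e]
    exact dvd_sub hm' (Dvd.dvd.mul_right hw _)
  refine card_two (by positivity) ?_ ?_
  · refine ap_gcd hg1 (i := i1) ?_ ?_
    · intro k hk
      obtain ⟨p, hp, rfl⟩ := mem_image.mp hk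
      exact (mem_product.mp (mem_filter.mp hp).1).1
    · intro x hx y hy
      obtain ⟨p, hp, rfl⟩ := mem_image.mp hx
      obtain ⟨r, hr, rfl⟩ := mem_image.mp hy
      refine dvdX hag hbg ?_
      have := dvd_sub (hX p hp) (hX r hr)
      rwa [sub_sub_sub_cancel_right] at this
  · intro k hk
    refine ap_gcd hg1 (i := i2) ?_ ?_
    · intro l hl
      obtain ⟨p, hp, rfl⟩ := mem_image.mp hl
      exact (mem_product.mp (mem_filter.mp (mem_filter.mp hp).1).1).2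
    · intro x hx y hy
      obtain ⟨p, hp, rfl⟩ := mem_image.mp hx
      obtain ⟨r, hr, rfl⟩ := mem_image.mp hy
      obtain ⟨hpT, hpk⟩ := mem_filter.mp hp
      obtain ⟨hrT, hrk⟩ := mem_filter.mp hr
      have hp2 := (mem_filter.mp hpT).2.2
      have hr2 := (mem_filter.mp hrT).2.2
      have h3' := dvd_sub hp2 hr2
      rw [sub_sub_sub_cancel_right] at h3'
      have hXk := hX p hpT
      have e : W11 a b h1 h2 p.1 p.2 - W11 a b h1 h2 r.1 r.2 =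
          b * (Xe a b h1 h2 k * (p.2 - r.2)) := by
        rw [hpk, hrk]; unfold W11; ring
      rw [e] at h3'
      have h4 : (g : ℤ) ∣ Xe a b h1 h2 k * (p.2 - r.2) := hbg.symm.dvd_of_dvd_mul_left h3'
      rw [hpk] at hXk
      have e2 : Xe a b h1 h2 q.1 * (p.2 - r.2) = Xe a b h1 h2 k * (p.2 - r.2) -
          (Xe a b h1 h2 k - Xe a b h1 h2 q.1) * (p.2 - r.2) := by ring
      rw [e2]
      exact dvd_sub h4 (Dvd.dvd.mul_right hXk _)

theorem gcd_mul_le (h1 h2 : ℤ) {c : ℕ} (hc : 1 ≤ c) :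
    Int.gcd (h1 * h2) c ≤ Int.gcd h1 c * Int.gcd h2 c := by
  have h : Int.gcd (h1 * h2) c ∣ Int.gcd h1 c * Int.gcd h2 c := by
    have := Nat.gcd_mul_right_dvd_mul_gcd c h1.natAbs h2.natAbs
    rw [Nat.gcd_comm c, Nat.gcd_comm c, Nat.gcd_comm c] at this
    simpa [Int.gcd, Int.natAbs_mul] using this
  refine Nat.le_of_dvd (Nat.mul_pos ?_ ?_) h <;>
  exact Int.gcd_pos_of_ne_zero_right _ (by positivity)

theorem gcd_mono (h : ℤ) {c g : ℕ} (hc : 1 ≤ c) (hg : g ∣ c) : Int.gcd h g ≤ Int.gcd h c := by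
  refine Nat.le_of_dvd (Int.gcd_pos_of_ne_zero_right _ (by positivity)) ?_
  have : (Int.gcd h g : ℤ) ∣ Int.gcd h c :=
    Int.dvd_coe_gcd (Int.gcd_dvd_left h (g : ℤ))
      ((Int.gcd_dvd_right h (g : ℤ)).trans (by exact_mod_cast hg))
  exact_mod_cast this

/-- sums over the pairs `(k', l')` with `g ∣ m` -/
theorem sum_A (hZ0 : StZ0) {c : ℕ} {a b h1 h2 h3 : ℤ} {n : ℕ} {i1 i2 : ℤ} {g : ℕ} (hc : 1 ≤ c)
    (ha : IsCoprime a (c : ℤ)) (hb : IsCoprime b (c : ℤ)) (hg : g ∣ c) (Φ : ℕ → ℝ) (C : ℝ)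
    (hC : 0 ≤ C) (hΦ : ∀ δ, 0 ≤ Φ δ)
    (hb' : ∀ δ : ℕ, 1 ≤ δ → δ ∣ Int.gcd h3 g → Φ δ *
      (((n : ℝ) * Int.gcd (h1 * h2) c / δ + 1) * ((n : ℝ) * Int.gcd h3 g * δ / g + 1)) ≤ C) :
    ∑ q ∈ (Iv i1 n ×ˢ Iv i2 n).filter (fun p => (g : ℤ) ∣ m3 a b h1 h2 h3 p.1 p.2),
      Φ (Int.gcd (Xe a b h1 h2 q.1) g) ≤ τ c * C := by
  have hg1 : 1 ≤ g := Nat.pos_of_dvd_of_pos hg hc
  have hmaps : ∀ q ∈ (Iv i1 n ×ˢ Iv i2 n).filter (fun p => (g : ℤ) ∣ m3 a b h1 h2 h3 p.1 p.2),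
      Int.gcd (Xe a b h1 h2 q.1) g ∈ c.divisors := by
    intro q _
    rw [Nat.mem_divisors]
    refine ⟨?_, by omega⟩
    have : (Int.gcd (Xe a b h1 h2 q.1) g : ℤ) ∣ g := Int.gcd_dvd_right _ _
    exact dvd_trans (by exact_mod_cast this) hg
  rw [← sum_fiberwise_of_maps_to hmaps]
  calc _ ≤ ∑ δ ∈ c.divisors, C := by
        refine sum_le_sum fun δ hδ => ?_
        have hδ1 : 1 ≤ δ := Nat.pos_of_mem_divisors hδ
        have e : ∑ q ∈ ((Iv i1 n ×ˢ Iv i2 n).filter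
            (fun p => (g : ℤ) ∣ m3 a b h1 h2 h3 p.1 p.2)).filter
              (fun q => Int.gcd (Xe a b h1 h2 q.1) g = δ), Φ (Int.gcd (Xe a b h1 h2 q.1) g) =
            (((Iv i1 n ×ˢ Iv i2 n).filter fun p => (g : ℤ) ∣ m3 a b h1 h2 h3 p.1 p.2 ∧
              Int.gcd (Xe a b h1 h2 p.1) g = δ).card : ℝ) * Φ δ := by
          rw [filter_filter, sum_congr rfl (fun q hq => by rw [(mem_filter.mp hq).2.2]), sum_const,
            nsmul_eq_mul]
        rw [e]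
        obtain ⟨hne, hcard⟩ := hZ0 c a b h1 h2 h3 n i1 i2 g δ hc ha hb hg
        rcases Finset.eq_empty_or_nonempty ((Iv i1 n ×ˢ Iv i2 n).filter fun p =>
          (g : ℤ) ∣ m3 a b h1 h2 h3 p.1 p.2 ∧ Int.gcd (Xe a b h1 h2 p.1) g = δ) with h0 | h0
        · rw [h0]; simpa using hC
        · rw [mul_comm]
          exact (mul_le_mul_of_nonneg_left hcard (hΦ δ)).trans (hb' δ hδ1 (hne h0))
    _ = τ c * C := by rw [sum_const, nsmul_eq_mul]; rfl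

theorem Z3_le {c : ℕ} {a b h1 h2 h3 : ℤ} {n : ℕ} {i1 i2 : ℤ} {g : ℕ} (hg : g ∣ c) :
    (Z3 c a b h1 h2 h3 n i1 i2 g : ℝ) ≤
    ∑ q ∈ (Iv i1 n ×ˢ Iv i2 n).filter (fun p => (g : ℤ) ∣ m3 a b h1 h2 h3 p.1 p.2),
      ((((Iv i1 n ×ˢ Iv i2 n).filter fun p =>
      (c : ℤ) ∣ m3 a b h1 h2 h3 p.1 p.2 - m3 a b h1 h2 h3 q.1 q.2 ∧
      (g : ℤ) ∣ W11 a b h1 h2 p.1 p.2 - W11 a b h1 h2 q.1 q.2).card : ℕ) : ℝ) := by
  unfold Z3
  set Z := ((Iv i1 n ×ˢ Iv i2 n) ×ˢ (Iv i1 n ×ˢ Iv i2 n)).filter fun p =>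
    (c : ℤ) ∣ m3 a b h1 h2 h3 p.1.1 p.1.2 - m3 a b h1 h2 h3 p.2.1 p.2.2 ∧
    Int.gcd (m3 a b h1 h2 h3 p.1.1 p.1.2) c = g ∧
    (g : ℤ) ∣ W11 a b h1 h2 p.1.1 p.1.2 - W11 a b h1 h2 p.2.1 p.2.2 ∧
    (g : ℤ) ∣ W22 a b h2 h3 p.1.1 p.1.2 - W22 a b h2 h3 p.2.1 p.2.2 with hZ
  have hm : ∀ p ∈ Z, p.2 ∈ (Iv i1 n ×ˢ Iv i2 n).filter
      (fun p => (g : ℤ) ∣ m3 a b h1 h2 h3 p.1 p.2) := by
    intro p hp
    obtain ⟨hp1, hc1, hc2, -⟩ := mem_filter.mp hp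
    refine mem_filter.mpr ⟨(mem_product.mp hp1).2, ?_⟩
    have h1' : (g : ℤ) ∣ m3 a b h1 h2 h3 p.1.1 p.1.2 := by
      rw [← hc2]; exact Int.gcd_dvd_left _ _
    have h2' : (g : ℤ) ∣ m3 a b h1 h2 h3 p.1.1 p.1.2 - m3 a b h1 h2 h3 p.2.1 p.2.2 :=
      dvd_trans (by exact_mod_cast hg) hc1
    have := dvd_sub h1' h2'
    rwa [sub_sub_cancel] at this
  have e := card_eq_sum_card_fiberwise (f := Prod.snd) (s := Z) (fun p hp => hm p hp)
  rw [e]
  push_cast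
  refine sum_le_sum fun q _ => ?_
  have : (Z.filter fun p => p.2 = q).card ≤ ((Iv i1 n ×ˢ Iv i2 n).filter fun p =>
      (c : ℤ) ∣ m3 a b h1 h2 h3 p.1 p.2 - m3 a b h1 h2 h3 q.1 q.2 ∧
      (g : ℤ) ∣ W11 a b h1 h2 p.1 p.2 - W11 a b h1 h2 q.1 q.2).card := by
    refine card_le_card_of_injOn Prod.fst ?_ ?_
    · intro p hp
      obtain ⟨hpZ, hpq⟩ := mem_filter.mp hp
      obtain ⟨hp1, hc1, -, hc3, -⟩ := mem_filter.mp hpZ
      rw [← hpq]
      exact mem_coe.mpr (mem_filter.mpr ⟨(mem_product.mp hp1).1, hc1, hc3⟩)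
    · intro p hp r hr hpr
      have hp' := (mem_filter.mp hp).2
      have hr' := (mem_filter.mp hr).2
      exact Prod.ext hpr (hp'.trans hr'.symm)
  exact_mod_cast this

theorem arith {n G e δ g : ℝ} (hn : 1 ≤ n) (hG : 1 ≤ G) (he : e ≤ n) (hδ : 1 ≤ δ) (hδe : δ ≤ e)
    (hg : n ≤ g) : 4 * G * δ * ((n * G / δ + 1) * (n * e * δ / g + 1)) ≤
      16 * (n * (G * e) ^ 2) := by
  have hg0 : 0 < g := by linarith
  have hδ0 : 0 < δ := by linarith
  have he1 : 1 ≤ e := by linarith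
  have h1 : n * e * δ / g ≤ e * δ := by
    rw [div_le_iff₀ hg0]
    have : 0 ≤ e * δ := by positivity
    nlinarith
  have h2 : δ * (n * G / δ + 1) = n * G + δ := by field_simp
  have h3 : 4 * G * δ * ((n * G / δ + 1) * (n * e * δ / g + 1)) =
      4 * G * ((n * G + δ) * (n * e * δ / g + 1)) := by rw [← h2]; ring
  rw [h3]
  have h4 : (n * G + δ) * (n * e * δ / g + 1) ≤ (n * G + δ) * (e * δ + 1) :=
    mul_le_mul_of_nonneg_left (by linarith) (by positivity)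
  have hnG : n ≤ n * G := by nlinarith
  have h5 : n * G + δ ≤ 2 * (n * G) := by linarith
  have h6 : e * δ + 1 ≤ 2 * e ^ 2 := by nlinarith
  have h7 : (n * G + δ) * (e * δ + 1) ≤ 2 * (n * G) * (2 * e ^ 2) :=
    mul_le_mul h5 h6 (by positivity) (by positivity)
  have h8 := mul_le_mul_of_nonneg_left (h4.trans h7) (by positivity : (0 : ℝ) ≤ 4 * G)
  calc 4 * G * ((n * G + δ) * (n * e * δ / g + 1)) ≤ 4 * G * (2 * (n * G) * (2 * e ^ 2)) := h8
    _ = 16 * (n * (G * e) ^ 2) := by ring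

theorem thm (h : StZ0) : StZ2 := by
  intro c a b h1 h2 h3 n i1 i2 g hc ha hb hn hnc hg hng h3n
  have hg1 : 1 ≤ g := by omega
  set G : ℝ := (Int.gcd (h1 * h2) c : ℝ) with hGdef
  set Γ : ℝ := (Int.gcd h1 c : ℝ) * Int.gcd h2 c with hΓdef
  have hG1 : 1 ≤ G := by
    have : 0 < Int.gcd (h1 * h2) c := Int.gcd_pos_of_ne_zero_right _ (by positivity)
    rw [hGdef]; exact_mod_cast this
  have hGΓ : G ≤ Γ := by
    rw [hGdef, hΓdef]; exact_mod_cast gcd_mul_le h1 h2 hc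
  have he1 : (1 : ℝ) ≤ (Int.gcd h3 g : ℝ) := by
    have : 0 < Int.gcd h3 g := Int.gcd_pos_of_ne_zero_right _ (by positivity)
    exact_mod_cast this
  have heg : (Int.gcd h3 g : ℝ) ≤ (Int.gcd h3 c : ℝ) := by exact_mod_cast gcd_mono h3 hc hg
  have hen : (Int.gcd h3 g : ℝ) ≤ n := heg.trans (by exact_mod_cast h3n)
  have hn1 : (1 : ℝ) ≤ n := by exact_mod_cast hn
  have hngR : (n : ℝ) ≤ g := by exact_mod_cast hng.le
  have hg0 : (0 : ℝ) < g := by linarith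
  have hA := sum_A h (i1 := i1) (i2 := i2) (n := n) (h1 := h1) (h2 := h2) (h3 := h3) hc ha hb hg
    (fun δ => 4 * G * δ) (16 * (n * (G * Int.gcd h3 g) ^ 2)) (by positivity)
    (fun δ => by positivity) (fun δ hδ hδe => by
      have hδe' : (δ : ℝ) ≤ Int.gcd h3 g := by
        exact_mod_cast Nat.le_of_dvd (by exact_mod_cast he1) hδe
      exact arith hn1 hG1 hen (by exact_mod_cast hδ) hδe' hngR)
  have hτ : 0 ≤ τ c := by unfold τ; positivity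
  calc (Z3 c a b h1 h2 h3 n i1 i2 g : ℝ) ≤ _ := Z3_le hg
    _ ≤ ∑ q ∈ (Iv i1 n ×ˢ Iv i2 n).filter (fun p => (g : ℤ) ∣ m3 a b h1 h2 h3 p.1 p.2),
        4 * G * (Int.gcd (Xe a b h1 h2 q.1) g : ℝ) := by
        refine sum_le_sum fun q _ => ?_
        refine (inner hc ha hb hg q).trans ?_
        have hδ1 : (1 : ℝ) ≤ (Int.gcd (Xe a b h1 h2 q.1) g : ℝ) := by
          have : 0 < Int.gcd (Xe a b h1 h2 q.1) g :=
            Int.gcd_pos_of_ne_zero_right _ (by positivity)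
          exact_mod_cast this
        have hGg : (Int.gcd (h1 * h2) g : ℝ) ≤ G := by
          rw [hGdef]; exact_mod_cast gcd_mono (h1 * h2) hc hg
        have b1 : (n : ℝ) * Int.gcd (h1 * h2) g / g ≤ G := by
          rw [div_le_iff₀ hg0, mul_comm]
          exact mul_le_mul hGg hngR (by positivity) (by linarith)
        have b2 : (n : ℝ) * Int.gcd (Xe a b h1 h2 q.1) g / g ≤ Int.gcd (Xe a b h1 h2 q.1) g := by
          rw [div_le_iff₀ hg0, mul_comm]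
          exact mul_le_mul_of_nonneg_left hngR (by positivity)
        calc _ ≤ (G + G) * ((Int.gcd (Xe a b h1 h2 q.1) g : ℝ) + Int.gcd (Xe a b h1 h2 q.1) g) :=
              mul_le_mul (by linarith) (by linarith) (by positivity) (by linarith)
          _ = _ := by ring
    _ ≤ τ c * (16 * (n * (G * Int.gcd h3 g) ^ 2)) := hA
    _ ≤ 36 * τ c * (n : ℝ) * (Γ * Int.gcd h3 c) ^ 2 := by
        have k1 : G * Int.gcd h3 g ≤ Γ * Int.gcd h3 c :=
          mul_le_mul hGΓ heg (by linarith) (by linarith)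
        have k2 : (G * Int.gcd h3 g) ^ 2 ≤ (Γ * Int.gcd h3 c) ^ 2 :=
          pow_le_pow_left₀ (by positivity) k1 2
        have k3 : 0 ≤ τ c * n := by positivity
        have k4 : 0 ≤ (Γ * Int.gcd h3 c) ^ 2 := by positivity
        nlinarith [mul_le_mul_of_nonneg_left k2 k3, mul_nonneg k3 k4]

end Pool.Agent.Helper28.SP.Z2
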